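import Mathlib

/-!
# MP_b197b4_nt, project K1: definitions

`F` is a field of algebraic functions of two variables over the field `k`; curves and places are
valuation subrings.
-/

set_option autoImplicit false

namespace Pool.Agent.Lib.MP_b197b4_ntK

open IsLocalRing

section Val

variable {K : Type} [Field K]

/-- `x = π ^ n u`, `π` a generator of the maximal ideal and `u` a unit of `V`. -/
def HasOrd (V : ValuationSubring K) (x : K) (n : ℤ) : Prop :=
  ∃ (π : V) (u : Vˣ), Irreducible π ∧ x = (π : K) ^ n * ((u : V) : K)

open Classical in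
/-- The order of `x` with respect to the discrete valuation ring `V`. -/
noncomputable def ord (V : ValuationSubring K) (x : K) : ℤ :=
  if h : ∃ n, HasOrd V x n then h.choose else 0

open Classical in
/-- The residue class of `x ∈ V` (`0` if `x ∉ V`). -/
noncomputable def res (V : ValuationSubring K) (x : K) : ResidueField V :=
  if h : x ∈ V then residue V ⟨x, h⟩ else 0

/-- The tame symbol `(-1)^(v(f) v(g)) f^v(g) / g^v(f)`. -/
noncomputable def tame (V : ValuationSubring K) (f g : K) : ResidueField V :=
  res V ((-1) ^ (ord V f * ord V g) * f ^ ord V g / g ^ ord V f)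

end Val

variable (k : Type) {F : Type} [Field k] [Field F] [Algebra k F]

/-- `V` contains the constants. -/
def Over (V : ValuationSubring F) : Prop := ∀ c : k, algebraMap k F c ∈ V

/-- `W` is a place of the residue field of `V`, trivial on the constants. -/
def IsPlace (V : ValuationSubring F) (W : ValuationSubring (ResidueField V)) : Prop :=
  IsDiscreteValuationRing W ∧ ∀ c : k, res V (algebraMap k F c) ∈ W

variable {k}

/-- An affine chart: `A` is a regular affine domain of dimension two with field of fractions `F`. -/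
structure Chart (A : Subalgebra k F) : Prop where
  fg : A.FG
  frac : IsFractionRing A F
  regular : IsRegularRing A
  height : ∀ m : Ideal A, m.IsMaximal → m.height = 2

/-- The local ring of `A` at the centre of `V`. -/
def locAt (A : Subalgebra k F) (V : ValuationSubring F) : Set F :=
  {x | ∃ a s : F, a ∈ A ∧ s ∈ A ∧ V.valuation s = 1 ∧ x = a / s}

/-- `V` is the local ring of `A` at a prime ideal of height one, that is the local ring of a curve
on `Spec A`. -/
def IsCurve (A : Subalgebra k F) (V : ValuationSubring F) : Prop :=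
  IsDiscreteValuationRing V ∧ (∀ a ∈ A, a ∈ V) ∧ ∀ x ∈ V, x ∈ locAt A V

/-- The place `W` of the curve `V` lies over the closed point `m` of `Spec A`. -/
def Center (A : Subalgebra k F) (V : ValuationSubring F) (W : ValuationSubring (ResidueField V))
    (m : Ideal A) : Prop :=
  ∀ a : A, (a : F) ∈ V ∧ res V a ∈ W ∧ (a ∈ m ↔ W.valuation (res V a) < 1)

/-- The local ring of the curve `V` at the centre of `W` is `W`, that is this point is a regular
point of the curve. -/
def RegAt (A : Subalgebra k F) (V : ValuationSubring F) (W : ValuationSubring (ResidueField V)) :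
    Prop :=
  ∀ y ∈ W, ∃ a s : F, a ∈ A ∧ s ∈ A ∧ W.valuation (res V s) = 1 ∧ y = res V a / res V s

/-- A family of additive forms `l V` on the multiplicative groups of the residue fields of the
divisors `V ∈ D` which kills all tame symbols. -/
structure Forms (k : Type) {F : Type} [Field k] [Field F] [Algebra k F]
    (D : Set (ValuationSubring F)) (l : ∀ V : ValuationSubring F, ResidueField V → ℚ) : Prop where
  disc : ∀ V ∈ D, IsDiscreteValuationRing V
  base : ∀ V ∈ D, Over k V
  finite : ∀ f : F, f ≠ 0 → {V | V ∈ D ∧ ord V f ≠ 0}.Finite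
  mul : ∀ V ∈ D, ∀ a b : ResidueField V, a ≠ 0 → b ≠ 0 → l V (a * b) = l V a + l V b
  recip : ∀ f g : F, f ≠ 0 → g ≠ 0 → ∑ᶠ (V) (_ : V ∈ D), l V (tame V f g) = 0

/-- The form of the curve `V` is given by the function `hV` on its places. -/
def Given (k : Type) {F : Type} [Field k] [Field F] [Algebra k F]
    (l : ∀ V : ValuationSubring F, ResidueField V → ℚ) (V : ValuationSubring F)
    (hV : ValuationSubring (ResidueField V) → ℚ) : Prop :=
  ∀ c : ResidueField V, c ≠ 0 → l V c = ∑ᶠ (W) (_ : IsPlace k V W), hV W * ord W c

/-- LOCAL THEOREM at the regular points of the curves. -/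
def LTreg (k : Type) [Field k] : Prop :=
  ∀ (F : Type) [Field F] [Algebra k F] (D : Set (ValuationSubring F))
    (l : ∀ V : ValuationSubring F, ResidueField V → ℚ), Forms k D l →
    ∀ A : Subalgebra k F, Chart A → (∀ V, IsCurve A V → V ∈ D) →
    ∃ h : Ideal A → ℚ, ∀ V, IsCurve A V → ∃ hV, Given k l V hV ∧
      ∀ W m, IsPlace k V W → m.IsMaximal → Center A V W m → RegAt A V W → hV W = h m

/-- LOCAL THEOREM at all points. -/
def LTfull (k : Type) [Field k] : Prop :=
  ∀ (F : Type) [Field F] [Algebra k F] (D : Set (ValuationSubring F))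
    (l : ∀ V : ValuationSubring F, ResidueField V → ℚ), Forms k D l →
    ∀ A : Subalgebra k F, Chart A → (∀ V, IsCurve A V → V ∈ D) →
    ∃ h : Ideal A → ℚ, ∀ V, IsCurve A V → ∃ hV, Given k l V hV ∧
      ∀ W m, IsPlace k V W → m.IsMaximal → Center A V W m → hV W = h m

/-- A regular projective (or proper) surface: finitely many charts such that every valuation ring
of `F` over `k` has exactly one centre. -/
structure Model (M : Set (Subalgebra k F)) : Prop where
  finite : M.Finite
  chart : ∀ A ∈ M, Chart A
  complete : ∀ V : ValuationSubring F, Over k V → ∃ A ∈ M, ∀ a ∈ A, a ∈ V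
  separated : ∀ V : ValuationSubring F, ∀ A ∈ M, ∀ B ∈ M, (∀ a ∈ A, a ∈ V) → (∀ b ∈ B, b ∈ V) →
    locAt A V = locAt B V

/-- The curves of the model. -/
def Curves (M : Set (Subalgebra k F)) : Set (ValuationSubring F) := {V | ∃ A ∈ M, IsCurve A V}

/-- A cycle of the Gersten complex: nonzero functions `a V` on finitely many curves `V` such that
the sum of their divisors is zero. -/
structure Cycle (M : Set (Subalgebra k F)) (a : ∀ V : ValuationSubring F, ResidueField V) :
    Prop where
  ne : ∀ V ∈ Curves M, a V ≠ 0
  finite : {V | V ∈ Curves M ∧ a V ≠ 1}.Finite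
  div : ∀ A ∈ M, ∀ m : Ideal A, m.IsMaximal →
    ∑ᶠ (V) (_ : V ∈ Curves M), ∑ᶠ (W) (_ : IsPlace k V W ∧ Center A V W m), ord W (a V) = 0

/-- `K_1` of regular complete surfaces over `k` is torsion (homology of the Gersten complex). -/
def K1Torsion (k : Type) [Field k] : Prop :=
  ∀ (F : Type) [Field F] [Algebra k F] (M : Set (Subalgebra k F)), Model M →
    ∀ a : ∀ V : ValuationSubring F, ResidueField V, Cycle M a →
    ∃ N : ℕ, 0 < N ∧ ∃ s : List (F × F), (∀ q ∈ s, q.1 ≠ 0 ∧ q.2 ≠ 0) ∧
      ∀ V ∈ Curves M, a V ^ N = (s.map fun q => tame V q.1 q.2).prod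

end Pool.Agent.Lib.MP_b197b4_ntK
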