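import Mathlib
import Pool.Agent.Lib.MP_b197b4_ntK.Defs

/-!
# MP_b197b4_nt, project K1: orders, residues and tame symbols of one discrete valuation ring
-/

set_option autoImplicit false

namespace Pool.Agent.Lib.MP_b197b4_ntK

open IsLocalRing

section Val

variable {K : Type} [Field K]

theorem val_irr_lt {V : ValuationSubring K} {p : V} (hp : Irreducible p) :
    V.valuation (p : K) < 1 :=
  (ValuationSubring.valuation_lt_one_iff V p).1 ((mem_maximalIdeal _).2 hp.not_isUnit)

theorem unit_coe_mul_inv {V : ValuationSubring K} (u : Vˣ) :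
    ((u : V) : K) * (((u⁻¹ : Vˣ) : V) : K) = 1 := by
  have h : (u : V) * ((u⁻¹ : Vˣ) : V) = 1 := u.mul_inv
  exact congrArg (Subtype.val : V → K) h

theorem unit_coe_zpow {V : ValuationSubring K} (w : Vˣ) (z : ℤ) :
    (((w ^ z : Vˣ) : V) : K) = ((w : V) : K) ^ z := by
  have e := map_zpow (Units.map (V.subtype : V →* K)) w z
  have e2 := congrArg (Units.val : Kˣ → K) e
  rw [Units.val_zpow_eq_zpow_val] at e2
  exact e2

theorem hasOrd_unique {V : ValuationSubring K} {x : K} {m n : ℤ}
    (hm : HasOrd V x m) (hn : HasOrd V x n) : m = n := by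
  obtain ⟨p, u, hp, hx⟩ := hm
  obtain ⟨q, w, hq, hy⟩ := hn
  have hp0 : (p : K) ≠ 0 := fun h => hp.ne_zero (Subtype.ext h)
  have hq0 : (q : K) ≠ 0 := fun h => hq.ne_zero (Subtype.ext h)
  have hvp : V.valuation (p : K) < 1 := val_irr_lt hp
  have hvq : V.valuation (q : K) < 1 := val_irr_lt hq
  have hu : V.valuation ((u : V) : K) = 1 := (ValuationSubring.valuation_eq_one_iff V _).1 u.isUnit
  have hw : V.valuation ((w : V) : K) = 1 := (ValuationSubring.valuation_eq_one_iff V _).1 w.isUnit
  -- `p` and `q` have the same valuation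
  have key : ∀ (a b : V), Irreducible a → Irreducible b → V.valuation (a : K) ≤ V.valuation (b : K) := by
    intro a b ha hb
    by_contra hlt
    push Not at hlt
    have ha0 : (a : K) ≠ 0 := fun h => ha.ne_zero (Subtype.ext h)
    have hmem : (b : K) / a ∈ V := by
      rw [← ValuationSubring.valuation_le_one_iff, map_div₀]
      exact div_le_one_of_le₀ hlt.le zero_le
    have hba : b = a * ⟨(b : K) / a, hmem⟩ := by
      apply Subtype.ext
      push_cast
      field_simp
    rcases hb.isUnit_or_isUnit hba with h | h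
    · exact ha.not_isUnit h
    · have := (ValuationSubring.valuation_eq_one_iff V _).1 h
      simp only [map_div₀] at this
      have ha1 : V.valuation (a : K) ≠ 0 := by simpa using ha0
      rw [div_eq_one_iff_eq ha1] at this
      exact absurd this hlt.ne
  have hpq : V.valuation (p : K) = V.valuation (q : K) := le_antisymm (key p q hp hq) (key q p hq hp)
  have e1 : V.valuation x = V.valuation (p : K) ^ m := by
    rw [hx, map_mul, map_zpow₀, hu, mul_one]
  have e2 : V.valuation x = V.valuation (p : K) ^ n := by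
    rw [hy, map_mul, map_zpow₀, hw, mul_one, hpq]
  have h0 : 0 < V.valuation (p : K) := by
    rw [Valuation.pos_iff]; exact hp0
  exact (zpow_right_strictAnti₀ h0 hvp).injective (e1.symm.trans e2)

theorem hasOrd_exists {V : ValuationSubring K} (hV : IsDiscreteValuationRing V) {x : K}
    (hx : x ≠ 0) : ∃ n, HasOrd V x n := by
  obtain ⟨p, hp⟩ := IsDiscreteValuationRing.exists_irreducible V
  have hp0 : (p : K) ≠ 0 := fun h => hp.ne_zero (Subtype.ext h)
  rcases V.mem_or_inv_mem x with h | h
  · obtain ⟨n, u, hu⟩ := IsDiscreteValuationRing.eq_unit_mul_pow_irreducible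
      (x := (⟨x, h⟩ : V)) (fun h0 => hx (congrArg Subtype.val h0)) hp
    refine ⟨n, p, u, hp, ?_⟩
    have := congrArg (Subtype.val : V → K) hu
    push_cast at this ⊢
    rw [zpow_natCast, this]
    ring
  · obtain ⟨n, u, hu⟩ := IsDiscreteValuationRing.eq_unit_mul_pow_irreducible
      (x := (⟨x⁻¹, h⟩ : V)) (fun h0 => hx (inv_eq_zero.1 (congrArg Subtype.val h0))) hp
    refine ⟨-n, p, u⁻¹, hp, ?_⟩
    have h1 := congrArg (Subtype.val : V → K) hu
    push_cast at h1
    have hu0 : ((u : V) : K) * (((u⁻¹ : Vˣ) : V) : K) = 1 := unit_coe_mul_inv u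
    have hun : ((u : V) : K) ≠ 0 := left_ne_zero_of_mul_eq_one hu0
    have : x = ((p : K) ^ n)⁻¹ * (((u : V) : K))⁻¹ := by
      rw [← inv_inv x, h1, mul_inv, mul_comm]
    rw [this, zpow_neg, zpow_natCast, eq_inv_of_mul_eq_one_right hu0]

theorem hasOrd_ord {V : ValuationSubring K} (hV : IsDiscreteValuationRing V) {x : K}
    (hx : x ≠ 0) : HasOrd V x (ord V x) := by
  have h := hasOrd_exists hV hx
  unfold ord
  rw [dif_pos h]
  exact h.choose_spec

theorem ord_eq {V : ValuationSubring K} {x : K} {n : ℤ}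
    (h : HasOrd V x n) : ord V x = n := by
  have h1 : ∃ n, HasOrd V x n := ⟨n, h⟩
  unfold ord
  rw [dif_pos h1]
  exact hasOrd_unique h1.choose_spec h

/-- With respect to a fixed uniformiser. -/
theorem exists_unit_of_ord {V : ValuationSubring K} (hV : IsDiscreteValuationRing V)
    {p : V} (hp : Irreducible p) {x : K} (hx : x ≠ 0) :
    ∃ u : Vˣ, x = (p : K) ^ (ord V x) * ((u : V) : K) := by
  obtain ⟨q, u, hq, h⟩ := hasOrd_ord hV hx
  obtain ⟨w, hw⟩ := (IsDiscreteValuationRing.associated_of_irreducible V hp hq)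
  refine ⟨w ^ (ord V x) * u, ?_⟩
  conv_lhs => rw [h]
  have h2 : (q : K) = (p : K) * ((w : V) : K) := by
    rw [← hw]; push_cast; rfl
  have h3 : (((w ^ (ord V x) * u : Vˣ) : V) : K) = ((w : V) : K) ^ (ord V x) * ((u : V) : K) := by
    rw [← unit_coe_zpow]
    push_cast
    rfl
  rw [h3, h2, mul_zpow]
  ring

theorem hasOrd_of_unit {V : ValuationSubring K} {p : V} (hp : Irreducible p) {x : K} (n : ℤ)
    (u : Vˣ) (h : x = (p : K) ^ n * ((u : V) : K)) : HasOrd V x n := ⟨p, u, hp, h⟩

theorem ord_mul {V : ValuationSubring K} (hV : IsDiscreteValuationRing V) {x y : K}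
    (hx : x ≠ 0) (hy : y ≠ 0) : ord V (x * y) = ord V x + ord V y := by
  obtain ⟨p, hp⟩ := IsDiscreteValuationRing.exists_irreducible V
  have hp0 : (p : K) ≠ 0 := fun h => hp.ne_zero (Subtype.ext h)
  obtain ⟨u, hu⟩ := exists_unit_of_ord hV hp hx
  obtain ⟨w, hw⟩ := exists_unit_of_ord hV hp hy
  apply ord_eq
  refine ⟨p, u * w, hp, ?_⟩
  conv_lhs => rw [hu, hw]
  rw [zpow_add₀ hp0]
  push_cast
  ring

theorem ord_one (V : ValuationSubring K) (hV : IsDiscreteValuationRing V) : ord V (1 : K) = 0 := by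
  obtain ⟨p, hp⟩ := IsDiscreteValuationRing.exists_irreducible V
  exact ord_eq ⟨p, 1, hp, by simp⟩

theorem ord_inv {V : ValuationSubring K} (hV : IsDiscreteValuationRing V) {x : K}
    (hx : x ≠ 0) : ord V x⁻¹ = - ord V x := by
  have := ord_mul hV hx (inv_ne_zero hx)
  rw [mul_inv_cancel₀ hx, ord_one V hV] at this
  omega

theorem ord_div {V : ValuationSubring K} (hV : IsDiscreteValuationRing V) {x y : K}
    (hx : x ≠ 0) (hy : y ≠ 0) : ord V (x / y) = ord V x - ord V y := by
  rw [div_eq_mul_inv, ord_mul hV hx (inv_ne_zero hy), ord_inv hV hy]; ring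

theorem ord_pow {V : ValuationSubring K} (hV : IsDiscreteValuationRing V) {x : K}
    (hx : x ≠ 0) (n : ℕ) : ord V (x ^ n) = n * ord V x := by
  induction n with
  | zero => simp [ord_one V hV]
  | succ n ih => rw [pow_succ, ord_mul hV (pow_ne_zero _ hx) hx, ih]; push_cast; ring

theorem ord_zpow {V : ValuationSubring K} (hV : IsDiscreteValuationRing V) {x : K}
    (hx : x ≠ 0) (n : ℤ) : ord V (x ^ n) = n * ord V x := by
  cases n with
  | ofNat n => simpa using ord_pow hV hx n
  | negSucc n =>
    rw [zpow_negSucc, ord_inv hV (pow_ne_zero _ hx), ord_pow hV hx, Int.negSucc_eq]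
    push_cast; ring

/-- Order zero means unit. -/
theorem ord_eq_zero_iff {V : ValuationSubring K} (hV : IsDiscreteValuationRing V) {x : K}
    (hx : x ≠ 0) : ord V x = 0 ↔ V.valuation x = 1 := by
  obtain ⟨p, hp⟩ := IsDiscreteValuationRing.exists_irreducible V
  have hp0 : (p : K) ≠ 0 := fun h => hp.ne_zero (Subtype.ext h)
  obtain ⟨u, hu⟩ := exists_unit_of_ord hV hp hx
  have hvu : V.valuation ((u : V) : K) = 1 := (ValuationSubring.valuation_eq_one_iff V _).1 u.isUnit
  have hvp : V.valuation (p : K) < 1 := val_irr_lt hp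
  have h0 : 0 < V.valuation (p : K) := by
    rw [Valuation.pos_iff]; exact hp0
  constructor
  · intro h
    rw [hu, h]; simp [hvu]
  · intro h
    have h2 : V.valuation (p : K) ^ (ord V x) = V.valuation (p : K) ^ (0 : ℤ) := by
      rw [zpow_zero, ← h]
      conv_rhs => rw [hu]
      rw [map_mul, map_zpow₀, hvu, mul_one]
    exact (zpow_right_strictAnti₀ h0 hvp).injective h2

theorem ord_nonneg_iff {V : ValuationSubring K} (hV : IsDiscreteValuationRing V) {x : K}
    (hx : x ≠ 0) : 0 ≤ ord V x ↔ x ∈ V := by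
  obtain ⟨p, hp⟩ := IsDiscreteValuationRing.exists_irreducible V
  have hp0 : (p : K) ≠ 0 := fun h => hp.ne_zero (Subtype.ext h)
  obtain ⟨u, hu⟩ := exists_unit_of_ord hV hp hx
  have hvu : V.valuation ((u : V) : K) = 1 := (ValuationSubring.valuation_eq_one_iff V _).1 u.isUnit
  have hvp : V.valuation (p : K) < 1 := val_irr_lt hp
  have h0 : 0 < V.valuation (p : K) := by
    rw [Valuation.pos_iff]; exact hp0
  have hval : V.valuation x = V.valuation (p : K) ^ (ord V x) := by
    conv_lhs => rw [hu]
    rw [map_mul, map_zpow₀, hvu, mul_one]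
  rw [← ValuationSubring.valuation_le_one_iff, hval, ← zpow_zero (V.valuation (p : K)),
    (zpow_right_strictAnti₀ h0 hvp).le_iff_ge]

theorem ord_pos_iff {V : ValuationSubring K} (hV : IsDiscreteValuationRing V) {x : K}
    (hx : x ≠ 0) : 0 < ord V x ↔ V.valuation x < 1 := by
  constructor
  · intro h
    refine lt_of_le_of_ne ?_ ?_
    · exact (ValuationSubring.valuation_le_one_iff V x).2 ((ord_nonneg_iff hV hx).1 h.le)
    · intro h1
      rw [(ord_eq_zero_iff hV hx).2 h1] at h
      exact lt_irrefl _ h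
  · intro h
    refine lt_of_le_of_ne ?_ ?_
    · exact (ord_nonneg_iff hV hx).2 ((ValuationSubring.valuation_le_one_iff V x).1 h.le)
    · intro h1
      rw [(ord_eq_zero_iff hV hx).1 h1.symm] at h
      exact lt_irrefl _ h

theorem res_of_mem {V : ValuationSubring K} {x : K} (h : x ∈ V) :
    res V x = residue V ⟨x, h⟩ := by
  unfold res
  rw [dif_pos h]

@[simp] theorem res_coe {V : ValuationSubring K} (x : V) : res V (x : K) = residue V x := by
  rw [res_of_mem x.2]

@[simp] theorem res_one (V : ValuationSubring K) : res V (1 : K) = 1 := by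
  have := res_coe (V := V) 1
  simpa using this

@[simp] theorem res_zero (V : ValuationSubring K) : res V (0 : K) = 0 := by
  have := res_coe (V := V) 0
  simpa using this

theorem res_mul {V : ValuationSubring K} {x y : K} (hx : x ∈ V) (hy : y ∈ V) :
    res V (x * y) = res V x * res V y := by
  rw [res_of_mem hx, res_of_mem hy, res_of_mem (mul_mem hx hy), ← map_mul]
  rfl

theorem res_add {V : ValuationSubring K} {x y : K} (hx : x ∈ V) (hy : y ∈ V) :
    res V (x + y) = res V x + res V y := by
  rw [res_of_mem hx, res_of_mem hy, res_of_mem (add_mem hx hy), ← map_add]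
  rfl

theorem res_neg {V : ValuationSubring K} {x : K} (hx : x ∈ V) :
    res V (-x) = - res V x := by
  rw [res_of_mem hx, res_of_mem (neg_mem hx), ← map_neg]
  rfl

theorem res_sub {V : ValuationSubring K} {x y : K} (hx : x ∈ V) (hy : y ∈ V) :
    res V (x - y) = res V x - res V y := by
  rw [res_of_mem hx, res_of_mem hy, res_of_mem (sub_mem hx hy), ← map_sub]
  rfl

theorem res_pow {V : ValuationSubring K} {x : K} (hx : x ∈ V) (n : ℕ) :
    res V (x ^ n) = res V x ^ n := by
  rw [res_of_mem hx, res_of_mem (pow_mem hx n), ← map_pow]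
  rfl

theorem res_ne_zero_iff {V : ValuationSubring K} {x : K} (hx : x ∈ V) :
    res V x ≠ 0 ↔ V.valuation x = 1 := by
  rw [res_of_mem hx, ne_eq, residue_eq_zero_iff, mem_maximalIdeal, mem_nonunits_iff, not_not,
    ValuationSubring.valuation_eq_one_iff]

theorem res_eq_zero_iff {V : ValuationSubring K} {x : K} (hx : x ∈ V) :
    res V x = 0 ↔ V.valuation x < 1 := by
  have h1 := (ValuationSubring.valuation_le_one_iff V x).2 hx
  have h2 := (res_ne_zero_iff hx)
  constructor
  · intro h
    refine lt_of_le_of_ne h1 fun h3 => (h2.2 h3) h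
  · intro h
    by_contra h3
    exact h.ne (h2.1 h3)

theorem mem_of_val_one {V : ValuationSubring K} {x : K} (h : V.valuation x = 1) : x ∈ V :=
  (ValuationSubring.valuation_le_one_iff V x).1 h.le

theorem res_surj (V : ValuationSubring K) (c : ResidueField V) : ∃ x ∈ V, res V x = c := by
  obtain ⟨x, hx⟩ := residue_surjective (R := V) c
  exact ⟨x, x.2, by rw [res_coe, hx]⟩

theorem res_surj_unit (V : ValuationSubring K) {c : ResidueField V} (hc : c ≠ 0) :
    ∃ x, V.valuation x = 1 ∧ res V x = c := by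
  obtain ⟨x, hx, h⟩ := res_surj V c
  exact ⟨x, (res_ne_zero_iff hx).1 (by rw [h]; exact hc), h⟩

theorem res_inv {V : ValuationSubring K} {x : K} (h : V.valuation x = 1) :
    res V x⁻¹ = (res V x)⁻¹ := by
  have hx0 : x ≠ 0 := by
    rintro rfl
    simp at h
  have h1 : V.valuation x⁻¹ = 1 := by rw [map_inv₀, h, inv_one]
  have h2 := res_mul (mem_of_val_one h) (mem_of_val_one h1)
  rw [mul_inv_cancel₀ hx0, res_one] at h2
  exact eq_inv_of_mul_eq_one_right h2.symm

theorem res_div {V : ValuationSubring K} {x y : K} (hx : x ∈ V) (h : V.valuation y = 1) :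
    res V (x / y) = res V x / res V y := by
  have h1 : V.valuation y⁻¹ = 1 := by rw [map_inv₀, h, inv_one]
  rw [div_eq_mul_inv, res_mul hx (mem_of_val_one h1), res_inv h, div_eq_mul_inv]

theorem val_neg_one_zpow (V : ValuationSubring K) (n : ℤ) : V.valuation ((-1 : K) ^ n) = 1 := by
  rw [map_zpow₀, Valuation.map_neg, map_one, one_zpow]

/-- The tame symbol is a unit before taking residues. -/
theorem val_tame {V : ValuationSubring K} (hV : IsDiscreteValuationRing V) {f g : K}
    (hf : f ≠ 0) (hg : g ≠ 0) :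
    V.valuation ((-1) ^ (ord V f * ord V g) * f ^ ord V g / g ^ ord V f) = 1 := by
  have h1 : f ^ ord V g / g ^ ord V f ≠ 0 :=
    div_ne_zero (zpow_ne_zero _ hf) (zpow_ne_zero _ hg)
  have h2 : ord V (f ^ ord V g / g ^ ord V f) = 0 := by
    rw [ord_div hV (zpow_ne_zero _ hf) (zpow_ne_zero _ hg), ord_zpow hV hf, ord_zpow hV hg]
    ring
  rw [mul_div_assoc, map_mul, val_neg_one_zpow, one_mul]
  exact (ord_eq_zero_iff hV h1).1 h2

theorem tame_ne_zero {V : ValuationSubring K} (hV : IsDiscreteValuationRing V) {f g : K}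
    (hf : f ≠ 0) (hg : g ≠ 0) : tame V f g ≠ 0 :=
  (res_ne_zero_iff (mem_of_val_one (val_tame hV hf hg))).2 (val_tame hV hf hg)

theorem tame_swap {V : ValuationSubring K} (hV : IsDiscreteValuationRing V) {f g : K}
    (hf : f ≠ 0) (hg : g ≠ 0) : tame V g f = (tame V f g)⁻¹ := by
  unfold tame
  rw [← res_inv (val_tame hV hf hg)]
  congr 1
  rw [mul_comm (ord V g) (ord V f)]
  have h1 : ((-1 : K) ^ (ord V f * ord V g))⁻¹ = (-1) ^ (ord V f * ord V g) := by
    rw [← inv_zpow, inv_neg, inv_one]
  rw [div_eq_mul_inv, div_eq_mul_inv, mul_inv, mul_inv, h1, inv_inv]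
  ring

theorem tame_eq_one {V : ValuationSubring K} {f g : K}
    (hf : ord V f = 0) (hg : ord V g = 0) : tame V f g = 1 := by
  unfold tame
  rw [hf, hg]
  simp

/-- `g` a unit: the symbol is `g ^ (- ord f)`. -/
theorem tame_unit_right {V : ValuationSubring K} (hV : IsDiscreteValuationRing V) {f g : K}
    (hg : V.valuation g = 1) : tame V f g = (res V g) ^ (- ord V f) := by
  have hg0 : g ≠ 0 := by
    rintro rfl
    simp at hg
  have h0 : ord V g = 0 := (ord_eq_zero_iff hV hg0).2 hg
  unfold tame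
  rw [h0]
  simp only [mul_zero, zpow_zero, one_mul]
  have key : ∀ n : ℕ, res V (g ^ n) = (res V g) ^ n := fun n => res_pow (mem_of_val_one hg) n
  rw [one_div]
  have hz : ∀ z : ℤ, res V (g ^ z) = (res V g) ^ z := by
    intro z
    cases z with
    | ofNat n => simpa using key n
    | negSucc n =>
      rw [zpow_negSucc, zpow_negSucc, res_inv, key]
      rw [map_pow, hg, one_pow]
  rw [← zpow_neg, hz]

theorem tame_unit_left {V : ValuationSubring K} (hV : IsDiscreteValuationRing V) {f g : K}
    (hf : V.valuation f = 1) (hg : g ≠ 0) : tame V f g = (res V f) ^ (ord V g) := by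
  have hf0 : f ≠ 0 := by
    rintro rfl
    simp at hf
  rw [tame_swap hV hg hf0, tame_unit_right hV hf, zpow_neg, inv_inv]

end Val

end Pool.Agent.Lib.MP_b197b4_ntK
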