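import Mathlib
import Pool.Agent.Lib.MP_b197b4_ntK.Defs

/-!
# MP_b197b4_nt, project K1: closed points, orders by length, the statement

Any base field `k`; no places of the curves are used: the order of a function on a curve at a
closed point is the length of the local ring of the curve modulo the function.
-/

set_option autoImplicit false

namespace Pool.Agent.Lib.MP_b197b4_ntK

open IsLocalRing

section

variable {L : Type} [Field L]

/-- The order of `u = a / b` with respect to the one dimensional local domain `B`: length of
`B / a` minus length of `B / b`. -/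
def HasLen (B : Subring L) (u : L) (n : ℤ) : Prop :=
  ∃ (a b : B) (r s : ℕ), (a : L) ≠ 0 ∧ (b : L) ≠ 0 ∧ u = (a : L) / (b : L) ∧
    Module.length B (B ⧸ Ideal.span {a}) = r ∧ Module.length B (B ⧸ Ideal.span {b}) = s ∧
    n = (r : ℤ) - (s : ℤ)

open Classical in
/-- The order of `u` with respect to the one dimensional local domain `B` (by lengths). -/
noncomputable def len (B : Subring L) (u : L) : ℤ :=
  if h : ∃ n, HasLen B u n then h.choose else 0

end

variable {k : Type} {F : Type} [Field k] [Field F] [Algebra k F]

/-- `O` is the local ring of the closed point `m` of `Spec A`. -/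
def IsLoc (A : Subalgebra k F) (m : Ideal A) (O : Subring F) : Prop :=
  ∀ x : F, x ∈ O ↔ ∃ a s : A, s ∉ m ∧ x = (a : F) / (s : F)

/-- The local ring, at the closed point with local ring `O`, of the curve `V` through this
point: the image of `O` in the residue field of `V`. -/
noncomputable def curveLoc (O : Subring F) (V : ValuationSubring F) : Subring (ResidueField V) :=
  (O.comap V.subtype).map (residue V)

/-- The closed points (given by their local rings) of the surface covered by the charts `M`. -/
def Points (M : Set (Subalgebra k F)) : Set (Subring F) :=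
  {O | ∃ A ∈ M, ∃ m : Ideal A, m.IsMaximal ∧ IsLoc A m O}

/-- A family `a` of nonzero functions `a V` on the curves `V` of the surface, almost all equal to
`1`, such that the sum of the divisors of the `a V` is zero. -/
structure Cyc (M : Set (Subalgebra k F)) (a : ∀ V : ValuationSubring F, ResidueField V) :
    Prop where
  ne : ∀ V ∈ Curves M, a V ≠ 0
  finite : {V | V ∈ Curves M ∧ a V ≠ 1}.Finite
  div : ∀ O ∈ Points M,
    ∑ᶠ (V) (_ : V ∈ Curves M ∧ (O : Set F) ⊆ V), len (curveLoc O V) (a V) = 0

/-- Homogeneous coordinates `x 0, ..., x n` of a regular projective surface: every affine chart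
`k[x j / x i]` is a regular domain of dimension two with field of fractions `F`. -/
structure Surf (k : Type) {F : Type} [Field k] [Field F] [Algebra k F] {n : ℕ}
    (x : Fin (n + 1) → F) : Prop where
  ne : ∀ i, x i ≠ 0
  chart : ∀ i, Chart (Algebra.adjoin k (Set.range fun j => x j / x i))

/-- The charts. -/
def charts (k : Type) {F : Type} [Field k] [Field F] [Algebra k F] {n : ℕ}
    (x : Fin (n + 1) → F) : Set (Subalgebra k F) :=
  Set.range fun i => Algebra.adjoin k (Set.range fun j => x j / x i)

/-- All forms on the curves of the surface which kill the tame symbols come from the closed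
points. -/
def Global (M : Set (Subalgebra k F)) : Prop :=
  ∀ l : ∀ V : ValuationSubring F, ResidueField V → ℚ, Forms k (Curves M) l →
    ∃ h : Subring F → ℚ, ∀ V ∈ Curves M, ∀ u : ResidueField V, u ≠ 0 →
      {O | O ∈ Points M ∧ (O : Set F) ⊆ V ∧ len (curveLoc O V) u ≠ 0}.Finite ∧
      l V u = ∑ᶠ (O) (_ : O ∈ Points M ∧ (O : Set F) ⊆ V), h O * len (curveLoc O V) u

/-- MAIN STATEMENT: for every regular projective surface over `k` the homology of
`K_2(F) → ⊕ κ(V)ˣ → ⊕ ℤ` is torsion. -/
def K1Proj (k : Type) [Field k] : Prop :=
  ∀ (F : Type) [Field F] [Algebra k F] (n : ℕ) (x : Fin (n + 1) → F), Surf k x →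
    ∀ a : ∀ V : ValuationSubring F, ResidueField V, Cyc (charts k x) a →
    ∃ N : ℕ, 0 < N ∧ ∃ s : List (F × F), (∀ q ∈ s, q.1 ≠ 0 ∧ q.2 ≠ 0) ∧
      ∀ V ∈ Curves (charts k x), a V ^ N = (s.map fun q => tame V q.1 q.2).prod

end Pool.Agent.Lib.MP_b197b4_ntK
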