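import Mathlib
import Pool.Agent.Lib.MP_b197b4_ntK.Defs2

/-!
# MP_b197b4_nt, project K1: normal projective surfaces
-/

set_option autoImplicit false

namespace Pool.Agent.Lib.MP_b197b4_ntK

variable {k : Type} {F : Type} [Field k] [Field F] [Algebra k F]

/-- A normal affine chart: `A` is a normal affine domain of dimension two with field of
fractions `F`. -/
structure ChartN (A : Subalgebra k F) : Prop where
  fg : A.FG
  frac : IsFractionRing A F
  normal : IsIntegrallyClosed A
  height : ∀ m : Ideal A, m.IsMaximal → m.height = 2

/-- Homogeneous coordinates of a normal projective surface. -/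
structure SurfN (k : Type) {F : Type} [Field k] [Field F] [Algebra k F] {n : ℕ}
    (x : Fin (n + 1) → F) : Prop where
  ne : ∀ i, x i ≠ 0
  chart : ∀ i, ChartN (Algebra.adjoin k (Set.range fun j => x j / x i))

end Pool.Agent.Lib.MP_b197b4_ntK
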