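import Mathlib

/-!
# MP_b197b4_nt, project K1: lengths in factorial rings of dimension two

`len2 f g` is the length of `O / (f, g)`.  It is symmetric, additive for relatively prime elements
and finite if the dimension is at most two.
-/

set_option autoImplicit false

namespace Pool.Agent.K1

section Len

variable {O : Type*} [CommRing O]

/-- The length of `O / (f, g)`. -/
noncomputable def len2 (f g : O) : ℕ∞ := Module.length O (O ⧸ Ideal.span {f, g})

theorem len2_comm (f g : O) : len2 f g = len2 g f := by
  unfold len2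
  rw [Set.pair_comm]

theorem len2_congr {f g g' : O} (h : Ideal.span {f, g} = Ideal.span {f, g'}) :
    len2 f g = len2 f g' := by
  unfold len2
  rw [h]

/-- `len2 f g` depends on `g` modulo `f` only. -/
theorem len2_add_mul (f g e : O) : len2 f (g + e * f) = len2 f g := by
  apply len2_congr
  apply le_antisymm
  · rw [Ideal.span_le]
    rintro x (rfl | rfl)
    · exact Ideal.subset_span (by simp)
    · exact Ideal.add_mem _ (Ideal.subset_span (by simp))
        (Ideal.mul_mem_left _ _ (Ideal.subset_span (by simp)))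
  · rw [Ideal.span_le]
    rintro x (rfl | rfl)
    · exact Ideal.subset_span (by simp)
    · have h : x = (x + e * f) - e * f := by ring
      rw [h]
      exact Ideal.sub_mem _ (Ideal.subset_span (by simp))
        (Ideal.mul_mem_left _ _ (Ideal.subset_span (by simp)))

theorem len2_of_isUnit {f g : O} (hg : IsUnit g) : len2 f g = 0 := by
  unfold len2
  rw [Module.length_eq_zero_iff]
  rw [Ideal.Quotient.subsingleton_iff]
  exact Ideal.eq_top_of_isUnit_mem _ (Ideal.subset_span (by simp)) hg

/-- The length of `O / (f, g)` is the order of `g` in the ring `O / (f)`. -/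
theorem len2_eq_ord (f g : O) :
    len2 f g = Ring.ord (O ⧸ Ideal.span {f}) (Ideal.Quotient.mk (Ideal.span {f}) g) := by
  unfold len2 Ring.ord
  have h1 : Module.length (O ⧸ Ideal.span {f})
      ((O ⧸ Ideal.span {f}) ⧸ Ideal.span {Ideal.Quotient.mk (Ideal.span {f}) g}) =
      Module.length O
      ((O ⧸ Ideal.span {f}) ⧸ Ideal.span {Ideal.Quotient.mk (Ideal.span {f}) g}) :=
    (Module.length_eq_of_surjective (R := O ⧸ Ideal.span {f}) (S := O)
      Ideal.Quotient.mk_surjective).symm
  rw [h1]
  have h2 : Ideal.span {Ideal.Quotient.mk (Ideal.span {f}) g} =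
      (Ideal.span {g}).map (Ideal.Quotient.mkₐ O (Ideal.span {f})) := by
    rw [Ideal.map_span, Set.image_singleton]
    rfl
  have h3 : Ideal.span {f, g} = Ideal.span {f} ⊔ Ideal.span {g} := by
    rw [Ideal.span_insert]
  rw [h2, h3]
  exact (DoubleQuot.quotQuotEquivQuotSupₐ O (Ideal.span {f}) (Ideal.span {g})).toLinearEquiv.length_eq.symm

/-- Additivity, `h` being a nonzero divisor modulo `f`. -/
theorem len2_mul_of_dvd {f g h : O} (hh : ∀ a, f ∣ h * a → f ∣ a) :
    len2 f (g * h) = len2 f g + len2 f h := by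
  rw [len2_eq_ord, len2_eq_ord, len2_eq_ord, map_mul]
  apply Ring.ord_mul
  rw [mem_nonZeroDivisors_iff_right]
  intro x hx
  obtain ⟨x, rfl⟩ := Ideal.Quotient.mk_surjective x
  rw [← map_mul, Ideal.Quotient.eq_zero_iff_mem, Ideal.mem_span_singleton] at hx
  rw [Ideal.Quotient.eq_zero_iff_mem, Ideal.mem_span_singleton]
  exact hh x (by rw [mul_comm]; exact hx)

end Len

section Prime

variable {O : Type*} [CommRing O]

/-- Additivity modulo a prime element. -/
theorem len2_prime_mul {p g h : O} (hp : Prime p) (hh : ¬ p ∣ h) :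
    len2 p (g * h) = len2 p g + len2 p h :=
  len2_mul_of_dvd fun _ ha => (hp.dvd_or_dvd ha).resolve_left hh

theorem len2_prime_one {p : O} : len2 p 1 = 0 := len2_of_isUnit isUnit_one

/-- Finiteness in dimension two. -/
theorem len2_prime_ne_top [IsDomain O] [IsNoetherianRing O] (hdim : ringKrullDim O ≤ 2) {p g : O} (hp : Prime p)
    (hg : ¬ p ∣ g) : len2 p g ≠ ⊤ := by
  rw [len2_eq_ord]
  unfold Ring.ord
  rw [Module.length_ne_top_iff]
  have h1 := ringKrullDim_quotient_succ_le_of_nonZeroDivisor
    (mem_nonZeroDivisors_of_ne_zero hp.ne_zero)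
  have h2 : Ring.KrullDimLE 1 (O ⧸ Ideal.span {p}) := by
    rw [Ring.krullDimLE_iff]
    have h3 : ringKrullDim (O ⧸ Ideal.span {p}) + 1 ≤ ((1 : ℕ) : WithBot ℕ∞) + 1 := by
      refine h1.trans (hdim.trans (le_of_eq ?_))
      norm_num
    exact (ENat.WithBot.add_le_add_one_right_iff).1 h3
  apply isFiniteLength_quotient_span_singleton
  rw [mem_nonZeroDivisors_iff_right]
  intro x hx
  obtain ⟨x, rfl⟩ := Ideal.Quotient.mk_surjective x
  rw [← map_mul, Ideal.Quotient.eq_zero_iff_mem, Ideal.mem_span_singleton] at hx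
  rw [Ideal.Quotient.eq_zero_iff_mem, Ideal.mem_span_singleton]
  exact (hp.dvd_or_dvd hx).resolve_right hg

end Prime

end Pool.Agent.K1
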