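import Pool.Agent.Lib.MP_b197b4_ntK.Ord
import Pool.Agent.Lib.MP_b197b4_ntK.Len

/-!
# MP_b197b4_nt, project K1: the length forms of a point kill all tame symbols

`O` is the local ring of a point, a factorial Noetherian ring of dimension at most two with field
of fractions `F` (it need not be local).  For a curve `V` through this point the form
`lenAt O V` sends the class of `a ∈ O` to the length of `O / (P, a)`, `P` the prime ideal of `V`.
-/

set_option autoImplicit false

namespace Pool.Agent.Lib.MP_b197b4_ntK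

open IsLocalRing Pool.Agent.K1

variable {F : Type} [Field F]

/-- The curves through the point with the local ring `O`: the localisations of `O` at the prime
ideals of height one. -/
def CurvesAt (O : Subring F) : Set (ValuationSubring F) :=
  {V | IsDiscreteValuationRing V ∧ (∀ a ∈ O, a ∈ V) ∧
    ∀ x ∈ V, ∃ a s : O, V.valuation (s : F) = 1 ∧ x = (a : F) / s}

/-- The prime ideal of the curve `V` in `O`. -/
def ctr (O : Subring F) (V : ValuationSubring F) : Ideal O :=
  Ideal.span {x : O | V.valuation (x : F) < 1}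

/-- The length of `O / (P, a)`. -/
noncomputable def lenO (O : Subring F) (V : ValuationSubring F) (a : O) : ℤ :=
  ((Module.length O (O ⧸ (ctr O V ⊔ Ideal.span {a}))).toNat : ℤ)

/-- `c` is the quotient of the classes of `a` and `s`, and `n` the difference of the lengths. -/
def HasLenO (O : Subring F) (V : ValuationSubring F) (c : ResidueField V) (n : ℤ) : Prop :=
  ∃ a s : O, V.valuation (a : F) = 1 ∧ V.valuation (s : F) = 1 ∧ c = res V a / res V s ∧
    n = lenO O V a - lenO O V s

open Classical in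
/-- The order of the function `c` on the curve `V` at the point with the local ring `O`
(a difference of lengths). -/
noncomputable def lenAt (O : Subring F) (V : ValuationSubring F) (c : ResidueField V) : ℤ :=
  if h : ∃ n, HasLenO O V c n then h.choose else 0

/-- The local rings we consider. -/
structure Loc2 (O : Subring F) : Prop where
  noeth : IsNoetherianRing O
  ufd : UniqueFactorizationMonoid O
  dim : ringKrullDim O ≤ 2
  frac : ∀ x : F, ∃ a s : O, (s : F) ≠ 0 ∧ x = (a : F) / s

section Curve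

variable {O : Subring F} {V : ValuationSubring F}

theorem CurvesAt.disc (hV : V ∈ CurvesAt O) : IsDiscreteValuationRing V := hV.1

theorem CurvesAt.le_one (hV : V ∈ CurvesAt O) (a : O) : V.valuation (a : F) ≤ 1 :=
  (ValuationSubring.valuation_le_one_iff V _).2 (hV.2.1 a a.2)

theorem CurvesAt.lt_or_eq (hV : V ∈ CurvesAt O) (a : O) :
    V.valuation (a : F) < 1 ∨ V.valuation (a : F) = 1 := lt_or_eq_of_le (CurvesAt.le_one hV a)

theorem CurvesAt.lt_of_dvd (hV : V ∈ CurvesAt O) {a b : O} (ha : V.valuation (a : F) < 1)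
    (h : a ∣ b) : V.valuation (b : F) < 1 := by
  obtain ⟨c, rfl⟩ := h
  push_cast
  rw [map_mul]
  exact mul_lt_one_of_lt_of_le ha (CurvesAt.le_one hV c)

theorem CurvesAt.isUnit (hV : V ∈ CurvesAt O) {a : O} (ha : IsUnit a) :
    V.valuation (a : F) = 1 := by
  rcases CurvesAt.lt_or_eq hV a with h | h
  · exfalso
    have h1 := CurvesAt.lt_of_dvd hV h (ha.dvd (a := 1))
    push_cast at h1
    rw [map_one] at h1
    exact lt_irrefl _ h1
  · exact h

theorem CurvesAt.exists_prime (hO : Loc2 O) (hV : V ∈ CurvesAt O) :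
    ∃ p : O, Prime p ∧ V.valuation (p : F) < 1 := by
  have := hO.ufd
  have hD := hV.1
  -- a nonzero element of the centre
  obtain ⟨x, hx0, hx⟩ : ∃ x : O, x ≠ 0 ∧ V.valuation (x : F) < 1 := by
    obtain ⟨q, hq⟩ := IsDiscreteValuationRing.exists_irreducible V
    have hq1 : V.valuation (q : F) < 1 := val_irr_lt hq
    have hq0 : (q : F) ≠ 0 := fun h => hq.ne_zero (Subtype.ext h)
    obtain ⟨a, s, hs, h⟩ := hV.2.2 q q.2
    refine ⟨a, ?_, ?_⟩
    · rintro rfl
      apply hq0
      rw [h]
      simp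
    · rw [h, map_div₀, hs, div_one] at hq1
      exact hq1
  have key : ∀ y : O, y ≠ 0 → V.valuation (y : F) < 1 → ∃ p : O, Prime p ∧ V.valuation (p : F) < 1 := by
    intro y
    induction y using UniqueFactorizationMonoid.induction_on_prime with
    | h₁ => exact fun h => absurd rfl h
    | h₂ y hy => exact fun _ h => absurd (CurvesAt.isUnit hV hy) h.ne
    | h₃ a p ha hp ih =>
      intro _ h
      rcases CurvesAt.lt_or_eq hV p with h1 | h1
      · exact ⟨p, hp, h1⟩
      · push_cast at h
        rw [map_mul, h1, one_mul] at h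
        exact ih ha h
  exact key x hx0 hx

theorem CurvesAt.dvd_iff (hV : V ∈ CurvesAt O) {p : O} (hp : Prime p)
    (hpV : V.valuation (p : F) < 1) (x : O) : V.valuation (x : F) < 1 ↔ p ∣ x := by
  constructor
  · intro hx
    have hD := hV.1
    by_cases hx0 : x = 0
    · rw [hx0]; exact dvd_zero p
    have hx0' : (x : F) ≠ 0 := fun h => hx0 (Subtype.ext h)
    have hp0 : (p : F) ≠ 0 := fun h => hp.ne_zero (Subtype.ext h)
    have hn := (ord_pos_iff hD hp0).2 hpV
    have hm := (ord_pos_iff hD hx0').2 hx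
    obtain ⟨n, hn'⟩ : ∃ n : ℕ, ord V (p : F) = n := ⟨(ord V (p : F)).toNat, by omega⟩
    obtain ⟨m, hm'⟩ : ∃ m : ℕ, ord V (x : F) = m := ⟨(ord V (x : F)).toNat, by omega⟩
    have h1 : ord V ((x : F) ^ n / (p : F) ^ m) = 0 := by
      rw [ord_div hD (pow_ne_zero _ hx0') (pow_ne_zero _ hp0), ord_pow hD hx0', ord_pow hD hp0,
        hn', hm']
      ring
    have h2 := mem_of_val_one ((ord_eq_zero_iff hD
      (div_ne_zero (pow_ne_zero _ hx0') (pow_ne_zero _ hp0))).1 h1)
    obtain ⟨a, s, hs, h⟩ := hV.2.2 _ h2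
    have hs0 : (s : F) ≠ 0 := by
      intro h0
      rw [h0, map_zero] at hs
      exact zero_ne_one hs
    have h3 : x ^ n * s = p ^ m * a := by
      apply Subtype.ext
      push_cast
      rw [div_eq_div_iff (pow_ne_zero _ hp0) hs0] at h
      rw [h]
      ring
    have h4 : p ∣ x ^ n * s := by
      rw [h3]
      have hm0 : m ≠ 0 := by
        rintro rfl
        rw [hm'] at hm
        simp at hm
      exact (dvd_pow_self p hm0).mul_right a
    rcases hp.dvd_or_dvd h4 with h5 | h5
    · exact hp.dvd_of_dvd_pow h5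
    · exact absurd hs (CurvesAt.lt_of_dvd hV hpV h5).ne
  · intro h
    exact CurvesAt.lt_of_dvd hV hpV h

theorem CurvesAt.unit_iff (hV : V ∈ CurvesAt O) {p : O} (hp : Prime p)
    (hpV : V.valuation (p : F) < 1) (x : O) : V.valuation (x : F) = 1 ↔ ¬ p ∣ x := by
  rw [← CurvesAt.dvd_iff hV hp hpV x]
  constructor
  · intro h h1
    exact h1.ne h
  · intro h
    exact (CurvesAt.lt_or_eq hV x).resolve_left h

theorem CurvesAt.unique (hV : V ∈ CurvesAt O) {V' : ValuationSubring F} (hV' : V' ∈ CurvesAt O)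
    {p : O} (hp : Prime p) (h : V.valuation (p : F) < 1) (h' : V'.valuation (p : F) < 1) :
    V = V' := by
  have key : ∀ W W' : ValuationSubring F, W ∈ CurvesAt O → W' ∈ CurvesAt O →
      W.valuation (p : F) < 1 → W'.valuation (p : F) < 1 → ∀ x ∈ W, x ∈ W' := by
    intro W W' hW hW' h h' x hx
    obtain ⟨a, s, hs, rfl⟩ := hW.2.2 x hx
    have h1 : W'.valuation (s : F) = 1 :=
      (CurvesAt.unit_iff hW' hp h' s).2 ((CurvesAt.unit_iff hW hp h s).1 hs)
    rw [← ValuationSubring.valuation_le_one_iff, map_div₀, h1, div_one]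
    exact CurvesAt.le_one hW' a
  ext x
  exact ⟨key V V' hV hV' h h' x, key V' V hV' hV h' h x⟩

theorem ctr_eq (hV : V ∈ CurvesAt O) {p : O} (hp : Prime p)
    (hpV : V.valuation (p : F) < 1) : ctr O V = Ideal.span {p} := by
  unfold ctr
  apply le_antisymm
  · rw [Ideal.span_le]
    intro x hx
    exact Ideal.mem_span_singleton.2 ((CurvesAt.dvd_iff hV hp hpV x).1 hx)
  · rw [Ideal.span_le]
    rintro x rfl
    exact Ideal.subset_span hpV

theorem lenO_eq (hV : V ∈ CurvesAt O) {p : O} (hp : Prime p)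
    (hpV : V.valuation (p : F) < 1) (a : O) : lenO O V a = ((len2 p a).toNat : ℤ) := by
  unfold lenO len2
  rw [ctr_eq hV hp hpV, Ideal.span_insert]

theorem lenO_mul (hO : Loc2 O) (hV : V ∈ CurvesAt O) {a b : O}
    (ha : V.valuation (a : F) = 1) (hb : V.valuation (b : F) = 1) :
    lenO O V (a * b) = lenO O V a + lenO O V b := by
  obtain ⟨p, hp, hpV⟩ := CurvesAt.exists_prime hO hV
  have := hO.noeth
  have ha' := (CurvesAt.unit_iff hV hp hpV a).1 ha
  have hb' := (CurvesAt.unit_iff hV hp hpV b).1 hb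
  rw [lenO_eq hV hp hpV, lenO_eq hV hp hpV, lenO_eq hV hp hpV, len2_prime_mul hp hb',
    ENat.toNat_add (len2_prime_ne_top hO.dim hp ha') (len2_prime_ne_top hO.dim hp hb')]
  push_cast
  ring

theorem lenO_congr (hO : Loc2 O) (hV : V ∈ CurvesAt O) {a b : O}
    (h : V.valuation ((a : F) - b) < 1) : lenO O V a = lenO O V b := by
  obtain ⟨p, hp, hpV⟩ := CurvesAt.exists_prime hO hV
  have h1 : p ∣ a - b := (CurvesAt.dvd_iff hV hp hpV (a - b)).1 (by push_cast; exact h)
  obtain ⟨e, he⟩ := h1
  have h2 : a = b + e * p := by rw [mul_comm e p, ← he]; ring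
  rw [lenO_eq hV hp hpV, lenO_eq hV hp hpV, h2, len2_add_mul]

theorem lenO_isUnit (hO : Loc2 O) (hV : V ∈ CurvesAt O) {a : O} (ha : IsUnit a) :
    lenO O V a = 0 := by
  obtain ⟨p, hp, hpV⟩ := CurvesAt.exists_prime hO hV
  rw [lenO_eq hV hp hpV, len2_of_isUnit ha]
  rfl

theorem hasLenO_unique (hO : Loc2 O) (hV : V ∈ CurvesAt O) {c : ResidueField V} {n n' : ℤ}
    (h : HasLenO O V c n) (h' : HasLenO O V c n') : n = n' := by
  obtain ⟨a, s, ha, hs, hc, rfl⟩ := h
  obtain ⟨a', s', ha', hs', hc', rfl⟩ := h'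
  rw [hc] at hc'
  have h1 := (res_ne_zero_iff (mem_of_val_one hs)).2 hs
  have h2 := (res_ne_zero_iff (mem_of_val_one hs')).2 hs'
  rw [div_eq_div_iff h1 h2, ← res_mul (mem_of_val_one ha) (mem_of_val_one hs'),
    ← res_mul (mem_of_val_one ha') (mem_of_val_one hs), ← sub_eq_zero,
    ← res_sub (mul_mem (mem_of_val_one ha) (mem_of_val_one hs'))
      (mul_mem (mem_of_val_one ha') (mem_of_val_one hs)),
    res_eq_zero_iff (sub_mem (mul_mem (mem_of_val_one ha) (mem_of_val_one hs'))
      (mul_mem (mem_of_val_one ha') (mem_of_val_one hs)))] at hc'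
  have h3 := lenO_congr hO hV (a := a * s') (b := a' * s) (by push_cast; exact hc')
  rw [lenO_mul hO hV ha hs', lenO_mul hO hV ha' hs] at h3
  omega

theorem hasLenO_exists (hV : V ∈ CurvesAt O) {c : ResidueField V} (hc : c ≠ 0) :
    ∃ n, HasLenO O V c n := by
  obtain ⟨x, hx, rfl⟩ := res_surj_unit V hc
  obtain ⟨a, s, hs, rfl⟩ := hV.2.2 x (mem_of_val_one hx)
  have ha : V.valuation (a : F) = 1 := by
    rw [map_div₀, hs, div_one] at hx
    exact hx
  exact ⟨_, a, s, ha, hs, res_div (mem_of_val_one ha) hs, rfl⟩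

theorem lenAt_eq (hO : Loc2 O) (hV : V ∈ CurvesAt O) {c : ResidueField V} {n : ℤ}
    (h : HasLenO O V c n) : lenAt O V c = n := by
  have h1 : ∃ n, HasLenO O V c n := ⟨n, h⟩
  unfold lenAt
  rw [dif_pos h1]
  exact hasLenO_unique hO hV h1.choose_spec h

theorem lenAt_res (hO : Loc2 O) (hV : V ∈ CurvesAt O) {a : O} (ha : V.valuation (a : F) = 1) :
    lenAt O V (res V a) = lenO O V a := by
  apply lenAt_eq hO hV
  refine ⟨a, 1, ha, by simp, by simp, ?_⟩
  rw [lenO_isUnit hO hV isUnit_one, sub_zero]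

theorem lenAt_mul (hO : Loc2 O) (hV : V ∈ CurvesAt O) {c d : ResidueField V} (hc : c ≠ 0)
    (hd : d ≠ 0) : lenAt O V (c * d) = lenAt O V c + lenAt O V d := by
  obtain ⟨n, hn⟩ := hasLenO_exists hV hc
  obtain ⟨m, hm⟩ := hasLenO_exists hV hd
  rw [lenAt_eq hO hV hn, lenAt_eq hO hV hm]
  apply lenAt_eq hO hV
  obtain ⟨a, s, ha, hs, hc', rfl⟩ := hn
  obtain ⟨b, t, hb, ht, hd', rfl⟩ := hm
  refine ⟨a * b, s * t, ?_, ?_, ?_, ?_⟩
  · push_cast
    rw [map_mul, ha, hb, one_mul]
  · push_cast
    rw [map_mul, hs, ht, one_mul]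
  · push_cast
    rw [res_mul (mem_of_val_one ha) (mem_of_val_one hb), res_mul (mem_of_val_one hs)
      (mem_of_val_one ht), hc', hd', div_mul_div_comm]
  · rw [lenO_mul hO hV ha hb, lenO_mul hO hV hs ht]
    ring

theorem lenAt_one (hO : Loc2 O) (hV : V ∈ CurvesAt O) : lenAt O V (1 : ResidueField V) = 0 := by
  have h := lenAt_mul hO hV (one_ne_zero (α := ResidueField V)) (one_ne_zero (α := ResidueField V))
  rw [mul_one] at h
  omega

theorem lenAt_inv (hO : Loc2 O) (hV : V ∈ CurvesAt O) {c : ResidueField V} (hc : c ≠ 0) :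
    lenAt O V c⁻¹ = - lenAt O V c := by
  have h := lenAt_mul hO hV hc (inv_ne_zero hc)
  rw [mul_inv_cancel₀ hc, lenAt_one hO hV] at h
  omega

theorem lenAt_pow (hO : Loc2 O) (hV : V ∈ CurvesAt O) {c : ResidueField V} (hc : c ≠ 0) (n : ℕ) :
    lenAt O V (c ^ n) = n * lenAt O V c := by
  induction n with
  | zero => simp [lenAt_one hO hV]
  | succ n ih => rw [pow_succ, lenAt_mul hO hV (pow_ne_zero _ hc) hc, ih]; push_cast; ring

theorem lenAt_zpow (hO : Loc2 O) (hV : V ∈ CurvesAt O) {c : ResidueField V} (hc : c ≠ 0) (n : ℤ) :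
    lenAt O V (c ^ n) = n * lenAt O V c := by
  cases n with
  | ofNat n => simpa using lenAt_pow hO hV hc n
  | negSucc n =>
    rw [zpow_negSucc, lenAt_inv hO hV (pow_ne_zero _ hc), lenAt_pow hO hV hc, Int.negSucc_eq]
    push_cast; ring

end Curve

section Exists

variable {O : Subring F}

/-- The localisation of `O` at the prime element `p`. -/
def locPrime (hO : Loc2 O) {p : O} (hp : Prime p) : ValuationSubring F where
  carrier := {x | ∃ a s : O, ¬ p ∣ s ∧ x = (a : F) / s}
  mul_mem' := by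
    rintro x y ⟨a, s, hs, rfl⟩ ⟨b, t, ht, rfl⟩
    refine ⟨a * b, s * t, fun h => (hp.dvd_or_dvd h).elim hs ht, ?_⟩
    push_cast
    rw [div_mul_div_comm]
  one_mem' := ⟨1, 1, fun h => hp.not_isUnit (isUnit_of_dvd_one h), by simp⟩
  add_mem' := by
    rintro x y ⟨a, s, hs, rfl⟩ ⟨b, t, ht, rfl⟩
    have hs0 : (s : F) ≠ 0 := by
      intro h
      apply hs
      have h1 : s = 0 := Subtype.ext h
      rw [h1]; exact dvd_zero p
    have ht0 : (t : F) ≠ 0 := by
      intro h
      apply ht
      have h1 : t = 0 := Subtype.ext h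
      rw [h1]; exact dvd_zero p
    refine ⟨a * t + s * b, s * t, fun h => (hp.dvd_or_dvd h).elim hs ht, ?_⟩
    push_cast
    rw [div_add_div _ _ hs0 ht0]
  zero_mem' := ⟨0, 1, fun h => hp.not_isUnit (isUnit_of_dvd_one h), by simp⟩
  neg_mem' := by
    rintro x ⟨a, s, hs, rfl⟩
    refine ⟨-a, s, hs, ?_⟩
    push_cast
    rw [neg_div]
  mem_or_inv_mem' := by
    intro x
    have := hO.ufd
    obtain ⟨a, s, hs, rfl⟩ := hO.frac x
    have hs0 : s ≠ 0 := by
      rintro rfl
      exact hs rfl
    by_cases ha0 : a = 0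
    · left
      refine ⟨0, 1, fun h => hp.not_isUnit (isUnit_of_dvd_one h), ?_⟩
      rw [ha0]
      simp
    have hp0 : (p : F) ≠ 0 := fun h => hp.ne_zero (Subtype.ext h)
    obtain ⟨a', ha, hpa⟩ := (FiniteMultiplicity.of_prime_left hp ha0).exists_eq_pow_mul_and_not_dvd
    obtain ⟨s', hs', hps⟩ := (FiniteMultiplicity.of_prime_left hp hs0).exists_eq_pow_mul_and_not_dvd
    generalize multiplicity p a = i at ha
    generalize multiplicity p s = j at hs'
    rcases le_total j i with h | h
    · left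
      refine ⟨p ^ (i - j) * a', s', hps, ?_⟩
      rw [ha, hs']
      push_cast
      have h1 : (p : F) ^ i = (p : F) ^ j * (p : F) ^ (i - j) := by
        rw [← pow_add, Nat.add_sub_cancel' h]
      rw [h1, mul_assoc, mul_div_mul_left _ _ (pow_ne_zero _ hp0)]
    · right
      refine ⟨p ^ (j - i) * s', a', hpa, ?_⟩
      rw [ha, hs']
      push_cast
      have h1 : (p : F) ^ j = (p : F) ^ i * (p : F) ^ (j - i) := by
        rw [← pow_add, Nat.add_sub_cancel' h]
      rw [inv_div, h1, mul_assoc, mul_div_mul_left _ _ (pow_ne_zero _ hp0)]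

theorem mem_locPrime (hO : Loc2 O) {p : O} (hp : Prime p) (x : F) :
    x ∈ locPrime hO hp ↔ ∃ a s : O, ¬ p ∣ s ∧ x = (a : F) / s := Iff.rfl

theorem coe_mem_locPrime (hO : Loc2 O) {p : O} (hp : Prime p) (a : O) :
    (a : F) ∈ locPrime hO hp :=
  ⟨a, 1, fun h => hp.not_isUnit (isUnit_of_dvd_one h), by simp⟩

theorem ne_zero_of_not_dvd {p s : O} (h : ¬ p ∣ s) : (s : F) ≠ 0 := by
  intro h1
  apply h
  have h2 : s = 0 := Subtype.ext h1
  rw [h2]
  exact dvd_zero p

theorem locPrime_val_one (hO : Loc2 O) {p : O} (hp : Prime p) {s : O} (hs : ¬ p ∣ s) :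
    (locPrime hO hp).valuation (s : F) = 1 := by
  have h1 : (locPrime hO hp).valuation (s : F) ≤ 1 :=
    (ValuationSubring.valuation_le_one_iff _ _).2 (coe_mem_locPrime hO hp s)
  have h2 : (locPrime hO hp).valuation (s : F)⁻¹ ≤ 1 := by
    rw [ValuationSubring.valuation_le_one_iff]
    exact ⟨1, s, hs, by simp⟩
  have h3 : (locPrime hO hp).valuation (s : F) * (locPrime hO hp).valuation (s : F)⁻¹ = 1 := by
    rw [← map_mul, mul_inv_cancel₀ (ne_zero_of_not_dvd hs), map_one]
  refine le_antisymm h1 ?_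
  calc (1 : _) = (locPrime hO hp).valuation (s : F) * (locPrime hO hp).valuation (s : F)⁻¹ := h3.symm
    _ ≤ (locPrime hO hp).valuation (s : F) * 1 := by gcongr
    _ = _ := mul_one _

theorem locPrime_val_lt (hO : Loc2 O) {p : O} (hp : Prime p) :
    (locPrime hO hp).valuation (p : F) < 1 := by
  refine lt_of_le_of_ne
    ((ValuationSubring.valuation_le_one_iff _ _).2 (coe_mem_locPrime hO hp p)) ?_
  intro h
  have h1 : ((p : F))⁻¹ ∈ locPrime hO hp := by
    rw [← ValuationSubring.valuation_le_one_iff, map_inv₀, h, inv_one]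
  obtain ⟨a, s, hs, h2⟩ := h1
  have hp0 : (p : F) ≠ 0 := fun h => hp.ne_zero (Subtype.ext h)
  have hs0 := ne_zero_of_not_dvd hs
  apply hs
  refine ⟨a, ?_⟩
  apply Subtype.ext
  push_cast
  rw [inv_eq_one_div, div_eq_div_iff hp0 hs0] at h2
  linear_combination h2

theorem locPrime_disc (hO : Loc2 O) {p : O} (hp : Prime p) :
    IsDiscreteValuationRing (locPrime hO hp) := by
  have := hO.ufd
  have hp0 : (p : F) ≠ 0 := fun h => hp.ne_zero (Subtype.ext h)
  apply IsDiscreteValuationRing.ofHasUnitMulPowIrreducibleFactorization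
  have hunit : ∀ x : locPrime hO hp, (locPrime hO hp).valuation (x : F) = 1 → IsUnit x :=
    fun x h => (ValuationSubring.valuation_eq_one_iff _ _).2 h
  have hfac : ∀ x : locPrime hO hp, x ≠ 0 → ∃ (n : ℕ) (w : locPrime hO hp), IsUnit w ∧
      x = ⟨(p : F), coe_mem_locPrime hO hp p⟩ ^ n * w := by
    intro x hx
    obtain ⟨a, s, hs, h⟩ := x.2
    have ha0 : a ≠ 0 := by
      rintro rfl
      apply hx
      apply Subtype.ext
      rw [h]
      simp
    obtain ⟨a', ha, hpa⟩ := (FiniteMultiplicity.of_prime_left hp ha0).exists_eq_pow_mul_and_not_dvd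
    refine ⟨multiplicity p a, ⟨(a' : F) / s, ⟨a', s, hs, rfl⟩⟩, hunit _ ?_, ?_⟩
    · change (locPrime hO hp).valuation ((a' : F) / s) = 1
      rw [map_div₀, locPrime_val_one hO hp hpa, locPrime_val_one hO hp hs, div_one]
    · apply Subtype.ext
      rw [h]
      push_cast
      have h1 : (a : F) = (p : F) ^ multiplicity p a * a' := by
        have := congrArg (Subtype.val : O → F) ha
        push_cast at this
        exact this
      rw [h1]
      ring
  have hnu : ¬ IsUnit (⟨(p : F), coe_mem_locPrime hO hp p⟩ : locPrime hO hp) := by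
    intro h
    exact (locPrime_val_lt hO hp).ne ((ValuationSubring.valuation_eq_one_iff _ _).1 h)
  refine ⟨⟨(p : F), coe_mem_locPrime hO hp p⟩, ⟨hnu, ?_⟩, ?_⟩
  · intro x y hxy
    have hx0 : x ≠ 0 := by
      rintro rfl
      rw [zero_mul] at hxy
      exact hp0 (congrArg Subtype.val hxy)
    have hy0 : y ≠ 0 := by
      rintro rfl
      rw [mul_zero] at hxy
      exact hp0 (congrArg Subtype.val hxy)
    obtain ⟨n, w, hw, hx⟩ := hfac x hx0
    obtain ⟨m, u, hu, hy⟩ := hfac y hy0
    rcases Nat.eq_zero_or_pos n with h | h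
    · left
      rw [hx, h, pow_zero, one_mul]
      exact hw
    rcases Nat.eq_zero_or_pos m with h' | h'
    · right
      rw [hy, h', pow_zero, one_mul]
      exact hu
    exfalso
    obtain ⟨n, rfl⟩ : ∃ j, n = j + 1 := ⟨n - 1, by omega⟩
    obtain ⟨m, rfl⟩ : ∃ j, m = j + 1 := ⟨m - 1, by omega⟩
    generalize hP : (⟨(p : F), coe_mem_locPrime hO hp p⟩ : locPrime hO hp) = P at *
    have hP0 : P ≠ 0 := by
      rintro rfl
      exact hp0 (congrArg Subtype.val hP)
    apply hnu
    have h1 : P * 1 = P * (P * (P ^ (n + m) * w * u)) := by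
      rw [mul_one]
      conv_lhs => rw [hxy, hx, hy]
      ring
    exact IsUnit.of_mul_eq_one _ (mul_left_cancel₀ hP0 h1).symm
  · intro x hx
    obtain ⟨n, w, hw, h⟩ := hfac x hx
    exact ⟨n, hw.unit, h.symm⟩

theorem locPrime_mem (hO : Loc2 O) {p : O} (hp : Prime p) : locPrime hO hp ∈ CurvesAt O := by
  refine ⟨locPrime_disc hO hp, fun a ha => coe_mem_locPrime hO hp ⟨a, ha⟩, ?_⟩
  rintro x ⟨a, s, hs, rfl⟩
  exact ⟨a, s, locPrime_val_one hO hp hs, rfl⟩

theorem ord_prime {p : O} (hp : Prime p) {V : ValuationSubring F}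
    (hV : V ∈ CurvesAt O) (hpV : V.valuation (p : F) < 1) : ord V (p : F) = 1 := by
  -- `p` generates the maximal ideal
  have hD := hV.1
  have hp0 : (p : F) ≠ 0 := fun h => hp.ne_zero (Subtype.ext h)
  obtain ⟨q, hq⟩ := IsDiscreteValuationRing.exists_irreducible V
  have hq1 : V.valuation (q : F) < 1 := val_irr_lt hq
  have hq0 : (q : F) ≠ 0 := fun h => hq.ne_zero (Subtype.ext h)
  have hqo : ord V (q : F) = 1 := ord_eq ⟨q, 1, hq, by simp⟩
  obtain ⟨a, s, hs, h⟩ := hV.2.2 q q.2
  have ha : V.valuation (a : F) < 1 := by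
    rw [h, map_div₀, hs, div_one] at hq1
    exact hq1
  obtain ⟨b, hb⟩ := (CurvesAt.dvd_iff hV hp hpV a).1 ha
  have hs0 : (s : F) ≠ 0 := by
    intro h0
    rw [h0, map_zero] at hs
    exact zero_ne_one hs
  have hb0 : (b : F) ≠ 0 := by
    intro h0
    apply hq0
    rw [h, hb]
    push_cast
    rw [h0]
    simp
  have h1 : ord V (q : F) = ord V (p : F) + ord V (b : F) - ord V (s : F) := by
    rw [h, hb]
    push_cast
    rw [ord_div hD (mul_ne_zero hp0 hb0) hs0, ord_mul hD hp0 hb0]
  have h2 : ord V (s : F) = 0 := (ord_eq_zero_iff hD hs0).2 hs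
  have h3 := (ord_pos_iff hD hp0).2 hpV
  have h4 := (ord_nonneg_iff hD hb0).2 (hV.2.1 b b.2)
  omega

end Exists

section Tame

theorem tameG_mul_left {K : Type} [Field K] {V : ValuationSubring K}
    (hV : IsDiscreteValuationRing V) {f f' g : K} (hf : f ≠ 0)
    (hf' : f' ≠ 0) (hg : g ≠ 0) : tame V (f * f') g = tame V f g * tame V f' g := by
  have h1 := val_tame hV hf hg
  have h2 := val_tame hV hf' hg
  unfold tame
  rw [← res_mul (mem_of_val_one h1) (mem_of_val_one h2), ord_mul hV hf hf']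
  congr 1
  rw [add_mul, zpow_add₀ (by norm_num : (-1 : K) ≠ 0), mul_zpow, zpow_add₀ hg]
  rw [div_mul_div_comm]
  ring

theorem tameG_mul_right {K : Type} [Field K] {V : ValuationSubring K}
    (hV : IsDiscreteValuationRing V) {f g g' : K} (hf : f ≠ 0)
    (hg : g ≠ 0) (hg' : g' ≠ 0) : tame V f (g * g') = tame V f g * tame V f g' := by
  rw [tame_swap hV (mul_ne_zero hg hg') hf, tameG_mul_left hV hg hg' hf, mul_inv,
    ← tame_swap hV hg hf, ← tame_swap hV hg' hf]

end Tame

section Main

variable {O : Subring F}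

/-- Induction: an additive function which vanishes on the units and on the primes of `O` is
zero. -/
theorem Loc2.induct (hO : Loc2 O) (D : F → ℤ)
    (hD : ∀ a b : F, a ≠ 0 → b ≠ 0 → D (a * b) = D a + D b)
    (hu : ∀ u : O, IsUnit u → D u = 0) (hp : ∀ p : O, Prime p → D p = 0) {f : F} (hf : f ≠ 0) :
    D f = 0 := by
  have := hO.ufd
  have key : ∀ a : O, a ≠ 0 → D a = 0 := by
    intro a
    induction a using UniqueFactorizationMonoid.induction_on_prime with
    | h₁ => exact fun h => absurd rfl h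
    | h₂ a ha => exact fun _ => hu a ha
    | h₃ a q ha hq ih =>
      intro _
      have hq0 : (q : F) ≠ 0 := fun h => hq.ne_zero (Subtype.ext h)
      have ha0 : (a : F) ≠ 0 := fun h => ha (Subtype.ext h)
      push_cast
      rw [hD _ _ hq0 ha0, hp q hq, ih ha, add_zero]
  obtain ⟨a, s, hs, rfl⟩ := hO.frac f
  have ha : (a : F) ≠ 0 := by
    intro h
    apply hf
    rw [h, zero_div]
  have h1 : D (a : F) = D ((a : F) / s) + D (s : F) := by
    rw [← hD _ _ hf hs, div_mul_cancel₀ _ hs]
  have h2 := key a (fun h => ha (congrArg Subtype.val h))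
  have h3 := key s (fun h => hs (congrArg Subtype.val h))
  omega

theorem finite_lt (hO : Loc2 O) {a : O} (ha : a ≠ 0) :
    {V | V ∈ CurvesAt O ∧ V.valuation (a : F) < 1}.Finite := by
  have := hO.ufd
  induction a using UniqueFactorizationMonoid.induction_on_prime with
  | h₁ => exact absurd rfl ha
  | h₂ a hau =>
    apply Set.Finite.subset Set.finite_empty
    rintro V ⟨hV, h⟩
    exact absurd (CurvesAt.isUnit hV hau) h.ne
  | h₃ a p ha' hp ih =>
    apply Set.Finite.subset ((Set.finite_singleton (locPrime hO hp)).union (ih ha'))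
    rintro V ⟨hV, h⟩
    rcases CurvesAt.lt_or_eq hV p with h1 | h1
    · left
      exact CurvesAt.unique hV (locPrime_mem hO hp) hp h1 (locPrime_val_lt hO hp)
    · right
      push_cast at h
      rw [map_mul, h1, one_mul] at h
      exact ⟨hV, h⟩

/-- Only finitely many curves are zeros or poles of `f`. -/
theorem finite_ord (hO : Loc2 O) {f : F} (hf : f ≠ 0) :
    {V | V ∈ CurvesAt O ∧ ord V f ≠ 0}.Finite := by
  obtain ⟨a, s, hs, rfl⟩ := hO.frac f
  have ha : (a : F) ≠ 0 := by
    intro h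
    apply hf
    rw [h, zero_div]
  apply Set.Finite.subset ((finite_lt hO (a := a) (fun h => ha (congrArg Subtype.val h))).union
    (finite_lt hO (a := s) (fun h => hs (congrArg Subtype.val h))))
  rintro V ⟨hV, h⟩
  rcases CurvesAt.lt_or_eq hV a with h1 | h1
  · left; exact ⟨hV, h1⟩
  · right
    refine ⟨hV, (CurvesAt.lt_or_eq hV s).resolve_right ?_⟩
    intro h2
    apply h
    rw [ord_div hV.1 ha hs, (ord_eq_zero_iff hV.1 ha).2 h1, (ord_eq_zero_iff hV.1 hs).2 h2,
      sub_zero]

/-- The support of the sum of the lengths of the tame symbols is finite. -/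
theorem finite_tame (hO : Loc2 O) {f g : F} (hf : f ≠ 0) (hg : g ≠ 0) :
    (CurvesAt O ∩ Function.support fun V => lenAt O V (tame V f g)).Finite := by
  apply Set.Finite.subset ((finite_ord hO hf).union (finite_ord hO hg))
  rintro V ⟨hV, h⟩
  by_cases h1 : ord V f = 0
  · right
    refine ⟨hV, fun h2 => h ?_⟩
    change lenAt O V (tame V f g) = 0
    rw [tame_eq_one h1 h2, lenAt_one hO hV]
  · left
    exact ⟨hV, h1⟩

/-- The sum of the lengths of the tame symbols. -/
noncomputable def totalLen (O : Subring F) (f g : F) : ℤ :=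
  ∑ᶠ (V) (_ : V ∈ CurvesAt O), lenAt O V (tame V f g)

theorem totalLen_swap (hO : Loc2 O) {f g : F} (hf : f ≠ 0) (hg : g ≠ 0) :
    totalLen O g f = - totalLen O f g := by
  have h : totalLen O g f + totalLen O f g = 0 := by
    unfold totalLen
    rw [← finsum_mem_add_distrib' (finite_tame hO hg hf) (finite_tame hO hf hg)]
    apply finsum_mem_eq_zero_of_forall_eq_zero
    intro V hV
    rw [tame_swap hV.1 hf hg, lenAt_inv hO hV (tame_ne_zero hV.1 hf hg)]
    ring
  omega

theorem totalLen_mul (hO : Loc2 O) {f f' g : F} (hf : f ≠ 0) (hf' : f' ≠ 0) (hg : g ≠ 0) :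
    totalLen O (f * f') g = totalLen O f g + totalLen O f' g := by
  unfold totalLen
  rw [← finsum_mem_add_distrib' (finite_tame hO hf hg) (finite_tame hO hf' hg)]
  apply finsum_mem_congr rfl
  intro V hV
  rw [tameG_mul_left hV.1 hf hf' hg, lenAt_mul hO hV (tame_ne_zero hV.1 hf hg)
    (tame_ne_zero hV.1 hf' hg)]

theorem totalLen_unit (hO : Loc2 O) {u : O} (hu : IsUnit u) {g : F} (hg : g ≠ 0) :
    totalLen O u g = 0 := by
  unfold totalLen
  apply finsum_mem_eq_zero_of_forall_eq_zero
  intro V hV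
  have h1 := CurvesAt.isUnit hV hu
  rw [tame_unit_left hV.1 h1 hg, lenAt_zpow hO hV ((res_ne_zero_iff (mem_of_val_one h1)).2 h1),
    lenAt_res hO hV h1, lenO_isUnit hO hV hu, mul_zero]

theorem totalLen_prime (hO : Loc2 O) {p q : O} (hp : Prime p) (hq : Prime q) :
    totalLen O (p : F) (q : F) = 0 := by
  have hp0 : (p : F) ≠ 0 := fun h => hp.ne_zero (Subtype.ext h)
  have hq0 : (q : F) ≠ 0 := fun h => hq.ne_zero (Subtype.ext h)
  by_cases hpq : p ∣ q
  · -- associated primes
    obtain ⟨u, hu⟩ := hpq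
    have hu1 : IsUnit u := (hq.irreducible.isUnit_or_isUnit hu).resolve_left hp.not_isUnit
    have hu0 : (u : F) ≠ 0 := fun h => hu1.ne_zero (Subtype.ext h)
    have h1 : (q : F) = (p : F) * u := by rw [hu]; push_cast; rfl
    have h2 := totalLen_swap hO hp0 hp0
    have h3 : totalLen O (p : F) (p : F) = 0 := by omega
    rw [totalLen_swap hO hq0 hp0, h1, totalLen_mul hO hp0 hu0 hp0, h3, totalLen_unit hO hu1 hp0]
    rfl
  · have hqp : ¬ q ∣ p := by
      rintro ⟨u, hu⟩
      have hu1 : IsUnit u := (hp.irreducible.isUnit_or_isUnit hu).resolve_left hq.not_isUnit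
      exact hpq ((hu1.dvd_mul_right).1 (by rw [← hu]))
    have hVp := locPrime_mem hO hp
    have hVq := locPrime_mem hO hq
    have hne : locPrime hO hp ≠ locPrime hO hq := by
      intro h
      have h1 := locPrime_val_lt hO hp
      have h2 := (CurvesAt.dvd_iff hVq hq (locPrime_val_lt hO hq) p).1 (by rw [← h]; exact h1)
      exact hqp h2
    have h1 : (locPrime hO hp).valuation (q : F) = 1 := locPrime_val_one hO hp hpq
    have h2 : (locPrime hO hq).valuation (p : F) = 1 := locPrime_val_one hO hq hqp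
    have hsub : totalLen O (p : F) (q : F) =
        ∑ᶠ (V) (_ : V ∈ ({locPrime hO hp, locPrime hO hq} : Set (ValuationSubring F))),
          lenAt O V (tame V p q) := by
      unfold totalLen
      apply finsum_mem_inter_support_eq
      ext V
      constructor
      · rintro ⟨hV, h⟩
        refine ⟨?_, h⟩
        rcases CurvesAt.lt_or_eq hV p with h3 | h3
        · left
          exact CurvesAt.unique hV hVp hp h3 (locPrime_val_lt hO hp)
        · right
          rcases CurvesAt.lt_or_eq hV q with h4 | h4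
          · exact CurvesAt.unique hV hVq hq h4 (locPrime_val_lt hO hq)
          · exfalso
            apply h
            change lenAt O V (tame V p q) = 0
            rw [tame_eq_one ((ord_eq_zero_iff hV.1 hp0).2 h3) ((ord_eq_zero_iff hV.1 hq0).2 h4),
              lenAt_one hO hV]
      · rintro ⟨hV, h⟩
        refine ⟨?_, h⟩
        rcases hV with hV | hV
        · rw [hV]; exact hVp
        · rw [hV]; exact hVq
    rw [hsub, finsum_mem_pair hne, tame_unit_right hVp.1 h1, tame_unit_left hVq.1 h2 hq0,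
      lenAt_zpow hO hVp ((res_ne_zero_iff (mem_of_val_one h1)).2 h1),
      lenAt_zpow hO hVq ((res_ne_zero_iff (mem_of_val_one h2)).2 h2),
      lenAt_res hO hVp h1, lenAt_res hO hVq h2, lenO_eq hVp hp (locPrime_val_lt hO hp),
      lenO_eq hVq hq (locPrime_val_lt hO hq), ord_prime hp hVp (locPrime_val_lt hO hp),
      ord_prime hq hVq (locPrime_val_lt hO hq), len2_comm q p]
    ring

/-- **Reciprocity at a point**: the sum over the curves through a regular point of the orders of the
tame symbols of two functions is zero. -/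
theorem gersten (hO : Loc2 O) {f g : F} (hf : f ≠ 0) (hg : g ≠ 0) :
    ∑ᶠ (V) (_ : V ∈ CurvesAt O), lenAt O V (tame V f g) = 0 := by
  change totalLen O f g = 0
  refine hO.induct (fun f => totalLen O f g) (fun a b ha hb => totalLen_mul hO ha hb hg)
    (fun u hu => totalLen_unit hO hu hg) ?_ hf
  intro p hp
  have hp0 : (p : F) ≠ 0 := fun h => hp.ne_zero (Subtype.ext h)
  have h1 : totalLen O g p = 0 := by
    refine hO.induct (fun g => totalLen O g p) (fun a b ha hb => totalLen_mul hO ha hb hp0)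
      (fun u hu => totalLen_unit hO hu hp0) ?_ hg
    intro q hq
    exact totalLen_prime hO hq hp
  change totalLen O (p : F) g = 0
  rw [totalLen_swap hO hg hp0, h1]
  rfl

end Main

end Pool.Agent.Lib.MP_b197b4_ntK
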