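import Mathlib

/-!
# Height one primes of a two dimensional regular local ring are principal

`O` is a Noetherian local domain whose maximal ideal is generated by two elements `x`, `z`. Every
prime ideal different from the maximal ideal is principal; if no power of the maximal ideal lies in
a principal ideal, `O` is factorial.
-/

set_option autoImplicit false
set_option linter.unusedSectionVars false

namespace Pool.Agent.K1

open IsLocalRing

variable {O : Type*} [CommRing O] [IsLocalRing O] [IsNoetherianRing O]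

theorem ufd_pow_le {x z : O} (hm : maximalIdeal O = Ideal.span {x, z}) (n : ℕ) :
    maximalIdeal O ^ n ≤ Ideal.span {z ^ n} ⊔ Ideal.span {x} := by
  induction n with
  | zero =>
    rw [pow_zero, pow_zero, Ideal.span_singleton_one]
    exact le_top.trans le_sup_left
  | succ n ih =>
    rw [pow_succ]
    rw [Ideal.mul_le]
    intro a ha b hb
    rw [hm] at hb
    obtain ⟨s, t, rfl⟩ := Ideal.mem_span_pair.1 hb
    obtain ⟨c, hc, d, hd, rfl⟩ := Submodule.mem_sup.1 (ih ha)
    obtain ⟨c', rfl⟩ := Ideal.mem_span_singleton'.1 hc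
    obtain ⟨d', rfl⟩ := Ideal.mem_span_singleton'.1 hd
    refine Submodule.mem_sup.2 ⟨c' * t * z ^ (n + 1), ?_, (c' * z ^ n * s + d' * (s * x + t * z)) * x,
      ?_, ?_⟩
    · exact Ideal.mem_span_singleton'.2 ⟨_, rfl⟩
    · exact Ideal.mem_span_singleton'.2 ⟨_, rfl⟩
    · ring

/-- an element outside `(x)` is `z ^ n` times a unit modulo `x` -/
theorem exists_order {x z : O} (hm : maximalIdeal O = Ideal.span {x, z}) {a : O}
    (ha : a ∉ Ideal.span {x}) : ∃ (n : ℕ) (u c : O), IsUnit u ∧ a = z ^ n * u + x * c := by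
  have hx : x ∈ maximalIdeal O := by
    rw [hm]
    exact Ideal.subset_span (Set.mem_insert _ _)
  have hxt : Ideal.span {x} ≤ maximalIdeal O := by
    rw [Ideal.span_singleton_le_iff_mem]
    exact hx
  have hne : (Ideal.span {x} : Ideal O) ≠ ⊤ := fun h =>
    (maximalIdeal.isMaximal O).ne_top (top_le_iff.1 (h ▸ hxt))
  -- Krull's intersection theorem in the quotient
  have hkr : ∃ n : ℕ, a ∉ maximalIdeal O ^ n ⊔ Ideal.span {x} := by
    by_contra hcon
    push Not at hcon
    have : Nontrivial (O ⧸ Ideal.span {x}) := Ideal.Quotient.nontrivial_iff.2 hne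
    have : IsLocalRing (O ⧸ Ideal.span {x}) :=
      IsLocalRing.of_surjective' (Ideal.Quotient.mk (Ideal.span {x}))
        Ideal.Quotient.mk_surjective
    set q := Ideal.Quotient.mk (Ideal.span {x}) with hq
    have hJ : (maximalIdeal O).map q ≠ ⊤ := by
      intro h
      have h1 := congrArg (Ideal.comap q) h
      rw [Ideal.comap_map_of_surjective q Ideal.Quotient.mk_surjective, Ideal.comap_top] at h1
      have h2 : Ideal.comap q ⊥ ≤ maximalIdeal O := by
        intro c hc
        rw [Ideal.mem_comap, Ideal.mem_bot, hq, Ideal.Quotient.eq_zero_iff_mem] at hc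
        exact hxt hc
      rw [sup_eq_left.2 h2] at h1
      exact (maximalIdeal.isMaximal O).ne_top h1
    have hbot := Ideal.iInf_pow_eq_bot_of_isLocalRing _ hJ
    have hqa : q a ∈ (⨅ i : ℕ, ((maximalIdeal O).map q) ^ i : Ideal (O ⧸ Ideal.span {x})) := by
      rw [Submodule.mem_iInf]
      intro i
      rw [← Ideal.map_pow]
      obtain ⟨c, hc, d, hd, hcd⟩ := Submodule.mem_sup.1 (hcon i)
      have h3 : q a = q c := by
        rw [← hcd, map_add, hq, Ideal.Quotient.eq_zero_iff_mem.2 hd, add_zero]
      rw [h3]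
      exact Ideal.mem_map_of_mem _ hc
    rw [hbot, Ideal.mem_bot, hq, Ideal.Quotient.eq_zero_iff_mem] at hqa
    exact ha hqa
  obtain ⟨N, hN⟩ := hkr
  have hex : ∃ n : ℕ, a ∉ Ideal.span {z ^ n} ⊔ Ideal.span {x} := by
    have hzN : Ideal.span {z ^ N} ≤ maximalIdeal O ^ N := by
      rw [Ideal.span_singleton_le_iff_mem]
      refine Ideal.pow_mem_pow ?_ _
      rw [hm]
      exact Ideal.subset_span (Set.mem_insert_of_mem _ rfl)
    exact ⟨N, fun h => hN (sup_le_sup_right hzN _ h)⟩
  classical
  set n := Nat.find hex with hn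
  have hspec : a ∉ Ideal.span {z ^ n} ⊔ Ideal.span {x} := Nat.find_spec hex
  have hn0 : n ≠ 0 := by
    intro h0
    rw [h0, pow_zero, Ideal.span_singleton_one, top_sup_eq] at hspec
    exact hspec Submodule.mem_top
  have hmin : a ∈ Ideal.span {z ^ (n - 1)} ⊔ Ideal.span {x} := by
    by_contra h
    exact Nat.find_min hex (m := n - 1) (by omega) h
  obtain ⟨c, hc, d, hd, hcd⟩ := Submodule.mem_sup.1 hmin
  obtain ⟨u, rfl⟩ := Ideal.mem_span_singleton'.1 hc
  obtain ⟨e, rfl⟩ := Ideal.mem_span_singleton'.1 hd
  refine ⟨n - 1, u, e, ?_, ?_⟩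
  · by_contra hu
    have hu1 : u ∈ maximalIdeal O := (mem_maximalIdeal _).2 hu
    rw [hm] at hu1
    obtain ⟨s, t, hst⟩ := Ideal.mem_span_pair.1 hu1
    apply hspec
    refine Submodule.mem_sup.2 ⟨t * z ^ n, Ideal.mem_span_singleton'.2 ⟨_, rfl⟩,
      (s * z ^ (n - 1) + e) * x, Ideal.mem_span_singleton'.2 ⟨_, rfl⟩, ?_⟩
    have hpow : z ^ n = z * z ^ (n - 1) := by
      rw [← pow_succ']
      congr 1
      omega
    rw [hpow, ← hcd, ← hst]
    ring
  · rw [← hcd]
    ring

/-- **Every prime ideal which is not the maximal ideal is principal.** -/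
theorem prime_principal [IsDomain O] {x z : O} (hm : maximalIdeal O = Ideal.span {x, z})
    (P : Ideal O) [hP : P.IsPrime] (hPm : P ≠ maximalIdeal O) : ∃ π : O, P = Ideal.span {π} := by
  classical
  have hx : x ∈ maximalIdeal O := by
    rw [hm]
    exact Ideal.subset_span (Set.mem_insert _ _)
  by_cases hxP : x ∈ P
  · refine ⟨x, le_antisymm ?_ ((Ideal.span_singleton_le_iff_mem _).2 hxP)⟩
    intro a ha
    by_contra hax
    obtain ⟨n, u, c, hu, rfl⟩ := exists_order hm hax
    have h1 : z ^ n * u ∈ P := by
      have h2 := Ideal.sub_mem _ ha (Ideal.mul_mem_right c _ hxP)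
      rwa [add_sub_cancel_right] at h2
    have h3 : z ^ n ∈ P := by
      rcases hP.mem_or_mem h1 with h | h
      · exact h
      · exact absurd (Ideal.eq_top_of_isUnit_mem _ h hu) hP.ne_top
    have h4 : z ∈ P := hP.mem_of_pow_mem _ h3
    apply hPm
    apply le_antisymm (IsLocalRing.le_maximalIdeal hP.ne_top)
    rw [hm, Ideal.span_le]
    intro y hy
    rcases hy with rfl | hy
    · exact hxP
    · rw [Set.mem_singleton_iff] at hy
      rw [hy]
      exact h4
  · by_cases hle : P ≤ Ideal.span {x}
    · -- then `P = x P`, so `P = 0`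
      refine ⟨0, ?_⟩
      rw [Ideal.span_singleton_zero]
      refine Submodule.eq_bot_of_le_smul_of_le_jacobson_bot (Ideal.span {x}) P
        (IsNoetherian.noetherian P) ?_ ?_
      · intro a ha
        obtain ⟨b, rfl⟩ := Ideal.mem_span_singleton'.1 (hle ha)
        have hb : b ∈ P := by
          rcases hP.mem_or_mem ha with h | h
          · exact h
          · exact absurd h hxP
        rw [mul_comm]
        exact Ideal.mul_mem_mul (Ideal.mem_span_singleton_self x) hb
      · rw [IsLocalRing.jacobson_eq_maximalIdeal ⊥ bot_ne_top,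
          Ideal.span_singleton_le_iff_mem]
        exact hx
    · -- an element of least order modulo `x`
      have hex : ∃ n : ℕ, ∃ a ∈ P, ∃ u c : O, IsUnit u ∧ a = z ^ n * u + x * c := by
        obtain ⟨a, ha, hax⟩ := SetLike.not_le_iff_exists.1 hle
        obtain ⟨n, u, c, hu, h⟩ := exists_order hm hax
        exact ⟨n, a, ha, u, c, hu, h⟩
      set n := Nat.find hex with hn
      obtain ⟨a, haP, u, c, hu, hac⟩ := Nat.find_spec hex
      refine ⟨a, le_antisymm ?_ ((Ideal.span_singleton_le_iff_mem _).2 haP)⟩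
      have key : P ≤ Ideal.span {a} ⊔ Ideal.span {x} • P := by
        intro p hp
        have h1 : ∃ e f : O, p = a * e + x * f := by
          by_cases hpx : p ∈ Ideal.span {x}
          · obtain ⟨f, rfl⟩ := Ideal.mem_span_singleton'.1 hpx
            exact ⟨0, f, by ring⟩
          · obtain ⟨n', u', c', hu', hp'⟩ := exists_order hm hpx
            have hle' : n ≤ n' := Nat.find_min' hex ⟨p, hp, u', c', hu', hp'⟩
            obtain ⟨v, hv⟩ := hu.exists_right_inv
            obtain ⟨j, rfl⟩ : ∃ j, n' = n + j := ⟨n' - n, by omega⟩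
            refine ⟨v * u' * z ^ j, c' - c * v * u' * z ^ j, ?_⟩
            rw [hp', hac]
            have e1 : (z ^ n * u + x * c) * (v * u' * z ^ j) +
                x * (c' - c * v * u' * z ^ j) =
                (u * v) * (z ^ (n + j) * u') + x * c' := by
              rw [pow_add]
              ring
            rw [e1, hv, one_mul]
        obtain ⟨e, f, hef⟩ := h1
        have h2 : x * f ∈ P := by
          have h3 := Ideal.sub_mem _ hp (Ideal.mul_mem_right e _ haP)
          rw [hef, add_sub_cancel_left] at h3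
          exact h3
        have h4 : f ∈ P := by
          rcases hP.mem_or_mem h2 with h | h
          · exact absurd h hxP
          · exact h
        refine Submodule.mem_sup.2 ⟨a * e, Ideal.mul_mem_right _ _
          (Ideal.mem_span_singleton_self a), x * f, ?_, hef.symm⟩
        exact Ideal.mul_mem_mul (Ideal.mem_span_singleton_self x) h4
      refine Submodule.le_of_le_smul_of_le_jacobson_bot (IsNoetherian.noetherian P) ?_ key
      rw [IsLocalRing.jacobson_eq_maximalIdeal ⊥ bot_ne_top,
        Ideal.span_singleton_le_iff_mem]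
      exact hx

/-- **`O` is factorial.** -/
theorem factorial [IsDomain O] {x z : O} (hm : maximalIdeal O = Ideal.span {x, z})
    (hdim : ∀ w ∈ maximalIdeal O, ∀ N : ℕ, ¬ maximalIdeal O ^ N ≤ Ideal.span {w}) :
    UniqueFactorizationMonoid O := by
  rw [UniqueFactorizationMonoid.iff_exists_prime_mem_of_isPrime]
  have main : ∀ I : Ideal O, I ≠ ⊥ → I.IsPrime → I ≠ maximalIdeal O → ∃ a ∈ I, Prime a := by
    intro I hI hp hne
    have := hp
    obtain ⟨π, rfl⟩ := prime_principal hm I hne
    have hπ : π ≠ 0 := by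
      rintro rfl
      exact hI Ideal.span_singleton_zero
    exact ⟨π, Ideal.mem_span_singleton_self π, (Ideal.span_singleton_prime hπ).1 hp⟩
  intro I hI hp
  by_cases hne : I = maximalIdeal O
  · subst hne
    -- a minimal prime of a nonzero element of the maximal ideal
    obtain ⟨w, hw, hw0⟩ := Submodule.exists_mem_ne_zero_of_ne_bot hI
    by_contra hcon
    push Not at hcon
    have hall : ∀ Q ∈ (Ideal.span {w}).minimalPrimes, Q = maximalIdeal O := by
      intro Q hQ
      by_contra hQm
      have hQp : Q.IsPrime := hQ.1.1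
      have hwQ : w ∈ Q := hQ.1.2 (Ideal.mem_span_singleton_self w)
      have hQb : Q ≠ ⊥ := by
        rintro rfl
        exact hw0 ((Submodule.mem_bot _).1 hwQ)
      obtain ⟨a, ha, hap⟩ := main Q hQb hQp hQm
      exact hcon a (IsLocalRing.le_maximalIdeal hQp.ne_top ha) hap
    have hrad : (maximalIdeal O) ≤ (Ideal.span {w}).radical := by
      rw [← Ideal.sInf_minimalPrimes]
      refine le_sInf fun Q hQ => (hall Q hQ).ge
    obtain ⟨N, hN⟩ := Ideal.exists_pow_le_of_le_radical_of_fg hrad
      (IsNoetherian.noetherian (maximalIdeal O))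
    exact hdim w hw N hN
  · exact main I hI hp hne

end Pool.Agent.K1
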