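import Pool.Agent.Lib.MP_b197b4_ntK.Final
import Pool.Agent.Lib.MP_b197b4_ntK.Gersten
import Pool.Agent.Lib.MP_b197b4_ntK.Ufd

/-!
# MP_b197b4_nt, project K1: the local rings of the closed points
-/

set_option autoImplicit false

namespace Pool.Agent.Lib.MP_b197b4_ntK

open IsLocalRing

variable {k : Type} {F : Type} [Field k] [Field F] [Algebra k F]

section Loc

variable {A : Subalgebra k F} {m : Ideal A} {O : Subring F}

theorem IsLoc.coe_mem (hO : IsLoc A m O) (hm : m ≠ ⊤) (a : A) : (a : F) ∈ O := by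
  rw [hO]
  exact ⟨a, 1, (Ideal.ne_top_iff_one m).1 hm, by simp⟩

/-- The inclusion of `A` in `O`. -/
def IsLoc.incl (hO : IsLoc A m O) (hm : m ≠ ⊤) : A →+* O where
  toFun a := ⟨a, hO.coe_mem hm a⟩
  map_one' := rfl
  map_mul' _ _ := rfl
  map_zero' := rfl
  map_add' _ _ := rfl

theorem IsLoc.isLocalization (hO : IsLoc A m O) [hm : m.IsPrime] :
    letI := (hO.incl hm.ne_top).toAlgebra
    IsLocalization.AtPrime O m := by
  let := (hO.incl hm.ne_top).toAlgebra
  refine (isLocalization_iff _ _).2 ⟨?_, ?_, ?_⟩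
  · rintro ⟨s, hs⟩
    have hs0 : (s : F) ≠ 0 := coe_ne_zero_of_notMem hs
    have h1 : (s : F)⁻¹ ∈ O := by
      rw [hO]
      exact ⟨1, s, hs, by simp⟩
    apply IsUnit.of_mul_eq_one (⟨_, h1⟩ : O)
    apply Subtype.ext
    change (s : F) * (s : F)⁻¹ = 1
    exact mul_inv_cancel₀ hs0
  · intro z
    obtain ⟨a, s, hs, h⟩ := (hO z).1 z.2
    refine ⟨(a, ⟨s, hs⟩), ?_⟩
    apply Subtype.ext
    have hs0 : (s : F) ≠ 0 := coe_ne_zero_of_notMem hs
    change (z : F) * s = a
    rw [h]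
    field_simp
  · intro a b h
    refine ⟨1, ?_⟩
    have : (a : F) = b := congrArg (Subtype.val : O → F) h
    rw [Subtype.ext this]

theorem IsLoc.regular (hO : IsLoc A m O) (hA : Chart A) (hm : m.IsMaximal) :
    IsRegularLocalRing O ∧ ringKrullDim O = 2 := by
  have := hm.isPrime
  have := hA.regular
  let := (hO.incl hm.isPrime.ne_top).toAlgebra
  have := hO.isLocalization
  have := IsRegularRing.isRegularLocalRing_localization m
  refine ⟨IsRegularLocalRing.of_ringEquiv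
    (IsLocalization.algEquiv m.primeCompl (Localization.AtPrime m) O).toRingEquiv, ?_⟩
  rw [IsLocalization.AtPrime.ringKrullDim_eq_height m O, hA.height m hm]
  rfl

theorem two_generators (hr : IsRegularLocalRing O) (hd : ringKrullDim O = 2) :
    ∃ x z : O, maximalIdeal O = Ideal.span {x, z} := by
  have h1 := IsRegularLocalRing.spanFinrank_maximalIdeal (R := O)
  rw [hd] at h1
  have h2 : (maximalIdeal O).spanFinrank = 2 := by exact_mod_cast h1
  have hfg : (maximalIdeal O).FG := IsNoetherian.noetherian _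
  obtain ⟨s, hs1, hs2⟩ := Submodule.FG.exists_span_set_encard_eq_spanFinrank hfg
  rw [h2] at hs1
  obtain ⟨x, z, _, rfl⟩ := Set.encard_eq_two.1 (by exact_mod_cast hs1)
  exact ⟨x, z, hs2.symm⟩

/-- In dimension two no power of the maximal ideal lies in a principal ideal. -/
theorem not_pow_le [IsLocalRing O] [IsNoetherianRing O] (hd : ringKrullDim O = 2) (w : O)
    (hw : w ∈ maximalIdeal O) (N : ℕ) : ¬ maximalIdeal O ^ N ≤ Ideal.span {w} := by
  intro h
  have h1 : maximalIdeal O ∈ (Ideal.span {w}).minimalPrimes := by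
    refine ⟨⟨(maximalIdeal.isMaximal O).isPrime, (Ideal.span_singleton_le_iff_mem _).2 hw⟩, ?_⟩
    rintro P ⟨hP, hwP⟩ _
    exact Ideal.IsPrime.le_of_pow_le (hP := hP) (h.trans hwP)
  have h2 := Ideal.height_le_one_of_isPrincipal_of_mem_minimalPrimes (Ideal.span {w}) _ h1
  have h3 := IsLocalRing.maximalIdeal_height_eq_ringKrullDim (R := O)
  rw [hd] at h3
  have h4 : (maximalIdeal O).height = 2 := WithBot.coe_injective h3
  rw [h4] at h2
  exact absurd h2 (by decide)

theorem loc2_of_regular (hr : IsRegularLocalRing O) (hd : ringKrullDim O = 2)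
    (hf : ∀ x : F, ∃ a s : O, (s : F) ≠ 0 ∧ x = (a : F) / s) : Loc2 O := by
  obtain ⟨x, z, hxz⟩ := two_generators hr hd
  exact ⟨inferInstance, Pool.Agent.K1.factorial hxz (not_pow_le hd), hd.le, hf⟩

theorem IsLoc.frac (hO : IsLoc A m O) (hA : Chart A) (hm : m ≠ ⊤) (x : F) :
    ∃ a s : O, (s : F) ≠ 0 ∧ x = (a : F) / s := by
  have := hA.frac
  obtain ⟨a, b, hb, rfl⟩ := IsFractionRing.div_surjective (A := A) x
  refine ⟨⟨a, hO.coe_mem hm a⟩, ⟨b, hO.coe_mem hm b⟩, ?_, rfl⟩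
  intro h
  exact (nonZeroDivisors.ne_zero hb) (Subtype.ext h)

/-- The local ring of a closed point of a chart is factorial of dimension two. -/
theorem IsLoc.loc2 (hO : IsLoc A m O) (hA : Chart A) (hm : m.IsMaximal) : Loc2 O := by
  obtain ⟨h1, h2⟩ := hO.regular hA hm
  exact loc2_of_regular h1 h2 (hO.frac hA hm.isPrime.ne_top)

theorem IsLoc.isUnit (hO : IsLoc A m O) {s : A} (hs : s ∉ m) (hm : m ≠ ⊤) :
    IsUnit (⟨(s : F), hO.coe_mem hm s⟩ : O) := by
  have hs0 : (s : F) ≠ 0 := coe_ne_zero_of_notMem hs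
  have h1 : (s : F)⁻¹ ∈ O := by
    rw [hO]
    exact ⟨1, s, hs, by simp⟩
  apply IsUnit.of_mul_eq_one (⟨_, h1⟩ : O)
  apply Subtype.ext
  change (s : F) * (s : F)⁻¹ = 1
  exact mul_inv_cancel₀ hs0

/-- The curves of the chart through the point are the curves through the point. -/
theorem IsLoc.mem_curvesAt (hO : IsLoc A m O) (hm : m ≠ ⊤) (V : ValuationSubring F) :
    V ∈ CurvesAt O ↔ IsCurve A V ∧ (O : Set F) ⊆ V := by
  constructor
  · intro hV
    refine ⟨⟨hV.1, fun a ha => hV.2.1 a (hO.coe_mem hm ⟨a, ha⟩), ?_⟩, fun x hx => hV.2.1 x hx⟩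
    intro x hx
    obtain ⟨a, s, hs, rfl⟩ := hV.2.2 x hx
    obtain ⟨a₁, t₁, ht₁, ha⟩ := (hO a).1 a.2
    obtain ⟨s₁, t₂, ht₂, hs'⟩ := (hO s).1 s.2
    have h1 : V.valuation (t₁ : F) = 1 := CurvesAt.isUnit hV (hO.isUnit ht₁ hm)
    have h2 : V.valuation (t₂ : F) = 1 := CurvesAt.isUnit hV (hO.isUnit ht₂ hm)
    refine ⟨a₁ * t₂, t₁ * s₁, mul_mem a₁.2 t₂.2, mul_mem t₁.2 s₁.2, ?_, ?_⟩
    · rw [hs', map_div₀, h2, div_one] at hs
      rw [map_mul, h1, hs, one_mul]
    · rw [ha, hs', div_div_div_eq]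
  · rintro ⟨hV, hOV⟩
    refine ⟨hV.1, fun a ha => hOV ha, ?_⟩
    intro x hx
    obtain ⟨a, s, ha, hs, h1, rfl⟩ := hV.2.2 x hx
    exact ⟨⟨a, hO.coe_mem hm ⟨a, ha⟩⟩, ⟨s, hO.coe_mem hm ⟨s, hs⟩⟩, h1, rfl⟩

end Loc

section Sep

/-- Separatedness of a set of charts. -/
def Sep (M : Set (Subalgebra k F)) : Prop :=
  ∀ V : ValuationSubring F, ∀ A ∈ M, ∀ B ∈ M, (∀ a ∈ A, a ∈ V) → (∀ b ∈ B, b ∈ V) →
    locAt A V ⊆ locAt B V

theorem locAt_of_frac {A : Subalgebra k F} {V : ValuationSubring F}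
    {x y : F} (hx : x ∈ locAt A V) (hy : y ∈ locAt A V) (hy1 : V.valuation y = 1) :
    x / y ∈ locAt A V := by
  obtain ⟨a, s, ha, hs, h1, rfl⟩ := hx
  obtain ⟨b, t, hb, ht, h2, rfl⟩ := hy
  rw [map_div₀, h2, div_one] at hy1
  refine ⟨a * t, s * b, mul_mem ha ht, mul_mem hs hb, ?_, ?_⟩
  · rw [map_mul, h1, hy1, one_mul]
  · rw [div_div_div_eq]

/-- The charts of projective coordinates are separated. -/
theorem sep_charts {n : ℕ} {x : Fin (n + 1) → F} (hx : ∀ i, x i ≠ 0) : Sep (charts k x) := by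
  rintro V _ ⟨i, rfl⟩ _ ⟨l, rfl⟩ hA hB
  -- the unit `x l / x i`
  have hil : x i / x l ∈ Algebra.adjoin k (Set.range fun j => x j / x l) :=
    Algebra.subset_adjoin ⟨i, rfl⟩
  have hli : x l / x i ∈ Algebra.adjoin k (Set.range fun j => x j / x i) :=
    Algebra.subset_adjoin ⟨l, rfl⟩
  have h1 := (ValuationSubring.valuation_le_one_iff V _).2 (hA _ hli)
  have h2 := (ValuationSubring.valuation_le_one_iff V _).2 (hB _ hil)
  have h3 : V.valuation (x i / x l) * V.valuation (x l / x i) = 1 := by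
    rw [← map_mul]
    have : x i / x l * (x l / x i) = 1 := by
      have := hx i
      have := hx l
      field_simp
    rw [this, map_one]
  have h4 : V.valuation (x i / x l) = 1 := by
    refine le_antisymm h2 ?_
    calc (1 : _) = V.valuation (x i / x l) * V.valuation (x l / x i) := h3.symm
      _ ≤ V.valuation (x i / x l) * 1 := by gcongr
      _ = _ := mul_one _
  -- the elements of the first chart
  have h5 : ∀ y ∈ Algebra.adjoin k (Set.range fun j => x j / x i),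
      ∃ (N : ℕ) (b : F), b ∈ Algebra.adjoin k (Set.range fun j => x j / x l) ∧
        y = b / (x i / x l) ^ N := by
    have hne : x i / x l ≠ 0 := div_ne_zero (hx i) (hx l)
    intro y hy
    induction hy using Algebra.adjoin_induction with
    | mem y hy =>
      obtain ⟨j, rfl⟩ := hy
      refine ⟨1, x j / x l, Algebra.subset_adjoin ⟨j, rfl⟩, ?_⟩
      have := hx i
      have := hx l
      field_simp
    | algebraMap c =>
      exact ⟨0, algebraMap k F c, Subalgebra.algebraMap_mem _ c, by simp⟩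
    | add y z _ _ hy hz =>
      obtain ⟨N, b, hb, rfl⟩ := hy
      obtain ⟨N', b', hb', rfl⟩ := hz
      refine ⟨N + N', b * (x i / x l) ^ N' + (x i / x l) ^ N * b',
        add_mem (mul_mem hb (pow_mem hil _)) (mul_mem (pow_mem hil _) hb'), ?_⟩
      rw [div_add_div _ _ (pow_ne_zero _ hne) (pow_ne_zero _ hne), pow_add]
    | mul y z _ _ hy hz =>
      obtain ⟨N, b, hb, rfl⟩ := hy
      obtain ⟨N', b', hb', rfl⟩ := hz
      refine ⟨N + N', b * b', mul_mem hb hb', ?_⟩
      rw [div_mul_div_comm, pow_add]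
  rintro y ⟨a, s, ha, hs, h6, rfl⟩
  obtain ⟨N, b, hb, rfl⟩ := h5 a ha
  obtain ⟨N', b', hb', rfl⟩ := h5 s hs
  have hp : ∀ N : ℕ, V.valuation ((x i / x l) ^ N) = 1 := fun N => by
    rw [map_pow, h4, one_pow]
  have hq : ∀ N : ℕ, (x i / x l) ^ N ∈ Algebra.adjoin k (Set.range fun j => x j / x l) :=
    fun N => pow_mem hil N
  rw [div_div_div_eq]
  refine ⟨b * (x i / x l) ^ N', (x i / x l) ^ N * b', mul_mem hb (hq N'), mul_mem (hq N) hb', ?_, rfl⟩
  rw [map_div₀, hp, div_one] at h6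
  rw [map_mul, hp, h6, one_mul]

theorem Surf.sep {n : ℕ} {x : Fin (n + 1) → F} (hx : Surf k x) : Sep (charts k x) :=
  sep_charts hx.ne

/-- A curve of a separated set of charts is a curve of every chart contained in `V`. -/
theorem isCurve_of_sep {M : Set (Subalgebra k F)} (hM : Sep M) {V : ValuationSubring F}
    (hV : V ∈ Curves M) {A : Subalgebra k F} (hA : A ∈ M) (hAV : ∀ a ∈ A, a ∈ V) :
    IsCurve A V := by
  obtain ⟨B, hB, hVB⟩ := hV
  exact ⟨hVB.1, hAV, fun x hx => hM V B hB A hA hVB.2.1 hAV (hVB.2.2 x hx)⟩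

/-- The curves through a closed point. -/
theorem curves_point {M : Set (Subalgebra k F)} (hM : Sep M) {O : Subring F} (hO : O ∈ Points M)
    (V : ValuationSubring F) : (V ∈ Curves M ∧ (O : Set F) ⊆ V) ↔ V ∈ CurvesAt O := by
  obtain ⟨A, hA, m, hm, hAO⟩ := hO
  rw [hAO.mem_curvesAt hm.isPrime.ne_top]
  constructor
  · rintro ⟨hV, hOV⟩
    exact ⟨isCurve_of_sep hM hV hA fun a ha => hOV (hAO.coe_mem hm.isPrime.ne_top ⟨a, ha⟩), hOV⟩
  · rintro ⟨hV, hOV⟩
    exact ⟨⟨A, hA, hV⟩, hOV⟩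

theorem loc2_of_points {M : Set (Subalgebra k F)} (hch : ∀ A ∈ M, Chart A) {O : Subring F}
    (hO : O ∈ Points M) : Loc2 O := by
  obtain ⟨A, hA, m, hm, hAO⟩ := hO
  exact hAO.loc2 (hch A hA) hm

end Sep

section Length

variable {O : Subring F} {V : ValuationSubring F}

theorem mem_curveLoc (hV : V ∈ CurvesAt O) (c : ResidueField V) :
    c ∈ curveLoc O V ↔ ∃ a : O, res V (a : F) = c := by
  unfold curveLoc
  constructor
  · rintro ⟨y, hy, rfl⟩
    exact ⟨⟨(y : F), hy⟩, res_coe y⟩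
  · rintro ⟨a, rfl⟩
    exact ⟨⟨(a : F), hV.2.1 a a.2⟩, a.2, (res_of_mem _).symm⟩

/-- The map of `O` onto the local ring of the curve. -/
noncomputable def toCurveLoc (hV : V ∈ CurvesAt O) : O →+* curveLoc O V where
  toFun a := ⟨res V (a : F), (mem_curveLoc hV _).2 ⟨a, rfl⟩⟩
  map_one' := Subtype.ext (res_one V)
  map_mul' a b := Subtype.ext (res_mul (hV.2.1 a a.2) (hV.2.1 b b.2))
  map_zero' := Subtype.ext (res_zero V)
  map_add' a b := Subtype.ext (res_add (hV.2.1 a a.2) (hV.2.1 b b.2))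

theorem toCurveLoc_surjective (hV : V ∈ CurvesAt O) : Function.Surjective (toCurveLoc hV) := by
  rintro ⟨c, hc⟩
  obtain ⟨a, rfl⟩ := (mem_curveLoc hV c).1 hc
  exact ⟨a, rfl⟩

theorem toCurveLoc_eq_zero (hO : Loc2 O) (hV : V ∈ CurvesAt O) (a : O) :
    toCurveLoc hV a = 0 ↔ a ∈ ctr O V := by
  obtain ⟨p, hp, hpV⟩ := CurvesAt.exists_prime hO hV
  rw [ctr_eq hV hp hpV, Ideal.mem_span_singleton, ← CurvesAt.dvd_iff hV hp hpV,
    ← res_eq_zero_iff (hV.2.1 a a.2)]
  exact Subtype.ext_iff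

/-- The length in the local ring of the curve. -/
theorem length_curveLoc (hO : Loc2 O) (hV : V ∈ CurvesAt O) (a : O) :
    Module.length (curveLoc O V) (curveLoc O V ⧸ Ideal.span {toCurveLoc hV a}) =
      Module.length O (O ⧸ (ctr O V ⊔ Ideal.span {a})) := by
  let : Algebra O (curveLoc O V) := (toCurveLoc hV).toAlgebra
  have h1 := Module.length_eq_of_surjective (R := curveLoc O V) (S := O)
    (M := curveLoc O V ⧸ Ideal.span {toCurveLoc hV a}) (toCurveLoc_surjective hV)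
  rw [← h1]
  let f : O →ₗ[O] curveLoc O V ⧸ Ideal.span {toCurveLoc hV a} :=
    Algebra.linearMap O (curveLoc O V ⧸ Ideal.span {toCurveLoc hV a})
  have hf : ∀ b : O, f b = Ideal.Quotient.mk _ (toCurveLoc hV b) := fun b => rfl
  have hs : Function.Surjective f := by
    intro c
    obtain ⟨c, rfl⟩ := Ideal.Quotient.mk_surjective c
    obtain ⟨b, rfl⟩ := toCurveLoc_surjective hV c
    exact ⟨b, hf b⟩
  have hk : LinearMap.ker f = ctr O V ⊔ Ideal.span {a} := by
    ext b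
    rw [LinearMap.mem_ker, hf, Ideal.Quotient.eq_zero_iff_mem, Ideal.mem_span_singleton,
      Submodule.mem_sup]
    constructor
    · rintro ⟨c, hc⟩
      obtain ⟨c, rfl⟩ := toCurveLoc_surjective hV c
      refine ⟨b - a * c, ?_, a * c, ?_, by ring⟩
      · rw [← toCurveLoc_eq_zero hO hV, map_sub, map_mul, hc, sub_self]
      · exact Ideal.mul_mem_right _ _ (Ideal.mem_span_singleton_self a)
    · rintro ⟨c, hc, d, hd, rfl⟩
      obtain ⟨e, rfl⟩ := Ideal.mem_span_singleton.1 hd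
      rw [map_add, (toCurveLoc_eq_zero hO hV c).2 hc, zero_add, map_mul]
      exact dvd_mul_right _ _
  rw [← hk]
  exact (f.quotKerEquivOfSurjective hs).length_eq.symm

theorem length_ne_top (hO : Loc2 O) (hV : V ∈ CurvesAt O) {a : O}
    (ha : V.valuation (a : F) = 1) :
    Module.length O (O ⧸ (ctr O V ⊔ Ideal.span {a})) ≠ ⊤ := by
  obtain ⟨p, hp, hpV⟩ := CurvesAt.exists_prime hO hV
  have := hO.noeth
  have h := Pool.Agent.K1.len2_prime_ne_top hO.dim hp ((CurvesAt.unit_iff hV hp hpV a).1 ha)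
  unfold Pool.Agent.K1.len2 at h
  rw [Ideal.span_insert] at h
  rw [ctr_eq hV hp hpV]
  exact h

theorem hasLen_iff (hO : Loc2 O) (hV : V ∈ CurvesAt O) (c : ResidueField V) (n : ℤ) :
    HasLen (curveLoc O V) c n ↔ HasLenO O V c n := by
  have hcoe : ∀ a : O, ((toCurveLoc hV a : curveLoc O V) : ResidueField V) = res V (a : F) :=
    fun _ => rfl
  have hlen : ∀ a : O, V.valuation (a : F) = 1 → ∀ r : ℕ,
      Module.length (curveLoc O V) (curveLoc O V ⧸ Ideal.span {toCurveLoc hV a}) = r ↔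
        lenO O V a = r := by
    intro a ha r
    rw [length_curveLoc hO hV]
    unfold lenO
    have h := length_ne_top hO hV ha
    obtain ⟨j, hj⟩ := ENat.ne_top_iff_exists.1 h
    rw [← hj]
    simp only [ENat.toNat_natCast]
    norm_cast
  constructor
  · rintro ⟨a, b, r, s, ha, hb, hu, hr, hs, hn⟩
    obtain ⟨a, rfl⟩ := toCurveLoc_surjective hV a
    obtain ⟨b, rfl⟩ := toCurveLoc_surjective hV b
    have ha1 := (res_ne_zero_iff (hV.2.1 a a.2)).1 ha
    have hb1 := (res_ne_zero_iff (hV.2.1 b b.2)).1 hb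
    refine ⟨a, b, ha1, hb1, hu, ?_⟩
    rw [(hlen a ha1 r).1 hr, (hlen b hb1 s).1 hs, hn]
  · rintro ⟨a, b, ha1, hb1, hu, hn⟩
    refine ⟨toCurveLoc hV a, toCurveLoc hV b, (lenO O V a).toNat, (lenO O V b).toNat,
      (res_ne_zero_iff (hV.2.1 a a.2)).2 ha1, (res_ne_zero_iff (hV.2.1 b b.2)).2 hb1, hu,
      (hlen a ha1 _).2 ?_, (hlen b hb1 _).2 ?_, ?_⟩
    · unfold lenO
      simp
    · unfold lenO
      simp
    · rw [hn]
      unfold lenO
      simp

/-- The two definitions of the order by lengths agree. -/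
theorem len_curveLoc (hO : Loc2 O) (hV : V ∈ CurvesAt O) {c : ResidueField V} (hc : c ≠ 0) :
    len (curveLoc O V) c = lenAt O V c := by
  obtain ⟨n, hn⟩ := hasLenO_exists hV hc
  rw [lenAt_eq hO hV hn]
  have h : ∃ n, HasLen (curveLoc O V) c n := ⟨n, (hasLen_iff hO hV c n).2 hn⟩
  unfold len
  rw [dif_pos h]
  exact hasLenO_unique hO hV ((hasLen_iff hO hV c _).1 h.choose_spec) hn

end Length

end Pool.Agent.Lib.MP_b197b4_ntK
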