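import Mathlib
import Pool.Agent.Lib.MP_b197b4_ntK.Ord

/-!
# MP_b197b4_nt, project K1: curves on an affine chart and prime ideals of height one
-/

set_option autoImplicit false
set_option linter.style.haveILetI false

namespace Pool.Agent.Lib.MP_b197b4_ntK

open IsLocalRing

variable {k F : Type} [Field k] [Field F] [Algebra k F] {A : Subalgebra k F}
  {V V' : ValuationSubring F}

/-- `P` is the centre of `V` on `Spec A`. -/
def PrimeOf (A : Subalgebra k F) (V : ValuationSubring F) (P : Ideal A) : Prop :=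
  ∀ a : A, a ∈ P ↔ V.valuation (a : F) < 1

theorem PrimeOf.unique {P Q : Ideal A} (h : PrimeOf A V P) (h' : PrimeOf A V Q) : P = Q := by
  ext a
  rw [h a, h' a]

/-- The inclusion of `A` in a valuation ring. -/
def incl (h : ∀ a ∈ A, a ∈ V) : A →+* V where
  toFun a := ⟨a, h a a.2⟩
  map_one' := rfl
  map_mul' _ _ := rfl
  map_zero' := rfl
  map_add' _ _ := rfl

theorem PrimeOf.isPrime {P : Ideal A} (h : PrimeOf A V P) (hV : ∀ a ∈ A, a ∈ V) : P.IsPrime := by
  have : P = (maximalIdeal V).comap (incl hV) := by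
    ext a
    rw [h a, Ideal.mem_comap]
    exact (ValuationSubring.valuation_lt_one_iff V (incl hV a)).symm
  rw [this]
  infer_instance

theorem exists_primeOf (hV : ∀ a ∈ A, a ∈ V) : ∃ P : Ideal A, P.IsPrime ∧ PrimeOf A V P := by
  have h : PrimeOf A V ((maximalIdeal V).comap (incl hV)) := by
    intro a
    rw [Ideal.mem_comap]
    exact ValuationSubring.valuation_lt_one_iff V (incl hV a)
  exact ⟨_, h.isPrime hV, h⟩

theorem PrimeOf.val_one {P : Ideal A} (h : PrimeOf A V P) (hV : ∀ a ∈ A, a ∈ V) (a : A) :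
    a ∉ P ↔ V.valuation (a : F) = 1 := by
  rw [h a]
  have := (ValuationSubring.valuation_le_one_iff V _).2 (hV a a.2)
  constructor
  · intro h1
    exact le_antisymm this (not_lt.1 h1)
  · intro h1 h2
    rw [h1] at h2
    exact lt_irrefl _ h2

theorem ne_zero_of_val_one {x : F} (h : V.valuation x = 1) : x ≠ 0 := by
  rintro rfl
  simp at h

/-- `V` is the localisation of `A` at the prime ideal of the curve. -/
theorem IsCurve.isLocalization (hV : IsCurve A V) {P : Ideal A} (hP : PrimeOf A V P)
    [P.IsPrime] :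
    letI := (incl hV.2.1).toAlgebra
    IsLocalization.AtPrime V P := by
  letI := (incl hV.2.1).toAlgebra
  have halg : ∀ a : A, (algebraMap A V a : F) = a := fun a => rfl
  refine (isLocalization_iff _ _).2 ⟨?_, ?_, ?_⟩
  · rintro ⟨s, hs⟩
    have h1 : V.valuation (s : F) = 1 := (hP.val_one hV.2.1 s).1 hs
    exact (ValuationSubring.valuation_eq_one_iff V (algebraMap A V s)).2 h1
  · intro z
    obtain ⟨a, s, ha, hs, h1, h2⟩ := hV.2.2 z z.2
    refine ⟨(⟨a, ha⟩, ⟨⟨s, hs⟩, (hP.val_one hV.2.1 ⟨s, hs⟩).2 h1⟩), ?_⟩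
    apply Subtype.ext
    have hs0 : s ≠ 0 := ne_zero_of_val_one h1
    change (z : F) * s = a
    rw [h2]
    field_simp
  · intro a b h
    refine ⟨1, ?_⟩
    have : (a : F) = b := congrArg (Subtype.val : V → F) h
    rw [Subtype.ext this]

theorem IsCurve.height (hV : IsCurve A V) {P : Ideal A} (hP : PrimeOf A V P) : P.height = 1 := by
  haveI := hP.isPrime hV.2.1
  letI := (incl hV.2.1).toAlgebra
  haveI := hV.isLocalization hP
  haveI := hV.1
  have h1 := IsLocalization.AtPrime.ringKrullDim_eq_height P V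
  rw [IsDiscreteValuationRing.ringKrullDim_eq_one V] at h1
  exact_mod_cast h1.symm

theorem IsCurve.ne_bot (hV : IsCurve A V) {P : Ideal A} (hP : PrimeOf A V P) : P ≠ ⊥ := by
  rintro rfl
  have := hV.height hP
  rw [Ideal.height_bot] at this
  exact zero_ne_one this

/-- Localisation of a chart at a prime ideal of height one. -/
theorem dvr_localization (hA : Chart A) (P : Ideal A) [P.IsPrime] (hP : P.height = 1) :
    IsDiscreteValuationRing (Localization.AtPrime P) := by
  haveI := hA.regular
  haveI : IsRegularLocalRing (Localization.AtPrime P) := inferInstance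
  have hdim : ringKrullDim (Localization.AtPrime P) = 1 := by
    rw [IsLocalization.AtPrime.ringKrullDim_eq_height P, hP]
    rfl
  have h1 := (IsRegularLocalRing.iff_finrank_cotangentSpace (Localization.AtPrime P)).1 this
  rw [hdim] at h1
  exact IsLocalRing.finrank_CotangentSpace_eq_one_iff.1 (by exact_mod_cast h1)

/-- The subring of fractions with denominator outside of `P`. -/
def locSub (A : Subalgebra k F) (P : Ideal A) [hP : P.IsPrime] : Subring F where
  carrier := {x | ∃ a s : A, s ∉ P ∧ x = (a : F) / (s : F)}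
  mul_mem' := by
    rintro x y ⟨a, s, hs, rfl⟩ ⟨b, t, ht, rfl⟩
    refine ⟨a * b, s * t, fun h => ?_, ?_⟩
    · rcases hP.mem_or_mem h with h | h
      · exact hs h
      · exact ht h
    · push_cast
      rw [div_mul_div_comm]
  one_mem' := ⟨1, 1, (Ideal.ne_top_iff_one P).1 hP.ne_top, by simp⟩
  add_mem' := by
    rintro x y ⟨a, s, hs, rfl⟩ ⟨b, t, ht, rfl⟩
    refine ⟨a * t + s * b, s * t, fun h => ?_, ?_⟩
    · rcases hP.mem_or_mem h with h | h
      · exact hs h
      · exact ht h
    · have hs0 : (s : F) ≠ 0 := by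
        intro h
        have : s = 0 := Subtype.ext h
        exact hs (this ▸ P.zero_mem)
      have ht0 : (t : F) ≠ 0 := by
        intro h
        have : t = 0 := Subtype.ext h
        exact ht (this ▸ P.zero_mem)
      push_cast
      rw [div_add_div _ _ hs0 ht0]
  zero_mem' := ⟨0, 1, (Ideal.ne_top_iff_one P).1 hP.ne_top, by simp⟩
  neg_mem' := by
    rintro x ⟨a, s, hs, rfl⟩
    exact ⟨-a, s, hs, by push_cast; rw [neg_div]⟩

theorem coe_ne_zero_of_notMem {P : Ideal A} {s : A} (hs : s ∉ P) : (s : F) ≠ 0 := by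
  intro h
  have : s = 0 := Subtype.ext h
  exact hs (this ▸ P.zero_mem)

/-- Every prime ideal of height one is the prime ideal of a curve. -/
theorem exists_curve (hA : Chart A) (P : Ideal A) [hPp : P.IsPrime] (hP : P.height = 1) :
    ∃ V : ValuationSubring F, IsCurve A V ∧ PrimeOf A V P := by
  haveI := hA.frac
  haveI := dvr_localization hA P hP
  let S := Localization.AtPrime P
  have hdvd : ∀ a b : A, (∃ c s : A, s ∉ P ∧ a * s = b * c) ∨ (∃ c s : A, s ∉ P ∧ b * s = a * c) := by
    intro a b
    have key : ∀ a b : A, (algebraMap A S b ∣ algebraMap A S a) →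
        ∃ c s : A, s ∉ P ∧ a * s = b * c := by
      rintro a b ⟨z, hz⟩
      obtain ⟨⟨c, s⟩, hcs⟩ := IsLocalization.surj P.primeCompl z
      have : algebraMap A S (a * s) = algebraMap A S (b * c) := by
        rw [map_mul, hz, mul_assoc, hcs, map_mul]
      have hinj : Function.Injective (algebraMap A S) :=
        IsLocalization.injective S P.primeCompl_le_nonZeroDivisors
      exact ⟨c, s, s.2, hinj this⟩
    rcases ValuationRing.dvd_total (algebraMap A S a) (algebraMap A S b) with h | h
    · exact Or.inr (key b a h)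
    · exact Or.inl (key a b h)
  have hmem : ∀ x : F, x ∈ locSub A P ∨ x⁻¹ ∈ locSub A P := by
    intro x
    obtain ⟨a, b, hb, rfl⟩ := IsFractionRing.div_surjective (A := A) x
    have hb0 : (b : F) ≠ 0 := by
      intro h
      have : b = 0 := Subtype.ext h
      exact nonZeroDivisors.ne_zero hb this
    change (a : F) / (b : F) ∈ _ ∨ ((a : F) / (b : F))⁻¹ ∈ _
    by_cases ha0 : (a : F) = 0
    · left
      rw [ha0, zero_div]
      exact zero_mem _
    rcases hdvd a b with ⟨c, s, hs, h⟩ | ⟨c, s, hs, h⟩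
    · left
      refine ⟨c, s, hs, ?_⟩
      have h2 : (a : F) * s = b * c := by exact_mod_cast congrArg (Subtype.val : A → F) h
      have hs0 := coe_ne_zero_of_notMem hs
      rw [div_eq_div_iff hb0 hs0, h2, mul_comm]
    · right
      refine ⟨c, s, hs, ?_⟩
      have h2 : (b : F) * s = a * c := by exact_mod_cast congrArg (Subtype.val : A → F) h
      have hs0 := coe_ne_zero_of_notMem hs
      rw [inv_div, div_eq_div_iff ha0 hs0, h2, mul_comm]
  let V : ValuationSubring F := ValuationSubring.ofSubring (locSub A P) hmem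
  have hV : ∀ x, x ∈ V ↔ ∃ a s : A, s ∉ P ∧ x = (a : F) / (s : F) := by
    intro x
    exact ValuationSubring.mem_ofSubring _ _ x
  have hAV : ∀ a ∈ A, a ∈ V := by
    intro a ha
    rw [hV]
    exact ⟨⟨a, ha⟩, 1, (Ideal.ne_top_iff_one P).1 hPp.ne_top, by simp⟩
  have hPV : PrimeOf A V P := by
    intro a
    constructor
    · intro haP
      by_contra hlt
      have h1 : V.valuation (a : F) = 1 :=
        le_antisymm ((ValuationSubring.valuation_le_one_iff V _).2 (hAV a a.2)) (not_lt.1 hlt)
      have h2 : (a : F)⁻¹ ∈ V := by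
        rw [← ValuationSubring.valuation_le_one_iff, map_inv₀, h1, inv_one]
      rw [hV] at h2
      obtain ⟨c, s, hs, h3⟩ := h2
      have ha0 : (a : F) ≠ 0 := ne_zero_of_val_one h1
      have hs0 := coe_ne_zero_of_notMem hs
      have h4 : (s : F) = a * c := by
        field_simp at h3
        rw [h3]
      have h5 : s = a * c := Subtype.ext (by push_cast; exact h4)
      exact hs (h5 ▸ P.mul_mem_right c haP)
    · intro hlt
      by_contra haP
      have h2 : (a : F)⁻¹ ∈ V := by
        rw [hV]
        exact ⟨1, a, haP, by push_cast; rw [one_div]⟩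
      rw [← ValuationSubring.valuation_le_one_iff, map_inv₀] at h2
      have ha0 : (a : F) ≠ 0 := coe_ne_zero_of_notMem haP
      have h3 : 0 < V.valuation (a : F) := by rw [Valuation.pos_iff]; exact ha0
      have h4 := (inv_le_one₀ h3).1 h2
      exact absurd hlt (not_lt.2 h4)
  letI := (incl hAV).toAlgebra
  haveI hloc : IsLocalization.AtPrime V P := by
    refine (isLocalization_iff _ _).2 ⟨?_, ?_, ?_⟩
    · rintro ⟨s, hs⟩
      exact (ValuationSubring.valuation_eq_one_iff V (algebraMap A V s)).2
        ((hPV.val_one hAV s).1 hs)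
    · intro z
      obtain ⟨a, s, hs, h2⟩ := (hV z).1 z.2
      refine ⟨(a, ⟨s, hs⟩), ?_⟩
      apply Subtype.ext
      have hs0 := coe_ne_zero_of_notMem hs
      change (z : F) * s = a
      rw [h2]
      field_simp
    · intro a b h
      refine ⟨1, ?_⟩
      have : (a : F) = b := congrArg (Subtype.val : V → F) h
      rw [Subtype.ext this]
  have hdvr : IsDiscreteValuationRing V :=
    IsDiscreteValuationRing.RingEquivClass.isDiscreteValuationRing
      (IsLocalization.algEquiv P.primeCompl (Localization.AtPrime P) V)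
  refine ⟨V, ⟨hdvr, hAV, ?_⟩, hPV⟩
  intro x hx
  obtain ⟨a, s, hs, h2⟩ := (hV x).1 hx
  exact ⟨a, s, a.2, s.2, (hPV.val_one hAV s).1 hs, h2⟩

/-- A curve is determined by its prime ideal. -/
theorem curve_unique (hV : IsCurve A V) (hV' : IsCurve A V') {P : Ideal A} (hP : PrimeOf A V P)
    (hP' : PrimeOf A V' P) : V = V' := by
  have key : ∀ (W W' : ValuationSubring F), IsCurve A W → IsCurve A W' → PrimeOf A W P →
      PrimeOf A W' P → ∀ x ∈ W, x ∈ W' := by
    intro W W' hW hW' h h' x hx
    obtain ⟨a, s, ha, hs, h1, h2⟩ := hW.2.2 x hx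
    have h3 : V.valuation 1 = 1 := map_one _
    have h4 : W'.valuation s = 1 := (h'.val_one hW'.2.1 ⟨s, hs⟩).1 ((h.val_one hW.2.1 ⟨s, hs⟩).2 h1)
    rw [h2, div_eq_mul_inv]
    refine mul_mem (hW'.2.1 a ha) ?_
    rw [← ValuationSubring.valuation_le_one_iff, map_inv₀, h4, inv_one]
  ext x
  exact ⟨key V V' hV hV' hP hP' x, key V' V hV' hV hP' hP x⟩

/-- Only finitely many curves of the chart pass through the zeros and poles of `f`. -/
theorem curves_finite (hA : Chart A) (f : F) (hf : f ≠ 0) :
    {V | IsCurve A V ∧ ord V f ≠ 0}.Finite := by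
  haveI := hA.frac
  haveI := hA.regular
  obtain ⟨a, b, hb, rfl⟩ := IsFractionRing.div_surjective (A := A) f
  change ((a : F) / (b : F)) ≠ 0 at hf
  have ha0 : (a : F) ≠ 0 := (div_ne_zero_iff.1 hf).1
  have hb0 : (b : F) ≠ 0 := (div_ne_zero_iff.1 hf).2
  have key : ∀ c : A, (c : F) ≠ 0 → {V | IsCurve A V ∧ ord V (c : F) ≠ 0}.Finite := by
    intro c hc
    have hmin : (Ideal.span {c} : Ideal A).minimalPrimes.Finite :=
      Ideal.finite_minimalPrimes_of_isNoetherianRing A _
    have hex : ∀ V : ValuationSubring F, IsCurve A V → ∃ P : Ideal A, P.IsPrime ∧ PrimeOf A V P :=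
      fun V hV => exists_primeOf hV.2.1
    classical
    let φ : ValuationSubring F → Ideal A := fun V =>
      if h : IsCurve A V then (hex V h).choose else ⊥
    have hφ : ∀ V, IsCurve A V → (φ V).IsPrime ∧ PrimeOf A V (φ V) := by
      intro V hV
      simp only [φ, dif_pos hV]
      exact (hex V hV).choose_spec
    refine Set.Finite.of_finite_image (f := φ) (hmin.subset ?_) ?_
    · rintro _ ⟨V, ⟨hV, hord⟩, rfl⟩
      obtain ⟨hp, hP⟩ := hφ V hV
      have hcP : c ∈ φ V := by
        rw [hP c]
        refine lt_of_le_of_ne ((ValuationSubring.valuation_le_one_iff V _).2 (hV.2.1 c c.2)) ?_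
        intro h1
        exact hord ((ord_eq_zero_iff hV.1 hc).2 h1)
      refine ⟨⟨hp, (Ideal.span_singleton_le_iff_mem _).2 hcP⟩, ?_⟩
      rintro Q ⟨hQ, hcQ⟩ hQP
      by_contra hnot
      have hlt : Q < φ V := lt_of_le_of_ne hQP (fun h => hnot h.ge)
      have h1 := hV.height hP
      have hQ0 : Q ≠ ⊥ := by
        rintro rfl
        have := (Ideal.span_singleton_le_iff_mem _).1 hcQ
        rw [Ideal.mem_bot] at this
        exact hc (by rw [this]; rfl)
      have h2 : (⊥ : Ideal A) < Q := bot_lt_iff_ne_bot.2 hQ0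
      have h3 : Q.height < (φ V).height := by
        haveI := hp
        haveI := hQ
        exact Ideal.height_strict_mono_of_isPrime hlt
      have h4 : (⊥ : Ideal A).height < Q.height := by
        haveI : (⊥ : Ideal A).IsPrime := Ideal.isPrime_bot
        haveI := hQ
        exact Ideal.height_strict_mono_of_isPrime h2
      rw [h1] at h3
      rw [Ideal.height_bot] at h4
      have h5 : Q.height = 0 := Order.lt_one_iff.1 h3
      rw [h5] at h4
      exact lt_irrefl _ h4
    · rintro V ⟨hV, _⟩ V' ⟨hV', _⟩ h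
      have h1 := (hφ V hV).2
      have h2 := (hφ V' hV').2
      change φ V = φ V' at h
      rw [← h] at h2
      exact curve_unique hV hV' h1 h2
  refine ((key a ha0).union (key b hb0)).subset ?_
  rintro V ⟨hV, hord⟩
  by_contra h
  simp only [Set.mem_union, Set.mem_ofPred_eq, not_or, not_and, not_not] at h
  apply hord
  change ord V ((a : F) / (b : F)) = 0
  rw [ord_div hV.1 ha0 hb0, h.1 hV, h.2 hV, sub_self]

/-- The residue field of a curve is the field of fractions of `A / P`. -/
theorem IsCurve.res_frac (hV : IsCurve A V) (c : ResidueField V) :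
    ∃ a s : A, V.valuation (s : F) = 1 ∧ c = res V (a : F) / res V (s : F) := by
  obtain ⟨x, hx, rfl⟩ := res_surj V c
  obtain ⟨a, s, ha, hs, h1, h2⟩ := hV.2.2 x hx
  refine ⟨⟨a, ha⟩, ⟨s, hs⟩, h1, ?_⟩
  rw [h2, res_div (hV.2.1 a ha) h1]

/-- The map of `A` to the residue field of a curve. -/
noncomputable def resHom (h : ∀ a ∈ A, a ∈ V) : A →+* ResidueField V :=
  (residue V).comp (incl h)

theorem resHom_apply (h : ∀ a ∈ A, a ∈ V) (a : A) : resHom h a = res V (a : F) := by
  rw [res_of_mem (h a a.2)]
  rfl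

theorem resHom_ker (h : ∀ a ∈ A, a ∈ V) {P : Ideal A} (hP : PrimeOf A V P) :
    RingHom.ker (resHom h) = P := by
  ext a
  rw [RingHom.mem_ker, resHom_apply, res_eq_zero_iff (h a a.2), hP a]

end Pool.Agent.Lib.MP_b197b4_ntK
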