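import Mathlib
import Pool.Agent.Lib.MP_b197b4_ntK.Curve
import Pool.Agent.Lib.MP_b197b4_ntK.Defs2
import Pool.Agent.Lib.MP_b197b4_ntK.Ufd

/-!
# MP_b197b4_nt, project K1: functions without zeros and poles are constant

A chart is the intersection of its curves (local rings at primes of height one), every valuation
ring over `k` contains one of the charts of a projective surface, and an element of all valuation
rings over `k` is algebraic over `k`.
-/

set_option autoImplicit false
set_option linter.style.haveILetI false

namespace Pool.Agent.Lib.MP_b197b4_ntK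

open IsLocalRing

variable {k F : Type} [Field k] [Field F] [Algebra k F] {A : Subalgebra k F}

/-- The maximal ideal of the local ring of a closed point has height two. -/
theorem Chart.max_height (hA : Chart A) (m : Ideal A) [hm : m.IsMaximal] :
    (maximalIdeal (Localization.AtPrime m)).height = 2 := by
  have h1 := IsLocalRing.maximalIdeal_height_eq_ringKrullDim (R := Localization.AtPrime m)
  rw [IsLocalization.AtPrime.ringKrullDim_eq_height m, hA.height m hm] at h1
  exact_mod_cast h1

/-- The maximal ideal of the local ring of a closed point is generated by two elements. -/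
theorem Chart.max_pair (hA : Chart A) (m : Ideal A) [hm : m.IsMaximal] :
    ∃ x z : Localization.AtPrime m, maximalIdeal (Localization.AtPrime m) = Ideal.span {x, z} := by
  classical
  haveI := hA.regular
  haveI : IsRegularLocalRing (Localization.AtPrime m) :=
    IsRegularRing.isRegularLocalRing_localization m
  have h1 := IsRegularLocalRing.spanFinrank_maximalIdeal (R := Localization.AtPrime m)
  rw [IsLocalization.AtPrime.ringKrullDim_eq_height m, hA.height m hm] at h1
  have h2 : (maximalIdeal (Localization.AtPrime m)).spanFinrank = 2 := by exact_mod_cast h1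
  obtain ⟨s, hs, hs2⟩ := Submodule.FG.exists_span_finset_card_eq_spanFinrank
    (IsNoetherian.noetherian (maximalIdeal (Localization.AtPrime m)))
  rw [h2, Finset.card_eq_two] at hs
  obtain ⟨x, z, _, rfl⟩ := hs
  refine ⟨x, z, ?_⟩
  rw [← hs2]
  simp

/-- The local ring of a chart at a closed point is factorial. -/
theorem Chart.factorial (hA : Chart A) (m : Ideal A) [hm : m.IsMaximal] :
    UniqueFactorizationMonoid (Localization.AtPrime m) := by
  haveI := hA.regular
  haveI : IsNoetherianRing (Localization.AtPrime m) :=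
    IsLocalization.isNoetherianRing m.primeCompl _ inferInstance
  obtain ⟨x, z, hxz⟩ := hA.max_pair m
  refine Pool.Agent.K1.factorial hxz ?_
  intro w hw N hN
  have h1 : maximalIdeal (Localization.AtPrime m) ∈ (Ideal.span {w}).minimalPrimes := by
    refine ⟨⟨inferInstance, (Ideal.span_singleton_le_iff_mem _).2 hw⟩, ?_⟩
    rintro q ⟨hq, hwq⟩ _
    exact hq.le_of_pow_le (hN.trans hwq)
  have h2 := Ideal.height_le_one_of_isPrincipal_of_mem_minimalPrimes _ _ h1
  rw [hA.max_height m] at h2
  exact absurd h2 (by decide)

/-- **A chart is the intersection of its curves.** -/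
theorem Chart.mem_of_curves (hA : Chart A) {f : F} (h : ∀ V, IsCurve A V → f ∈ V) : f ∈ A := by
  haveI := hA.frac
  haveI := hA.regular
  by_contra hfA
  -- the ideal of denominators
  let I : Ideal A :=
    { carrier := {s | ∃ c : A, (s : F) * f = c}
      add_mem' := by
        rintro s t ⟨c, hc⟩ ⟨d, hd⟩
        exact ⟨c + d, by push_cast; rw [add_mul, hc, hd]⟩
      zero_mem' := ⟨0, by simp⟩
      smul_mem' := by
        rintro r s ⟨c, hc⟩
        exact ⟨r * c, by simp only [smul_eq_mul]; push_cast; rw [mul_assoc, hc]⟩ }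
  have hI : I ≠ ⊤ := by
    intro hI
    have h1 : (1 : A) ∈ I := by rw [hI]; trivial
    obtain ⟨c, hc⟩ := h1
    apply hfA
    rw [show f = c by rw [← hc]; simp]
    exact c.2
  obtain ⟨m, hm, hIm⟩ := Ideal.exists_le_maximal I hI
  let O := Localization.AtPrime m
  haveI := hA.factorial m
  haveI : IsNoetherianRing O := IsLocalization.isNoetherianRing m.primeCompl _ inferInstance
  obtain ⟨a, b, hb, rfl⟩ := IsFractionRing.div_surjective (A := A) f
  have hb0 : b ≠ 0 := nonZeroDivisors.ne_zero hb
  have hbF : (b : F) ≠ 0 := fun h0 => hb0 (Subtype.ext h0)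
  have hinj : Function.Injective (algebraMap A O) :=
    IsLocalization.injective O m.primeCompl_le_nonZeroDivisors
  have hbO : algebraMap A O b ≠ 0 := fun h0 => hb0 (hinj (by rw [h0, map_zero]))
  obtain ⟨a', b', c', hrel, ha, hb2⟩ :=
    UniqueFactorizationMonoid.exists_reduced_factors' (algebraMap A O a) (algebraMap A O b) hbO
  have hc0 : c' ≠ 0 := by
    rintro rfl
    rw [zero_mul] at hb2
    exact hbO hb2.symm
  have hb'0 : b' ≠ 0 := by
    rintro rfl
    rw [mul_zero] at hb2
    exact hbO hb2.symm
  by_cases hu : IsUnit b'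
  · -- then `f` is regular at `m`
    obtain ⟨w, hw⟩ := hu.exists_right_inv
    obtain ⟨⟨c, s⟩, hcs⟩ := IsLocalization.surj m.primeCompl (a' * w)
    have h1 : algebraMap A O (a * s) = algebraMap A O (b * c) := by
      rw [map_mul, map_mul, ← hcs, ← ha, ← hb2]
      calc c' * a' * algebraMap A O s = c' * a' * 1 * algebraMap A O s := by ring
        _ = c' * a' * (b' * w) * algebraMap A O s := by rw [hw]
        _ = _ := by ring
    have h2 := hinj h1
    have h3 : (s : A) ∈ I := by
      refine ⟨c, ?_⟩
      have h4 : (a : F) * (s : A) = b * c := by exact_mod_cast congrArg (Subtype.val : A → F) h2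
      change ((s : A) : F) * ((a : F) / (b : F)) = c
      rw [mul_div_assoc', mul_comm, h4]
      field_simp
    exact s.2 (hIm h3)
  · -- a prime factor of the denominator
    obtain ⟨p, hp, hpb⟩ := WfDvdMonoid.exists_irreducible_factor hu hb'0
    have hpp : Prime p := UniqueFactorizationMonoid.irreducible_iff_prime.1 hp
    haveI hPp : (Ideal.span {p} : Ideal O).IsPrime := (Ideal.span_singleton_prime hpp.ne_zero).2 hpp
    haveI : ((Ideal.span {p} : Ideal O).under A).IsPrime := inferInstance
    have hht : ((Ideal.span {p} : Ideal O).under A).height = 1 := by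
      rw [IsLocalization.height_under m.primeCompl]
      exact Ideal.height_span_singleton_eq_one_of_mem_nonZeroDivisors
        (mem_nonZeroDivisors_of_ne_zero hpp.ne_zero) hpp.not_isUnit
    obtain ⟨V, hV, hPV⟩ := exists_curve hA _ hht
    obtain ⟨c, t, hc, ht, ht1, hct⟩ := hV.2.2 _ (h V hV)
    have ht0 : t ≠ 0 := ne_zero_of_val_one ht1
    have h1 : (⟨a, a.2⟩ : A) * ⟨t, ht⟩ = b * ⟨c, hc⟩ := by
      apply Subtype.ext
      change (a : F) * t = b * c
      change (a : F) / (b : F) = c / t at hct
      rw [div_eq_div_iff hbF ht0] at hct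
      rw [hct, mul_comm]
    have h2 : a' * algebraMap A O ⟨t, ht⟩ = b' * algebraMap A O ⟨c, hc⟩ := by
      have h3 := congrArg (algebraMap A O) h1
      rw [map_mul, map_mul, ← hb2] at h3
      change algebraMap A O a * _ = _ at h3
      rw [← ha] at h3
      apply mul_left_cancel₀ hc0
      rw [← mul_assoc, h3, mul_assoc]
    have h3 : p ∣ a' * algebraMap A O ⟨t, ht⟩ := by
      rw [h2]
      exact hpb.mul_right _
    rcases hpp.dvd_or_dvd h3 with h4 | h4
    · exact hpp.not_isUnit (hrel h4 hpb)
    · have h5 : (⟨t, ht⟩ : A) ∈ (Ideal.span {p} : Ideal O).under A := by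
        rw [Ideal.under_def, Ideal.mem_comap, Ideal.mem_span_singleton]
        exact h4
      rw [hPV] at h5
      rw [ht1] at h5
      exact lt_irrefl _ h5

/-- Every valuation ring over `k` contains one of the charts. -/
theorem charts_complete {n : ℕ} (x : Fin (n + 1) → F)
    (V : ValuationSubring F) (hV : Over k V) :
    ∃ i, ∀ a ∈ Algebra.adjoin k (Set.range fun j => x j / x i), a ∈ V := by
  obtain ⟨i, -, hi⟩ := Finset.exists_max_image Finset.univ (fun i => V.valuation (x i))
    ⟨0, Finset.mem_univ _⟩
  refine ⟨i, ?_⟩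
  intro a ha
  induction ha using Algebra.adjoin_induction with
  | mem y hy =>
    obtain ⟨j, rfl⟩ := hy
    change x j / x i ∈ V
    rw [← ValuationSubring.valuation_le_one_iff, map_div₀]
    exact div_le_one_of_le₀ (hi j (Finset.mem_univ j)) zero_le
  | algebraMap r => exact hV r
  | add y z _ _ hy hz => exact add_mem hy hz
  | mul y z _ _ hy hz => exact mul_mem hy hz

/-- An element of all valuation rings over an algebraically closed field `k` is constant. -/
theorem const_of_valuations [IsAlgClosed k] {f : F}
    (h : ∀ V : ValuationSubring F, Over k V → f ∈ V) : f ∈ Set.range (algebraMap k F) := by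
  have h1 : f ∈ (integralClosure (Subring.closure (Set.range (algebraMap k F))) F).toSubring := by
    rw [← iInf_valuationSubring_superset, Subring.mem_iInf]
    rintro ⟨V, hV⟩
    exact h V fun c => hV ⟨c, rfl⟩
  have hcl : Subring.closure (Set.range (algebraMap k F)) = (algebraMap k F).range := by
    rw [← RingHom.coe_range, Subring.closure_eq]
  have h2 : IsIntegral (Subring.closure (Set.range (algebraMap k F))) f := h1
  letI : Algebra k (Subring.closure (Set.range (algebraMap k F))) :=
    ((algebraMap k F).codRestrict (Subring.closure (Set.range (algebraMap k F)))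
      fun c => Subring.subset_closure (Set.mem_range_self c)).toAlgebra
  haveI : IsScalarTower k (Subring.closure (Set.range (algebraMap k F))) F :=
    IsScalarTower.of_algebraMap_eq fun _ => rfl
  haveI : Algebra.IsIntegral k (Subring.closure (Set.range (algebraMap k F))) := by
    refine ⟨fun y => ?_⟩
    have hy : (y : F) ∈ (algebraMap k F).range := by
      rw [← hcl]
      exact y.2
    obtain ⟨c, hc⟩ := hy
    have : y = algebraMap k _ c := Subtype.ext hc.symm
    rw [this]
    exact isIntegral_algebraMap
  have h3 : IsIntegral k f := isIntegral_trans f h2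
  have h4 := IsAlgClosed.algebraMap_bijective_of_isIntegral (k := k) (K := integralClosure k F)
  obtain ⟨c, hc⟩ := h4.2 ⟨f, h3⟩
  exact ⟨c, congrArg (Subtype.val : integralClosure k F → F) hc⟩

/-- **On a regular projective surface over an algebraically closed field a function without zeros
and poles is constant.** -/
theorem const_of_ord [IsAlgClosed k] {n : ℕ} {x : Fin (n + 1) → F} (hx : Surf k x) {f : F}
    (hf : f ≠ 0) (h : ∀ V ∈ Curves (charts k x), ord V f = 0) : f ∈ Set.range (algebraMap k F) := by
  refine const_of_valuations fun V hV => ?_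
  obtain ⟨i, hi⟩ := charts_complete x V hV
  refine hi f ((hx.chart i).mem_of_curves fun W hW => ?_)
  exact (ord_nonneg_iff hW.1 hf).1 (h W ⟨_, ⟨i, rfl⟩, hW⟩).ge


/-! ### further forms (helper14) -/

theorem isDomain_loc (m : Ideal A) [m.IsPrime] : IsDomain (Localization.AtPrime m) :=
  IsLocalization.isDomain_localization m.primeCompl_le_nonZeroDivisors

/-- The maximal ideal of the local ring at a closed point of a chart has two generators. -/
theorem exists_two_generators (hA : Chart A) (m : Ideal A) [hm : m.IsMaximal] :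
    ∃ x z : Localization.AtPrime m,
      maximalIdeal (Localization.AtPrime m) = Ideal.span {x, z} := by
  classical
  haveI := hA.regular
  haveI : IsRegularLocalRing (Localization.AtPrime m) := inferInstance
  have hdim : ringKrullDim (Localization.AtPrime m) = 2 := by
    rw [IsLocalization.AtPrime.ringKrullDim_eq_height m, hA.height m hm]
    rfl
  have h1 := (isRegularLocalRing_iff (Localization.AtPrime m)).1 this
  rw [hdim] at h1
  have h2 : (maximalIdeal (Localization.AtPrime m)).spanFinrank = 2 := by exact_mod_cast h1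
  obtain ⟨s, hs, hspan⟩ := Submodule.FG.exists_span_finset_card_eq_spanFinrank
    (IsNoetherian.noetherian (maximalIdeal (Localization.AtPrime m)))
  rw [h2, Finset.card_eq_two] at hs
  obtain ⟨x, z, -, rfl⟩ := hs
  refine ⟨x, z, ?_⟩
  rw [← hspan]
  simp only [Finset.coe_insert, Finset.coe_singleton]

/-- The local rings of a chart at the closed points are factorial. -/
theorem ufd_loc (hA : Chart A) (m : Ideal A) [hm : m.IsMaximal] :
    UniqueFactorizationMonoid (Localization.AtPrime m) := by
  haveI := hA.regular
  haveI : IsRegularLocalRing (Localization.AtPrime m) := inferInstance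
  haveI := isDomain_loc m
  obtain ⟨x, z, hxz⟩ := exists_two_generators hA m
  refine Pool.Agent.K1.factorial hxz ?_
  intro w hw N hN
  have h1 : maximalIdeal (Localization.AtPrime m) ∈
      (Ideal.span {w} : Ideal (Localization.AtPrime m)).minimalPrimes := by
    refine ⟨⟨(maximalIdeal.isMaximal _).isPrime, (Ideal.span_singleton_le_iff_mem _).2 hw⟩, ?_⟩
    rintro Q ⟨hQ, hwQ⟩ -
    exact hQ.le_of_pow_le (hN.trans hwQ)
  have h2 := Ideal.height_le_one_of_isPrincipal_of_mem_minimalPrimes _ _ h1
  have h3 : (maximalIdeal (Localization.AtPrime m)).height = 2 := by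
    have h4 := IsLocalRing.maximalIdeal_height_eq_ringKrullDim (R := Localization.AtPrime m)
    rw [IsLocalization.AtPrime.ringKrullDim_eq_height m, hA.height m hm] at h4
    exact_mod_cast h4
  rw [h3] at h2
  exact absurd h2 (by decide)

/-- A function which is regular at all curves of a chart is regular at all closed points. -/
theorem mem_loc_of_curves (hA : Chart A) {f : F} (hf : ∀ V, IsCurve A V → f ∈ V) (m : Ideal A)
    [hm : m.IsMaximal] : ∃ a s : A, s ∉ m ∧ f = (a : F) / (s : F) := by
  haveI := hA.frac
  haveI := hA.regular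
  haveI := isDomain_loc m
  haveI : IsRegularLocalRing (Localization.AtPrime m) := inferInstance
  haveI := ufd_loc hA m
  have hinj : Function.Injective (algebraMap A (Localization.AtPrime m)) :=
    IsLocalization.injective _ m.primeCompl_le_nonZeroDivisors
  obtain ⟨a, b, hb, rfl⟩ := IsFractionRing.div_surjective (A := A) f
  have hb0 : b ≠ 0 := nonZeroDivisors.ne_zero hb
  have hbF : (b : F) ≠ 0 := fun h => hb0 (Subtype.ext h)
  change ∀ V : ValuationSubring F, IsCurve A V → (a : F) / (b : F) ∈ V at hf
  change ∃ a' s : A, s ∉ m ∧ (a : F) / (b : F) = (a' : F) / (s : F)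
  have hb1 : algebraMap A (Localization.AtPrime m) b ≠ 0 := fun h =>
    hb0 (hinj (h.trans (map_zero _).symm))
  obtain ⟨a', b', d, hrel, hda, hdb⟩ := UniqueFactorizationMonoid.exists_reduced_factors'
    (algebraMap A (Localization.AtPrime m) a) (algebraMap A (Localization.AtPrime m) b) hb1
  have hd0 : d ≠ 0 := by
    rintro rfl
    rw [zero_mul] at hdb
    exact hb1 hdb.symm
  have hb'0 : b' ≠ 0 := by
    rintro rfl
    rw [mul_zero] at hdb
    exact hb1 hdb.symm
  obtain ⟨⟨a₁, s₁⟩, ha₁⟩ := IsLocalization.surj m.primeCompl a'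
  obtain ⟨⟨b₁, s₂⟩, hb₁⟩ := IsLocalization.surj m.primeCompl b'
  simp only at ha₁ hb₁
  -- the relation in `A`
  have hrelA : a * b₁ * s₁ = b * a₁ * s₂ := by
    apply hinj
    rw [map_mul, map_mul, map_mul, map_mul, ← ha₁, ← hb₁, ← hda, ← hdb]
    ring
  have hrelF : (a : F) * b₁ * (s₁ : A) = (b : F) * a₁ * (s₂ : A) := by
    exact_mod_cast congrArg (Subtype.val : A → F) hrelA
  have hs₁ : ((s₁ : A) : F) ≠ 0 := coe_ne_zero_of_notMem s₁.2
  have hs₂ : ((s₂ : A) : F) ≠ 0 := coe_ne_zero_of_notMem s₂.2
  have hb₁0 : b₁ ≠ 0 := by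
    rintro rfl
    rw [map_zero] at hb₁
    rcases mul_eq_zero.1 hb₁ with h | h
    · exact hb'0 h
    · have : (s₂ : A) = 0 := hinj (h.trans (map_zero _).symm)
      exact s₂.2 (this ▸ m.zero_mem)
  have hb₁F : (b₁ : F) ≠ 0 := fun h => hb₁0 (Subtype.ext h)
  by_cases hu : IsUnit b'
  · -- the denominator is a unit
    have hb₁m : b₁ ∉ m := by
      intro h
      have h1 : IsUnit (algebraMap A (Localization.AtPrime m) b₁) := by
        rw [← hb₁]
        exact hu.mul (IsLocalization.map_units _ s₂)
      have h2 := (IsLocalization.AtPrime.to_map_mem_maximal_iff (Localization.AtPrime m) m b₁).2 h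
      exact (mem_maximalIdeal _).1 h2 h1
    refine ⟨a₁ * s₂, b₁ * s₁, fun h => ?_, ?_⟩
    · rcases hm.isPrime.mem_or_mem h with h | h
      · exact hb₁m h
      · exact s₁.2 h
    · push_cast
      rw [div_eq_div_iff hbF (mul_ne_zero hb₁F hs₁)]
      linear_combination hrelF
  · exfalso
    obtain ⟨p, hp, hpb⟩ := WfDvdMonoid.exists_irreducible_factor hu hb'0
    have hpp : Prime p := hp.prime
    have hpa : ¬ p ∣ a' := fun h => hp.not_isUnit (hrel h hpb)
    haveI hPp : (Ideal.span {p} : Ideal (Localization.AtPrime m)).IsPrime :=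
      (Ideal.span_singleton_prime hpp.ne_zero).2 hpp
    have hheight : ((Ideal.span {p} : Ideal (Localization.AtPrime m)).under A).height = 1 := by
      rw [IsLocalization.height_under m.primeCompl]
      exact Ideal.height_span_singleton_eq_one_of_mem_nonZeroDivisors
        (mem_nonZeroDivisors_of_ne_zero hpp.ne_zero) hpp.not_isUnit
    haveI : ((Ideal.span {p} : Ideal (Localization.AtPrime m)).under A).IsPrime := inferInstance
    obtain ⟨V, hV, hPV⟩ := exists_curve hA _ hheight
    have hsu : ∀ s : m.primeCompl,
        (s : A) ∉ (Ideal.span {p} : Ideal (Localization.AtPrime m)).under A := by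
      intro s hs
      rw [Ideal.under_def, Ideal.mem_comap] at hs
      exact hPp.ne_top (Ideal.eq_top_of_isUnit_mem _ hs (IsLocalization.map_units _ s))
    have hb₁P : b₁ ∈ (Ideal.span {p} : Ideal (Localization.AtPrime m)).under A := by
      rw [Ideal.under_def, Ideal.mem_comap, ← hb₁, Ideal.mem_span_singleton]
      exact hpb.mul_right _
    have ha₁P : a₁ ∉ (Ideal.span {p} : Ideal (Localization.AtPrime m)).under A := by
      rw [Ideal.under_def, Ideal.mem_comap, ← ha₁, Ideal.mem_span_singleton]
      intro h
      rcases hpp.dvd_or_dvd h with h | h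
      · exact hpa h
      · apply hsu s₁
        rw [Ideal.under_def, Ideal.mem_comap, Ideal.mem_span_singleton]
        exact h
    have v1 : V.valuation (b₁ : F) < 1 := (hPV b₁).1 hb₁P
    have v2 : V.valuation (a₁ : F) = 1 := (hPV.val_one hV.2.1 a₁).1 ha₁P
    have v3 : V.valuation ((s₁ : A) : F) = 1 := (hPV.val_one hV.2.1 _).1 (hsu s₁)
    have v4 : V.valuation ((s₂ : A) : F) = 1 := (hPV.val_one hV.2.1 _).1 (hsu s₂)
    have v5 := congrArg V.valuation hrelF
    rw [map_mul, map_mul, map_mul, map_mul, v2, v3, v4, mul_one, mul_one, mul_one] at v5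
    have v6 := (ValuationSubring.valuation_le_one_iff V _).2 (hf V hV)
    have v7 : 0 < V.valuation (b : F) := by
      rw [Valuation.pos_iff]
      exact hbF
    rw [map_div₀, div_le_one₀ v7] at v6
    have v8 : V.valuation (a : F) * V.valuation (b₁ : F) < V.valuation (b : F) := by
      calc V.valuation (a : F) * V.valuation (b₁ : F)
          ≤ V.valuation (b : F) * V.valuation (b₁ : F) := mul_le_mul_left v6 _
        _ < V.valuation (b : F) := mul_lt_of_lt_one_right v7 v1
    exact absurd v5 v8.ne

/-- **A function which is regular at all curves of an affine chart is a regular function.** -/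
theorem mem_of_curves (hA : Chart A) {f : F} (hf : ∀ V, IsCurve A V → f ∈ V) : f ∈ A := by
  classical
  -- the ideal of denominators
  let I : Ideal A :=
    { carrier := {s | (s : F) * f ∈ A}
      add_mem' := by
        intro s t hs ht
        change ((s + t : A) : F) * f ∈ A
        push_cast
        rw [add_mul]
        exact add_mem hs ht
      zero_mem' := by
        change ((0 : A) : F) * f ∈ A
        push_cast
        rw [zero_mul]
        exact zero_mem _
      smul_mem' := by
        intro c s hs
        change ((c • s : A) : F) * f ∈ A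
        rw [smul_eq_mul]
        push_cast
        rw [mul_assoc]
        exact mul_mem c.2 hs }
  have hI : ∀ s : A, s ∈ I ↔ (s : F) * f ∈ A := fun s => Iff.rfl
  by_contra hfA
  have h1 : I ≠ ⊤ := by
    rw [Ideal.ne_top_iff_one, hI]
    intro h
    apply hfA
    simpa using h
  obtain ⟨m, hm, hIm⟩ := Ideal.exists_le_maximal I h1
  obtain ⟨a, s, hs, hfa⟩ := mem_loc_of_curves hA hf m
  apply hs
  apply hIm
  rw [hI, hfa, mul_div_cancel₀ _ (coe_ne_zero_of_notMem hs)]
  exact a.2

/-- The valuation rings over `k` contain a chart. -/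
theorem exists_chart_le {n : ℕ} {x : Fin (n + 1) → F} (hx : ∀ i, x i ≠ 0) (V : ValuationSubring F)
    (hV : Over k V) : ∃ i, ∀ a ∈ Algebra.adjoin k (Set.range fun j => x j / x i), a ∈ V := by
  obtain ⟨i, -, hi⟩ := Finset.exists_max_image Finset.univ (fun i => V.valuation (x i))
    Finset.univ_nonempty
  refine ⟨i, fun a ha => ?_⟩
  induction ha using Algebra.adjoin_induction with
  | mem y hy =>
    obtain ⟨j, rfl⟩ := hy
    rw [← ValuationSubring.valuation_le_one_iff, map_div₀, div_le_one₀]
    · exact hi j (Finset.mem_univ j)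
    · rw [Valuation.pos_iff]
      exact hx i
  | algebraMap c => exact hV c
  | add y z _ _ hy hz => exact add_mem hy hz
  | mul y z _ _ hy hz => exact mul_mem hy hz

/-- A function which is regular on all charts is algebraic over `k`. -/
theorem isIntegral_of_mem {n : ℕ} {x : Fin (n + 1) → F} (hx : ∀ i, x i ≠ 0) {f : F}
    (hf : ∀ i, f ∈ Algebra.adjoin k (Set.range fun j => x j / x i)) : IsIntegral k f := by
  have h1 : f ∈ (⨅ V : {V : ValuationSubring F //
      (Set.range (algebraMap k F) : Set F) ⊆ V.toSubring}, V.1.toSubring) := by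
    rw [Subring.mem_iInf]
    rintro ⟨V, hV⟩
    obtain ⟨i, hi⟩ := exists_chart_le (k := k) hx V (fun c => hV ⟨c, rfl⟩)
    exact hi f (hf i)
  rw [iInf_valuationSubring_superset] at h1
  have h2 : IsIntegral (Subring.closure (Set.range (algebraMap k F))) f := h1
  have h3 : Subring.closure (Set.range (algebraMap k F)) = (algebraMap k F).range := by
    rw [← RingHom.coe_range, Subring.closure_eq]
  rw [h3] at h2
  obtain ⟨p, hp, hpf⟩ := h2
  have hlift : p ∈ Polynomial.lifts (algebraMap k F).rangeRestrict := by
    rw [Polynomial.mem_lifts]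
    obtain ⟨q, hq⟩ := Polynomial.map_surjective (algebraMap k F).rangeRestrict
      (RingHom.rangeRestrict_surjective _) p
    exact ⟨q, hq⟩
  obtain ⟨q, hq, -, hqm⟩ := Polynomial.lifts_and_natDegree_eq_and_monic hlift hp
  refine ⟨q, hqm, ?_⟩
  rw [← hq, Polynomial.eval₂_map] at hpf
  exact hpf

/-- **Functions without zeros and poles on a projective surface over an algebraically closed
field are constant.** -/
theorem mem_range_of_ord_eq_zero [IsAlgClosed k] {n : ℕ} {x : Fin (n + 1) → F} (hS : Surf k x)
    {f : F} (hf : f ≠ 0) (h : ∀ V ∈ Curves (charts k x), ord V f = 0) :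
    f ∈ Set.range (algebraMap k F) := by
  have h1 : ∀ i, f ∈ Algebra.adjoin k (Set.range fun j => x j / x i) := by
    intro i
    apply mem_of_curves (hS.chart i)
    intro V hV
    apply (ord_nonneg_iff hV.1 hf).1
    rw [h V ⟨_, ⟨i, rfl⟩, hV⟩]
  have h2 := isIntegral_of_mem hS.ne h1
  have h3 : (minpoly k f).degree = 1 :=
    IsAlgClosed.degree_eq_one_of_irreducible k (minpoly.irreducible h2)
  exact minpoly.mem_range_of_degree_eq_one k f h3

/-- Effective functions are constant. -/
theorem mem_range_of_ord_nonneg [IsAlgClosed k] {n : ℕ} {x : Fin (n + 1) → F} (hS : Surf k x)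
    {f : F} (h : ∀ V ∈ Curves (charts k x), 0 ≤ ord V f) :
    f ∈ Set.range (algebraMap k F) := by
  by_cases hf : f = 0
  · exact ⟨0, by rw [hf, map_zero]⟩
  have h1 : ∀ i, f ∈ Algebra.adjoin k (Set.range fun j => x j / x i) := by
    intro i
    apply mem_of_curves (hS.chart i)
    intro V hV
    exact (ord_nonneg_iff hV.1 hf).1 (h V ⟨_, ⟨i, rfl⟩, hV⟩)
  have h2 := isIntegral_of_mem hS.ne h1
  have h3 : (minpoly k f).degree = 1 :=
    IsAlgClosed.degree_eq_one_of_irreducible k (minpoly.irreducible h2)
  exact minpoly.mem_range_of_degree_eq_one k f h3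

end Pool.Agent.Lib.MP_b197b4_ntK
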