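import Mathlib
import Pool.Agent.Lib.MP_b197b4_ntK.Unit
import Pool.Agent.Lib.MP_b197b4_ntK.Pts

/-!
# MP_b197b4_nt, project K1: comparison of a chart with a subalgebra over which it is integral
-/

set_option autoImplicit false
set_option linter.style.haveILetI false

namespace Pool.Agent.Lib.MP_b197b4_ntK

open IsLocalRing

/-- (K1), abstract form: Nakayama. -/
theorem compare_abs {R S : Type*} [CommRing R] [CommRing S] [Algebra R S] [Module.Finite R S]
    (m : Ideal S) (n : Ideal R) [hn : n.IsMaximal]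
    (hmn : ∀ r : R, r ∈ n → algebraMap R S r ∈ m)
    (h1 : ∀ m' : Ideal S, m'.IsMaximal → (∀ r ∈ n, algebraMap R S r ∈ m') → m' = m)
    (h2 : ∀ a ∈ m, ∃ s : S, s ∉ m ∧ s * a ∈ n.map (algebraMap R S))
    (h3 : ∀ a : S, ∃ r : R, a - algebraMap R S r ∈ m) :
    ∃ s : R, s ∉ n ∧ ∀ a : S, ∃ b : R, algebraMap R S s * a = algebraMap R S b := by
  -- `m = n S`
  have hm : ∀ c ∈ m, c ∈ n.map (algebraMap R S) := by
    intro c hc
    obtain ⟨s, hs, hsc⟩ := h2 c hc
    let I : Ideal S := (n.map (algebraMap R S)).colon {c}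
    have hI : ∀ t, t ∈ I ↔ t * c ∈ n.map (algebraMap R S) := by
      intro t
      simp only [I, Submodule.mem_colon_singleton, smul_eq_mul]
    have htop : I = ⊤ := by
      by_contra hne
      obtain ⟨m', hm', hIm'⟩ := Ideal.exists_le_maximal I hne
      have : m' = m := by
        refine h1 m' hm' fun r hr => hIm' ?_
        rw [hI]
        exact Ideal.mul_mem_right _ _ (Ideal.mem_map_of_mem _ hr)
      subst this
      exact hs (hIm' ((hI s).2 hsc))
    have : (1 : S) ∈ I := by rw [htop]; trivial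
    rw [hI, one_mul] at this
    exact this
  let N : Submodule R S := LinearMap.range (Algebra.linearMap R S)
  have hfg : (⊤ : Submodule R (S ⧸ N)).FG := Module.Finite.fg_top
  obtain ⟨s, hs1, hs2⟩ := Submodule.exists_sub_one_mem_and_smul_eq_zero_of_fg_of_le_smul n
    (⊤ : Submodule R (S ⧸ N)) hfg (by
      rintro q -
      obtain ⟨a, rfl⟩ := Submodule.Quotient.mk_surjective N q
      obtain ⟨r, hr⟩ := h3 a
      have h4 := hm _ hr
      have h5 : (Submodule.Quotient.mk a : S ⧸ N) = Submodule.Quotient.mk (a - algebraMap R S r) := by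
        rw [Submodule.Quotient.eq]
        exact ⟨r, by simp⟩
      rw [h5]
      have h6 : ∀ z ∈ n.map (algebraMap R S), (Submodule.Quotient.mk z : S ⧸ N) ∈
          n • (⊤ : Submodule R (S ⧸ N)) := by
        intro z hz
        have hz2 : z ∈ n • (⊤ : Submodule R S) := by
          rw [Ideal.smul_top_eq_map]
          exact hz
        have h7 : N.mkQ z ∈ (n • (⊤ : Submodule R S)).map N.mkQ := Submodule.mem_map_of_mem hz2
        rw [Submodule.map_smul'', Submodule.map_top, Submodule.range_mkQ] at h7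
        exact h7
      exact h6 _ h4)
  refine ⟨s, ?_, ?_⟩
  · intro hsn
    have : (1 : R) ∈ n := by
      have := n.sub_mem hsn hs1
      simpa using this
    exact (Ideal.ne_top_iff_one n).1 hn.ne_top this
  · intro a
    have h4 := hs2 (Submodule.Quotient.mk a) trivial
    rw [← Submodule.Quotient.mk_smul, Submodule.Quotient.mk_eq_zero] at h4
    obtain ⟨b, hb⟩ := h4
    refine ⟨b, ?_⟩
    rw [Algebra.linearMap_apply] at hb
    rw [hb, Algebra.smul_def]

section

variable {k F : Type} [Field k] [Field F] [Algebra k F] {A A1 : Subalgebra k F}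

/-- Closed points have residue field `k`. -/
theorem exists_const_sub_mem [IsAlgClosed k] (hfg : A.FG) (m : Ideal A) [hm : m.IsMaximal]
    (a : A) : ∃ c : k, a - algebraMap k A c ∈ m := by
  haveI : Algebra.FiniteType k A := A.fg_iff_finiteType.1 hfg
  haveI : Algebra.FiniteType k (A ⧸ m) := inferInstance
  letI : Field (A ⧸ m) := Ideal.Quotient.field m
  haveI : Module.Finite k (A ⧸ m) := finite_of_finite_type_of_isJacobsonRing k (A ⧸ m)
  haveI : Algebra.IsIntegral k (A ⧸ m) := Algebra.IsIntegral.of_finite k (A ⧸ m)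
  obtain ⟨c, hc⟩ := (IsAlgClosed.algebraMap_bijective_of_isIntegral (k := k) (K := A ⧸ m)).2
    (Ideal.Quotient.mk m a)
  refine ⟨c, ?_⟩
  rw [← Ideal.Quotient.eq, ← hc]
  rfl

/-- The inclusion is finite. -/
theorem finite_incl (hle : A1 ≤ A) (hfg : A.FG)
    (hint : ∀ a ∈ A, IsIntegral A1 a) :
    letI := (Subalgebra.inclusion hle).toAlgebra
    Module.Finite A1 A := by
  letI := (Subalgebra.inclusion hle).toAlgebra
  haveI : IsScalarTower k A1 A := IsScalarTower.of_algebraMap_eq fun c => rfl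
  haveI : Algebra.FiniteType k A := A.fg_iff_finiteType.1 hfg
  haveI : Algebra.FiniteType A1 A := Algebra.FiniteType.of_restrictScalars_finiteType k A1 A
  haveI : Algebra.IsIntegral A1 A := by
    constructor
    intro a
    haveI : IsScalarTower A1 A F := IsScalarTower.of_algebraMap_eq fun c => rfl
    have h := hint a a.2
    exact (isIntegral_algHom_iff (IsScalarTower.toAlgHom A1 A F) Subtype.val_injective).1 h
  exact Algebra.IsIntegral.finite

/-- (K1) COMPARE at a point. -/
theorem compare_point [IsAlgClosed k] (hle : A1 ≤ A) (hfg : A.FG)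
    (hint : ∀ a ∈ A, IsIntegral A1 a) (m : Ideal A) [hm : m.IsMaximal] (p q : A1)
    (hp : (⟨p, hle p.2⟩ : A) ∈ m) (hq : (⟨q, hle q.2⟩ : A) ∈ m)
    (h1 : ∀ m' : Ideal A, m'.IsMaximal →
      (∀ r : A1, (⟨r, hle r.2⟩ : A) ∈ m → (⟨r, hle r.2⟩ : A) ∈ m') → m' = m)
    (h2 : ∀ a ∈ m, ∃ s u v : A, s ∉ m ∧ (s : F) * a = u * p + v * q) :
    ∀ a ∈ A, ∃ s : A1, (⟨s, hle s.2⟩ : A) ∉ m ∧ (s : F) * a ∈ A1 := by
  letI := (Subalgebra.inclusion hle).toAlgebra
  haveI := finite_incl hle hfg hint
  have hmap : ∀ r : A1, algebraMap A1 A r = ⟨r, hle r.2⟩ := fun r => rfl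
  let n : Ideal A1 := m.comap (algebraMap A1 A)
  haveI : IsScalarTower k A1 A := IsScalarTower.of_algebraMap_eq fun c => rfl
  haveI : Algebra.IsIntegral A1 A := Algebra.IsIntegral.of_finite A1 A
  haveI : n.IsMaximal := Ideal.isMaximal_comap_of_isIntegral_of_isMaximal m
  have hn : ∀ r : A1, r ∈ n ↔ (⟨r, hle r.2⟩ : A) ∈ m := fun r => Iff.rfl
  obtain ⟨s, hs, hs2⟩ := compare_abs (R := A1) (S := A) m n (fun r hr => hr)
    (fun m' hm' h => h1 m' hm' fun r hr => h r hr)
    (by
      intro a ha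
      obtain ⟨s, u, v, hs, hsa⟩ := h2 a ha
      refine ⟨s, hs, ?_⟩
      have : s * a = u * algebraMap A1 A p + v * algebraMap A1 A q := Subtype.ext hsa
      rw [this]
      exact add_mem (Ideal.mul_mem_left _ _ (Ideal.mem_map_of_mem _ hp))
        (Ideal.mul_mem_left _ _ (Ideal.mem_map_of_mem _ hq)))
    (by
      intro a
      obtain ⟨c, hc⟩ := exists_const_sub_mem hfg m a
      exact ⟨algebraMap k A1 c, hc⟩)
  intro a ha
  refine ⟨s, hs, ?_⟩
  obtain ⟨b, hb⟩ := hs2 ⟨a, ha⟩
  have : (s : F) * a = b := congrArg (Subtype.val : A → F) hb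
  rw [this]
  exact b.2

/-- Then `A1` and `A` have the same field of fractions. -/
theorem frac_of_compare (hA : IsFractionRing A F)
    (h : ∀ a ∈ A, ∃ s : A1, (s : F) ≠ 0 ∧ (s : F) * a ∈ A1) : IsFractionRing A1 F := by
  haveI := hA
  refine IsFractionRing.of_field A1 F ?_
  intro z
  obtain ⟨a, b, hb, rfl⟩ := IsFractionRing.div_surjective (A := A) z
  have hb0 : (b : F) ≠ 0 := fun h0 => nonZeroDivisors.ne_zero hb (Subtype.ext h0)
  obtain ⟨s, hs0, hs⟩ := h a a.2
  obtain ⟨t, ht0, ht⟩ := h b b.2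
  refine ⟨t * ⟨_, hs⟩, s * ⟨_, ht⟩, ?_⟩
  change (a : F) / b = ((t : F) * ((s : F) * a)) / ((s : F) * ((t : F) * b))
  field_simp

theorem ne_zero_of_notMem_incl (hle : A1 ≤ A) {m : Ideal A} {s : A1}
    (hs : (⟨s, hle s.2⟩ : A) ∉ m) : (s : F) ≠ 0 := by
  intro h0
  apply hs
  have : (⟨s, hle s.2⟩ : A) = 0 := Subtype.ext h0
  rw [this]
  exact m.zero_mem

/-- The local rings agree. -/
theorem isLoc_of_compare (hle : A1 ≤ A) (m : Ideal A) [hm : m.IsPrime]
    (h : ∀ a ∈ A, ∃ s : A1, (⟨s, hle s.2⟩ : A) ∉ m ∧ (s : F) * a ∈ A1) (O : Subring F) :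
    IsLoc A m O ↔ IsLoc A1 (m.comap (Subalgebra.inclusion hle)) O := by
  have key : ∀ x : F, (∃ a t : A, t ∉ m ∧ x = (a : F) / (t : F)) ↔
      ∃ a t : A1, t ∉ m.comap (Subalgebra.inclusion hle) ∧ x = (a : F) / (t : F) := by
    intro x
    constructor
    · rintro ⟨a, t, ht, rfl⟩
      obtain ⟨s, hs, hsa⟩ := h a a.2
      obtain ⟨r, hr, hrt⟩ := h t t.2
      have hs0 := ne_zero_of_notMem_incl hle hs
      have hr0 := ne_zero_of_notMem_incl hle hr
      refine ⟨r * ⟨_, hsa⟩, s * ⟨_, hrt⟩, ?_, ?_⟩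
      · intro hmem
        have h1 : (⟨s, hle s.2⟩ : A) * ((⟨r, hle r.2⟩ : A) * t) ∈ m := hmem
        rcases hm.mem_or_mem h1 with h2 | h2
        · exact hs h2
        · rcases hm.mem_or_mem h2 with h3 | h3
          · exact hr h3
          · exact ht h3
      · change (a : F) / t = ((r : F) * ((s : F) * a)) / ((s : F) * ((r : F) * t))
        field_simp
    · rintro ⟨a, t, ht, rfl⟩
      exact ⟨⟨a, hle a.2⟩, ⟨t, hle t.2⟩, ht, rfl⟩
  unfold IsLoc
  constructor
  · intro hO x
    rw [hO x, key x]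
  · intro hO x
    rw [hO x, key x]

/-- `A` is contained in every valuation ring containing `A1`. -/
theorem mem_of_integral {V : ValuationSubring F} (hV : ∀ a ∈ A1, a ∈ V) {a : F}
    (ha : IsIntegral A1 a) : a ∈ V := by
  obtain ⟨p, hp, hpa⟩ := ha
  have h1 : IsIntegral V a := by
    refine ⟨p.map (incl hV), hp.map _, ?_⟩
    rw [Polynomial.eval₂_map]
    exact hpa
  obtain ⟨y, hy⟩ := (IsIntegrallyClosed.isIntegral_iff (R := V) (K := F)).1 h1
  rw [← hy]
  exact y.2

/-- Every prime ideal whose localisation is a discrete valuation ring gives a curve. -/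
theorem exists_curve_of_dvr (hfr : IsFractionRing A1 F) (P : Ideal A1) [hPp : P.IsPrime]
    (hP : IsDiscreteValuationRing (Localization.AtPrime P)) :
    ∃ V : ValuationSubring F, IsCurve A1 V ∧ PrimeOf A1 V P := by
  haveI := hfr
  haveI := hP
  let S := Localization.AtPrime P
  have hdvd : ∀ a b : A1, (∃ c s : A1, s ∉ P ∧ a * s = b * c) ∨
      (∃ c s : A1, s ∉ P ∧ b * s = a * c) := by
    intro a b
    have key : ∀ a b : A1, (algebraMap A1 S b ∣ algebraMap A1 S a) →
        ∃ c s : A1, s ∉ P ∧ a * s = b * c := by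
      rintro a b ⟨z, hz⟩
      obtain ⟨⟨c, s⟩, hcs⟩ := IsLocalization.surj P.primeCompl z
      have : algebraMap A1 S (a * s) = algebraMap A1 S (b * c) := by
        rw [map_mul, hz, mul_assoc, hcs, map_mul]
      have hinj : Function.Injective (algebraMap A1 S) :=
        IsLocalization.injective S P.primeCompl_le_nonZeroDivisors
      exact ⟨c, s, s.2, hinj this⟩
    rcases ValuationRing.dvd_total (algebraMap A1 S a) (algebraMap A1 S b) with h | h
    · exact Or.inr (key b a h)
    · exact Or.inl (key a b h)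
  have hmem : ∀ x : F, x ∈ locSub A1 P ∨ x⁻¹ ∈ locSub A1 P := by
    intro x
    obtain ⟨a, b, hb, rfl⟩ := IsFractionRing.div_surjective (A := A1) x
    have hb0 : (b : F) ≠ 0 := by
      intro h
      have : b = 0 := Subtype.ext h
      exact nonZeroDivisors.ne_zero hb this
    change (a : F) / (b : F) ∈ _ ∨ ((a : F) / (b : F))⁻¹ ∈ _
    by_cases ha0 : (a : F) = 0
    · left
      rw [ha0, zero_div]
      exact zero_mem _
    rcases hdvd a b with ⟨c, s, hs, h⟩ | ⟨c, s, hs, h⟩
    · left
      refine ⟨c, s, hs, ?_⟩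
      have h2 : (a : F) * s = b * c := by exact_mod_cast congrArg (Subtype.val : A1 → F) h
      have hs0 := coe_ne_zero_of_notMem hs
      rw [div_eq_div_iff hb0 hs0, h2, mul_comm]
    · right
      refine ⟨c, s, hs, ?_⟩
      have h2 : (b : F) * s = a * c := by exact_mod_cast congrArg (Subtype.val : A1 → F) h
      have hs0 := coe_ne_zero_of_notMem hs
      rw [inv_div, div_eq_div_iff ha0 hs0, h2, mul_comm]
  let V : ValuationSubring F := ValuationSubring.ofSubring (locSub A1 P) hmem
  have hV : ∀ x, x ∈ V ↔ ∃ a s : A1, s ∉ P ∧ x = (a : F) / (s : F) := by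
    intro x
    exact ValuationSubring.mem_ofSubring _ _ x
  have hAV : ∀ a ∈ A1, a ∈ V := by
    intro a ha
    rw [hV]
    exact ⟨⟨a, ha⟩, 1, (Ideal.ne_top_iff_one P).1 hPp.ne_top, by simp⟩
  have hPV : PrimeOf A1 V P := by
    intro a
    constructor
    · intro haP
      by_contra hlt
      have h1 : V.valuation (a : F) = 1 :=
        le_antisymm ((ValuationSubring.valuation_le_one_iff V _).2 (hAV a a.2)) (not_lt.1 hlt)
      have h2 : (a : F)⁻¹ ∈ V := by
        rw [← ValuationSubring.valuation_le_one_iff, map_inv₀, h1, inv_one]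
      rw [hV] at h2
      obtain ⟨c, s, hs, h3⟩ := h2
      have ha0 : (a : F) ≠ 0 := ne_zero_of_val_one h1
      have hs0 := coe_ne_zero_of_notMem hs
      have h4 : (s : F) = a * c := by
        field_simp at h3
        rw [h3]
      have h5 : s = a * c := Subtype.ext (by push_cast; exact h4)
      exact hs (h5 ▸ P.mul_mem_right c haP)
    · intro hlt
      by_contra haP
      have h2 : (a : F)⁻¹ ∈ V := by
        rw [hV]
        exact ⟨1, a, haP, by push_cast; rw [one_div]⟩
      rw [← ValuationSubring.valuation_le_one_iff, map_inv₀] at h2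
      have ha0 : (a : F) ≠ 0 := coe_ne_zero_of_notMem haP
      have h3 : 0 < V.valuation (a : F) := by rw [Valuation.pos_iff]; exact ha0
      have h4 := (inv_le_one₀ h3).1 h2
      exact absurd hlt (not_lt.2 h4)
  letI := (incl hAV).toAlgebra
  haveI hloc : IsLocalization.AtPrime V P := by
    refine (isLocalization_iff _ _).2 ⟨?_, ?_, ?_⟩
    · rintro ⟨s, hs⟩
      exact (ValuationSubring.valuation_eq_one_iff V (algebraMap A1 V s)).2
        ((hPV.val_one hAV s).1 hs)
    · intro z
      obtain ⟨a, s, hs, h2⟩ := (hV z).1 z.2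
      refine ⟨(a, ⟨s, hs⟩), ?_⟩
      apply Subtype.ext
      have hs0 := coe_ne_zero_of_notMem hs
      change (z : F) * s = a
      rw [h2]
      field_simp
    · intro a b h
      refine ⟨1, ?_⟩
      have : (a : F) = b := congrArg (Subtype.val : V → F) h
      rw [Subtype.ext this]
  have hdvr : IsDiscreteValuationRing V :=
    IsDiscreteValuationRing.RingEquivClass.isDiscreteValuationRing
      (IsLocalization.algEquiv P.primeCompl (Localization.AtPrime P) V)
  refine ⟨V, ⟨hdvr, hAV, ?_⟩, hPV⟩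
  intro x hx
  obtain ⟨a, s, hs, h2⟩ := (hV x).1 hx
  exact ⟨a, s, a.2, s.2, (hPV.val_one hAV s).1 hs, h2⟩

/-- A principal prime gives a discrete valuation ring. -/
theorem dvr_of_principal {R : Type*} [CommRing R] [IsDomain R] [IsNoetherianRing R] (w : R)
    (hw0 : w ≠ 0) [hw : (Ideal.span {w}).IsPrime] :
    IsDiscreteValuationRing (Localization.AtPrime (Ideal.span {w})) := by
  let S := Localization.AtPrime (Ideal.span {w})
  have hinj : Function.Injective (algebraMap R S) :=
    IsLocalization.injective S (Ideal.primeCompl_le_nonZeroDivisors (Ideal.span {w}))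
  have hmax : maximalIdeal S = Ideal.span {algebraMap R S w} := by
    rw [← Localization.AtPrime.map_eq_maximalIdeal, Ideal.map_span, Set.image_singleton]
  haveI : IsNoetherianRing S :=
    IsLocalization.isNoetherianRing (Ideal.span {w}).primeCompl S inferInstance
  have hnf : ¬ IsField S := by
    rw [IsLocalRing.isField_iff_maximalIdeal_eq, hmax, Ideal.span_singleton_eq_bot]
    intro h
    exact hw0 (hinj (by rw [h, map_zero]))
  have hpr : (maximalIdeal S).IsPrincipal := ⟨⟨algebraMap R S w, hmax⟩⟩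
  exact ((IsDiscreteValuationRing.TFAE S hnf).out 0 4).2 hpr

/-- The contraction of a nonmaximal prime of `A` is not maximal. -/
theorem max_of_comap_max (hle : A1 ≤ A) (hint : ∀ a ∈ A, IsIntegral A1 a) (P : Ideal A)
    [P.IsPrime] (h : (P.comap (Subalgebra.inclusion hle)).IsMaximal) : P.IsMaximal := by
  letI := (Subalgebra.inclusion hle).toAlgebra
  haveI : Algebra.IsIntegral A1 A := by
    constructor
    intro a
    haveI : IsScalarTower A1 A F := IsScalarTower.of_algebraMap_eq fun c => rfl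
    exact (isIntegral_algHom_iff (IsScalarTower.toAlgHom A1 A F) Subtype.val_injective).1
      (hint a a.2)
  exact Ideal.isMaximal_of_isIntegral_of_isMaximal_comap (R := A1) P h

/-- (K2) A prime element of `A1` gives exactly one curve. -/
theorem curve_of_prime (hA : Chart A) (hle : A1 ≤ A) (hfg1 : A1.FG)
    (hint : ∀ a ∈ A, IsIntegral A1 a) (hfr : IsFractionRing A1 F) (w : A1)
    (hw0 : w ≠ 0) (hw : (Ideal.span {w}).IsPrime)
    (hdim : ∀ P : Ideal A1, P.IsPrime → Ideal.span {w} < P → P.IsMaximal) :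
    ∃ V : ValuationSubring F, IsCurve A V ∧ IsCurve A1 V ∧ PrimeOf A1 V (Ideal.span {w}) ∧
      ord V (w : F) = 1 ∧ ∀ V', IsCurve A V' → V'.valuation (w : F) < 1 → V' = V := by
  haveI : Algebra.FiniteType k A1 := A1.fg_iff_finiteType.1 hfg1
  haveI : IsNoetherianRing A1 := Algebra.FiniteType.isNoetherianRing k A1
  haveI := hw
  obtain ⟨V, hV, hP⟩ := exists_curve_of_dvr hfr (Ideal.span {w}) (dvr_of_principal w hw0)
  have hAV : ∀ a ∈ A, a ∈ V := fun a ha => mem_of_integral hV.2.1 (hint a ha)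
  have hwF : (w : F) ≠ 0 := fun h => hw0 (Subtype.ext h)
  have hwV : (w : F) ∈ V := hV.2.1 w w.2
  have hwlt : V.valuation (w : F) < 1 := (hP w).1 (Ideal.mem_span_singleton_self w)
  have hirr : Irreducible (⟨w, hwV⟩ : V) := by
    refine IsDiscreteValuationRing.irreducible_of_span_eq_maximalIdeal _
      (fun h => hwF (congrArg Subtype.val h)) ?_
    apply le_antisymm
    · intro x hx
      have hx1 : V.valuation (x : F) < 1 := (ValuationSubring.valuation_lt_one_iff V x).1 hx
      obtain ⟨a, s, ha, hs, h1, h2⟩ := hV.2.2 x x.2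
      have hs0 : s ≠ 0 := ne_zero_of_val_one h1
      have ha1 : V.valuation a < 1 := by
        rw [h2, map_div₀, h1, div_one] at hx1
        exact hx1
      have ha2 : (⟨a, ha⟩ : A1) ∈ Ideal.span {w} := (hP ⟨a, ha⟩).2 ha1
      obtain ⟨c, hc⟩ := Ideal.mem_span_singleton'.1 ha2
      have hc' : (c : F) * w = a := congrArg (Subtype.val : A1 → F) hc
      have hcs : (c : F) / s ∈ V := by
        rw [div_eq_mul_inv]
        refine mul_mem (hV.2.1 c c.2) ?_
        rw [← ValuationSubring.valuation_le_one_iff, map_inv₀, h1, inv_one]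
      rw [Ideal.mem_span_singleton']
      refine ⟨⟨_, hcs⟩, Subtype.ext ?_⟩
      change (c : F) / s * w = x
      rw [h2, ← hc']
      ring
    · rw [Ideal.span_singleton_le_iff_mem]
      exact (ValuationSubring.valuation_lt_one_iff V _).2 hwlt
  refine ⟨V, ⟨hV.1, hAV, ?_⟩, hV, hP, ?_, ?_⟩
  · intro x hx
    obtain ⟨a, s, ha, hs, h1, h2⟩ := hV.2.2 x hx
    exact ⟨a, s, hle ha, hle hs, h1, h2⟩
  · apply ord_eq
    exact ⟨⟨w, hwV⟩, 1, hirr, by simp⟩
  · intro V' hV' hlt
    -- the centre of `V'` on `A1`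
    obtain ⟨P', hP'p, hP'⟩ := exists_primeOf hV'.2.1
    haveI := hP'p
    have hc : PrimeOf A1 V' (P'.comap (Subalgebra.inclusion hle)) := fun a => hP' _
    have hle1 : Ideal.span {w} ≤ P'.comap (Subalgebra.inclusion hle) := by
      rw [Ideal.span_singleton_le_iff_mem]
      exact (hc w).2 hlt
    have heq : Ideal.span {w} = P'.comap (Subalgebra.inclusion hle) := by
      by_contra hne
      have h1 := hdim _ inferInstance (lt_of_le_of_ne hle1 hne)
      have h2 := max_of_comap_max hle hint P' h1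
      have h3 := hA.height P' h2
      rw [hV'.height hP'] at h3
      exact absurd h3 (by decide)
    rw [← heq] at hc
    -- `V ≤ V'`
    have hVV' : ∀ x ∈ V, x ∈ V' := by
      intro x hx
      obtain ⟨a, s, ha, hs, h1, h2⟩ := hV.2.2 x hx
      have h3 : (⟨s, hs⟩ : A1) ∉ Ideal.span {w} := (hP.val_one hV.2.1 ⟨s, hs⟩).2 h1
      have h4 : V'.valuation s = 1 :=
        (hc.val_one (fun a ha => hV'.2.1 a (hle ha)) ⟨s, hs⟩).1 h3
      rw [h2, div_eq_mul_inv]
      refine mul_mem (hV'.2.1 a (hle ha)) ?_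
      rw [← ValuationSubring.valuation_le_one_iff, map_inv₀, h4, inv_one]
    ext x
    refine ⟨fun hx => ?_, hVV' x⟩
    by_contra hxV
    have hx0 : x ≠ 0 := by
      rintro rfl
      exact hxV (zero_mem _)
    have hord : 0 < ord V x⁻¹ := by
      rw [ord_inv hV.1 hx0]
      have := (ord_nonneg_iff hV.1 hx0).not.2 hxV
      omega
    obtain ⟨u, hu⟩ := exists_unit_of_ord hV.1 hirr (inv_ne_zero hx0)
    have hu1 : V'.valuation ((u : V) : F) = 1 := by
      have h1 : ((u : V) : F) ∈ V' := hVV' _ (u : V).2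
      have h2 : (((u⁻¹ : Vˣ) : V) : F) ∈ V' := hVV' _ ((u⁻¹ : Vˣ) : V).2
      have h3 := unit_coe_mul_inv u
      have h4 := congrArg V'.valuation h3
      rw [map_mul, map_one] at h4
      have h5 := (ValuationSubring.valuation_le_one_iff V' _).2 h1
      have h6 := (ValuationSubring.valuation_le_one_iff V' _).2 h2
      exact le_antisymm h5 (by
        by_contra h7
        push Not at h7
        have h8 : V'.valuation ((u : V) : F) * V'.valuation (((u⁻¹ : Vˣ) : V) : F) < 1 :=
          mul_lt_one_of_lt_of_le h7 h6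
        rw [h4] at h8
        exact lt_irrefl _ h8)
    have h1 : V'.valuation x⁻¹ < 1 := by
      rw [hu, map_mul, map_zpow₀, hu1, mul_one]
      change V'.valuation (w : F) ^ (ord V x⁻¹) < 1
      exact zpow_lt_one₀ (by rw [Valuation.pos_iff]; exact hwF) hlt hord
    have h2 : V'.valuation x ≤ 1 := (ValuationSubring.valuation_le_one_iff V' x).2 hx
    rw [map_inv₀] at h1
    have h3 : 0 < V'.valuation x := by rw [Valuation.pos_iff]; exact hx0
    exact absurd h1 (not_lt.2 ((one_le_inv₀ h3).2 h2))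

/-- The height of a maximal ideal of `A1`. -/
theorem two_le_height (hA : Chart A) (hle : A1 ≤ A) (hint : ∀ a ∈ A, IsIntegral A1 a)
    (n : Ideal A1) [hn : n.IsMaximal] : 2 ≤ n.height := by
  letI := (Subalgebra.inclusion hle).toAlgebra
  haveI hI : Algebra.IsIntegral A1 A := by
    constructor
    intro a
    haveI : IsScalarTower A1 A F := IsScalarTower.of_algebraMap_eq fun c => rfl
    exact (isIntegral_algHom_iff (IsScalarTower.toAlgHom A1 A F) Subtype.val_injective).1
      (hint a a.2)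
  have hinj : Function.Injective (algebraMap A1 A) := Subalgebra.inclusion_injective hle
  haveI := hA.regular
  obtain ⟨m, hm, hmn⟩ := Ideal.exists_ideal_over_maximal_of_isIntegral (S := A) n (by
    rw [(RingHom.injective_iff_ker_eq_bot _).1 hinj]
    exact bot_le)
  have hm2 := hA.height m hm
  have hmb : m ≠ ⊥ := by
    rintro rfl
    rw [Ideal.height_bot] at hm2
    exact absurd hm2 (by decide)
  obtain ⟨a, ha, ha0⟩ := Submodule.exists_mem_ne_zero_of_ne_bot hmb
  haveI := hm.isPrime
  obtain ⟨P, hP, hPm⟩ := Ideal.exists_minimalPrimes_le (I := Ideal.span {a}) (J := m)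
    ((Ideal.span_singleton_le_iff_mem _).2 ha)
  have hPp : P.IsPrime := hP.1.1
  have haP : a ∈ P := hP.1.2 (Ideal.mem_span_singleton_self a)
  have hP1 := Ideal.height_le_one_of_isPrincipal_of_mem_minimalPrimes (Ideal.span {a}) P hP
  have hPne : P ≠ m := by
    rintro rfl
    rw [hm2] at hP1
    exact absurd hP1 (by decide)
  have hPnm : ¬ P.IsMaximal := fun h => hPne (h.eq_of_le hm.ne_top hPm)
  have h1 : (P.comap (algebraMap A1 A)) ≠ ⊥ :=
    Ideal.comap_ne_bot_of_integral_mem ha0 haP (Algebra.IsIntegral.isIntegral a)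
  have h2 : P.comap (algebraMap A1 A) ≤ n := by
    rw [← hmn]
    exact Ideal.comap_mono hPm
  have h3 : P.comap (algebraMap A1 A) ≠ n := by
    intro h
    exact hPnm (max_of_comap_max hle hint P (by
      have : P.comap (Subalgebra.inclusion hle) = n := h
      rw [this]
      exact hn))
  have h4 : (⊥ : Ideal A1) < P.comap (algebraMap A1 A) := bot_lt_iff_ne_bot.2 h1
  have h5 : P.comap (algebraMap A1 A) < n := lt_of_le_of_ne h2 h3
  haveI : (⊥ : Ideal A1).IsPrime := Ideal.isPrime_bot
  have h6 := Ideal.height_add_one_le_of_lt_of_isPrime h4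
  have h7 := Ideal.height_add_one_le_of_lt_of_isPrime h5
  rw [Ideal.height_bot, zero_add] at h6
  calc (2 : ℕ∞) = 1 + 1 := by norm_num
    _ ≤ (P.comap (algebraMap A1 A)).height + 1 := by gcongr
    _ ≤ n.height := h7

/-- (K3) NICE POINT: a maximal ideal of `A1` with two generators locally. -/
theorem nice_point (hA : Chart A) (hle : A1 ≤ A) (hfg1 : A1.FG)
    (hint : ∀ a ∈ A, IsIntegral A1 a) (hfr : IsFractionRing A1 F) (n : Ideal A1)
    [hn : n.IsMaximal] (p q : A1) (hp : p ∈ n) (hq : q ∈ n)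
    (h2 : ∀ a ∈ n, ∃ s u v : A1, s ∉ n ∧ s * a = u * p + v * q) :
    ∀ a ∈ A, ∃ s : A1, s ∉ n ∧ (s : F) * a ∈ A1 := by
  haveI : Algebra.FiniteType k A1 := A1.fg_iff_finiteType.1 hfg1
  haveI : IsNoetherianRing A1 := Algebra.FiniteType.isNoetherianRing k A1
  haveI := hn.isPrime
  let O : Subring F := locSub A1 n
  have hO : IsLoc A1 n O := fun x => Iff.rfl
  letI := (hO.incl hn.isPrime.ne_top).toAlgebra
  haveI := hO.isLocalization
  haveI : IsLocalRing O := IsLocalization.AtPrime.isLocalRing O n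
  haveI : IsNoetherianRing O := IsLocalization.isNoetherianRing n.primeCompl O inferInstance
  have hmap : Ideal.map (algebraMap A1 O) n = maximalIdeal O :=
    IsLocalization.AtPrime.map_eq_maximalIdeal n O
  have hspan : maximalIdeal O = Ideal.span {algebraMap A1 O p, algebraMap A1 O q} := by
    rw [← hmap]
    apply le_antisymm
    · rw [Ideal.map_le_iff_le_comap]
      intro a ha
      obtain ⟨s, u, v, hs, h⟩ := h2 a ha
      rw [Ideal.mem_comap]
      have hu : IsUnit (algebraMap A1 O s) :=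
        (IsLocalization.AtPrime.isUnit_to_map_iff O n s).2 hs
      have h3 : algebraMap A1 O s * algebraMap A1 O a ∈
          Ideal.span {algebraMap A1 O p, algebraMap A1 O q} := by
        rw [← map_mul, h, map_add, map_mul, map_mul]
        exact add_mem (Ideal.mul_mem_left _ _ (Ideal.subset_span (Set.mem_insert _ _)))
          (Ideal.mul_mem_left _ _ (Ideal.subset_span (Set.mem_insert_of_mem _ rfl)))
      exact (Ideal.unit_mul_mem_iff_mem _ hu).1 h3
    · rw [Ideal.span_le]
      rintro _ (rfl | h)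
      · exact Ideal.mem_map_of_mem _ hp
      · rw [Set.mem_singleton_iff] at h
        rw [h]
        exact Ideal.mem_map_of_mem _ hq
  have hsp : (maximalIdeal O).spanFinrank ≤ 2 := by
    rw [hspan]
    refine (Submodule.spanFinrank_span_le_ncard_of_finite
      (Set.toFinite {algebraMap A1 O p, algebraMap A1 O q})).trans ?_
    exact (Set.ncard_insert_le _ _).trans (by rw [Set.ncard_singleton])
  have hdim2 : (2 : WithBot ℕ∞) ≤ ringKrullDim O := by
    rw [IsLocalization.AtPrime.ringKrullDim_eq_height n O]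
    exact WithBot.coe_le_coe.2 (two_le_height hA hle hint n)
  have hsp' : ((maximalIdeal O).spanFinrank : WithBot ℕ∞) ≤ 2 := by exact_mod_cast hsp
  haveI hreg : IsRegularLocalRing O :=
    IsRegularLocalRing.of_spanFinrank_maximalIdeal_le O (le_trans hsp' hdim2)
  have hdim : ringKrullDim O = 2 := by
    refine le_antisymm ?_ hdim2
    rw [← IsRegularLocalRing.spanFinrank_maximalIdeal (R := O)]
    exact_mod_cast hsp
  haveI := hfr
  have hfrO : ∀ x : F, ∃ a s : O, (s : F) ≠ 0 ∧ x = (a : F) / s := by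
    intro x
    obtain ⟨a, b, hb, rfl⟩ := IsFractionRing.div_surjective (A := A1) x
    refine ⟨⟨a, hO.coe_mem hn.isPrime.ne_top a⟩, ⟨b, hO.coe_mem hn.isPrime.ne_top b⟩, ?_, rfl⟩
    intro h
    exact (nonZeroDivisors.ne_zero hb) (Subtype.ext h)
  have hL := loc2_of_regular hreg hdim hfrO
  haveI := hL.ufd
  haveI hfF : IsFractionRing O F := by
    refine IsFractionRing.of_field O F ?_
    intro z
    obtain ⟨a, s, _, h⟩ := hfrO z
    exact ⟨a, s, h⟩
  haveI : IsIntegrallyClosed O := inferInstance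
  intro a ha
  have h1 : IsIntegral O a := by
    obtain ⟨P, hP, hPa⟩ := hint a ha
    refine ⟨P.map (hO.incl hn.isPrime.ne_top), hP.map _, ?_⟩
    rw [Polynomial.eval₂_map]
    exact hPa
  obtain ⟨y, hy⟩ := (IsIntegrallyClosed.isIntegral_iff (R := O) (K := F)).1 h1
  obtain ⟨b, s, hs, h⟩ := (hO a).1 (by rw [← hy]; exact y.2)
  refine ⟨s, hs, ?_⟩
  have hs0 := coe_ne_zero_of_notMem hs
  rw [h, mul_div_cancel₀ _ hs0]
  exact b.2

/-- Over such a point there is exactly one maximal ideal of `A`. -/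
theorem unique_over (hle : A1 ≤ A) (n : Ideal A1)
    (h : ∀ a ∈ A, ∃ s : A1, s ∉ n ∧ (s : F) * a ∈ A1) (m m' : Ideal A) [hm : m.IsPrime]
    [hm' : m'.IsPrime] (h1 : ∀ r : A1, r ∈ n ↔ (⟨r, hle r.2⟩ : A) ∈ m)
    (h2 : ∀ r : A1, r ∈ n ↔ (⟨r, hle r.2⟩ : A) ∈ m') : m = m' := by
  have key : ∀ (P : Ideal A) [P.IsPrime], (∀ r : A1, r ∈ n ↔ (⟨r, hle r.2⟩ : A) ∈ P) →
      ∀ a : A, a ∈ P ↔ ∀ s : A1, ∀ hs : (s : F) * a ∈ A1, (⟨_, hs⟩ : A1) ∈ n := by
    intro P hP hPn a
    constructor
    · intro ha s hs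
      rw [hPn]
      exact P.mul_mem_left (⟨s, hle s.2⟩ : A) ha
    · intro ha
      obtain ⟨s, hs, hsa⟩ := h a a.2
      have h3 := ha s hsa
      rw [hPn] at h3
      have h4 : (⟨s, hle s.2⟩ : A) * a ∈ P := h3
      rcases hP.mem_or_mem h4 with h5 | h5
      · exact absurd ((hPn s).2 h5) hs
      · exact h5
  ext a
  rw [key m h1, key m' h2]

/-- There is a maximal ideal of `A` over every maximal ideal of `A1`. -/
theorem exists_over (hle : A1 ≤ A) (hint : ∀ a ∈ A, IsIntegral A1 a) (n : Ideal A1)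
    [hn : n.IsMaximal] :
    ∃ m : Ideal A, m.IsMaximal ∧ m.comap (Subalgebra.inclusion hle) = n := by
  letI := (Subalgebra.inclusion hle).toAlgebra
  haveI hI : Algebra.IsIntegral A1 A := by
    constructor
    intro a
    haveI : IsScalarTower A1 A F := IsScalarTower.of_algebraMap_eq fun c => rfl
    exact (isIntegral_algHom_iff (IsScalarTower.toAlgHom A1 A F) Subtype.val_injective).1
      (hint a a.2)
  have hinj : Function.Injective (algebraMap A1 A) := Subalgebra.inclusion_injective hle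
  exact Ideal.exists_ideal_over_maximal_of_isIntegral (S := A) n (by
    rw [(RingHom.injective_iff_ker_eq_bot _).1 hinj]
    exact bot_le)

end

end Pool.Agent.Lib.MP_b197b4_ntK
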