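import Mathlib
import Pool.Agent.Lib.MP_b197b4_ntK.DefsN
import Pool.Agent.Lib.MP_b197b4_ntK.KLoc

/-!
# MP_b197b4_nt, project K1: curves on normal charts
-/

set_option autoImplicit false
set_option linter.style.haveILetI false

namespace Pool.Agent.Lib.MP_b197b4_ntK

open IsLocalRing

variable {k F : Type} [Field k] [Field F] [Algebra k F] {A : Subalgebra k F}

theorem ChartN.noeth (hA : ChartN A) : IsNoetherianRing A := by
  haveI : Algebra.FiniteType k A := A.fg_iff_finiteType.1 hA.fg
  exact Algebra.FiniteType.isNoetherianRing k A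

/-- Regular charts are normal. -/
theorem Chart.toN (hA : Chart A) : ChartN A := by
  haveI := hA.frac
  refine ⟨hA.fg, hA.frac, ?_, hA.height⟩
  refine (isIntegrallyClosed_iff F).2 fun {f} hf => ?_
  have hmem : f ∈ A := hA.mem_of_curves fun V hV => mem_of_integral hV.2.1 hf
  exact ⟨⟨f, hmem⟩, rfl⟩

theorem Surf.toN {n : ℕ} {x : Fin (n + 1) → F} (hx : Surf k x) : SurfN k x :=
  ⟨hx.ne, fun i => (hx.chart i).toN⟩

theorem ChartN.dvr (hA : ChartN A) (P : Ideal A) [P.IsPrime] (hP : P.height = 1) :
    IsDiscreteValuationRing (Localization.AtPrime P) := by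
  haveI := hA.noeth
  haveI := hA.normal
  let S := Localization.AtPrime P
  haveI : IsNoetherianRing S := IsLocalization.isNoetherianRing P.primeCompl S inferInstance
  haveI : IsIntegrallyClosed S :=
    isIntegrallyClosed_of_isLocalization S P.primeCompl P.primeCompl_le_nonZeroDivisors
  have hh : (maximalIdeal S).height = 1 := by
    have h1 := IsLocalRing.maximalIdeal_height_eq_ringKrullDim (R := S)
    rw [IsLocalization.AtPrime.ringKrullDim_eq_height P, hP] at h1
    exact_mod_cast h1
  have hnb : maximalIdeal S ≠ ⊥ := by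
    intro h
    rw [h, Ideal.height_bot] at hh
    exact zero_ne_one hh
  have hnf : ¬ IsField S := by
    rw [IsLocalRing.isField_iff_maximalIdeal_eq]
    exact hnb
  have key : IsIntegrallyClosed S ∧ ∃! P : Ideal S, P ≠ ⊥ ∧ P.IsPrime := by
    refine ⟨inferInstance, maximalIdeal S, ⟨hnb, inferInstance⟩, ?_⟩
    rintro Q ⟨hQ0, hQ⟩
    by_contra hne
    have hlt : Q < maximalIdeal S :=
      lt_of_le_of_ne (IsLocalRing.le_maximalIdeal hQ.ne_top) hne
    have h1 := Ideal.height_add_one_le_of_lt_of_isPrime hlt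
    haveI : (⊥ : Ideal S).IsPrime := Ideal.isPrime_bot
    have h2 := Ideal.height_add_one_le_of_lt_of_isPrime (bot_lt_iff_ne_bot.2 hQ0)
    rw [Ideal.height_bot, zero_add] at h2
    rw [hh] at h1
    have h3 : (1 : ℕ∞) + 1 ≤ 1 := le_trans (by gcongr) h1
    exact absurd h3 (by decide)
  exact ((IsDiscreteValuationRing.TFAE S hnf).out 0 3).2 key

theorem ChartN.exists_curve (hA : ChartN A) (P : Ideal A) [P.IsPrime] (hP : P.height = 1) :
    ∃ V : ValuationSubring F, IsCurve A V ∧ PrimeOf A V P :=
  exists_curve_of_dvr hA.frac P (hA.dvr P hP)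

/-- A normal domain is the intersection of its curves. -/
theorem ChartN.mem_of_curves (hA : ChartN A) {f : F} (h : ∀ V, IsCurve A V → f ∈ V) : f ∈ A := by
  haveI := hA.noeth
  haveI := hA.normal
  haveI := hA.frac
  by_contra hfA
  let N : Submodule A F := LinearMap.range (Algebra.linearMap A F)
  have hN : ∀ y : F, y ∈ N ↔ y ∈ A := by
    intro y
    constructor
    · rintro ⟨a, rfl⟩
      exact a.2
    · intro hy
      exact ⟨⟨y, hy⟩, rfl⟩
  -- the submodule generated by `f`
  let M : Submodule A (F ⧸ N) := Submodule.span A {N.mkQ f}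
  have hf0 : (⟨N.mkQ f, Submodule.mem_span_singleton_self _⟩ : M) ≠ 0 := by
    intro h0
    have h1 : N.mkQ f = 0 := congrArg Subtype.val h0
    rw [Submodule.mkQ_apply, Submodule.Quotient.mk_eq_zero, hN] at h1
    exact hfA h1
  obtain ⟨Q, hQ, -⟩ := exists_le_isAssociatedPrime_of_isNoetherianRing A
    (⟨N.mkQ f, Submodule.mem_span_singleton_self _⟩ : M) hf0
  rw [isAssociatedPrime_iff] at hQ
  obtain ⟨hQp, ⟨z, hz⟩, hQz⟩ := hQ
  obtain ⟨c, hc⟩ := Submodule.mem_span_singleton.1 hz
  let y : F := (c : F) * f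
  have hzy : z = N.mkQ y := by
    rw [← hc, ← map_smul]
    rfl
  have hQy : ∀ s : A, s ∈ Q ↔ (s : F) * y ∈ A := by
    intro s
    rw [hQz, Submodule.mem_colon_singleton, Submodule.mem_bot]
    have e1 : (s • (⟨z, hz⟩ : M) = 0) ↔ s • z = 0 := by
      constructor
      · intro h1
        exact congrArg Subtype.val h1
      · intro h1
        exact Subtype.ext h1
    rw [e1, hzy, ← map_smul, Submodule.mkQ_apply, Submodule.Quotient.mk_eq_zero, hN]
    rfl
  haveI := hQp
  -- some multiple of `y` is outside of `Q`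
  have hex : ∃ q : A, q ∈ Q ∧ ∀ hq : (q : F) * y ∈ A, (⟨_, hq⟩ : A) ∉ Q := by
    by_contra hcon
    push Not at hcon
    -- `y` is integral
    let N1 : Submodule A F := Submodule.map (Algebra.linearMap A F) Q
    have hyint : IsIntegral A y := by
      refine isIntegral_of_smul_mem_submodule N1 ?_ ?_ y ?_
      · -- a nonzero denominator of `y`
        obtain ⟨a, b, hb, hab⟩ := IsFractionRing.div_surjective (A := A) y
        have hb0 : (b : F) ≠ 0 := fun h0 => nonZeroDivisors.ne_zero hb (Subtype.ext h0)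
        have hbQ : b ∈ Q := by
          rw [hQy, ← hab]
          change (b : F) * ((a : F) / b) ∈ A
          rw [mul_div_cancel₀ _ hb0]
          exact a.2
        intro hbot
        have h1 : (b : F) ∈ N1 := ⟨b, hbQ, rfl⟩
        rw [hbot, Submodule.mem_bot] at h1
        exact hb0 h1
      · exact (IsNoetherian.noetherian Q).map _
      · rintro _ ⟨q, hq, rfl⟩
        obtain ⟨h1, h2⟩ := hcon q hq
        refine ⟨⟨_, h1⟩, h2, ?_⟩
        change (q : F) * y = y * (q : F)
        ring
    obtain ⟨w, hw⟩ := (IsIntegrallyClosed.isIntegral_iff (R := A) (K := F)).1 hyint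
    have h1 : (1 : A) ∈ Q := by
      rw [hQy]
      have : ((1 : A) : F) * y = w := by
        rw [← hw]
        push_cast
        rw [one_mul]
        rfl
      rw [this]
      exact w.2
    exact (Ideal.ne_top_iff_one Q).1 hQp.ne_top h1
  obtain ⟨q, hq, hqu⟩ := hex
  have hqy : (q : F) * y ∈ A := (hQy q).1 hq
  have hu := hqu hqy
  have hq0 : q ≠ 0 := by
    rintro rfl
    apply hu
    have : (⟨((0 : A) : F) * y, hqy⟩ : A) = 0 := by
      apply Subtype.ext
      push_cast
      rw [zero_mul]
    rw [this]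
    exact Q.zero_mem
  let S := Localization.AtPrime Q
  have hinj : Function.Injective (algebraMap A S) :=
    IsLocalization.injective S Q.primeCompl_le_nonZeroDivisors
  have hmax : maximalIdeal S = Ideal.span {algebraMap A S q} := by
    rw [← Localization.AtPrime.map_eq_maximalIdeal]
    apply le_antisymm
    · rw [Ideal.map_le_iff_le_comap]
      intro r hr
      rw [Ideal.mem_comap]
      have hry : (r : F) * y ∈ A := (hQy r).1 hr
      have h1 : (⟨_, hqy⟩ : A) * r = q * ⟨_, hry⟩ := by
        apply Subtype.ext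
        change (q : F) * y * r = (q : F) * (r * y)
        ring
      have h2 : IsUnit (algebraMap A S ⟨_, hqy⟩) :=
        (IsLocalization.AtPrime.isUnit_to_map_iff S Q _).2 hu
      have h3 : algebraMap A S ⟨_, hqy⟩ * algebraMap A S r ∈ Ideal.span {algebraMap A S q} := by
        rw [← map_mul, h1, map_mul]
        exact Ideal.mul_mem_right _ _ (Ideal.mem_span_singleton_self _)
      exact (Ideal.unit_mul_mem_iff_mem _ h2).1 h3
    · rw [Ideal.span_singleton_le_iff_mem]
      exact Ideal.mem_map_of_mem _ hq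
  haveI : IsNoetherianRing S := IsLocalization.isNoetherianRing Q.primeCompl S inferInstance
  have hnf : ¬ IsField S := by
    rw [IsLocalRing.isField_iff_maximalIdeal_eq, hmax, Ideal.span_singleton_eq_bot]
    intro h0
    exact hq0 (hinj (by rw [h0, map_zero]))
  have hpr : (maximalIdeal S).IsPrincipal := ⟨⟨algebraMap A S q, hmax⟩⟩
  have hdvr : IsDiscreteValuationRing S := ((IsDiscreteValuationRing.TFAE S hnf).out 0 4).2 hpr
  obtain ⟨V, hV, hPV⟩ := exists_curve_of_dvr hA.frac Q hdvr
  have hyV : y ∈ V := mul_mem (hV.2.1 c c.2) (h V hV)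
  obtain ⟨a, s, ha, hs, h1, h2⟩ := hV.2.2 y hyV
  have hs0 : s ≠ 0 := ne_zero_of_val_one h1
  have hsQ : (⟨s, hs⟩ : A) ∈ Q := by
    rw [hQy]
    change s * y ∈ A
    rw [h2, mul_div_cancel₀ _ hs0]
    exact ha
  exact (hPV.val_one hV.2.1 ⟨s, hs⟩).2 h1 hsQ

/-- Only finitely many curves of the chart pass through the zeros and poles of `f`. -/
theorem curves_finite_gen (hfr : IsFractionRing A F) (hno : IsNoetherianRing A) (f : F)
    (hf : f ≠ 0) : {V | IsCurve A V ∧ ord V f ≠ 0}.Finite := by
  haveI := hfr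
  haveI := hno
  obtain ⟨a, b, hb, rfl⟩ := IsFractionRing.div_surjective (A := A) f
  change ((a : F) / (b : F)) ≠ 0 at hf
  have ha0 : (a : F) ≠ 0 := (div_ne_zero_iff.1 hf).1
  have hb0 : (b : F) ≠ 0 := (div_ne_zero_iff.1 hf).2
  have key : ∀ c : A, (c : F) ≠ 0 → {V | IsCurve A V ∧ ord V (c : F) ≠ 0}.Finite := by
    intro c hc
    have hmin : (Ideal.span {c} : Ideal A).minimalPrimes.Finite :=
      Ideal.finite_minimalPrimes_of_isNoetherianRing A _
    have hex : ∀ V : ValuationSubring F, IsCurve A V → ∃ P : Ideal A, P.IsPrime ∧ PrimeOf A V P :=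
      fun V hV => exists_primeOf hV.2.1
    classical
    let φ : ValuationSubring F → Ideal A := fun V =>
      if h : IsCurve A V then (hex V h).choose else ⊥
    have hφ : ∀ V, IsCurve A V → (φ V).IsPrime ∧ PrimeOf A V (φ V) := by
      intro V hV
      simp only [φ, dif_pos hV]
      exact (hex V hV).choose_spec
    refine Set.Finite.of_finite_image (f := φ) (hmin.subset ?_) ?_
    · rintro _ ⟨V, ⟨hV, hord⟩, rfl⟩
      obtain ⟨hp, hP⟩ := hφ V hV
      have hcP : c ∈ φ V := by
        rw [hP c]
        refine lt_of_le_of_ne ((ValuationSubring.valuation_le_one_iff V _).2 (hV.2.1 c c.2)) ?_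
        intro h1
        exact hord ((ord_eq_zero_iff hV.1 hc).2 h1)
      refine ⟨⟨hp, (Ideal.span_singleton_le_iff_mem _).2 hcP⟩, ?_⟩
      rintro Q ⟨hQ, hcQ⟩ hQP
      by_contra hnot
      have hlt : Q < φ V := lt_of_le_of_ne hQP (fun h => hnot h.ge)
      have h1 := hV.height hP
      have hQ0 : Q ≠ ⊥ := by
        rintro rfl
        have := (Ideal.span_singleton_le_iff_mem _).1 hcQ
        rw [Ideal.mem_bot] at this
        exact hc (by rw [this]; rfl)
      have h2 : (⊥ : Ideal A) < Q := bot_lt_iff_ne_bot.2 hQ0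
      have h3 : Q.height < (φ V).height := by
        haveI := hp
        haveI := hQ
        exact Ideal.height_strict_mono_of_isPrime hlt
      have h4 : (⊥ : Ideal A).height < Q.height := by
        haveI : (⊥ : Ideal A).IsPrime := Ideal.isPrime_bot
        haveI := hQ
        exact Ideal.height_strict_mono_of_isPrime h2
      rw [h1] at h3
      rw [Ideal.height_bot] at h4
      have h5 : Q.height = 0 := Order.lt_one_iff.1 h3
      rw [h5] at h4
      exact lt_irrefl _ h4
    · rintro V ⟨hV, _⟩ V' ⟨hV', _⟩ h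
      have h1 := (hφ V hV).2
      have h2 := (hφ V' hV').2
      change φ V = φ V' at h
      rw [← h] at h2
      exact curve_unique hV hV' h1 h2
  refine ((key a ha0).union (key b hb0)).subset ?_
  rintro V ⟨hV, hord⟩
  by_contra h
  simp only [Set.mem_union, Set.mem_ofPred_eq, not_or, not_and, not_not] at h
  apply hord
  change ord V ((a : F) / (b : F)) = 0
  rw [ord_div hV.1 ha0 hb0, h.1 hV, h.2 hV, sub_self]

theorem ChartN.curves_finite (hA : ChartN A) (f : F) (hf : f ≠ 0) :
    {V | IsCurve A V ∧ ord V f ≠ 0}.Finite := curves_finite_gen hA.frac hA.noeth f hf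

theorem SurfN.curves_finite {n : ℕ} {x : Fin (n + 1) → F} (hx : SurfN k x) (f : F)
    (hf : f ≠ 0) : {V | V ∈ Curves (charts k x) ∧ ord V f ≠ 0}.Finite := by
  have h1 : {V | V ∈ Curves (charts k x) ∧ ord V f ≠ 0} ⊆ ⋃ i : Fin (n + 1),
      {V | IsCurve (Algebra.adjoin k (Set.range fun j => x j / x i)) V ∧ ord V f ≠ 0} := by
    rintro V ⟨⟨A, ⟨i, rfl⟩, hV⟩, h⟩
    exact Set.mem_iUnion.2 ⟨i, hV, h⟩
  exact (Set.finite_iUnion fun i => (hx.chart i).curves_finite f hf).subset h1

/-- On a normal projective surface a function without poles is constant. -/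
theorem SurfN.const_of_nonneg [IsAlgClosed k] {n : ℕ} {x : Fin (n + 1) → F} (hx : SurfN k x)
    {f : F} (hf : f ≠ 0) (h : ∀ V ∈ Curves (charts k x), 0 ≤ ord V f) :
    f ∈ Set.range (algebraMap k F) := by
  refine const_of_valuations fun V hV => ?_
  obtain ⟨i, hi⟩ := charts_complete x V hV
  refine hi f ((hx.chart i).mem_of_curves fun W hW => ?_)
  exact (ord_nonneg_iff hW.1 hf).1 (h W ⟨_, ⟨i, rfl⟩, hW⟩)

theorem SurfN.const_of_ord [IsAlgClosed k] {n : ℕ} {x : Fin (n + 1) → F} (hx : SurfN k x)
    {f : F} (hf : f ≠ 0) (h : ∀ V ∈ Curves (charts k x), ord V f = 0) :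
    f ∈ Set.range (algebraMap k F) := hx.const_of_nonneg hf fun V hV => (h V hV).ge

end Pool.Agent.Lib.MP_b197b4_ntK
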