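import Mathlib
import Pool.Agent.Lib.MP_b197b4_ntK.Ord

/-!
# MP_b197b4_nt, project K1: duality

A finitely supported family killed by every form which kills the tame symbols has a power which
is a product of tame symbols.
-/

set_option autoImplicit false

namespace Pool.Agent.Lib.MP_b197b4_ntK

open IsLocalRing

theorem exists_nsmul_mem {G : Type*} [AddCommGroup G] (T : AddSubgroup G) (x : G)
    (h : ∀ φ : G →+ ℚ, (∀ t ∈ T, φ t = 0) → φ x = 0) : ∃ N : ℕ, 0 < N ∧ N • x ∈ T := by
  by_contra hc
  push Not at hc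
  let q : G →+ G ⧸ T := QuotientAddGroup.mk' T
  let i : ℤ →+ G ⧸ T := (zmultiplesHom (G ⧸ T)) (q x)
  have hiz : ∀ n : ℤ, i n = q (n • x) := fun n => by
    simp only [i, zmultiplesHom_apply, map_zsmul]
  have hq : ∀ y, q y = 0 ↔ y ∈ T := fun y => QuotientAddGroup.eq_zero_iff y
  have hi : Function.Injective i := by
    rw [injective_iff_map_eq_zero]
    intro n hn
    rw [hiz, hq] at hn
    by_contra hn0
    rcases Int.lt_or_gt_of_ne hn0 with h1 | h1
    · apply hc (-n).toNat (by omega)
      have : (((-n).toNat : ℕ) : ℤ) • x = -(n • x) := by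
        rw [Int.toNat_of_nonneg (by omega), neg_smul]
      rw [← natCast_zsmul, this]
      exact neg_mem hn
    · apply hc n.toNat (by omega)
      rw [← natCast_zsmul, Int.toNat_of_nonneg (by omega)]
      exact hn
  obtain ⟨ψ, hψ⟩ := (Module.Baer.of_divisible ℚ).extension_property_addMonoidHom i hi
    (Int.castAddHom ℚ)
  have h0 := h (ψ.comp q) (by
    intro t ht
    rw [AddMonoidHom.comp_apply, (hq t).2 ht, map_zero])
  have h1 : ψ (i 1) = 1 := by
    have := DFunLike.congr_fun hψ 1
    simpa using this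
  rw [hiz, one_smul] at h1
  rw [AddMonoidHom.comp_apply, h1] at h0
  exact one_ne_zero h0

section

variable {k F : Type} [Field k] [Field F] [Algebra k F] {D : Set (ValuationSubring F)}

/-- The group of finitely supported families. -/
abbrev Grp (D : Set (ValuationSubring F)) : Type :=
  Π₀ V : D, Additive (ResidueField (V : ValuationSubring F))ˣ

/-- The value of a family. -/
noncomputable def Grp.val (y : Grp D) (V : D) : ResidueField (V : ValuationSubring F) :=
  ((Additive.toMul (y V) : (ResidueField (V : ValuationSubring F))ˣ) : _)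

theorem Grp.val_add (y z : Grp D) (V : D) : (y + z).val V = y.val V * z.val V := by
  unfold Grp.val
  rw [DFinsupp.add_apply, toMul_add, Units.val_mul]

theorem Grp.val_zero (V : D) : (0 : Grp D).val V = 1 := by
  unfold Grp.val
  rw [DFinsupp.zero_apply, toMul_zero, Units.val_one]

theorem Grp.val_neg (y : Grp D) (V : D) : (-y).val V = (y.val V)⁻¹ := by
  unfold Grp.val
  rw [DFinsupp.neg_apply, toMul_neg, Units.val_inv_eq_inv_val]

theorem Grp.val_nsmul (y : Grp D) (n : ℕ) (V : D) : (n • y).val V = (y.val V) ^ n := by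
  unfold Grp.val
  rw [DFinsupp.smul_apply, toMul_nsmul, Units.val_pow_eq_pow_val]

theorem Grp.val_ne (y : Grp D) (V : D) : y.val V ≠ 0 := Units.ne_zero _

/-- Every family of nonzero elements which is `1` outside a finite set is a `Grp`. -/
theorem Grp.exists_of (b : ∀ V : ValuationSubring F, ResidueField V) (hb : ∀ V ∈ D, b V ≠ 0)
    (hfin : {V | V ∈ D ∧ b V ≠ 1}.Finite) : ∃ y : Grp D, ∀ V : D, y.val V = b V := by
  classical
  have hfin2 : {V : D | b V ≠ 1}.Finite := by
    apply Set.Finite.of_finite_image (f := Subtype.val)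
    · refine hfin.subset ?_
      rintro _ ⟨V, hV, rfl⟩
      exact ⟨V.2, hV⟩
    · exact Subtype.val_injective.injOn
  refine ⟨DFinsupp.mk hfin2.toFinset
    (fun V => Additive.ofMul (Units.mk0 (b V) (hb _ (V : D).2))), ?_⟩
  intro V
  unfold Grp.val
  rw [DFinsupp.mk_apply]
  split_ifs with h
  · rfl
  · have : b V = 1 := by
      by_contra h2
      exact h (hfin2.mem_toFinset.2 h2)
    rw [this, toMul_zero, Units.val_one]

/-- The form attached to a homomorphism. -/
noncomputable def formOf (φ : Grp D →+ ℚ) (V : ValuationSubring F) (c : ResidueField V) : ℚ :=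
  open Classical in
  if h : V ∈ D ∧ c ≠ 0 then
    φ (DFinsupp.single (⟨V, h.1⟩ : D) (Additive.ofMul (Units.mk0 c h.2))) else 0

theorem formOf_sum (φ : Grp D →+ ℚ) (y : Grp D) (b : ∀ V : ValuationSubring F, ResidueField V)
    (hb : ∀ V : D, y.val V = b V) :
    ∑ᶠ (V) (_ : V ∈ D), formOf φ V (b V) = φ y := by
  classical
  rw [← finsum_set_coe_eq_finsum_mem]
  have h1 : ∀ V : D, formOf φ V (b V) = φ (DFinsupp.single V (y V)) := by
    intro V
    have hne : b V ≠ 0 := by rw [← hb]; exact Grp.val_ne y V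
    unfold formOf
    rw [dif_pos ⟨V.2, hne⟩]
    congr 2
    have : Units.mk0 (b V) hne = Additive.toMul (y V) := by
      apply Units.ext
      rw [Units.val_mk0, ← hb]
      rfl
    rw [this]
    rfl
  rw [finsum_congr h1, finsum_eq_sum_of_support_subset (s := y.support)]
  · rw [← map_sum]
    congr 1
    exact DFinsupp.sum_single
  · intro V hV
    rw [Function.mem_support] at hV
    rw [Finset.mem_coe, DFinsupp.mem_support_iff]
    intro h0
    rw [h0, DFinsupp.single_zero, map_zero] at hV
    exact hV rfl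

/-- DUALITY. -/
theorem dual (hdisc : ∀ V ∈ D, IsDiscreteValuationRing V) (hbase : ∀ V ∈ D, Over k V)
    (hfin : ∀ f : F, f ≠ 0 → {V | V ∈ D ∧ ord V f ≠ 0}.Finite)
    (a : ∀ V : ValuationSubring F, ResidueField V) (ha : ∀ V ∈ D, a V ≠ 0)
    (hafin : {V | V ∈ D ∧ a V ≠ 1}.Finite)
    (h : ∀ l : ∀ V : ValuationSubring F, ResidueField V → ℚ, Forms k D l →
      ∑ᶠ (V) (_ : V ∈ D), l V (a V) = 0) :
    ∃ N : ℕ, 0 < N ∧ ∃ s : List (F × F), (∀ q ∈ s, q.1 ≠ 0 ∧ q.2 ≠ 0) ∧
      ∀ V ∈ D, a V ^ N = (s.map fun q => tame V q.1 q.2).prod := by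
  classical
  have htame : ∀ f g : F, f ≠ 0 → g ≠ 0 → ∃ y : Grp D, ∀ V : D, y.val V = tame V f g := by
    intro f g hf hg
    apply Grp.exists_of (fun V => tame V f g)
    · intro V hV
      exact tame_ne_zero (hdisc V hV) hf hg
    · refine ((hfin f hf).union (hfin g hg)).subset ?_
      rintro V ⟨hV, h1⟩
      by_contra h2
      simp only [Set.mem_union, Set.mem_ofPred_eq, not_or, not_and, not_not] at h2
      exact h1 (tame_eq_one (h2.1 hV) (h2.2 hV))
  obtain ⟨x, hx⟩ := Grp.exists_of a ha hafin
  let T : AddSubgroup (Grp D) := AddSubgroup.closure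
    {y | ∃ f g : F, f ≠ 0 ∧ g ≠ 0 ∧ ∀ V : D, y.val V = tame V f g}
  obtain ⟨N, hN, hmem⟩ := exists_nsmul_mem T x (by
    intro φ hφ
    rw [← formOf_sum φ x a hx]
    apply h
    constructor
    · exact hdisc
    · exact hbase
    · exact hfin
    · intro V hV c d hc hd
      unfold formOf
      rw [dif_pos ⟨hV, mul_ne_zero hc hd⟩, dif_pos ⟨hV, hc⟩, dif_pos ⟨hV, hd⟩, ← map_add,
        ← DFinsupp.single_add]
      congr 2
      rw [← ofMul_mul]
      congr 1
      apply Units.ext
      simp
    · intro f g hf hg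
      obtain ⟨y, hy⟩ := htame f g hf hg
      rw [formOf_sum φ y (fun V => tame V f g) hy]
      exact hφ y (AddSubgroup.subset_closure ⟨f, g, hf, hg, hy⟩))
  refine ⟨N, hN, ?_⟩
  have key : ∀ y ∈ T, ∃ s : List (F × F), (∀ q ∈ s, q.1 ≠ 0 ∧ q.2 ≠ 0) ∧
      ∀ V : D, y.val V = (s.map fun q => tame V q.1 q.2).prod := by
    intro y hy
    induction hy using AddSubgroup.closure_induction with
    | mem y hy =>
      obtain ⟨f, g, hf, hg, h1⟩ := hy
      refine ⟨[(f, g)], ?_, ?_⟩
      · intro q hq
        rw [List.mem_singleton] at hq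
        subst hq
        exact ⟨hf, hg⟩
      · intro V
        rw [h1]
        simp
    | zero => exact ⟨[], by simp, fun V => by simp [Grp.val_zero]⟩
    | add y z _ _ hy hz =>
      obtain ⟨s, hs, hs2⟩ := hy
      obtain ⟨t, ht, ht2⟩ := hz
      refine ⟨s ++ t, ?_, ?_⟩
      · intro q hq
        rcases List.mem_append.1 hq with h1 | h1
        · exact hs q h1
        · exact ht q h1
      · intro V
        rw [Grp.val_add, hs2, ht2, List.map_append, List.prod_append]
    | neg y _ hy =>
      obtain ⟨s, hs, hs2⟩ := hy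
      refine ⟨s.map Prod.swap, ?_, ?_⟩
      · intro q hq
        obtain ⟨r, hr, rfl⟩ := List.mem_map.1 hq
        exact ⟨(hs r hr).2, (hs r hr).1⟩
      · intro V
        rw [Grp.val_neg, hs2, List.map_map]
        have : ∀ u : List (F × F), (∀ q ∈ u, q.1 ≠ 0 ∧ q.2 ≠ 0) →
            ((u.map fun q => tame (V : ValuationSubring F) q.1 q.2).prod)⁻¹ =
            (u.map ((fun q => tame (V : ValuationSubring F) q.1 q.2) ∘ Prod.swap)).prod := by
          intro u hu
          induction u with
          | nil => simp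
          | cons q u ih =>
            have hq := hu q (List.mem_cons_self ..)
            rw [List.map_cons, List.prod_cons, mul_inv,
              ih (fun r hr => hu r (List.mem_cons_of_mem _ hr)), List.map_cons, List.prod_cons,
              Function.comp_apply, Prod.fst_swap, Prod.snd_swap,
              tame_swap (hdisc V V.2) hq.1 hq.2]
        exact this s hs
  obtain ⟨s, hs, hs2⟩ := key _ hmem
  refine ⟨s, hs, ?_⟩
  intro V hV
  have := hs2 ⟨V, hV⟩
  rw [Grp.val_nsmul, hx] at this
  exact this

end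

end Pool.Agent.Lib.MP_b197b4_ntK
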