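import Mathlib
import Pool.Agent.Lib.MP_b197b4_ntK.Defs2
import Pool.Agent.Lib.MP_b197b4_ntK.Dual
import Pool.Agent.Lib.MP_b197b4_ntK.Curve

/-!
# MP_b197b4_nt, project K1: from `Global` to the statement
-/

set_option autoImplicit false

namespace Pool.Agent.Lib.MP_b197b4_ntK

open IsLocalRing

section

variable {L : Type} [Field L]

theorem hasLen_one (B : Subring L) {n : ℤ} (h : HasLen B 1 n) : n = 0 := by
  obtain ⟨a, b, r, s, ha, hb, hu, hr, hs, hn⟩ := h
  have hab : a = b := by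
    apply Subtype.ext
    have := hu.symm
    rwa [div_eq_one_iff_eq hb] at this
  subst hab
  rw [hr] at hs
  have : (r : ℕ∞) = (s : ℕ∞) := hs
  have hrs : r = s := by exact_mod_cast this
  rw [hn, hrs, sub_self]

theorem len_one (B : Subring L) : len B 1 = 0 := by
  unfold len
  split_ifs with h
  · exact hasLen_one B h.choose_spec
  · rfl

end

variable {k : Type} {F : Type} [Field k] [Field F] [Algebra k F]

theorem curves_finite' {M : Set (Subalgebra k F)} (hM : M.Finite) (hch : ∀ A ∈ M, Chart A)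
    (f : F) (hf : f ≠ 0) : {V | V ∈ Curves M ∧ ord V f ≠ 0}.Finite := by
  have h1 : {V | V ∈ Curves M ∧ ord V f ≠ 0} ⊆ ⋃ A ∈ M, {V | IsCurve A V ∧ ord V f ≠ 0} := by
    rintro V ⟨⟨A, hA, hV⟩, h⟩
    exact Set.mem_biUnion hA ⟨hV, h⟩
  exact (hM.biUnion fun A hA => curves_finite (hch A hA) f hf).subset h1

theorem disc_of_curves {M : Set (Subalgebra k F)} {V : ValuationSubring F} (h : V ∈ Curves M) :
    IsDiscreteValuationRing V := by
  obtain ⟨A, _, hV⟩ := h
  exact hV.1

theorem over_of_curves {M : Set (Subalgebra k F)} {V : ValuationSubring F} (h : V ∈ Curves M) :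
    Over k V := by
  obtain ⟨A, _, hV⟩ := h
  exact fun c => hV.2.1 _ (A.algebraMap_mem c)

theorem sum_eq_zero {M : Set (Subalgebra k F)} {a : ∀ V : ValuationSubring F, ResidueField V}
    (ha : Cyc M a) {l : ∀ V : ValuationSubring F, ResidueField V → ℚ}
    (hl : Forms k (Curves M) l) {h : Subring F → ℚ}
    (hG : ∀ V ∈ Curves M, ∀ u : ResidueField V, u ≠ 0 →
      {O | O ∈ Points M ∧ (O : Set F) ⊆ V ∧ len (curveLoc O V) u ≠ 0}.Finite ∧
      l V u = ∑ᶠ (O) (_ : O ∈ Points M ∧ (O : Set F) ⊆ V), h O * len (curveLoc O V) u) :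
    ∑ᶠ (V) (_ : V ∈ Curves M), l V (a V) = 0 := by
  classical
  let S : Finset (ValuationSubring F) := ha.finite.toFinset
  have hS : ∀ V, V ∈ S ↔ V ∈ Curves M ∧ a V ≠ 1 := fun V => by
    simp only [S, Set.Finite.mem_toFinset]
    rfl
  have hl1 : ∀ V ∈ Curves M, l V 1 = 0 := by
    intro V hV
    have := hl.mul V hV 1 1 one_ne_zero one_ne_zero
    rw [mul_one] at this
    linarith
  -- the finite set of closed points
  let T : Finset (Subring F) := S.attach.biUnion fun V =>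
    (hG V.1 ((hS _).1 V.2).1 (a V.1) (ha.ne _ ((hS _).1 V.2).1)).1.toFinset
  have hT : ∀ V ∈ S, ∀ O, O ∈ Points M → (O : Set F) ⊆ V → len (curveLoc O V) (a V) ≠ 0 →
      O ∈ T := by
    intro V hV O hO hOV hne
    refine Finset.mem_biUnion.2 ⟨⟨V, hV⟩, Finset.mem_attach _ _, ?_⟩
    rw [Set.Finite.mem_toFinset]
    exact ⟨hO, hOV, hne⟩
  have hTP : ∀ O ∈ T, O ∈ Points M := by
    intro O hO
    obtain ⟨V, _, h2⟩ := Finset.mem_biUnion.1 hO
    rw [Set.Finite.mem_toFinset] at h2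
    exact h2.1
  have e1 : ∑ᶠ (V) (_ : V ∈ Curves M), l V (a V) = ∑ V ∈ S, l V (a V) := by
    apply finsum_mem_eq_sum_of_inter_support_eq
    ext V
    simp only [Set.mem_inter_iff, Function.mem_support, Finset.mem_coe, hS]
    constructor
    · rintro ⟨hV, hne⟩
      refine ⟨⟨hV, ?_⟩, hne⟩
      intro h1
      rw [h1] at hne
      exact hne (hl1 V hV)
    · rintro ⟨⟨hV, _⟩, hne⟩
      exact ⟨hV, hne⟩
  have e2 : ∀ V ∈ S, l V (a V) =
      ∑ O ∈ T, if (O : Set F) ⊆ V then h O * len (curveLoc O V) (a V) else 0 := by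
    intro V hV
    have hV' := (hS V).1 hV
    rw [(hG V hV'.1 (a V) (ha.ne V hV'.1)).2, ← Finset.sum_filter]
    apply finsum_cond_eq_sum_of_cond_iff
    intro O hne
    rw [Finset.mem_filter]
    constructor
    · rintro ⟨hO, hOV⟩
      refine ⟨hT V hV O hO hOV ?_, hOV⟩
      intro h0
      rw [h0] at hne
      exact hne (by push_cast; ring)
    · rintro ⟨hO, hOV⟩
      exact ⟨hTP O hO, hOV⟩
  rw [e1, Finset.sum_congr rfl e2, Finset.sum_comm]
  apply Finset.sum_eq_zero
  intro O hO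
  have e3 : ∑ᶠ (V) (_ : V ∈ Curves M ∧ (O : Set F) ⊆ V), len (curveLoc O V) (a V) =
      ∑ V ∈ S, if (O : Set F) ⊆ V then len (curveLoc O V) (a V) else 0 := by
    rw [← Finset.sum_filter]
    apply finsum_cond_eq_sum_of_cond_iff
    intro V hne
    rw [Finset.mem_filter, hS]
    constructor
    · rintro ⟨hV, hOV⟩
      refine ⟨⟨hV, ?_⟩, hOV⟩
      intro h1
      rw [h1] at hne
      exact hne (len_one _)
    · rintro ⟨⟨hV, _⟩, hOV⟩
      exact ⟨hV, hOV⟩
  have e4 := ha.div O (hTP O hO)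
  rw [e3] at e4
  have e5 : ∀ V ∈ S, (if (O : Set F) ⊆ V then h O * (len (curveLoc O V) (a V) : ℚ) else 0) =
      h O * (((if (O : Set F) ⊆ V then len (curveLoc O V) (a V) else 0) : ℤ) : ℚ) := by
    intro V _
    split_ifs
    · rfl
    · push_cast
      ring
  rw [Finset.sum_congr rfl e5, ← Finset.mul_sum, ← Int.cast_sum, e4, Int.cast_zero, mul_zero]

/-- END OF THE PROOF. -/
theorem final {M : Set (Subalgebra k F)} (hM : M.Finite) (hch : ∀ A ∈ M, Chart A)
    (hG : Global M) (a : ∀ V : ValuationSubring F, ResidueField V) (ha : Cyc M a) :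
    ∃ N : ℕ, 0 < N ∧ ∃ s : List (F × F), (∀ q ∈ s, q.1 ≠ 0 ∧ q.2 ≠ 0) ∧
      ∀ V ∈ Curves M, a V ^ N = (s.map fun q => tame V q.1 q.2).prod := by
  apply dual (k := k) (fun V hV => disc_of_curves hV) (fun V hV => over_of_curves hV)
    (fun f hf => curves_finite' hM hch f hf) a ha.ne ha.finite
  intro l hl
  obtain ⟨h, hh⟩ := hG l hl
  exact sum_eq_zero ha hl hh

theorem charts_finite {n : ℕ} (x : Fin (n + 1) → F) : (charts k x).Finite :=
  Set.finite_range _

theorem k1Proj_of_global (h : ∀ (F : Type) [Field F] [Algebra k F] (n : ℕ) (x : Fin (n + 1) → F),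
    Surf k x → Global (charts k x)) : K1Proj k := by
  intro F _ _ n x hx a ha
  refine final (charts_finite x) ?_ (h F n x hx) a ha
  rintro _ ⟨i, rfl⟩
  exact hx.chart i

end Pool.Agent.Lib.MP_b197b4_ntK
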