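import Mathlib
import Pool.Agent.Lib.MP_b197b4_ntK.Final

/-!
# MP_b197b4_nt, project K1: the projective Mennicke symbol
-/

set_option autoImplicit false

namespace Pool.Agent.Lib.MP_b197b4_ntK

open IsLocalRing

theorem exists_factor {G H : Type*} [AddCommGroup G] [AddCommGroup H] (δ : G →+ H) (M : G →+ ℚ)
    (h : ∀ g, δ g = 0 → M g = 0) : ∃ E : H →+ ℚ, ∀ g, E (δ g) = M g := by
  obtain ⟨E, hE⟩ := (Module.Baer.of_divisible ℚ).extension_property_addMonoidHom
    (QuotientAddGroup.kerLift δ) (QuotientAddGroup.kerLift_injective δ)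
    (QuotientAddGroup.lift δ.ker M (fun g hg => h g hg))
  refine ⟨E, fun g => ?_⟩
  have := DFunLike.congr_fun hE (g : G ⧸ δ.ker)
  simpa using this

section Tame

variable {K : Type} [Field K] {V : ValuationSubring K}

theorem tame_mul_fst (hV : IsDiscreteValuationRing V) {f f' g : K} (hf : f ≠ 0) (hf' : f' ≠ 0)
    (hg : g ≠ 0) : tame V (f * f') g = tame V f g * tame V f' g := by
  unfold tame
  rw [← res_mul (mem_of_val_one (val_tame hV hf hg)) (mem_of_val_one (val_tame hV hf' hg)),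
    ord_mul hV hf hf']
  congr 1
  rw [add_mul, zpow_add₀ (by norm_num : (-1 : K) ≠ 0), mul_zpow, zpow_add₀ hg]
  ring

theorem tame_one_fst (hV : IsDiscreteValuationRing V) {g : K} (hg : g ≠ 0) :
    tame V 1 g = 1 := by
  rw [tame_unit_left hV (by simp) hg, res_one, one_zpow]

end Tame

section FormsApi

variable {k F : Type} [Field k] [Field F] [Algebra k F] {D : Set (ValuationSubring F)}
  {l : ∀ V : ValuationSubring F, ResidueField V → ℚ} {V : ValuationSubring F}

theorem Forms.l_one (hl : Forms k D l) (hV : V ∈ D) : l V 1 = 0 := by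
  have := hl.mul V hV 1 1 one_ne_zero one_ne_zero
  rw [mul_one] at this
  linarith

theorem Forms.l_inv (hl : Forms k D l) (hV : V ∈ D) {c : ResidueField V} (hc : c ≠ 0) :
    l V c⁻¹ = - l V c := by
  have := hl.mul V hV c c⁻¹ hc (inv_ne_zero hc)
  rw [mul_inv_cancel₀ hc, hl.l_one hV] at this
  linarith

theorem Forms.l_pow (hl : Forms k D l) (hV : V ∈ D) {c : ResidueField V} (hc : c ≠ 0) (m : ℕ) :
    l V (c ^ m) = m * l V c := by
  induction m with
  | zero => simp [hl.l_one hV]
  | succ m ih =>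
    rw [pow_succ, hl.mul V hV _ _ (pow_ne_zero _ hc) hc, ih]
    push_cast
    ring

theorem Forms.l_zpow (hl : Forms k D l) (hV : V ∈ D) {c : ResidueField V} (hc : c ≠ 0) (m : ℤ) :
    l V (c ^ m) = m * l V c := by
  cases m with
  | ofNat m => simpa using hl.l_pow hV hc m
  | negSucc m =>
    rw [zpow_negSucc, hl.l_inv hV (pow_ne_zero _ hc), hl.l_pow hV hc, Int.negSucc_eq]
    push_cast
    ring

theorem Forms.l_div (hl : Forms k D l) (hV : V ∈ D) {c d : ResidueField V} (hc : c ≠ 0)
    (hd : d ≠ 0) : l V (c / d) = l V c - l V d := by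
  rw [div_eq_mul_inv, hl.mul V hV _ _ hc (inv_ne_zero hd), hl.l_inv hV hd]
  ring

/-- A torsion element is killed. -/
theorem Forms.l_torsion (hl : Forms k D l) (hV : V ∈ D) {c : ResidueField V} {m : ℕ} (hm : 0 < m)
    (hc : c ^ m = 1) : l V c = 0 := by
  have hc0 : c ≠ 0 := by
    rintro rfl
    rw [zero_pow hm.ne'] at hc
    exact zero_ne_one hc
  have h := hl.l_pow hV hc0 m
  rw [hc, hl.l_one hV] at h
  have hm' : (m : ℚ) ≠ 0 := by exact_mod_cast hm.ne'
  rcases mul_eq_zero.1 h.symm with h1 | h1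
  · exact absurd h1 hm'
  · exact h1

theorem Forms.l_tame_mul_left (hl : Forms k D l) (hV : V ∈ D) {f f' g : F} (hf : f ≠ 0)
    (hf' : f' ≠ 0) (hg : g ≠ 0) :
    l V (tame V (f * f') g) = l V (tame V f g) + l V (tame V f' g) := by
  have hd := hl.disc V hV
  rw [tame_mul_fst hd hf hf' hg, hl.mul V hV _ _ (tame_ne_zero hd hf hg) (tame_ne_zero hd hf' hg)]

theorem Forms.l_tame_swap (hl : Forms k D l) (hV : V ∈ D) {f g : F} (hf : f ≠ 0)
    (hg : g ≠ 0) : l V (tame V g f) = - l V (tame V f g) := by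
  have hd := hl.disc V hV
  rw [tame_swap hd hf hg, hl.l_inv hV (tame_ne_zero hd hf hg)]

theorem Forms.l_tame_pow_left (hl : Forms k D l) (hV : V ∈ D) {f g : F} (hf : f ≠ 0)
    (hg : g ≠ 0) (m : ℕ) : l V (tame V (f ^ m) g) = m * l V (tame V f g) := by
  have hd := hl.disc V hV
  induction m with
  | zero => simp [tame_one_fst hd hg, hl.l_one hV]
  | succ m ih =>
    rw [pow_succ, hl.l_tame_mul_left hV (pow_ne_zero _ hf) hf hg, ih]
    push_cast
    ring

theorem Forms.l_tame_zpow_left (hl : Forms k D l) (hV : V ∈ D) {f g : F} (hf : f ≠ 0)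
    (hg : g ≠ 0) (m : ℤ) : l V (tame V (f ^ m) g) = m * l V (tame V f g) := by
  have hd := hl.disc V hV
  cases m with
  | ofNat m => simpa using hl.l_tame_pow_left hV hf hg m
  | negSucc m =>
    have h1 : f ^ (Int.negSucc m) ≠ 0 := zpow_ne_zero _ hf
    have h2 := hl.l_tame_mul_left hV h1 (pow_ne_zero (m + 1) hf) hg
    have h3 : f ^ (Int.negSucc m) * f ^ (m + 1) = 1 := by
      rw [zpow_negSucc]
      exact inv_mul_cancel₀ (pow_ne_zero _ hf)
    rw [h3, tame_one_fst hd hg, hl.l_one hV, hl.l_tame_pow_left hV hf hg] at h2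
    have h4 : ((Int.negSucc m : ℤ) : ℚ) = -((m : ℚ) + 1) := by
      rw [Int.negSucc_eq]
      push_cast
      ring
    rw [h4]
    push_cast at h2
    linarith

end FormsApi

section Proj

variable {k F : Type} [Field k] [Field F] [Algebra k F] {n : ℕ} (x : Fin (n + 1) → F)

/-- The forms of degree `d`. -/
def hom (k : Type) {F : Type} [Field k] [Field F] [Algebra k F] {n : ℕ} (x : Fin (n + 1) → F)
    (d : ℕ) : Submodule k F := (Submodule.span k (Set.range x)) ^ d

theorem exists_idx (V : ValuationSubring F) :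
    ∃ i : Fin (n + 1), ∀ j, ord V (x i) ≤ ord V (x j) := by
  obtain ⟨i, _, hi⟩ := Finset.exists_min_image Finset.univ (fun j => ord V (x j))
    Finset.univ_nonempty
  exact ⟨i, fun j => hi j (Finset.mem_univ j)⟩

/-- A coordinate which does not vanish on the curve `V`. -/
noncomputable def idx (V : ValuationSubring F) : Fin (n + 1) := (exists_idx x V).choose

theorem idx_le (V : ValuationSubring F) (j : Fin (n + 1)) :
    ord V (x (idx x V)) ≤ ord V (x j) := (exists_idx x V).choose_spec j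

/-- The form `f` of degree `d` as a function near the curve `V`. -/
noncomputable def hat (V : ValuationSubring F) (d : ℤ) (f : F) : F := f / x (idx x V) ^ d

/-- The multiplicity of the curve `V` in the form `f` of degree `d`. -/
noncomputable def vh (V : ValuationSubring F) (d : ℤ) (f : F) : ℤ :=
  ord V f - d * ord V (x (idx x V))

variable {x}

theorem hat_ne (hx : ∀ i, x i ≠ 0) (V : ValuationSubring F) (d : ℤ) {f : F} (hf : f ≠ 0) :
    hat x V d f ≠ 0 := div_ne_zero hf (zpow_ne_zero _ (hx _))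

theorem ord_hat (hx : ∀ i, x i ≠ 0) {V : ValuationSubring F} (hV : IsDiscreteValuationRing V)
    (d : ℤ) {f : F} (hf : f ≠ 0) : ord V (hat x V d f) = vh x V d f := by
  unfold hat vh
  rw [ord_div hV hf (zpow_ne_zero _ (hx _)), ord_zpow hV (hx _)]

theorem hat_mul (hx : ∀ i, x i ≠ 0) (V : ValuationSubring F) (a b : ℤ) (f g : F) :
    hat x V (a + b) (f * g) = hat x V a f * hat x V b g := by
  unfold hat
  rw [zpow_add₀ (hx _), mul_div_mul_comm]

theorem hat_zpow (V : ValuationSubring F) (a m : ℤ) (f : F) :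
    hat x V (a * m) (f ^ m) = hat x V a f ^ m := by
  unfold hat
  rw [div_zpow, zpow_mul]

theorem vh_mul {V : ValuationSubring F} (hV : IsDiscreteValuationRing V) (a b : ℤ) {f g : F}
    (hf : f ≠ 0) (hg : g ≠ 0) : vh x V (a + b) (f * g) = vh x V a f + vh x V b g := by
  unfold vh
  rw [ord_mul hV hf hg]
  ring

theorem vh_zpow {V : ValuationSubring F} (hV : IsDiscreteValuationRing V) (a m : ℤ) {f : F}
    (hf : f ≠ 0) : vh x V (a * m) (f ^ m) = m * vh x V a f := by
  unfold vh
  rw [ord_zpow hV hf]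
  ring

/-- Forms are integral at all curves. -/
theorem hat_mem {V : ValuationSubring F} (hV : IsDiscreteValuationRing V) (hk : Over k V)
    (hx : ∀ i, x i ≠ 0) {d : ℕ} {f : F} (hf : f ∈ hom k x d) : hat x V d f ∈ V := by
  have h1 : ∀ j, x j / x (idx x V) ∈ V := by
    intro j
    rw [← ord_nonneg_iff hV (div_ne_zero (hx j) (hx _)), ord_div hV (hx j) (hx _)]
    have := idx_le x V j
    omega
  let W : ℕ → Submodule k F := fun d =>
    { carrier := {f | f / x (idx x V) ^ d ∈ V}
      add_mem' := by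
        intro a b ha hb
        change (a + b) / _ ∈ V
        rw [add_div]
        exact add_mem ha hb
      zero_mem' := by
        change (0 : F) / _ ∈ V
        rw [zero_div]
        exact zero_mem _
      smul_mem' := by
        intro c a ha
        change (c • a) / _ ∈ V
        rw [Algebra.smul_def, mul_div_assoc]
        exact mul_mem (hk c) ha }
  have h2 : Submodule.span k (Set.range x) ≤ W 1 := by
    rw [Submodule.span_le]
    rintro _ ⟨j, rfl⟩
    change x j / _ ^ 1 ∈ V
    rw [pow_one]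
    exact h1 j
  have h3 : ∀ d, (Submodule.span k (Set.range x)) ^ d ≤ W d := by
    intro d
    induction d with
    | zero =>
      rw [pow_zero, Submodule.one_le]
      change (1 : F) / _ ^ 0 ∈ V
      rw [pow_zero, div_one]
      exact one_mem _
    | succ d ih =>
      rw [pow_succ, Submodule.mul_le]
      intro a ha b hb
      have ha' := ih ha
      have hb' := h2 hb
      change a / _ ^ d ∈ V at ha'
      change b / _ ^ 1 ∈ V at hb'
      change (a * b) / _ ^ (d + 1) ∈ V
      rw [pow_succ, mul_div_mul_comm]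
      rw [pow_one] at hb'
      exact mul_mem ha' hb'
  have h4 := h3 d hf
  change f / _ ^ d ∈ V at h4
  unfold hat
  rw [zpow_natCast]
  exact h4

theorem vh_nonneg {V : ValuationSubring F} (hV : IsDiscreteValuationRing V) (hk : Over k V)
    (hx : ∀ i, x i ≠ 0) {d : ℕ} {f : F} (hf : f ∈ hom k x d) (hf0 : f ≠ 0) :
    0 ≤ vh x V d f := by
  rw [← ord_hat hx hV d hf0, ord_nonneg_iff hV (hat_ne hx V d hf0)]
  exact hat_mem hV hk hx hf

/-- Only finitely many curves in a form. -/
theorem vh_finite {D : Set (ValuationSubring F)}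
    (hfin : ∀ f : F, f ≠ 0 → {V | V ∈ D ∧ ord V f ≠ 0}.Finite) (hx : ∀ i, x i ≠ 0) (d : ℤ)
    {f : F} (hf : f ≠ 0) : {V | V ∈ D ∧ vh x V d f ≠ 0}.Finite := by
  have h1 : (⋃ i : Fin (n + 1), {V | V ∈ D ∧ ord V (x i) ≠ 0}).Finite :=
    Set.finite_iUnion fun i => hfin (x i) (hx i)
  refine ((hfin f hf).union h1).subset ?_
  rintro V ⟨hV, hne⟩
  by_contra hcon
  simp only [Set.mem_union, Set.mem_iUnion, Set.mem_ofPred_eq, not_or, not_and, not_not,
    not_exists] at hcon
  apply hne
  unfold vh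
  rw [hcon.1 hV, hcon.2 (idx x V) hV]
  ring

variable (x)

/-- The local term of the extended symbol. -/
noncomputable def Lt (l : ∀ V : ValuationSubring F, ResidueField V → ℚ)
    (e : ValuationSubring F → ℚ) (V : ValuationSubring F) (f : F) (a : ℤ) (g : F) (b : ℤ) : ℚ :=
  l V (tame V (hat x V a f) (hat x V b g)) + (a * vh x V b g - b * vh x V a f) * e V

/-- The form `l V` on homogeneous elements which do not vanish on `V`. -/
noncomputable def Lam (l : ∀ V : ValuationSubring F, ResidueField V → ℚ)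
    (e : ValuationSubring F → ℚ) (V : ValuationSubring F) (g : F) (b : ℤ) : ℚ :=
  l V (res V (hat x V b g)) + b * e V

/-- The Mennicke symbol. -/
noncomputable def mu (D : Set (ValuationSubring F))
    (l : ∀ V : ValuationSubring F, ResidueField V → ℚ)
    (e : ValuationSubring F → ℚ) (f : F) (a : ℤ) (g : F) (b : ℤ) : ℚ :=
  ∑ᶠ (V) (_ : V ∈ D), vh x V a f * Lam x l e V g b

/-- The forms `f` of degree `a` and `g` of degree `b` have no common curve. -/
def Copr (D : Set (ValuationSubring F)) (f : F) (a : ℤ) (g : F) (b : ℤ) : Prop :=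
  f ≠ 0 ∧ g ≠ 0 ∧ ∀ V ∈ D, 0 ≤ vh x V a f ∧ 0 ≤ vh x V b g ∧ (vh x V a f = 0 ∨ vh x V b g = 0)

variable {x}
variable {D : Set (ValuationSubring F)} {l : ∀ V : ValuationSubring F, ResidueField V → ℚ}
  {e : ValuationSubring F → ℚ}

theorem Copr.symm {f : F} {a : ℤ} {g : F} {b : ℤ} (h : Copr x D f a g b) : Copr x D g b f a :=
  ⟨h.2.1, h.1, fun V hV => ⟨(h.2.2 V hV).2.1, (h.2.2 V hV).1, (h.2.2 V hV).2.2.symm⟩⟩

theorem Lt_swap (hl : Forms k D l) (hx : ∀ i, x i ≠ 0) {V : ValuationSubring F} (hV : V ∈ D)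
    {f g : F} (hf : f ≠ 0) (hg : g ≠ 0) (a b : ℤ) :
    Lt x l e V g b f a = - Lt x l e V f a g b := by
  unfold Lt
  rw [hl.l_tame_swap hV (hat_ne hx V a hf) (hat_ne hx V b hg)]
  ring

theorem Lt_mul_left (hl : Forms k D l) (hx : ∀ i, x i ≠ 0) {V : ValuationSubring F} (hV : V ∈ D)
    {f f' g : F} (hf : f ≠ 0) (hf' : f' ≠ 0) (hg : g ≠ 0) (a a' b : ℤ) :
    Lt x l e V (f * f') (a + a') g b = Lt x l e V f a g b + Lt x l e V f' a' g b := by
  unfold Lt
  rw [hat_mul hx, hl.l_tame_mul_left hV (hat_ne hx V a hf) (hat_ne hx V a' hf')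
    (hat_ne hx V b hg), vh_mul (hl.disc V hV) a a' hf hf']
  push_cast
  ring

theorem Lt_mul_right (hl : Forms k D l) (hx : ∀ i, x i ≠ 0) {V : ValuationSubring F} (hV : V ∈ D)
    {f g g' : F} (hf : f ≠ 0) (hg : g ≠ 0) (hg' : g' ≠ 0) (a b b' : ℤ) :
    Lt x l e V f a (g * g') (b + b') = Lt x l e V f a g b + Lt x l e V f a g' b' := by
  rw [Lt_swap hl hx hV (mul_ne_zero hg hg') hf (b + b') a, Lt_mul_left hl hx hV hg hg' hf,
    Lt_swap hl hx hV hf hg, Lt_swap hl hx hV hf hg']
  ring

theorem Lt_zpow_left (hl : Forms k D l) (hx : ∀ i, x i ≠ 0) {V : ValuationSubring F} (hV : V ∈ D)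
    {f g : F} (hf : f ≠ 0) (hg : g ≠ 0) (a b m : ℤ) :
    Lt x l e V (f ^ m) (a * m) g b = m * Lt x l e V f a g b := by
  unfold Lt
  rw [hat_zpow, hl.l_tame_zpow_left hV (hat_ne hx V a hf) (hat_ne hx V b hg),
    vh_zpow (hl.disc V hV) a m hf]
  push_cast
  ring

theorem Lt_support (hl : Forms k D l) (hx : ∀ i, x i ≠ 0) {V : ValuationSubring F} (hV : V ∈ D)
    {f g : F} (hf : f ≠ 0) (hg : g ≠ 0) (a b : ℤ) (h : Lt x l e V f a g b ≠ 0) :
    vh x V a f ≠ 0 ∨ vh x V b g ≠ 0 := by
  by_contra hcon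
  push Not at hcon
  apply h
  have hd := hl.disc V hV
  unfold Lt
  rw [tame_eq_one (by rw [ord_hat hx hd a hf]; exact hcon.1)
    (by rw [ord_hat hx hd b hg]; exact hcon.2), hl.l_one hV, hcon.1, hcon.2]
  simp

theorem Lt_finite (hl : Forms k D l) (hx : ∀ i, x i ≠ 0)
    {f g : F} (hf : f ≠ 0) (hg : g ≠ 0) (a b : ℤ) :
    (D ∩ Function.support fun V => Lt x l e V f a g b).Finite := by
  refine ((vh_finite hl.finite hx a hf).union (vh_finite hl.finite hx b hg)).subset ?_
  rintro V ⟨hV, h⟩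
  rcases Lt_support hl hx hV hf hg a b h with h1 | h1
  · exact Or.inl ⟨hV, h1⟩
  · exact Or.inr ⟨hV, h1⟩

/-- The sum of the local terms. -/
noncomputable def LS (x : Fin (n + 1) → F) (D : Set (ValuationSubring F))
    (l : ∀ V : ValuationSubring F, ResidueField V → ℚ)
    (e : ValuationSubring F → ℚ) (f : F) (a : ℤ) (g : F) (b : ℤ) : ℚ :=
  ∑ᶠ (V) (_ : V ∈ D), Lt x l e V f a g b

theorem LS_mul_left (hl : Forms k D l) (hx : ∀ i, x i ≠ 0)
    {f f' g : F} (hf : f ≠ 0) (hf' : f' ≠ 0) (hg : g ≠ 0) (a a' b : ℤ) :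
    LS x D l e (f * f') (a + a') g b = LS x D l e f a g b + LS x D l e f' a' g b := by
  unfold LS
  rw [← finsum_mem_add_distrib' (Lt_finite hl hx hf hg a b) (Lt_finite hl hx hf' hg a' b)]
  exact finsum_mem_congr rfl fun V hV => Lt_mul_left hl hx hV hf hf' hg a a' b

theorem LS_swap (hl : Forms k D l) (hx : ∀ i, x i ≠ 0)
    {f g : F} (hf : f ≠ 0) (hg : g ≠ 0) (a b : ℤ) :
    LS x D l e g b f a = - LS x D l e f a g b := by
  unfold LS
  have h := finsum_mem_add_distrib' (Lt_finite (e := e) hl hx hg hf b a)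
    (Lt_finite (e := e) hl hx hf hg a b)
  have h2 : ∑ᶠ (V) (_ : V ∈ D), (Lt x l e V g b f a + Lt x l e V f a g b) = 0 := by
    rw [← finsum_mem_zero (s := D) (M := ℚ)]
    exact finsum_mem_congr rfl fun V hV => by rw [Lt_swap hl hx hV hf hg]; ring
  rw [h2] at h
  linarith

theorem LS_zpow_left (hl : Forms k D l) (hx : ∀ i, x i ≠ 0)
    {f g : F} (hf : f ≠ 0) (hg : g ≠ 0) (a b m : ℤ) :
    LS x D l e (f ^ m) (a * m) g b = m * LS x D l e f a g b := by
  classical
  unfold LS
  rw [mul_finsum]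
  refine finsum_congr fun V => ?_
  by_cases hV : V ∈ D
  · rw [finsum_eq_if, finsum_eq_if, if_pos hV, if_pos hV]
    exact Lt_zpow_left hl hx hV hf hg a b m
  · rw [finsum_eq_if, finsum_eq_if, if_neg hV, if_neg hV, mul_zero]

theorem LS_self (hl : Forms k D l) (hx : ∀ i, x i ≠ 0)
    {f : F} (hf : f ≠ 0) (a : ℤ) : LS x D l e f a f a = 0 := by
  have := LS_swap (e := e) hl hx hf hf a a
  linarith

theorem hat_zero (V : ValuationSubring F) (f : F) : hat x V 0 f = f := by
  unfold hat
  rw [zpow_zero, div_one]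

theorem vh_zero (V : ValuationSubring F) (f : F) : vh x V 0 f = ord V f := by
  unfold vh
  ring

theorem LS_zero (hl : Forms k D l)
    {f g : F} (hf : f ≠ 0) (hg : g ≠ 0) : LS x D l e f 0 g 0 = 0 := by
  rw [← hl.recip f g hf hg]
  unfold LS
  exact finsum_mem_congr rfl fun V _ => by
    unfold Lt
    rw [hat_zero, hat_zero]
    push_cast
    ring

/-- The normalisation exists. -/
theorem exists_norm (hl : Forms k D l) (hx : ∀ i, x i ≠ 0)
    (hunit : ∀ f : F, f ≠ 0 → (∀ V ∈ D, ord V f = 0) → ∃ N : ℕ, 0 < N ∧ f ^ N = 1)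
    {t : F} (ht : t ≠ 0) :
    ∃ e : ValuationSubring F → ℚ, ∀ f : F, f ≠ 0 → LS x D l e f 0 t 1 = 0 := by
  classical
  -- the functional without `e`
  have hfin : ∀ f : F, f ≠ 0 → (Function.support fun V : D => ord (V : ValuationSubring F) f).Finite := by
    intro f hf
    apply Set.Finite.of_finite_image (f := Subtype.val)
    · refine (hl.finite f hf).subset ?_
      rintro _ ⟨V, hV, rfl⟩
      exact ⟨V.2, hV⟩
    · exact Subtype.val_injective.injOn
  let δ : Additive Fˣ →+ (D →₀ ℤ) :=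
    { toFun := fun f => Finsupp.ofSupportFinite
        (fun V : D => ord (V : ValuationSubring F) (Additive.toMul f : Fˣ)) (hfin _ (Units.ne_zero _))
      map_zero' := by
        ext V
        simp only [toMul_zero, Units.val_one, Finsupp.ofSupportFinite_coe, Finsupp.coe_zero,
          Pi.zero_apply]
        exact ord_one _ (hl.disc _ V.2)
      map_add' := by
        intro f g
        ext V
        simp only [toMul_add, Units.val_mul, Finsupp.ofSupportFinite_coe, Finsupp.coe_add,
          Pi.add_apply]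
        exact ord_mul (hl.disc _ V.2) (Units.ne_zero _) (Units.ne_zero _) }
  let M : Additive Fˣ →+ ℚ :=
    { toFun := fun f => LS x D l (fun _ => 0) (Additive.toMul f : Fˣ) 0 t 1
      map_zero' := by
        have h := LS_mul_left (e := fun _ => 0) hl hx (one_ne_zero (α := F))
          (one_ne_zero (α := F)) ht 0 0 1
        rw [mul_one, add_zero] at h
        simp only [toMul_zero, Units.val_one]
        linarith
      map_add' := by
        intro f g
        simp only [toMul_add, Units.val_mul]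
        have h := LS_mul_left (e := fun _ => 0) hl hx (Units.ne_zero (Additive.toMul f : Fˣ))
          (Units.ne_zero (Additive.toMul g : Fˣ)) ht 0 0 1
        rw [add_zero] at h
        exact h }
  obtain ⟨E, hE⟩ := exists_factor δ M (by
    intro f hf
    obtain ⟨N, hN, h1⟩ := hunit (Additive.toMul f : Fˣ) (Units.ne_zero _) (by
      intro V hV
      have := DFunLike.congr_fun hf (⟨V, hV⟩ : D)
      exact this)
    have h2 : N • f = 0 := by
      apply Additive.toMul.injective
      rw [toMul_nsmul, toMul_zero]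
      exact Units.ext (by rw [Units.val_pow_eq_pow_val, h1, Units.val_one])
    have h3 : N • M f = 0 := by rw [← map_nsmul, h2, map_zero]
    rw [nsmul_eq_mul] at h3
    have hN' : (N : ℚ) ≠ 0 := by exact_mod_cast hN.ne'
    rcases mul_eq_zero.1 h3 with h4 | h4
    · exact absurd h4 hN'
    · exact h4)
  refine ⟨fun V => if h : V ∈ D then E (Finsupp.single ⟨V, h⟩ 1) else 0, ?_⟩
  intro f hf
  have h1 := hE (Additive.ofMul (Units.mk0 f hf))
  have h2 : M (Additive.ofMul (Units.mk0 f hf)) = LS x D l (fun _ => 0) f 0 t 1 := rfl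
  have h3 : E (δ (Additive.ofMul (Units.mk0 f hf))) = ∑ᶠ (V) (_ : V ∈ D), (ord V f : ℚ) *
      (if h : V ∈ D then E (Finsupp.single ⟨V, h⟩ 1) else 0) := by
    rw [← finsum_set_coe_eq_finsum_mem]
    have h4 : δ (Additive.ofMul (Units.mk0 f hf)) =
        ∑ V ∈ (δ (Additive.ofMul (Units.mk0 f hf))).support,
          Finsupp.single V (ord (V : ValuationSubring F) f) := by
      conv_lhs => rw [← Finsupp.sum_single (δ (Additive.ofMul (Units.mk0 f hf)))]
      rfl
    rw [h4, map_sum]
    rw [finsum_eq_sum_of_support_subset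
      (s := (δ (Additive.ofMul (Units.mk0 f hf))).support)]
    · refine Finset.sum_congr rfl fun V _ => ?_
      rw [dif_pos V.2]
      have h5 : Finsupp.single V (ord (V : ValuationSubring F) f) =
          ord (V : ValuationSubring F) f • Finsupp.single V (1 : ℤ) := by
        rw [Finsupp.smul_single, smul_eq_mul, mul_one]
      rw [h5, map_zsmul, zsmul_eq_mul]
    · intro V hV
      rw [Function.mem_support] at hV
      rw [Finset.mem_coe, Finsupp.mem_support_iff]
      intro h0
      apply hV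
      have h6 : ord (V : ValuationSubring F) f = 0 := h0
      rw [h6]
      simp
  rw [h3, h2] at h1
  -- compare
  have h7 : LS x D l (fun V => if h : V ∈ D then E (Finsupp.single ⟨V, h⟩ 1) else 0) f 0 t 1 +
      ∑ᶠ (V) (_ : V ∈ D), (ord V f : ℚ) *
      (if h : V ∈ D then E (Finsupp.single ⟨V, h⟩ 1) else 0) = LS x D l (fun _ => 0) f 0 t 1 := by
    unfold LS
    rw [← finsum_mem_add_distrib' (Lt_finite hl hx hf ht 0 1)]
    · refine finsum_mem_congr rfl fun V hV => ?_
      unfold Lt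
      rw [vh_zero]
      push_cast
      ring
    · refine (hl.finite f hf).subset ?_
      rintro V ⟨hV, h8⟩
      refine ⟨hV, fun h9 => h8 ?_⟩
      simp only [h9]
      push_cast
      ring
  linarith

/-- RECIPROCITY for homogeneous elements. -/
theorem exists_LS_eq_zero (hl : Forms k D l) (hx : ∀ i, x i ≠ 0)
    (hunit : ∀ f : F, f ≠ 0 → (∀ V ∈ D, ord V f = 0) → ∃ N : ℕ, 0 < N ∧ f ^ N = 1) :
    ∃ e : ValuationSubring F → ℚ, ∀ (f g : F) (a b : ℤ), f ≠ 0 → g ≠ 0 →
      LS x D l e f a g b = 0 := by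
  have ht : x 0 ≠ 0 := hx 0
  obtain ⟨e, he⟩ := exists_norm hl hx hunit ht
  refine ⟨e, ?_⟩
  have h0 : ∀ (g : F) (b : ℤ), g ≠ 0 → ∀ f : F, f ≠ 0 → LS x D l e f 0 g b = 0 := by
    intro g b hg f hf
    have hg0 : g / x 0 ^ b ≠ 0 := div_ne_zero hg (zpow_ne_zero _ ht)
    have h1 := LS_mul_left (e := e) hl hx hg0 (zpow_ne_zero b ht) hf 0 (1 * b) 0
    rw [div_mul_cancel₀ _ (zpow_ne_zero _ ht), zero_add, one_mul] at h1
    have h2 := LS_zpow_left (e := e) hl hx ht hf 1 0 b
    rw [one_mul] at h2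
    rw [LS_zero hl hg0 hf, h2, LS_swap hl hx hf ht, he f hf] at h1
    rw [LS_swap hl hx hg hf, h1]
    ring
  intro f g a b hf hg
  have hf0 : f / x 0 ^ a ≠ 0 := div_ne_zero hf (zpow_ne_zero _ ht)
  have h1 := LS_mul_left (e := e) hl hx hf0 (zpow_ne_zero a ht) hg 0 (1 * a) b
  rw [div_mul_cancel₀ _ (zpow_ne_zero _ ht), zero_add, one_mul] at h1
  have h2 := LS_zpow_left (e := e) hl hx ht hg 1 b a
  rw [one_mul] at h2
  have h3 : LS x D l e (x 0) 1 g b = 0 := by
    have hg0 : g / x 0 ^ b ≠ 0 := div_ne_zero hg (zpow_ne_zero _ ht)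
    have h4 := LS_mul_left (e := e) hl hx hg0 (zpow_ne_zero b ht) ht 0 (1 * b) 1
    rw [div_mul_cancel₀ _ (zpow_ne_zero _ ht), zero_add, one_mul] at h4
    have h5 := LS_zpow_left (e := e) hl hx ht ht 1 1 b
    rw [one_mul] at h5
    rw [h5, LS_self hl hx ht, he _ hg0] at h4
    rw [LS_swap hl hx hg ht, h4]
    ring
  rw [h1, h2, h3, h0 g b hg _ hf0]
  ring

theorem Lt_of_copr (hl : Forms k D l) (hx : ∀ i, x i ≠ 0) {V : ValuationSubring F} (hV : V ∈ D)
    {f g : F} {a b : ℤ} (h : Copr x D f a g b) :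
    Lt x l e V f a g b = vh x V b g * Lam x l e V f a - vh x V a f * Lam x l e V g b := by
  obtain ⟨hf, hg, h3⟩ := h
  have hd := hl.disc V hV
  obtain ⟨h4, h5, h6⟩ := h3 V hV
  have hfh := hat_ne hx V a hf
  have hgh := hat_ne hx V b hg
  rcases h6 with h6 | h6
  · have hv : V.valuation (hat x V a f) = 1 := by
      rw [← ord_eq_zero_iff hd hfh, ord_hat hx hd a hf, h6]
    have hr : res V (hat x V a f) ≠ 0 := (res_ne_zero_iff (mem_of_val_one hv)).2 hv
    unfold Lt Lam
    rw [tame_unit_left hd hv hgh, hl.l_zpow hV hr, ord_hat hx hd b hg, h6]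
    push_cast
    ring
  · have hv : V.valuation (hat x V b g) = 1 := by
      rw [← ord_eq_zero_iff hd hgh, ord_hat hx hd b hg, h6]
    have hr : res V (hat x V b g) ≠ 0 := (res_ne_zero_iff (mem_of_val_one hv)).2 hv
    unfold Lt Lam
    rw [tame_unit_right hd hv, hl.l_zpow hV hr, ord_hat hx hd a hf, h6]
    push_cast
    ring

theorem mu_finite (hl : Forms k D l) (hx : ∀ i, x i ≠ 0) {f : F} (hf : f ≠ 0) (a : ℤ) (g : F)
    (b : ℤ) : (D ∩ Function.support fun V => vh x V a f * Lam x l e V g b).Finite := by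
  refine (vh_finite hl.finite hx a hf).subset ?_
  rintro V ⟨hV, h⟩
  refine ⟨hV, fun h0 => h ?_⟩
  simp only [h0]
  push_cast
  ring

/-- (M1) symmetry. -/
theorem mu_symm (hl : Forms k D l) (hx : ∀ i, x i ≠ 0)
    (he : ∀ (f g : F) (a b : ℤ), f ≠ 0 → g ≠ 0 → LS x D l e f a g b = 0)
    {f g : F} {a b : ℤ} (h : Copr x D f a g b) :
    mu x D l e f a g b = mu x D l e g b f a := by
  have h1 := he f g a b h.1 h.2.1
  unfold LS at h1
  have h2 : ∑ᶠ (V) (_ : V ∈ D), Lt x l e V f a g b =
      ∑ᶠ (V) (_ : V ∈ D), (vh x V b g * Lam x l e V f a - vh x V a f * Lam x l e V g b) :=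
    finsum_mem_congr rfl fun V hV => Lt_of_copr hl hx hV h
  rw [h2] at h1
  have h3 : (D ∩ Function.support fun V =>
      (vh x V b g * Lam x l e V f a - vh x V a f * Lam x l e V g b)).Finite := by
    refine (Lt_finite (e := e) hl hx h.1 h.2.1 a b).subset ?_
    rintro V ⟨hV, h4⟩
    refine ⟨hV, ?_⟩
    rw [Function.mem_support, Lt_of_copr hl hx hV h]
    exact h4
  have h4 := finsum_mem_add_distrib' h3 (mu_finite (e := e) hl hx h.1 a g b)
  rw [h1, zero_add] at h4
  unfold mu
  rw [← h4]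
  exact finsum_mem_congr rfl fun V _ => by ring

/-- (M2) multiplicativity in the first argument. -/
theorem mu_mul_left (hl : Forms k D l) (hx : ∀ i, x i ≠ 0) {f f' : F} (hf : f ≠ 0)
    (hf' : f' ≠ 0) (a a' : ℤ) (g : F) (b : ℤ) :
    mu x D l e (f * f') (a + a') g b = mu x D l e f a g b + mu x D l e f' a' g b := by
  unfold mu
  rw [← finsum_mem_add_distrib' (mu_finite hl hx hf a g b) (mu_finite hl hx hf' a' g b)]
  refine finsum_mem_congr rfl fun V hV => ?_
  rw [vh_mul (hl.disc V hV) a a' hf hf']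
  push_cast
  ring

/-- (M2) multiplicativity in the second argument. -/
theorem mu_mul_right (hl : Forms k D l) (hx : ∀ i, x i ≠ 0) {f g g' : F} {a b b' : ℤ}
    (h : Copr x D f a g b) (h' : Copr x D f a g' b') :
    mu x D l e f a (g * g') (b + b') = mu x D l e f a g b + mu x D l e f a g' b' := by
  unfold mu
  rw [← finsum_mem_add_distrib' (mu_finite hl hx h.1 a g b) (mu_finite hl hx h.1 a g' b')]
  refine finsum_mem_congr rfl fun V hV => ?_
  by_cases h0 : vh x V a f = 0
  · rw [h0]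
    push_cast
    ring
  · have hg : vh x V b g = 0 := ((h.2.2 V hV).2.2).resolve_left h0
    have hg' : vh x V b' g' = 0 := ((h'.2.2 V hV).2.2).resolve_left h0
    have hd := hl.disc V hV
    have hv : V.valuation (hat x V b g) = 1 := by
      rw [← ord_eq_zero_iff hd (hat_ne hx V b h.2.1), ord_hat hx hd b h.2.1, hg]
    have hv' : V.valuation (hat x V b' g') = 1 := by
      rw [← ord_eq_zero_iff hd (hat_ne hx V b' h'.2.1), ord_hat hx hd b' h'.2.1, hg']
    unfold Lam
    rw [hat_mul hx, res_mul (mem_of_val_one hv) (mem_of_val_one hv'), hl.mul V hV _ _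
      ((res_ne_zero_iff (mem_of_val_one hv)).2 hv) ((res_ne_zero_iff (mem_of_val_one hv')).2 hv')]
    push_cast
    ring

/-- (M3) the second argument matters only modulo the first. -/
theorem mu_congr {f g g' : F} {a b : ℤ} (h : Copr x D f a g b)
    (hc : ∀ V ∈ D, 0 < vh x V a f → res V (hat x V b g) = res V (hat x V b g')) :
    mu x D l e f a g b = mu x D l e f a g' b := by
  unfold mu
  refine finsum_mem_congr rfl fun V hV => ?_
  rcases (h.2.2 V hV).1.eq_or_lt with h0 | h0
  · rw [← h0]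
    push_cast
    ring
  · unfold Lam
    rw [hc V hV h0]

/-- (M3) adding a multiple of the first argument. -/
theorem mu_add (hl : Forms k D l) (hx : ∀ i, x i ≠ 0) {f g c : F} {a b : ℕ} (hab : a ≤ b)
    (hf : f ∈ hom k x a) (hg : g ∈ hom k x b) (hc : c ∈ hom k x (b - a))
    (h : Copr x D f a g b) (h' : Copr x D f a (g + c * f) b) :
    mu x D l e f a (g + c * f) b = mu x D l e f a g b := by
  refine mu_congr h' fun V hV hpos => ?_
  have hd := hl.disc V hV
  have hk := hl.base V hV
  have e1 : hat x V b (g + c * f) = hat x V b g + hat x V ((b - a : ℕ) : ℤ) c * hat x V a f := by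
    rw [← hat_mul hx, Nat.cast_sub hab, sub_add_cancel]
    unfold hat
    rw [add_div]
  rw [e1, res_add (hat_mem hd hk hx hg)
    (mul_mem (hat_mem hd hk hx hc) (hat_mem hd hk hx hf)),
    res_mul (hat_mem hd hk hx hc) (hat_mem hd hk hx hf)]
  have h0 : res V (hat x V a f) = 0 := by
    rw [res_eq_zero_iff (hat_mem hd hk hx hf), ← ord_pos_iff hd (hat_ne hx V a h.1),
      ord_hat hx hd a h.1]
    exact hpos
  rw [h0, mul_zero, add_zero]

/-- (M4) constants. -/
theorem mu_const (hl : Forms k D l) {f : F} {a : ℤ} {c : F} {N : ℕ}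
    (hN : 0 < N) (hc : c ^ N = 1) : mu x D l e f a c 0 = 0 := by
  unfold mu
  rw [← finsum_mem_zero (s := D) (M := ℚ)]
  refine finsum_mem_congr rfl fun V hV => ?_
  unfold Lam
  rw [hat_zero]
  have hd := hl.disc V hV
  have hc0 : c ≠ 0 := by
    rintro rfl
    rw [zero_pow hN.ne'] at hc
    exact zero_ne_one hc
  have ho : ord V c = 0 := by
    have h1 := ord_pow hd hc0 N
    rw [hc, ord_one V hd] at h1
    have h2 : (N : ℤ) ≠ 0 := by exact_mod_cast hN.ne'
    rcases mul_eq_zero.1 h1.symm with h3 | h3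
    · exact absurd h3 h2
    · exact h3
  have hv : V.valuation c = 1 := (ord_eq_zero_iff hd hc0).1 ho
  have hr : (res V c) ^ N = 1 := by
    rw [← res_pow (mem_of_val_one hv), hc, res_one]
  rw [hl.l_torsion hV hN hr]
  push_cast
  ring

/-- The form `l V` is recovered from `Lam`. -/
theorem Lam_sub (hl : Forms k D l) (hx : ∀ i, x i ≠ 0) {V : ValuationSubring F} (hV : V ∈ D)
    {g g' : F} (b : ℤ) (hg : g ≠ 0) (hg' : g' ≠ 0) (h : vh x V b g = 0) (h' : vh x V b g' = 0) :
    Lam x l e V g b - Lam x l e V g' b = l V (res V (g / g')) := by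
  have hd := hl.disc V hV
  have hv : V.valuation (hat x V b g) = 1 := by
    rw [← ord_eq_zero_iff hd (hat_ne hx V b hg), ord_hat hx hd b hg, h]
  have hv' : V.valuation (hat x V b g') = 1 := by
    rw [← ord_eq_zero_iff hd (hat_ne hx V b hg'), ord_hat hx hd b hg', h']
  have e1 : g / g' = hat x V b g / hat x V b g' := by
    unfold hat
    have := zpow_ne_zero b (hx (idx x V))
    field_simp
  unfold Lam
  rw [e1, res_div (mem_of_val_one hv) hv', hl.l_div hV
    ((res_ne_zero_iff (mem_of_val_one hv)).2 hv) ((res_ne_zero_iff (mem_of_val_one hv')).2 hv')]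
  ring

end Proj

end Pool.Agent.Lib.MP_b197b4_ntK
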