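import Mathlib
import Pool.Agent.Lib.MP_b197b4_ntK.Sym

/-!
# MP_b197b4_nt, project K1: finiteness (G1)

* `glue`: a curve of the surface whose valuation ring contains the chart `i` is a curve of this
  chart;
* `unit_finite`, `len_finite`: a function on a curve is a unit at almost all closed points;
* `zero_finite`: coprime forms have finitely many common zeros;
* `zero_curve_finite`: a form which does not vanish on a curve has finitely many zeros on it.
-/

set_option autoImplicit false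
set_option linter.style.haveILetI false

namespace Pool.Agent.Lib.MP_b197b4_ntK

open IsLocalRing

section Len

variable {L : Type} [Field L]

/-- The order of a unit is zero. -/
theorem hasLen_unit (B : Subring L) {u : L} (hu : u ∈ B) (hu' : u⁻¹ ∈ B) {n : ℤ}
    (h : HasLen B u n) : n = 0 := by
  obtain ⟨a, b, r, s, ha, hb, he, hr, hs, hn⟩ := h
  have hu0 : u ≠ 0 := by
    rw [he]
    exact div_ne_zero ha hb
  have hspan : (Ideal.span {a} : Ideal B) = Ideal.span {b} := by
    apply le_antisymm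
    · rw [Ideal.span_singleton_le_span_singleton]
      refine ⟨⟨u, hu⟩, Subtype.ext ?_⟩
      change (a : L) = b * u
      rw [he]
      field_simp
    · rw [Ideal.span_singleton_le_span_singleton]
      refine ⟨⟨u⁻¹, hu'⟩, Subtype.ext ?_⟩
      change (b : L) = a * u⁻¹
      rw [he]
      field_simp
  rw [hspan, hs] at hr
  have hrs : s = r := by exact_mod_cast hr
  rw [hn, hrs, sub_self]

theorem len_unit (B : Subring L) {u : L} (hu : u ∈ B) (hu' : u⁻¹ ∈ B) : len B u = 0 := by
  unfold len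
  split_ifs with h
  · exact hasLen_unit B hu hu' h.choose_spec
  · rfl

end Len

variable {k F : Type} [Field k] [Field F] [Algebra k F] {A : Subalgebra k F}
  {V : ValuationSubring F} {O O' : Subring F} {m : Ideal A}

theorem IsLoc.unique (h : IsLoc A m O) (h' : IsLoc A m O') : O = O' := by
  ext x
  rw [h x, h' x]

theorem IsLoc.subset (h : IsLoc A m O) (hm : m ≠ ⊤) {a : F} (ha : a ∈ A) : a ∈ O := by
  rw [h a]
  refine ⟨⟨a, ha⟩, 1, fun h1 => hm ((Ideal.eq_top_iff_one m).2 h1), ?_⟩
  simp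

/-- The elements of the maximal ideal are not units, the other ones are units. -/
theorem IsLoc.inv_mem (h : IsLoc A m O) {s : A} (hs : s ∉ m) : (s : F)⁻¹ ∈ O := by
  rw [h]
  refine ⟨1, s, hs, ?_⟩
  simp

theorem pts_finite {S : Set (Ideal A)} (hS : S.Finite) : {O | ∃ m ∈ S, IsLoc A m O}.Finite := by
  have h1 : {O | ∃ m ∈ S, IsLoc A m O} ⊆ ⋃ m ∈ S, {O | IsLoc A m O} := by
    rintro O ⟨m, hm, hO⟩
    exact Set.mem_biUnion hm hO
  refine (hS.biUnion fun m _ => Set.Subsingleton.finite ?_).subset h1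
  intro O hO O' hO'
  exact IsLoc.unique hO hO'

/-- An ideal which is contained in no prime ideal of height at most one, is contained in finitely
many maximal ideals. -/
theorem max_finite (hA : Chart A) (I : Ideal A)
    (hI : ∀ Q : Ideal A, Q.IsPrime → I ≤ Q → 1 < Q.height) :
    {m : Ideal A | m.IsMaximal ∧ I ≤ m}.Finite := by
  haveI := hA.regular
  refine (Ideal.finite_minimalPrimes_of_isNoetherianRing A I).subset ?_
  rintro m ⟨hm, hIm⟩
  haveI := hm.isPrime
  obtain ⟨Q, hQ, hQm⟩ := Ideal.exists_minimalPrimes_le hIm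
  have hQp : Q.IsPrime := hQ.1.1
  have h1 := hI Q hQp hQ.1.2
  by_cases hne : Q = m
  · rw [← hne]
    exact hQ
  · exfalso
    have h2 : Q.height < m.height :=
      Ideal.height_strict_mono_of_isPrime (lt_of_le_of_ne hQm hne)
    rw [hA.height m hm] at h2
    have h3 := Order.add_one_le_of_lt h1
    rw [one_add_one_eq_two] at h3
    exact absurd h2 (not_lt.2 h3)

theorem height_pos (hA : Chart A) {Q : Ideal A} (_hQ : Q.IsPrime) (hne : Q ≠ ⊥) :
    0 < Q.height := by
  haveI := hA.regular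
  have h1 : (⊥ : Ideal A) < Q := bot_lt_iff_ne_bot.2 hne
  haveI : (⊥ : Ideal A).IsPrime := Ideal.isPrime_bot
  have h2 := Ideal.height_strict_mono_of_isPrime h1
  rwa [Ideal.height_bot] at h2

/-- Two elements of a chart without a common curve vanish together at finitely many points. -/
theorem common_finite (hA : Chart A) {f g : A} (hne : f ≠ 0 ∨ g ≠ 0)
    (h : ∀ V, IsCurve A V → V.valuation (f : F) = 1 ∨ V.valuation (g : F) = 1) :
    {m : Ideal A | m.IsMaximal ∧ f ∈ m ∧ g ∈ m}.Finite := by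
  refine (max_finite hA (Ideal.span {f, g}) ?_).subset ?_
  · intro Q hQ hle
    have hf : f ∈ Q := hle (Ideal.subset_span (Set.mem_insert _ _))
    have hg : g ∈ Q := hle (Ideal.subset_span (Set.mem_insert_of_mem _ rfl))
    have hQ0 : Q ≠ ⊥ := by
      rintro rfl
      rcases hne with h1 | h1
      · exact h1 hf
      · exact h1 hg
    have h1 := height_pos hA hQ hQ0
    have h2 : Q.height ≠ 1 := by
      intro h2
      haveI := hQ
      obtain ⟨V, hV, hP⟩ := exists_curve hA Q h2
      rcases h V hV with h3 | h3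
      · have := (hP f).1 hf
        rw [h3] at this
        exact lt_irrefl _ this
      · have := (hP g).1 hg
        rw [h3] at this
        exact lt_irrefl _ this
    exact lt_of_le_of_ne (Order.one_le_iff_pos.2 h1) h2.symm
  · rintro m ⟨hm, hf, hg⟩
    refine ⟨hm, ?_⟩
    rw [Ideal.span_le]
    rintro z (rfl | rfl)
    · exact hf
    · exact hg

/-- A function of the chart which is not zero on a curve vanishes at finitely many of its points. -/
theorem curve_finite (hA : Chart A) (hV : IsCurve A V) {P : Ideal A} (hP : PrimeOf A V P) {c : A}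
    (hc : c ∉ P) : {m : Ideal A | m.IsMaximal ∧ P ≤ m ∧ c ∈ m}.Finite := by
  haveI := hA.regular
  have hPp := hP.isPrime hV.2.1
  refine (max_finite hA (P ⊔ Ideal.span {c}) ?_).subset ?_
  · intro Q hQ hle
    have h1 : P < Q := by
      refine lt_of_le_of_ne (le_sup_left.trans hle) ?_
      rintro rfl
      exact hc (hle (Ideal.mem_sup_right (Ideal.mem_span_singleton_self c)))
    have h2 := Ideal.height_strict_mono_of_isPrime h1
    rwa [hV.height hP] at h2
  · rintro m ⟨hm, hPm, hcm⟩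
    exact ⟨hm, sup_le hPm ((Ideal.span_singleton_le_iff_mem _).2 hcm)⟩

/-- The points of the curve `V` on the chart are the maximal ideals which contain its prime
ideal. -/
theorem le_of_subset {P : Ideal A} (hP : PrimeOf A V P) (hO : IsLoc A m O)
    (hOV : (O : Set F) ⊆ V) : P ≤ m := by
  intro p hp
  by_contra h
  have h1 : (p : F)⁻¹ ∈ V := hOV (hO.inv_mem h)
  have h2 := (hP p).1 hp
  rw [← ValuationSubring.valuation_le_one_iff, map_inv₀] at h1
  by_cases h0 : V.valuation (p : F) = 0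
  · rw [Valuation.zero_iff] at h0
    have : p = 0 := Subtype.ext h0
    rw [this] at h
    exact h m.zero_mem
  · have h3 : V.valuation (p : F) * (V.valuation (p : F))⁻¹ < 1 := by
      calc V.valuation (p : F) * (V.valuation (p : F))⁻¹ ≤ V.valuation (p : F) * 1 :=
            mul_le_mul_right h1 _
        _ < 1 := by rwa [mul_one]
    rw [mul_inv_cancel₀ h0] at h3
    exact lt_irrefl _ h3

/-- On a chart a function on the curve `V` is a unit at almost all points. -/
theorem unit_finite_chart (hA : Chart A) (hV : IsCurve A V) {u : ResidueField V} (hu : u ≠ 0) :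
    {O | (∃ m : Ideal A, m.IsMaximal ∧ IsLoc A m O) ∧ (O : Set F) ⊆ V ∧
      ¬ (u ∈ curveLoc O V ∧ u⁻¹ ∈ curveLoc O V)}.Finite := by
  obtain ⟨P, hPp, hP⟩ := exists_primeOf hV.2.1
  obtain ⟨a, s, hs, hus⟩ := hV.res_frac u
  have ha : a ∉ P := by
    rw [hP a]
    intro h
    have : res V (a : F) = 0 := (res_eq_zero_iff (hV.2.1 a a.2)).2 h
    rw [this, zero_div] at hus
    exact hu hus
  have hsP : s ∉ P := (hP.val_one hV.2.1 s).2 hs
  have hc : a * s ∉ P := fun h => (hPp.mem_or_mem h).elim ha hsP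
  refine (pts_finite (curve_finite hA hV hP hc)).subset ?_
  rintro O ⟨⟨m, hm, hO⟩, hOV, hnot⟩
  refine ⟨m, ⟨hm, le_of_subset hP hO hOV, ?_⟩, hO⟩
  by_contra hcm
  have ham : a ∉ m := fun h => hcm (m.mul_mem_right s h)
  have hsm : s ∉ m := fun h => hcm (m.mul_mem_left a h)
  apply hnot
  have hA1 : V.valuation (a : F) = 1 := (hP.val_one hV.2.1 a).1 ha
  have hmem : ∀ b t : A, b ∉ m → t ∉ m → V.valuation (b : F) = 1 → V.valuation (t : F) = 1 →
      res V (b : F) / res V (t : F) ∈ curveLoc O V := by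
    intro b t hb ht hb1 ht1
    have h1 : (b : F) / t ∈ O := by
      rw [div_eq_mul_inv]
      exact mul_mem (hO.subset hm.ne_top b.2) (hO.inv_mem ht)
    rw [← res_div (hV.2.1 b b.2) ht1]
    refine ⟨⟨(b : F) / t, hOV h1⟩, h1, ?_⟩
    rw [res_of_mem (hOV h1)]
  constructor
  · rw [hus]
    exact hmem a s ham hsm hA1 hs
  · rw [hus, inv_div]
    exact hmem s a hsm ham hs hA1

section Proj

variable {n : ℕ} {x : Fin (n + 1) → F}

/-- Denominators can be cleared by powers of one coordinate. -/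
theorem chart_clear (hx : ∀ i, x i ≠ 0) (i j : Fin (n + 1)) {a : F}
    (ha : a ∈ Algebra.adjoin k (Set.range fun l => x l / x j)) :
    ∃ N : ℕ, ∀ e, N ≤ e →
      (x j / x i) ^ e * a ∈ Algebra.adjoin k (Set.range fun l => x l / x i) := by
  have hji : x j / x i ∈ Algebra.adjoin k (Set.range fun l => x l / x i) :=
    Algebra.subset_adjoin ⟨j, rfl⟩
  induction ha using Algebra.adjoin_induction with
  | mem y hy =>
    obtain ⟨l, rfl⟩ := hy
    refine ⟨1, fun e he => ?_⟩
    have h1 : (x j / x i) ^ e * (x l / x j) = (x j / x i) ^ (e - 1) * (x l / x i) := by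
      have h2 : (x j / x i) ^ e = (x j / x i) ^ (e - 1) * (x j / x i) := by
        rw [← pow_succ, Nat.sub_add_cancel he]
      rw [h2]
      have h3 := hx i
      have h4 := hx j
      field_simp
    change (x j / x i) ^ e * (x l / x j) ∈ _
    rw [h1]
    exact mul_mem (pow_mem hji _) (Algebra.subset_adjoin ⟨l, rfl⟩)
  | algebraMap r =>
    exact ⟨0, fun e _ => mul_mem (pow_mem hji _) (Subalgebra.algebraMap_mem _ r)⟩
  | add y z _ _ hy hz =>
    obtain ⟨N, hN⟩ := hy
    obtain ⟨N', hN'⟩ := hz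
    refine ⟨max N N', fun e he => ?_⟩
    rw [mul_add]
    exact add_mem (hN e ((le_max_left _ _).trans he)) (hN' e ((le_max_right _ _).trans he))
  | mul y z _ _ hy hz =>
    obtain ⟨N, hN⟩ := hy
    obtain ⟨N', hN'⟩ := hz
    refine ⟨N + N', fun e he => ?_⟩
    have h1 : (x j / x i) ^ e * (y * z) =
        ((x j / x i) ^ N * y) * ((x j / x i) ^ (e - N) * z) := by
      have h2 : (x j / x i) ^ e = (x j / x i) ^ N * (x j / x i) ^ (e - N) := by
        rw [← pow_add, Nat.add_sub_cancel' (by omega)]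
      rw [h2]
      ring
    rw [h1]
    exact mul_mem (hN N le_rfl) (hN' _ (by omega))

/-- A curve of the surface whose valuation ring contains a chart is a curve of this chart. -/
theorem glue (hx : ∀ i, x i ≠ 0) (hV : V ∈ Curves (charts k x)) {i : Fin (n + 1)}
    (hi : ∀ a ∈ Algebra.adjoin k (Set.range fun l => x l / x i), a ∈ V) :
    IsCurve (Algebra.adjoin k (Set.range fun l => x l / x i)) V := by
  obtain ⟨_, ⟨j, rfl⟩, hV1, hV2, hV3⟩ := hV
  refine ⟨hV1, hi, fun y hy => ?_⟩
  obtain ⟨a, s, ha, hs, hs1, hy1⟩ := hV3 y hy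
  obtain ⟨N, hN⟩ := chart_clear (k := k) hx i j ha
  obtain ⟨N', hN'⟩ := chart_clear (k := k) hx i j hs
  have h1 : V.valuation (x j / x i) = 1 := by
    have h2 : x j / x i ∈ V := hi _ (Algebra.subset_adjoin ⟨j, rfl⟩)
    have h3 : x i / x j ∈ V := hV2 _ (Algebra.subset_adjoin ⟨i, rfl⟩)
    rw [← ValuationSubring.valuation_le_one_iff] at h2 h3
    refine le_antisymm h2 ?_
    have h4 : V.valuation (x j / x i) * V.valuation (x i / x j) = 1 := by
      rw [← map_mul]
      have h5 : x j / x i * (x i / x j) = 1 := by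
        have := hx i
        have := hx j
        field_simp
      rw [h5, map_one]
    calc (1 : V.ValueGroup) = V.valuation (x j / x i) * V.valuation (x i / x j) := h4.symm
      _ ≤ V.valuation (x j / x i) * 1 := mul_le_mul_right h3 _
      _ = V.valuation (x j / x i) := mul_one _
  refine ⟨(x j / x i) ^ (max N N') * a, (x j / x i) ^ (max N N') * s, hN _ (le_max_left _ _),
    hN' _ (le_max_right _ _), ?_, ?_⟩
  · rw [map_mul, map_pow, h1, hs1, one_pow, one_mul]
  · rw [hy1, mul_div_mul_left]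
    exact pow_ne_zero _ (div_ne_zero (hx j) (hx i))

/-- **A function on a curve is a unit at almost all points of the curve.** -/
theorem unit_finite (hx : Surf k x) (hV : V ∈ Curves (charts k x)) {u : ResidueField V}
    (hu : u ≠ 0) : {O | O ∈ Points (charts k x) ∧ (O : Set F) ⊆ V ∧
      ¬ (u ∈ curveLoc O V ∧ u⁻¹ ∈ curveLoc O V)}.Finite := by
  have h1 : {O | O ∈ Points (charts k x) ∧ (O : Set F) ⊆ V ∧
      ¬ (u ∈ curveLoc O V ∧ u⁻¹ ∈ curveLoc O V)} ⊆ ⋃ i : Fin (n + 1),
      {O | (∃ m : Ideal (Algebra.adjoin k (Set.range fun l => x l / x i)), m.IsMaximal ∧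
        IsLoc _ m O) ∧ (O : Set F) ⊆ V ∧ ¬ (u ∈ curveLoc O V ∧ u⁻¹ ∈ curveLoc O V)} := by
    rintro O ⟨⟨_, ⟨i, rfl⟩, m, hm, hO⟩, h2, h3⟩
    exact Set.mem_iUnion.2 ⟨i, ⟨m, hm, hO⟩, h2, h3⟩
  refine (Set.finite_iUnion fun i => ?_).subset h1
  by_cases hi : ∀ a ∈ Algebra.adjoin k (Set.range fun l => x l / x i), a ∈ V
  · exact unit_finite_chart (hx.chart i) (glue hx.ne hV hi) hu
  · refine Set.finite_empty.subset ?_
    rintro O ⟨⟨m, hm, hO⟩, h2, -⟩
    exact (hi fun a ha => h2 (hO.subset hm.ne_top ha)).elim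

theorem len_finite (hx : Surf k x) (hV : V ∈ Curves (charts k x)) {u : ResidueField V}
    (hu : u ≠ 0) : {O | O ∈ Points (charts k x) ∧ (O : Set F) ⊆ V ∧
      len (curveLoc O V) u ≠ 0}.Finite := by
  refine (unit_finite hx hV hu).subset ?_
  rintro O ⟨h1, h2, h3⟩
  exact ⟨h1, h2, fun h => h3 (len_unit _ h.1 h.2)⟩

/-- The form `f` of degree `d` vanishes at the point `O`. -/
def ZeroAt (x : Fin (n + 1) → F) (O : Subring F) (d : ℕ) (f : F) : Prop :=
  ∃ i, (∀ j, x j / x i ∈ O) ∧ ∀ y ∈ O, y * (f / x i ^ d) ≠ 1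

/-- Every coordinate which does not vanish at `O` can be used. -/
theorem zeroAt_iff (hx : ∀ i, x i ≠ 0) {d : ℕ} {f : F} {i : Fin (n + 1)}
    (hi : ∀ j, x j / x i ∈ O) :
    ZeroAt x O d f ↔ ∀ y ∈ O, y * (f / x i ^ d) ≠ 1 := by
  constructor
  · rintro ⟨l, hl, h⟩ y hy h1
    refine h (y * (x l / x i) ^ d) (mul_mem hy (pow_mem (hi l) d)) ?_
    rw [← h1, div_pow]
    have h3 := pow_ne_zero d (hx l)
    have h4 := pow_ne_zero d (hx i)
    field_simp
  · exact fun h => ⟨i, hi, h⟩

/-- A form is a function on every chart. -/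
theorem hom_mem_chart (_hx : ∀ i, x i ≠ 0) (i : Fin (n + 1)) {d : ℕ} {f : F}
    (hf : f ∈ hom k x d) : f / x i ^ d ∈ Algebra.adjoin k (Set.range fun l => x l / x i) := by
  let B := Algebra.adjoin k (Set.range fun l => x l / x i)
  let W : ℕ → Submodule k F := fun d =>
    { carrier := {f | f / x i ^ d ∈ B}
      add_mem' := by
        intro a b ha hb
        change (a + b) / _ ∈ B
        rw [add_div]
        exact add_mem ha hb
      zero_mem' := by
        change (0 : F) / _ ∈ B
        rw [zero_div]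
        exact zero_mem _
      smul_mem' := by
        intro c a ha
        change (c • a) / _ ∈ B
        rw [Algebra.smul_def, mul_div_assoc]
        exact mul_mem (Subalgebra.algebraMap_mem _ c) ha }
  have h2 : Submodule.span k (Set.range x) ≤ W 1 := by
    rw [Submodule.span_le]
    rintro _ ⟨j, rfl⟩
    change x j / _ ^ 1 ∈ B
    rw [pow_one]
    exact Algebra.subset_adjoin ⟨j, rfl⟩
  have h3 : ∀ d, (Submodule.span k (Set.range x)) ^ d ≤ W d := by
    intro d
    induction d with
    | zero =>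
      rw [pow_zero, Submodule.one_le]
      change (1 : F) / _ ^ 0 ∈ B
      rw [pow_zero, div_one]
      exact one_mem _
    | succ d ih =>
      rw [pow_succ, Submodule.mul_le]
      intro a ha b hb
      have ha' := ih ha
      have hb' := h2 hb
      change a / _ ^ d ∈ B at ha'
      change b / _ ^ 1 ∈ B at hb'
      change (a * b) / _ ^ (d + 1) ∈ B
      rw [pow_succ, mul_div_mul_comm]
      rw [pow_one] at hb'
      exact mul_mem ha' hb'
  exact h3 d hf

/-- The multiplicity of a curve in a form, computed with a coordinate of a chart of the curve. -/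
theorem ord_chart (hx : ∀ i, x i ≠ 0) (hV : IsDiscreteValuationRing V) {i : Fin (n + 1)}
    (hi : ∀ j, x j / x i ∈ V) (d : ℕ) {f : F} (hf : f ≠ 0) :
    ord V (f / x i ^ d) = vh x V d f := by
  have h1 : ord V (x i) = ord V (x (idx x V)) := by
    apply le_antisymm
    · have h2 := (ord_nonneg_iff hV (div_ne_zero (hx _) (hx i))).2 (hi (idx x V))
      rw [ord_div hV (hx _) (hx i)] at h2
      omega
    · exact idx_le x V i
  unfold vh
  rw [ord_div hV hf (pow_ne_zero _ (hx i)), ord_pow hV (hx i), h1]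

/-- A form which vanishes at a point of a chart, as an element of the maximal ideal. -/
theorem mem_of_zeroAt (hx : ∀ i, x i ≠ 0) {i : Fin (n + 1)}
    {m : Ideal (Algebra.adjoin k (Set.range fun l => x l / x i))} (hm : m.IsMaximal)
    (hO : IsLoc _ m O) {d : ℕ} {f : F} (hf : f ∈ hom k x d) (h : ZeroAt x O d f) :
    (⟨f / x i ^ d, hom_mem_chart hx i hf⟩ :
      Algebra.adjoin k (Set.range fun l => x l / x i)) ∈ m := by
  have hi : ∀ j, x j / x i ∈ O := fun j =>
    hO.subset hm.ne_top (Algebra.subset_adjoin ⟨j, rfl⟩)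
  rw [zeroAt_iff hx hi] at h
  by_contra hnot
  have h1 := hO.inv_mem hnot
  change (f / x i ^ d)⁻¹ ∈ O at h1
  refine h _ h1 (inv_mul_cancel₀ ?_)
  intro h0
  apply hnot
  have : (⟨f / x i ^ d, hom_mem_chart hx i hf⟩ :
      Algebra.adjoin k (Set.range fun l => x l / x i)) = 0 := Subtype.ext h0
  rw [this]
  exact m.zero_mem

/-- **Coprime forms have finitely many common zeros.** -/
theorem zero_finite (hx : Surf k x) {f g : F} {a b : ℕ} (hf : f ∈ hom k x a)
    (hg : g ∈ hom k x b) (hc : Copr x (Curves (charts k x)) f a g b) :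
    {O | O ∈ Points (charts k x) ∧ ZeroAt x O a f ∧ ZeroAt x O b g}.Finite := by
  obtain ⟨hf0, hg0, hc⟩ := hc
  have h1 : {O | O ∈ Points (charts k x) ∧ ZeroAt x O a f ∧ ZeroAt x O b g} ⊆
      ⋃ i : Fin (n + 1), {O | ∃ m ∈ {m : Ideal (Algebra.adjoin k (Set.range fun l => x l / x i)) |
        m.IsMaximal ∧ (⟨f / x i ^ a, hom_mem_chart hx.ne i hf⟩ :
          Algebra.adjoin k (Set.range fun l => x l / x i)) ∈ m ∧
        (⟨g / x i ^ b, hom_mem_chart hx.ne i hg⟩ :
          Algebra.adjoin k (Set.range fun l => x l / x i)) ∈ m}, IsLoc _ m O} := by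
    rintro O ⟨⟨_, ⟨i, rfl⟩, m, hm, hO⟩, h2, h3⟩
    exact Set.mem_iUnion.2 ⟨i, m, ⟨hm, mem_of_zeroAt hx.ne hm hO hf h2,
      mem_of_zeroAt hx.ne hm hO hg h3⟩, hO⟩
  refine (Set.finite_iUnion fun i => pts_finite (common_finite (hx.chart i) ?_ ?_)).subset h1
  · left
    intro h
    have h2 : f / x i ^ a = 0 := congrArg Subtype.val h
    exact div_ne_zero hf0 (pow_ne_zero _ (hx.ne i)) h2
  · intro V hV
    have hi : ∀ j, x j / x i ∈ V := fun j => hV.2.1 _ (Algebra.subset_adjoin ⟨j, rfl⟩)
    obtain ⟨-, -, h2⟩ := hc V ⟨_, ⟨i, rfl⟩, hV⟩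
    rcases h2 with h2 | h2
    · left
      rw [← ord_chart hx.ne hV.1 hi a hf0] at h2
      exact (ord_eq_zero_iff hV.1 (div_ne_zero hf0 (pow_ne_zero _ (hx.ne i)))).1 h2
    · right
      rw [← ord_chart hx.ne hV.1 hi b hg0] at h2
      exact (ord_eq_zero_iff hV.1 (div_ne_zero hg0 (pow_ne_zero _ (hx.ne i)))).1 h2

/-- **A form which does not vanish on a curve has finitely many zeros on it.** -/
theorem zero_curve_finite (hx : Surf k x) (hV : V ∈ Curves (charts k x)) {f : F} {d : ℕ}
    (hf : f ∈ hom k x d) (hf0 : f ≠ 0) (h : vh x V d f = 0) :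
    {O | O ∈ Points (charts k x) ∧ (O : Set F) ⊆ V ∧ ZeroAt x O d f}.Finite := by
  have h1 : {O | O ∈ Points (charts k x) ∧ (O : Set F) ⊆ V ∧ ZeroAt x O d f} ⊆
      ⋃ i : Fin (n + 1), {O | (∃ m : Ideal (Algebra.adjoin k (Set.range fun l => x l / x i)),
        m.IsMaximal ∧ IsLoc _ m O) ∧ (O : Set F) ⊆ V ∧ ZeroAt x O d f} := by
    rintro O ⟨⟨_, ⟨i, rfl⟩, m, hm, hO⟩, h2, h3⟩
    exact Set.mem_iUnion.2 ⟨i, ⟨m, hm, hO⟩, h2, h3⟩
  refine (Set.finite_iUnion fun i => ?_).subset h1
  by_cases hi : ∀ a ∈ Algebra.adjoin k (Set.range fun l => x l / x i), a ∈ V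
  · have hV' := glue hx.ne hV hi
    obtain ⟨P, -, hP⟩ := exists_primeOf hV'.2.1
    have hc : (⟨f / x i ^ d, hom_mem_chart hx.ne i hf⟩ :
        Algebra.adjoin k (Set.range fun l => x l / x i)) ∉ P := by
      rw [hP.val_one hV'.2.1]
      rw [← ord_chart hx.ne hV'.1 (fun j => hi _ (Algebra.subset_adjoin ⟨j, rfl⟩)) d hf0] at h
      exact (ord_eq_zero_iff hV'.1 (div_ne_zero hf0 (pow_ne_zero _ (hx.ne i)))).1 h
    refine (pts_finite (curve_finite (hx.chart i) hV' hP hc)).subset ?_
    rintro O ⟨⟨m, hm, hO⟩, h2, h3⟩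
    exact ⟨m, ⟨hm, le_of_subset hP hO h2, mem_of_zeroAt hx.ne hm hO hf h3⟩, hO⟩
  · refine Set.finite_empty.subset ?_
    rintro O ⟨⟨m, hm, hO⟩, h2, -⟩
    exact (hi fun a ha => h2 (hO.subset hm.ne_top ha)).elim

end Proj

end Pool.Agent.Lib.MP_b197b4_ntK
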