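import Mathlib

/-!
# MP_b197b4_nt, project K1: affine curves over a perfect field are regular at almost all points
-/

set_option autoImplicit false

namespace Pool.Agent.Lib.MP_b197b4_ntK

open IsLocalRing

namespace Sing

/-- The transcendence degree of the field of functions of a curve is one. -/
theorem exists_basis {k L : Type} [Field k] [Field L] [Algebra k L] (B : Subalgebra k L)
    (hfg : B.FG) (hfrac : IsFractionRing B L) (hB : ¬ IsField B)
    (hdim : ∀ p : Ideal B, p.IsPrime → p ≠ ⊥ → p.IsMaximal) :
    ∃ b : Fin 1 → L, IsTranscendenceBasis k b := by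
  haveI : Algebra.FiniteType k B := (Subalgebra.fg_iff_finiteType B).1 hfg
  obtain ⟨s, g, hg, hfin⟩ := exists_finite_inj_algHom_of_fg k B
  letI : Algebra (MvPolynomial (Fin s) k) B := g.toRingHom.toAlgebra
  haveI : Module.Finite (MvPolynomial (Fin s) k) B := hfin
  haveI : Algebra.IsIntegral (MvPolynomial (Fin s) k) B := inferInstance
  have hinj : Function.Injective (algebraMap (MvPolynomial (Fin s) k) B) := hg
  -- `s ≤ 1`
  have hs1 : s ≤ 1 := by
    by_contra hs
    push Not at hs
    have hs0 : 0 < s := by omega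
    set i : Fin s := ⟨0, hs0⟩
    set j : Fin s := ⟨1, hs⟩
    have hij : i ≠ j := by
      intro h
      have := congrArg Fin.val h
      simp [i, j] at this
    set P1 : Ideal (MvPolynomial (Fin s) k) := Ideal.span {MvPolynomial.X i}
    haveI hP1 : P1.IsPrime := by
      rw [Ideal.span_singleton_prime (MvPolynomial.X_ne_zero i)]
      exact MvPolynomial.X_prime
    have hker : RingHom.ker (algebraMap (MvPolynomial (Fin s) k) B) ≤ P1 := by
      rw [(RingHom.injective_iff_ker_eq_bot _).1 hinj]
      exact bot_le
    obtain ⟨Q, hQ, hQc⟩ := Ideal.exists_ideal_over_prime_of_isIntegral_of_isDomain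
      (R := MvPolynomial (Fin s) k) (S := B) P1 hker
    have hQ0 : Q ≠ ⊥ := by
      rintro rfl
      have h1 : MvPolynomial.X i ∈ P1 := Ideal.mem_span_singleton_self _
      rw [← hQc, Ideal.mem_comap, Ideal.mem_bot] at h1
      exact MvPolynomial.X_ne_zero i (hinj (by rw [h1, map_zero]))
    haveI := hdim Q hQ hQ0
    haveI hP1m : P1.IsMaximal := by
      rw [← hQc]
      exact Ideal.isMaximal_comap_of_isIntegral_of_isMaximal Q
    set M0 : Ideal (MvPolynomial (Fin s) k) :=
      RingHom.ker (MvPolynomial.eval (0 : Fin s → k))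
    have hM0 : M0 ≠ ⊤ := by
      intro h
      have : (1 : MvPolynomial (Fin s) k) ∈ M0 := by rw [h]; trivial
      rw [RingHom.mem_ker, map_one] at this
      exact one_ne_zero this
    have hle : P1 ≤ M0 := by
      rw [Ideal.span_singleton_le_iff_mem, RingHom.mem_ker, MvPolynomial.eval_X]
      rfl
    have heq := hP1m.eq_of_le hM0 hle
    have hj : MvPolynomial.X j ∈ P1 := by
      rw [heq, RingHom.mem_ker, MvPolynomial.eval_X]
      rfl
    rw [Ideal.mem_span_singleton] at hj
    obtain ⟨c, hc⟩ := hj
    have h2 := congrArg (MvPolynomial.eval (fun l : Fin s => if l = i then (0 : k) else 1)) hc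
    rw [map_mul, MvPolynomial.eval_X, MvPolynomial.eval_X, if_neg (Ne.symm hij), if_pos rfl,
      zero_mul] at h2
    exact one_ne_zero h2
  -- `s ≠ 0`
  have hs2 : s ≠ 0 := by
    rintro rfl
    apply hB
    haveI : IsEmpty (Fin 0) := inferInstance
    have hf : IsField (MvPolynomial (Fin 0) k) :=
      (MvPolynomial.isEmptyRingEquiv k (Fin 0)).toMulEquiv.isField (Field.toIsField k)
    exact isField_of_isIntegral_of_isField' hf
  obtain rfl : s = 1 := by omega
  refine ⟨fun i => (g (MvPolynomial.X i) : L), ?_⟩
  have hai : AlgebraicIndependent k (fun i => (g (MvPolynomial.X i) : L)) := by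
    rw [algebraicIndependent_iff_injective_aeval]
    have : (MvPolynomial.aeval (fun i => (g (MvPolynomial.X i) : L)) :
        MvPolynomial (Fin 1) k →ₐ[k] L) = B.val.comp g := by
      ext i
      simp
    rw [this]
    exact Subtype.val_injective.comp hg
  rw [hai.isTranscendenceBasis_iff_isAlgebraic]
  -- every element of `L` is algebraic over the adjoined ring
  have hrange : ∀ y : MvPolynomial (Fin 1) k, (g y : L) ∈
      Algebra.adjoin k (Set.range fun i => (g (MvPolynomial.X i) : L)) := by
    intro y
    rw [Algebra.adjoin_range_eq_range_aeval]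
    refine ⟨y, ?_⟩
    have : (MvPolynomial.aeval (fun i => (g (MvPolynomial.X i) : L)) :
        MvPolynomial (Fin 1) k →ₐ[k] L) = B.val.comp g := by
      ext i
      simp
    change (MvPolynomial.aeval (fun i => (g (MvPolynomial.X i) : L))) y = _
    rw [this]
    rfl
  have hint : ∀ b : B, IsIntegral (Algebra.adjoin k (Set.range fun i => (g (MvPolynomial.X i) : L)))
      (b : L) := by
    intro b
    obtain ⟨p, hp, hpb⟩ := Algebra.IsIntegral.isIntegral (R := MvPolynomial (Fin 1) k) b
    let φ : MvPolynomial (Fin 1) k →+*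
        Algebra.adjoin k (Set.range fun i => (g (MvPolynomial.X i) : L)) :=
      ((B.val : B →+* L).comp (g : MvPolynomial (Fin 1) k →+* B)).codRestrict _ hrange
    refine ⟨p.map φ, hp.map φ, ?_⟩
    rw [Polynomial.eval₂_map]
    have h3 : (algebraMap (Algebra.adjoin k (Set.range fun i => (g (MvPolynomial.X i) : L))) L).comp φ
        = (B.val : B →+* L).comp (algebraMap (MvPolynomial (Fin 1) k) B) := by
      ext x <;> rfl
    rw [h3]
    change Polynomial.eval₂ _ ((B.val : B →+* L) b) p = 0
    rw [← Polynomial.hom_eval₂, hpb, map_zero]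
  constructor
  intro z
  obtain ⟨x, y, hy, rfl⟩ := IsFractionRing.div_surjective B z
  rw [div_eq_mul_inv]
  exact (hint x).isAlgebraic.mul (hint y).isAlgebraic.inv

end Sing

end Pool.Agent.Lib.MP_b197b4_ntK
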