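import Mathlib
import Pool.Agent.Lib.MP_b197b4_ntK.SingA

/-!
# MP_b197b4_nt, project K1: affine curves over a perfect field are regular at almost all points
-/

set_option autoImplicit false

namespace Pool.Agent.Lib.MP_b197b4_ntK

open IsLocalRing

namespace Sing

/-- Generically unramified over a principal ideal domain: almost all localisations are discrete
valuation rings. -/
theorem exists_dvr (R B L : Type) [CommRing R] [IsPrincipalIdealRing R] [CommRing B] [IsDomain B]
    [IsNoetherianRing B] [Field L] [Algebra R B] [Algebra B L] [Algebra R L] [IsScalarTower R B L]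
    [Algebra.EssFiniteType R B] [IsFractionRing B L] [Algebra.FormallyUnramified R L] :
    ∃ f : B, f ≠ 0 ∧ ∀ (q : Ideal B) [q.IsPrime], q ≠ ⊥ → f ∉ q →
      IsDiscreteValuationRing (Localization.AtPrime q) := by
  have hbot : (⊥ : Ideal B).IsPrime := Ideal.isPrime_bot
  have hcompl : (⊥ : Ideal B).primeCompl = nonZeroDivisors B := by
    ext x
    rw [mem_nonZeroDivisors_iff_ne_zero]
    exact Iff.rfl
  have hloc : IsLocalization (⊥ : Ideal B).primeCompl L := by
    rw [hcompl]; infer_instance
  have e : L ≃ₐ[B] Localization.AtPrime (⊥ : Ideal B) :=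
    IsLocalization.algEquiv (⊥ : Ideal B).primeCompl L _
  have hun : Algebra.IsUnramifiedAt R (⊥ : Ideal B) :=
    Algebra.FormallyUnramified.of_equiv (e.restrictScalars R)
  obtain ⟨f, hf, hfu⟩ := Algebra.exists_formallyUnramified_of_isUnramifiedAt (R := R) (⊥ : Ideal B)
  refine ⟨f, fun h => hf (by rw [h]; exact Ideal.zero_mem _), ?_⟩
  intro q hq hq0 hfq
  have h1 := Algebra.basicOpen_subset_unramifiedLocus_iff.2 hfu
  have h2 : Algebra.IsUnramifiedAt R q := h1 (show (⟨q, hq⟩ : PrimeSpectrum B) ∈ _ from hfq)
  set p : Ideal R := q.comap (algebraMap R B) with hp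
  have hpp : p.IsPrime := Ideal.comap_isPrime _ _
  have hlie : q.LiesOver p := ⟨rfl⟩
  letI := Localization.AtPrime.algebraOfLiesOver p q
  have h3 := ((Algebra.isUnramifiedAt_iff_map_eq R p q).1 h2).2
  have hnf : ¬ IsField (Localization.AtPrime q) :=
    IsLocalization.AtPrime.not_isField B hq0 (Localization.AtPrime q)
  have hdom : IsDomain (Localization.AtPrime q) :=
    IsLocalization.isDomain_localization q.primeCompl_le_nonZeroDivisors
  have hnoe : IsNoetherianRing (Localization.AtPrime q) :=
    IsLocalization.isNoetherianRing q.primeCompl _ inferInstance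
  have h4 : (maximalIdeal (Localization.AtPrime q)).IsPrincipal := by
    rw [← h3]
    obtain ⟨⟨a, ha⟩⟩ := IsPrincipalIdealRing.principal p
    refine ⟨⟨algebraMap R _ a, ?_⟩⟩
    rw [ha, Ideal.submodule_span_eq, Ideal.submodule_span_eq, Ideal.map_span, Set.image_singleton]
  exact ((IsDiscreteValuationRing.TFAE (Localization.AtPrime q) hnf).out 0 4).2 h4

/-- The differential of a separating element spans. -/
theorem span_of_isSeparable {k L : Type} [Field k] [Field L] [Algebra k L] (x : L)
    (hx : Algebra.IsSeparable (IntermediateField.adjoin k {x}) L) :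
    Submodule.span L {KaehlerDifferential.D k L x} = ⊤ := by
  set N := Submodule.span L {KaehlerDifferential.D k L x} with hN
  let d : Derivation k L (Ω[L⁄k] ⧸ N) := N.mkQ.compDer (KaehlerDifferential.D k L)
  have hdx : d x = 0 := by
    change N.mkQ (KaehlerDifferential.D k L x) = 0
    rw [Submodule.mkQ_apply, Submodule.Quotient.mk_eq_zero]
    exact Submodule.mem_span_singleton_self _
  have hda : ∀ a ∈ IntermediateField.adjoin k {x}, d a = 0 := by
    intro a ha
    induction ha using IntermediateField.adjoin_induction with
    | mem y hy => rw [Set.mem_singleton_iff.1 hy, hdx]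
    | algebraMap c => exact d.map_algebraMap c
    | add y z _ _ hy hz => rw [map_add, hy, hz, add_zero]
    | inv y _ hy => rw [Derivation.leibniz_inv, hy, smul_zero]
    | mul y z _ _ hy hz => rw [Derivation.leibniz, hy, hz, smul_zero, smul_zero, add_zero]
  let d' : Derivation (IntermediateField.adjoin k {x}) L (Ω[L⁄k] ⧸ N) :=
    Derivation.mk' { toFun := d
                     map_add' := d.map_add
                     map_smul' := by
                      intro c y
                      rw [Algebra.smul_def, Derivation.leibniz, RingHom.id_apply]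
                      have : d (algebraMap (IntermediateField.adjoin k {x}) L c) = 0 := hda _ c.2
                      rw [this, smul_zero, add_zero]
                      rfl } (fun a b => d.leibniz a b)
  have hsub : Subsingleton Ω[L⁄(IntermediateField.adjoin k {x})] :=
    (Algebra.FormallyUnramified.of_isSeparable _ L).subsingleton_kaehlerDifferential
  have hd' : ∀ y, d' y = 0 := by
    intro y
    have h1 := d'.liftKaehlerDifferential_comp_D y
    rw [← h1, Subsingleton.elim (KaehlerDifferential.D _ L y) 0, map_zero]
  rw [eq_top_iff, ← KaehlerDifferential.span_range_derivation, Submodule.span_le]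
  rintro _ ⟨y, rfl⟩
  have h2 : N.mkQ (KaehlerDifferential.D k L y) = 0 := hd' y
  rwa [Submodule.mkQ_apply, Submodule.Quotient.mk_eq_zero] at h2

/-- `k[X]` acting through an element whose differential spans -/
theorem unramified_of_span {k R L : Type} [Field k] [CommRing R] [Field L] [Algebra k L]
    [Algebra k R] [Algebra R L] [IsScalarTower k R L] (t : R)
    (h : Submodule.span L {KaehlerDifferential.D k L (algebraMap R L t)} = ⊤) :
    Algebra.FormallyUnramified R L := by
  have h0 : ∀ w : Ω[L⁄k], KaehlerDifferential.map k R L L w = 0 := by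
    intro w
    have hw : w ∈ Submodule.span L {KaehlerDifferential.D k L (algebraMap R L t)} := by
      rw [h]; trivial
    obtain ⟨c, rfl⟩ := Submodule.mem_span_singleton.1 hw
    rw [map_smul, KaehlerDifferential.map_D]
    have : KaehlerDifferential.D R L ((algebraMap L L) (algebraMap R L t)) = 0 :=
      Derivation.map_algebraMap _ t
    rw [this, smul_zero]
  refine ⟨⟨fun a b => ?_⟩⟩
  obtain ⟨a', rfl⟩ := KaehlerDifferential.map_surjective k R L a
  obtain ⟨b', rfl⟩ := KaehlerDifferential.map_surjective k R L b
  rw [h0, h0]

/-- a separating element in the ring -/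
theorem exists_span {k L : Type} [Field k] [PerfectField k] [Field L] [Algebra k L]
    (B : Subalgebra k L) (hfg : B.FG) (hfrac : IsFractionRing B L) (hB : ¬ IsField B)
    (hdim : ∀ p : Ideal B, p.IsPrime → p ≠ ⊥ → p.IsMaximal) :
    ∃ t : B, Submodule.span L {KaehlerDifferential.D k L (t : L)} = ⊤ := by
  obtain ⟨b, hb⟩ := exists_basis B hfg hfrac hB hdim
  have hft : Algebra.FiniteType k B := (Subalgebra.fg_iff_finiteType B).1 hfg
  have hess : Algebra.EssFiniteType B L := Algebra.EssFiniteType.of_isLocalization L (nonZeroDivisors B)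
  have hess2 : Algebra.EssFiniteType k L := Algebra.EssFiniteType.comp k B L
  obtain ⟨s, hs, hsep⟩ := exists_isTranscendenceBasis_and_isSeparable_of_perfectField k L
  have hcard : Cardinal.mk (Fin 1) = Cardinal.mk s := hb.cardinalMk_eq hs
  have hs1 : s.card = 1 := by
    have : Fintype.card (Fin 1) = Fintype.card s := by
      rw [Cardinal.mk_fintype, Cardinal.mk_fintype] at hcard
      exact_mod_cast hcard
    simpa using this.symm
  obtain ⟨x, rfl⟩ := Finset.card_eq_one.1 hs1
  rw [Finset.coe_singleton] at hsep
  have hspan := span_of_isSeparable x hsep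
  obtain ⟨u, v, hv, huv⟩ := IsFractionRing.div_surjective B x
  have hv0 : (v : L) ≠ 0 := by
    have := nonZeroDivisors.ne_zero hv
    exact fun h => this (Subtype.ext h)
  have hx : (u : L) = x * (v : L) := by
    rw [← huv]
    change (u : L) = (u : L) / (v : L) * (v : L)
    rw [div_mul_cancel₀ _ hv0]
  have hDu : KaehlerDifferential.D k L (u : L)
      = x • KaehlerDifferential.D k L (v : L) + (v : L) • KaehlerDifferential.D k L x := by
    rw [hx, Derivation.leibniz]
  by_cases hDv : KaehlerDifferential.D k L (v : L) = 0
  · refine ⟨u, ?_⟩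
    rw [eq_top_iff, ← hspan, Submodule.span_singleton_le_iff_mem, Submodule.mem_span_singleton]
    refine ⟨(v : L)⁻¹, ?_⟩
    rw [hDu, hDv, smul_zero, zero_add, smul_smul, inv_mul_cancel₀ hv0, one_smul]
  · refine ⟨v, ?_⟩
    rw [eq_top_iff, ← hspan, Submodule.span_singleton_le_iff_mem, Submodule.mem_span_singleton]
    have h1 : KaehlerDifferential.D k L (v : L) ∈ Submodule.span L {KaehlerDifferential.D k L x} := by
      rw [hspan]; trivial
    obtain ⟨c, hc⟩ := Submodule.mem_span_singleton.1 h1
    have hc0 : c ≠ 0 := by
      rintro rfl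
      rw [zero_smul] at hc
      exact hDv hc.symm
    refine ⟨c⁻¹, ?_⟩
    rw [← hc, smul_smul, inv_mul_cancel₀ hc0, one_smul]

/-- An affine curve over a perfect field is regular outside of the zeros of a function. -/
theorem exists_dvr_curve {k L : Type} [Field k] [PerfectField k] [Field L] [Algebra k L]
    (B : Subalgebra k L) (hfg : B.FG) (hfrac : IsFractionRing B L) (hB : ¬ IsField B)
    (hdim : ∀ p : Ideal B, p.IsPrime → p ≠ ⊥ → p.IsMaximal) :
    ∃ f : B, f ≠ 0 ∧ ∀ (q : Ideal B) [q.IsPrime], q ≠ ⊥ → f ∉ q →
      IsDiscreteValuationRing (Localization.AtPrime q) := by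
  obtain ⟨t, ht⟩ := exists_span B hfg hfrac hB hdim
  have hft : Algebra.FiniteType k B := (Subalgebra.fg_iff_finiteType B).1 hfg
  have hnoe : IsNoetherianRing B := Algebra.FiniteType.isNoetherianRing k B
  letI : Algebra (Polynomial k) B := (Polynomial.aeval t).toRingHom.toAlgebra
  letI : Algebra (Polynomial k) L :=
    ((algebraMap B L).comp (Polynomial.aeval t).toRingHom).toAlgebra
  haveI : IsScalarTower (Polynomial k) B L := IsScalarTower.of_algebraMap_eq fun _ => rfl
  haveI : IsScalarTower k (Polynomial k) B := by
    refine IsScalarTower.of_algebraMap_eq fun c => ?_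
    change _ = (Polynomial.aeval t) (algebraMap k (Polynomial k) c)
    rw [AlgHom.commutes]
  haveI : IsScalarTower k (Polynomial k) L := by
    refine IsScalarTower.of_algebraMap_eq fun c => ?_
    change _ = (algebraMap B L) ((Polynomial.aeval t) (algebraMap k (Polynomial k) c))
    rw [AlgHom.commutes]
    rfl
  haveI : Algebra.EssFiniteType (Polynomial k) B := Algebra.EssFiniteType.of_comp k _ B
  haveI : Algebra.FormallyUnramified (Polynomial k) L := by
    refine unramified_of_span (k := k) (Polynomial.X : Polynomial k) ?_
    have : algebraMap (Polynomial k) L Polynomial.X = (t : L) := by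
      change (algebraMap B L) ((Polynomial.aeval t) Polynomial.X) = _
      rw [Polynomial.aeval_X]
      rfl
    rw [this]
    exact ht
  exact exists_dvr (Polynomial k) B L

end Sing

end Pool.Agent.Lib.MP_b197b4_ntK
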