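import Mathlib
import Pool.Agent.Lib.MP_b197b4_ntK.SingB
import Pool.Agent.Lib.MP_b197b4_ntK.Fin

/-!
# MP_b197b4_nt, project K1: a curve on a surface over a perfect field has finitely many singular
points
-/

set_option autoImplicit false

namespace Pool.Agent.Lib.MP_b197b4_ntK

open IsLocalRing

variable {k F : Type} [Field k] [Field F] [Algebra k F] {A : Subalgebra k F}
  {V : ValuationSubring F} {m : Ideal A} {O : Subring F}

/-- An ideal which is contained in no prime ideal of height at most one, is contained in finitely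
many maximal ideals. -/
theorem max_finite_aff (hn : IsNoetherianRing A) (hh : ∀ m : Ideal A, m.IsMaximal → m.height = 2)
    (I : Ideal A) (hI : ∀ Q : Ideal A, Q.IsPrime → I ≤ Q → 1 < Q.height) :
    {m : Ideal A | m.IsMaximal ∧ I ≤ m}.Finite := by
  refine (Ideal.finite_minimalPrimes_of_isNoetherianRing A I).subset ?_
  rintro m ⟨hm, hIm⟩
  haveI := hm.isPrime
  obtain ⟨Q, hQ, hQm⟩ := Ideal.exists_minimalPrimes_le hIm
  have hQp : Q.IsPrime := hQ.1.1
  have h1 := hI Q hQp hQ.1.2
  by_cases hne : Q = m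
  · rw [← hne]
    exact hQ
  · exfalso
    have h2 : Q.height < m.height :=
      Ideal.height_strict_mono_of_isPrime (lt_of_le_of_ne hQm hne)
    rw [hh m hm] at h2
    have h3 := Order.add_one_le_of_lt h1
    rw [one_add_one_eq_two] at h3
    exact absurd h2 (not_lt.2 h3)

/-- A function which is not zero on a curve vanishes at finitely many of its points. -/
theorem curve_finite_aff (hn : IsNoetherianRing A)
    (hh : ∀ m : Ideal A, m.IsMaximal → m.height = 2) (hV : IsCurve A V) {P : Ideal A}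
    (hP : PrimeOf A V P) {c : A} (hc : c ∉ P) :
    {m : Ideal A | m.IsMaximal ∧ P ≤ m ∧ c ∈ m}.Finite := by
  have hPp := hP.isPrime hV.2.1
  refine (max_finite_aff hn hh (P ⊔ Ideal.span {c}) ?_).subset ?_
  · intro Q hQ hle
    have h1 : P < Q := by
      refine lt_of_le_of_ne (le_sup_left.trans hle) ?_
      rintro rfl
      exact hc (hle (Ideal.mem_sup_right (Ideal.mem_span_singleton_self c)))
    have h2 := Ideal.height_strict_mono_of_isPrime h1
    rwa [hV.height hP] at h2
  · rintro m ⟨hm, hPm, hcm⟩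
    exact ⟨hm, sup_le hPm ((Ideal.span_singleton_le_iff_mem _).2 hcm)⟩

/-- An affine surface over a perfect field: a curve has finitely many singular points. -/
theorem sing_finite_aff [PerfectField k] (hfgA : A.FG)
    (hh : ∀ m : Ideal A, m.IsMaximal → m.height = 2) (hV : IsCurve A V) :
    {O | (∃ m : Ideal A, m.IsMaximal ∧ IsLoc A m O) ∧ (O : Set F) ⊆ V ∧
      ¬ IsDiscreteValuationRing (curveLoc O V)}.Finite := by
  have hftA : Algebra.FiniteType k A := A.fg_iff_finiteType.1 hfgA
  have hn : IsNoetherianRing A := Algebra.FiniteType.isNoetherianRing k A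
  obtain ⟨P, hPp, hP⟩ := exists_primeOf hV.2.1
  letI : Algebra k (ResidueField V) := ((resHom hV.2.1).comp (algebraMap k A)).toAlgebra
  let φ : A →ₐ[k] ResidueField V := { resHom hV.2.1 with commutes' := fun _ => rfl }
  have hφ : ∀ a : A, φ a = res V (a : F) := fun a => resHom_apply hV.2.1 a
  have hφ0 : ∀ a : A, φ a = 0 ↔ a ∈ P := by
    intro a
    rw [hφ, res_eq_zero_iff (hV.2.1 a a.2), hP a]
  let B : Subalgebra k (ResidueField V) := φ.range
  let ψ : A →+* B := (φ.rangeRestrict : A →+* B)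
  have hψs : Function.Surjective ψ := φ.rangeRestrict_surjective
  have hψ : ∀ a : A, ((ψ a : B) : ResidueField V) = res V (a : F) := hφ
  have hker : RingHom.ker ψ = P := by
    ext a
    rw [RingHom.mem_ker, ← hφ0]
    exact Subtype.ext_iff
  have hfg : B.FG := by
    have h1 : (⊤ : Subalgebra k A).FG := Subalgebra.fg_top A |>.2 hfgA
    have h2 := h1.map φ
    rwa [Algebra.map_top] at h2
  have hfrac : IsFractionRing B (ResidueField V) := by
    refine (isLocalization_iff _ _).2 ⟨?_, ?_, ?_⟩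
    · rintro ⟨y, hy⟩
      rw [isUnit_iff_ne_zero]
      exact fun h => nonZeroDivisors.ne_zero hy (Subtype.ext h)
    · intro z
      obtain ⟨a, s, hs, hz⟩ := hV.res_frac z
      have hs0 : res V (s : F) ≠ 0 := (res_ne_zero_iff (hV.2.1 s s.2)).2 hs
      have hs1 : ψ s ∈ nonZeroDivisors B := by
        rw [mem_nonZeroDivisors_iff_ne_zero]
        intro h
        apply hs0
        rw [← hψ, h]
        rfl
      refine ⟨(ψ a, ⟨ψ s, hs1⟩), ?_⟩
      change z * ((ψ s : B) : ResidueField V) = ((ψ a : B) : ResidueField V)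
      rw [hψ, hψ, hz, div_mul_cancel₀ _ hs0]
    · intro a b h
      exact ⟨1, by rw [Subtype.ext h]⟩
  have hmaxA : ∀ Q : Ideal A, Q.IsPrime → P < Q → Q.IsMaximal := by
    intro Q hQ hPQ
    have h1 := Ideal.height_strict_mono_of_isPrime hPQ
    rw [hV.height hP] at h1
    obtain ⟨m, hm, hQm⟩ := Ideal.exists_le_maximal Q hQ.ne_top
    rcases eq_or_lt_of_le hQm with h | h
    · rw [h]; exact hm
    · exfalso
      haveI := hm.isPrime
      have h2 := Ideal.height_strict_mono_of_isPrime h
      rw [hh m hm] at h2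
      have h3 : Q.height < 1 + 1 := by rw [one_add_one_eq_two]; exact h2
      have h4 := Order.le_of_lt_add_one h3
      exact absurd h1 (not_lt.2 h4)
  have hBf : ¬ IsField B := by
    intro h
    have h1 : (⊥ : Ideal B).IsMaximal := Ring.isField_iff_maximal_bot.1 h
    have h2 : ((⊥ : Ideal B).comap ψ).IsMaximal := Ideal.comap_isMaximal_of_surjective ψ hψs
    rw [← RingHom.ker_eq_comap_bot, hker] at h2
    have h3 := hh P h2
    rw [hV.height hP] at h3
    exact absurd h3 (by decide)
  have hdim : ∀ p : Ideal B, p.IsPrime → p ≠ ⊥ → p.IsMaximal := by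
    intro p hp hp0
    have h1 : P < p.comap ψ := by
      rw [← hker, RingHom.ker_eq_comap_bot]
      refine lt_of_le_of_ne (Ideal.comap_mono bot_le) ?_
      intro h
      exact hp0 (Ideal.comap_injective_of_surjective ψ hψs h).symm
    have h2 := hmaxA _ (Ideal.comap_isPrime ψ p) h1
    have h3 := Ideal.map_eq_top_or_isMaximal_of_surjective ψ hψs h2
    rw [Ideal.map_comap_of_surjective ψ hψs] at h3
    exact h3.resolve_left hp.ne_top
  obtain ⟨f, hf0, hf⟩ := Sing.exists_dvr_curve B hfg hfrac hBf hdim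
  obtain ⟨c, rfl⟩ := hψs f
  have hcP : c ∉ P := by
    intro h
    apply hf0
    rwa [← hker, RingHom.mem_ker] at h
  refine (pts_finite (curve_finite_aff hn hh hV hP hcP)).subset ?_
  rintro O ⟨⟨m, hm, hO⟩, hOV, hnot⟩
  refine ⟨m, ⟨hm, le_of_subset hP hO hOV, ?_⟩, hO⟩
  by_contra hcm
  apply hnot
  have hPm := le_of_subset hP hO hOV
  have hmp := hm.isPrime
  set q : Ideal B := m.map ψ with hq
  have hqc : q.comap ψ = m := by
    rw [hq, Ideal.comap_map_of_surjective ψ hψs, ← RingHom.ker_eq_comap_bot, hker, sup_eq_left]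
    exact hPm
  have hqp : q.IsPrime := by
    have h3 := Ideal.map_eq_top_or_isMaximal_of_surjective ψ hψs hm
    refine (h3.resolve_left ?_).isPrime
    intro h
    apply hm.ne_top
    rw [← hqc, hq, h, Ideal.comap_top]
  have hq0 : q ≠ ⊥ := by
    intro h
    have h1 : m = P := by rw [← hqc, h, ← RingHom.ker_eq_comap_bot, hker]
    have h2 := hh m hm
    rw [h1, hV.height hP] at h2
    exact absurd h2 (by decide)
  have hψq : ∀ a : A, ψ a ∈ q ↔ a ∈ m := by
    intro a
    rw [← Ideal.mem_comap, hqc]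
  have hfq : ψ c ∉ q := fun h => hcm ((hψq c).1 h)
  have hdvr := hf q hq0 hfq
  -- the local ring of the curve
  have hmemO : ∀ a : A, (a : F) ∈ O := fun a => hO.subset hm.ne_top a.2
  have hBO : ∀ b : B, (b : ResidueField V) ∈ curveLoc O V := by
    intro b
    obtain ⟨a, rfl⟩ := hψs b
    rw [hψ]
    exact ⟨⟨(a : F), hV.2.1 a a.2⟩, hmemO a, by rw [res_of_mem (hV.2.1 a a.2)]⟩
  let ι : B →+* curveLoc O V := (B.val : B →+* ResidueField V).codRestrict (curveLoc O V) hBO
  letI : Algebra B (curveLoc O V) := ι.toAlgebra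
  haveI hloc : IsLocalization.AtPrime (curveLoc O V) q := by
    refine (isLocalization_iff _ _).2 ⟨?_, ?_, ?_⟩
    · rintro ⟨y, hy⟩
      obtain ⟨s, rfl⟩ := hψs y
      have hsm : s ∉ m := fun h => hy ((hψq s).2 h)
      have hsP : s ∉ P := fun h => hsm (hPm h)
      have hs1 := (hP.val_one hV.2.1 s).1 hsP
      have hs0 : res V (s : F) ≠ 0 := (res_ne_zero_iff (hV.2.1 s s.2)).2 hs1
      have hinvV : (s : F)⁻¹ ∈ V := hOV (hO.inv_mem hsm)
      have h1 : res V ((s : F)⁻¹) ∈ curveLoc O V :=
        ⟨⟨(s : F)⁻¹, hinvV⟩, hO.inv_mem hsm, by rw [res_of_mem hinvV]⟩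
      apply IsUnit.of_mul_eq_one (⟨_, h1⟩ : curveLoc O V)
      apply Subtype.ext
      change ((ψ s : B) : ResidueField V) * res V ((s : F)⁻¹) = 1
      rw [hψ, ← res_mul (hV.2.1 s s.2) hinvV, mul_inv_cancel₀ (coe_ne_zero_of_notMem hsP), res_one]
    · rintro ⟨z, y, hy, rfl⟩
      obtain ⟨a, s, hsm, has⟩ := (hO _).1 hy
      have hsP : s ∉ P := fun h => hsm (hPm h)
      have hs1 := (hP.val_one hV.2.1 s).1 hsP
      have hs0 : res V (s : F) ≠ 0 := (res_ne_zero_iff (hV.2.1 s s.2)).2 hs1
      refine ⟨(ψ a, ⟨ψ s, fun h => hsm ((hψq s).1 h)⟩), ?_⟩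
      apply Subtype.ext
      change residue V y * ((ψ s : B) : ResidueField V) = ((ψ a : B) : ResidueField V)
      rw [hψ, hψ, ← res_coe, ← res_mul y.2 (hV.2.1 s s.2)]
      congr 1
      change (y : F) * (s : F) = a
      have h5 : (y : F) = (a : F) / s := has
      rw [h5, div_mul_cancel₀ _ (coe_ne_zero_of_notMem hsP)]
    · intro a b h
      have h1 : (a : ResidueField V) = b := congrArg (Subtype.val : curveLoc O V → _) h
      exact ⟨1, by rw [Subtype.ext h1]⟩
  let e : Localization.AtPrime q ≃ₐ[B] curveLoc O V :=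
    IsLocalization.algEquiv q.primeCompl _ _
  haveI : IsDomain (Localization.AtPrime q) :=
    IsLocalization.isDomain_localization q.primeCompl_le_nonZeroDivisors
  exact IsDiscreteValuationRing.RingEquivClass.isDiscreteValuationRing e

/-- On one chart a curve has finitely many singular points. -/
theorem sing_finite_chart [PerfectField k] (hA : Chart A) (hV : IsCurve A V) :
    {O | (∃ m : Ideal A, m.IsMaximal ∧ IsLoc A m O) ∧ (O : Set F) ⊆ V ∧
      ¬ IsDiscreteValuationRing (curveLoc O V)}.Finite :=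
  sing_finite_aff hA.fg hA.height hV

/-- A curve on the surface has finitely many singular points. -/
theorem sing_finite [PerfectField k] {n : ℕ} {x : Fin (n + 1) → F} (hx : Surf k x)
    (hV : V ∈ Curves (charts k x)) :
    {O | O ∈ Points (charts k x) ∧ (O : Set F) ⊆ V ∧
      ¬ IsDiscreteValuationRing (curveLoc O V)}.Finite := by
  have h1 : {O | O ∈ Points (charts k x) ∧ (O : Set F) ⊆ V ∧
      ¬ IsDiscreteValuationRing (curveLoc O V)} ⊆ ⋃ i : Fin (n + 1),
      {O | (∃ m : Ideal (Algebra.adjoin k (Set.range fun l => x l / x i)), m.IsMaximal ∧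
        IsLoc _ m O) ∧ (O : Set F) ⊆ V ∧ ¬ IsDiscreteValuationRing (curveLoc O V)} := by
    rintro O ⟨⟨_, ⟨i, rfl⟩, m, hm, hO⟩, h2, h3⟩
    exact Set.mem_iUnion.2 ⟨i, ⟨m, hm, hO⟩, h2, h3⟩
  refine (Set.finite_iUnion fun i => ?_).subset h1
  by_cases hi : ∀ a ∈ Algebra.adjoin k (Set.range fun l => x l / x i), a ∈ V
  · exact sing_finite_chart (hx.chart i) (glue hx.ne hV hi)
  · refine Set.finite_empty.subset ?_
    rintro O ⟨⟨m, hm, hO⟩, hOV, -⟩
    exact hi fun a ha => hOV (hO.subset hm.ne_top ha)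

end Pool.Agent.Lib.MP_b197b4_ntK
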