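import Mathlib
import Pool.Agent.Lib.MP_b197b4_ntK.Sing
import Pool.Agent.Lib.MP_b197b4_ntK.Pts

/-!
# MP_b197b4_nt, project K1: singular points of a union of finitely many curves; parameters
-/

set_option autoImplicit false

namespace Pool.Agent.Lib.MP_b197b4_ntK

open IsLocalRing

variable {k F : Type} [Field k] [Field F] [Algebra k F] {A : Subalgebra k F}
  {V V' : ValuationSubring F} {m : Ideal A} {O : Subring F}

/-- Two different curves of a chart meet at finitely many points. -/
theorem meet_finite_chart (hA : Chart A) (hV : IsCurve A V) (hV' : IsCurve A V') (hne : V ≠ V') :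
    {O | (∃ m : Ideal A, m.IsMaximal ∧ IsLoc A m O) ∧ (O : Set F) ⊆ V ∧ (O : Set F) ⊆ V'}.Finite := by
  obtain ⟨P, hPp, hP⟩ := exists_primeOf hV.2.1
  obtain ⟨P', hPp', hP'⟩ := exists_primeOf hV'.2.1
  have hnle : ¬ P' ≤ P := by
    intro h
    rcases eq_or_lt_of_le h with h1 | h1
    · rw [h1] at hP'
      exact hne (curve_unique hV hV' hP hP')
    · have hreg := hA.regular
      have h2 := Ideal.height_strict_mono_of_isPrime h1
      rw [hV.height hP, hV'.height hP'] at h2
      exact lt_irrefl _ h2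
  obtain ⟨c, hcP', hcP⟩ := Set.not_subset.1 hnle
  refine (pts_finite (curve_finite hA hV hP hcP)).subset ?_
  rintro O ⟨⟨m, hm, hO⟩, hOV, hOV'⟩
  exact ⟨m, ⟨hm, le_of_subset hP hO hOV, le_of_subset hP' hO hOV' hcP'⟩, hO⟩

/-- Two different curves of the surface meet at finitely many points. -/
theorem meet_finite {n : ℕ} {x : Fin (n + 1) → F} (hx : Surf k x)
    (hV : V ∈ Curves (charts k x)) (hV' : V' ∈ Curves (charts k x)) (hne : V ≠ V') :
    {O | O ∈ Points (charts k x) ∧ (O : Set F) ⊆ V ∧ (O : Set F) ⊆ V'}.Finite := by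
  have h1 : {O | O ∈ Points (charts k x) ∧ (O : Set F) ⊆ V ∧ (O : Set F) ⊆ V'} ⊆
      ⋃ i : Fin (n + 1),
      {O | (∃ m : Ideal (Algebra.adjoin k (Set.range fun l => x l / x i)), m.IsMaximal ∧
        IsLoc _ m O) ∧ (O : Set F) ⊆ V ∧ (O : Set F) ⊆ V'} := by
    rintro O ⟨⟨_, ⟨i, rfl⟩, m, hm, hO⟩, h2, h3⟩
    exact Set.mem_iUnion.2 ⟨i, ⟨m, hm, hO⟩, h2, h3⟩
  refine (Set.finite_iUnion fun i => ?_).subset h1
  by_cases hi : (∀ a ∈ Algebra.adjoin k (Set.range fun l => x l / x i), a ∈ V) ∧
    ∀ a ∈ Algebra.adjoin k (Set.range fun l => x l / x i), a ∈ V'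
  · exact meet_finite_chart (hx.chart i) (glue hx.ne hV hi.1) (glue hx.ne hV' hi.2) hne
  · refine Set.finite_empty.subset ?_
    rintro O ⟨⟨m, hm, hO⟩, hOV, hOV'⟩
    exact hi ⟨fun a ha => hOV (hO.subset hm.ne_top ha), fun a ha => hOV' (hO.subset hm.ne_top ha)⟩

/-- The union of the curves `S` is regular at `O`: at most one of the curves passes through `O`,
and it is regular there. -/
def RegPt (S : Set (ValuationSubring F)) (O : Subring F) : Prop :=
  (∀ V ∈ S, ∀ V' ∈ S, (O : Set F) ⊆ V → (O : Set F) ⊆ V' → V = V') ∧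
    ∀ V ∈ S, (O : Set F) ⊆ V → IsDiscreteValuationRing (curveLoc O V)

/-- The union of finitely many curves of the surface is regular outside of finitely many points. -/
theorem regPt_finite [PerfectField k] {n : ℕ} {x : Fin (n + 1) → F} (hx : Surf k x)
    {S : Set (ValuationSubring F)} (hS : S.Finite) (hSC : S ⊆ Curves (charts k x)) :
    {O | O ∈ Points (charts k x) ∧ ¬ RegPt S O}.Finite := by
  have h1 : {O | O ∈ Points (charts k x) ∧ ¬ RegPt S O} ⊆
      (⋃ V ∈ S, {O | O ∈ Points (charts k x) ∧ (O : Set F) ⊆ V ∧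
        ¬ IsDiscreteValuationRing (curveLoc O V)}) ∪
      ⋃ V ∈ S, ⋃ V' ∈ S, {O | V ≠ V' ∧ O ∈ Points (charts k x) ∧ (O : Set F) ⊆ V ∧
        (O : Set F) ⊆ V'} := by
    rintro O ⟨hO, hn⟩
    by_contra hc
    apply hn
    simp only [Set.mem_union, Set.mem_iUnion, Set.mem_ofPred_eq, not_or, not_exists] at hc
    refine ⟨fun V hV V' hV' h h' => ?_, fun V hV h => ?_⟩
    · by_contra hne
      exact hc.2 V hV V' hV' ⟨hne, hO, h, h'⟩
    · by_contra hne
      exact hc.1 V hV ⟨hO, h, hne⟩
  refine Set.Finite.subset (Set.Finite.union ?_ ?_) h1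
  · exact hS.biUnion fun V hV => sing_finite hx (hSC hV)
  · refine hS.biUnion fun V hV => hS.biUnion fun V' hV' => ?_
    by_cases hne : V = V'
    · refine Set.finite_empty.subset ?_
      rintro O ⟨h, -⟩
      exact h hne
    · exact (meet_finite hx (hSC hV) (hSC hV') hne).subset fun O h => h.2

section Param

/-- At a regular point of the curve its equation is part of a system of two parameters. -/
theorem exists_param_of_dvr [IsLocalRing O] (hO : Loc2 O) (hV : V ∈ CurvesAt O) {p : O} (hp : Prime p)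
    (hpV : V.valuation (p : F) < 1) (hd : IsDiscreteValuationRing (curveLoc O V)) :
    ∃ w : O, maximalIdeal O = Ideal.span {p, w} ∧ Irreducible (toCurveLoc hV w) := by
  have hloc := IsLocalHom.of_surjective (toCurveLoc hV) (toCurveLoc_surjective hV)
  obtain ⟨z, hz⟩ := IsDiscreteValuationRing.exists_irreducible (curveLoc O V)
  obtain ⟨w, rfl⟩ := toCurveLoc_surjective hV z
  refine ⟨w, ?_, hz⟩
  have hmax : maximalIdeal (curveLoc O V) = Ideal.span {toCurveLoc hV w} := hz.maximalIdeal_eq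
  apply le_antisymm
  · intro y hy
    have h1 : toCurveLoc hV y ∈ maximalIdeal (curveLoc O V) := by
      rw [mem_maximalIdeal, mem_nonunits_iff]
      intro h
      exact (mem_nonunits_iff.1 ((mem_maximalIdeal _).1 hy)) (isUnit_of_map_unit _ _ h)
    rw [hmax, Ideal.mem_span_singleton] at h1
    obtain ⟨c, hc⟩ := h1
    obtain ⟨b, rfl⟩ := toCurveLoc_surjective hV c
    have h2 : toCurveLoc hV (y - w * b) = 0 := by rw [map_sub, map_mul, ← hc, sub_self]
    rw [toCurveLoc_eq_zero hO hV, ctr_eq hV hp hpV, Ideal.mem_span_singleton] at h2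
    obtain ⟨a, ha⟩ := h2
    rw [Ideal.mem_span_pair]
    exact ⟨a, b, by rw [mul_comm a, ← ha]; ring⟩
  · rw [Ideal.span_le]
    rintro y (rfl | rfl)
    · exact (mem_maximalIdeal _).2 hp.not_unit
    · exact (mem_maximalIdeal _).2 fun h => hz.not_isUnit (h.map _)

/-- If the equation of the curve is part of a system of two parameters the point is a regular
point of the curve. -/
theorem dvr_of_two_param [IsLocalRing O] (hO : Loc2 O) (hV : V ∈ CurvesAt O) {p w : O} (hp : Prime p)
    (hpV : V.valuation (p : F) < 1) (hw : maximalIdeal O = Ideal.span {p, w}) (hpw : ¬ p ∣ w) :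
    IsDiscreteValuationRing (curveLoc O V) := by
  have hloc := IsLocalHom.of_surjective (toCurveLoc hV) (toCurveLoc_surjective hV)
  have hl : IsLocalRing (curveLoc O V) :=
    IsLocalRing.of_surjective' (toCurveLoc hV) (toCurveLoc_surjective hV)
  have := hO.noeth
  have hn : IsNoetherianRing (curveLoc O V) :=
    isNoetherianRing_of_surjective _ _ (toCurveLoc hV) (toCurveLoc_surjective hV)
  have hw0 : toCurveLoc hV w ≠ 0 := by
    rw [ne_eq, toCurveLoc_eq_zero hO hV, ctr_eq hV hp hpV, Ideal.mem_span_singleton]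
    exact hpw
  have hwm : w ∈ maximalIdeal O := by rw [hw]; exact Ideal.mem_span_pair.2 ⟨0, 1, by ring⟩
  have hnf : ¬ IsField (curveLoc O V) := by
    intro h
    obtain ⟨c, hc⟩ := h.mul_inv_cancel hw0
    exact (mem_nonunits_iff.1 ((mem_maximalIdeal _).1 hwm))
      (isUnit_of_map_unit (toCurveLoc hV) w (IsUnit.of_mul_eq_one c hc))
  refine ((IsDiscreteValuationRing.TFAE (curveLoc O V) hnf).out 0 4).2 ?_
  refine ⟨⟨toCurveLoc hV w, ?_⟩⟩
  apply le_antisymm
  · intro z hz
    obtain ⟨y, rfl⟩ := toCurveLoc_surjective hV z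
    have hy : y ∈ maximalIdeal O := by
      rw [mem_maximalIdeal, mem_nonunits_iff]
      intro h
      exact (mem_nonunits_iff.1 ((mem_maximalIdeal _).1 hz)) (h.map _)
    rw [hw, Ideal.mem_span_pair] at hy
    obtain ⟨a, b, rfl⟩ := hy
    have h2 : toCurveLoc hV p = 0 := by
      rw [toCurveLoc_eq_zero hO hV, ctr_eq hV hp hpV]
      exact Ideal.mem_span_singleton_self p
    rw [map_add, map_mul, map_mul, h2, mul_zero, zero_add]
    exact Submodule.mem_span_singleton.2 ⟨_, rfl⟩
  · rw [Submodule.span_singleton_le_iff_mem, mem_maximalIdeal, mem_nonunits_iff]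
    intro h
    exact (mem_nonunits_iff.1 ((mem_maximalIdeal _).1 hwm)) (isUnit_of_map_unit _ _ h)

end Param

end Pool.Agent.Lib.MP_b197b4_ntK
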