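import Mathlib
import Pool.Agent.Lib.MP_b197b4_ntK.SingC

/-!
# MP_b197b4_nt, project K1: almost all points of a curve on a normal surface are good
-/

set_option autoImplicit false

namespace Pool.Agent.Lib.MP_b197b4_ntK

open IsLocalRing

variable {k F : Type} [Field k] [Field F] [Algebra k F] {A : Subalgebra k F}
  {V V' : ValuationSubring F} {m : Ideal A} {O : Subring F}

theorem chart_fg {n : ℕ} (k : Type) {F : Type} [Field k] [Field F] [Algebra k F]
    (x : Fin (n + 1) → F) (i : Fin (n + 1)) :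
    (Algebra.adjoin k (Set.range fun j => x j / x i)).FG :=
  Subalgebra.fg_def.2 ⟨_, Set.finite_range _, rfl⟩

/-- Two different curves of an affine surface meet at finitely many points. -/
theorem meet_finite_aff (hfg : A.FG) (hh : ∀ m : Ideal A, m.IsMaximal → m.height = 2)
    (hV : IsCurve A V) (hV' : IsCurve A V') (hne : V ≠ V') :
    {O | (∃ m : Ideal A, m.IsMaximal ∧ IsLoc A m O) ∧ (O : Set F) ⊆ V ∧ (O : Set F) ⊆ V'}.Finite := by
  have hft : Algebra.FiniteType k A := A.fg_iff_finiteType.1 hfg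
  have hn : IsNoetherianRing A := Algebra.FiniteType.isNoetherianRing k A
  obtain ⟨P, hPp, hP⟩ := exists_primeOf hV.2.1
  obtain ⟨P', hPp', hP'⟩ := exists_primeOf hV'.2.1
  have hnle : ¬ P' ≤ P := by
    intro h
    rcases eq_or_lt_of_le h with h1 | h1
    · rw [h1] at hP'
      exact hne (curve_unique hV hV' hP hP')
    · have h2 := Ideal.height_strict_mono_of_isPrime h1
      rw [hV.height hP, hV'.height hP'] at h2
      exact lt_irrefl _ h2
  obtain ⟨c, hcP', hcP⟩ := Set.not_subset.1 hnle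
  refine (pts_finite (curve_finite_aff hn hh hV hP hcP)).subset ?_
  rintro O ⟨⟨m, hm, hO⟩, hOV, hOV'⟩
  exact ⟨m, ⟨hm, le_of_subset hP hO hOV, le_of_subset hP' hO hOV' hcP'⟩, hO⟩

/-- Near the generic point of a curve its ideal is principal. -/
theorem exists_principal (hn : IsNoetherianRing A) (hV : IsCurve A V) {P : Ideal A}
    (hP : PrimeOf A V P) :
    ∃ a c : A, a ∈ P ∧ c ∉ P ∧ ∀ p ∈ P, ∃ g : A, c * p = a * g := by
  classical
  have := hV.1
  have hPp := hP.isPrime hV.2.1
  obtain ⟨π, hπ⟩ := IsDiscreteValuationRing.exists_irreducible V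
  obtain ⟨a, s, ha, hs, hs1, has⟩ := hV.2.2 (π : F) π.2
  have hs0 : s ≠ 0 := ne_zero_of_val_one hs1
  have haP : (⟨a, ha⟩ : A) ∈ P := by
    rw [hP]
    change V.valuation a < 1
    have h1 : a = (π : F) * s := by rw [has, div_mul_cancel₀ _ hs0]
    rw [h1, map_mul, hs1, mul_one]
    exact val_irr_lt hπ
  have key : ∀ p ∈ P, ∃ g t : A, t ∉ P ∧ t * p = ⟨a, ha⟩ * g := by
    intro p hp
    have hp1 : (⟨(p : F), hV.2.1 p p.2⟩ : V) ∈ maximalIdeal V :=
      (ValuationSubring.valuation_lt_one_iff V _).2 ((hP p).1 hp)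
    rw [hπ.maximalIdeal_eq, Ideal.mem_span_singleton] at hp1
    obtain ⟨y, hy⟩ := hp1
    have hy1 : (p : F) = π * y := congrArg (Subtype.val : V → F) hy
    obtain ⟨b, t, hb, ht, ht1, hbt⟩ := hV.2.2 (y : F) y.2
    have ht0 : t ≠ 0 := ne_zero_of_val_one ht1
    refine ⟨⟨b, hb⟩, ⟨s * t, mul_mem hs ht⟩, ?_, ?_⟩
    · rw [hP.val_one hV.2.1]
      change V.valuation (s * t) = 1
      rw [map_mul, hs1, ht1, mul_one]
    · apply Subtype.ext
      change s * t * (p : F) = a * b
      rw [hy1, has, hbt]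
      field_simp
  obtain ⟨S, hS⟩ := (IsNoetherian.noetherian P : P.FG)
  have key2 : ∀ T : Finset A, (∀ p ∈ T, p ∈ P) → ∃ c : A, c ∉ P ∧ ∀ p ∈ T, ∃ g : A,
      c * p = ⟨a, ha⟩ * g := by
    intro T
    induction T using Finset.induction_on with
    | empty => exact fun _ => ⟨1, (Ideal.ne_top_iff_one P).1 hPp.ne_top, by simp⟩
    | insert q T _ ih =>
      intro hT
      obtain ⟨c, hc, hcT⟩ := ih fun p hp => hT p (Finset.mem_insert_of_mem hp)
      obtain ⟨g, t, ht, hg⟩ := key q (hT q (Finset.mem_insert_self _ _))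
      refine ⟨c * t, fun h => (hPp.mem_or_mem h).elim hc ht, ?_⟩
      intro p hp
      rcases Finset.mem_insert.1 hp with rfl | hp
      · exact ⟨c * g, by rw [mul_assoc, hg]; ring⟩
      · obtain ⟨g', hg'⟩ := hcT p hp
        exact ⟨t * g', by rw [mul_right_comm, hg']; ring⟩
  obtain ⟨c, hc, hcS⟩ := key2 S fun p hp => hS ▸ Submodule.subset_span hp
  refine ⟨⟨a, ha⟩, c, haP, hc, ?_⟩
  intro p hp
  rw [← hS] at hp
  induction hp using Submodule.span_induction with
  | mem x hx => exact hcS x hx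
  | zero => exact ⟨0, by simp⟩
  | add x y _ _ hx hy =>
    obtain ⟨g, hg⟩ := hx
    obtain ⟨g', hg'⟩ := hy
    exact ⟨g + g', by rw [mul_add, hg, hg', mul_add]⟩
  | smul r x _ hx =>
    obtain ⟨g, hg⟩ := hx
    exact ⟨r * g, by rw [smul_eq_mul, mul_left_comm, hg, mul_left_comm]⟩

/-- The local ring of a closed point is a Noetherian local ring of dimension two. -/
theorem IsLoc.local_dim (hn : IsNoetherianRing A) (hh : ∀ m : Ideal A, m.IsMaximal → m.height = 2)
    (hO : IsLoc A m O) (hm : m.IsMaximal) :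
    IsLocalRing O ∧ IsNoetherianRing O ∧ ringKrullDim O = 2 := by
  have := hm.isPrime
  let := (hO.incl hm.isPrime.ne_top).toAlgebra
  have := hO.isLocalization
  refine ⟨IsLocalization.AtPrime.isLocalRing O m,
    IsLocalization.isNoetherianRing m.primeCompl _ hn, ?_⟩
  rw [IsLocalization.AtPrime.ringKrullDim_eq_height m O, hh m hm]
  rfl

/-- Almost all points of a curve on an affine surface are good. -/
theorem good_finite_aff [PerfectField k] (hfg : A.FG)
    (hh : ∀ m : Ideal A, m.IsMaximal → m.height = 2) (hV : IsCurve A V) :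
    {O | (∃ m : Ideal A, m.IsMaximal ∧ IsLoc A m O) ∧ (O : Set F) ⊆ V ∧ ¬ (IsRegularLocalRing O ∧ IsDiscreteValuationRing (curveLoc O V))}.Finite := by
  have hft : Algebra.FiniteType k A := A.fg_iff_finiteType.1 hfg
  have hn : IsNoetherianRing A := Algebra.FiniteType.isNoetherianRing k A
  obtain ⟨P, hPp, hP⟩ := exists_primeOf hV.2.1
  obtain ⟨a, c, ha, hc, hac⟩ := exists_principal hn hV hP
  refine ((sing_finite_aff hfg hh hV).union
    (pts_finite (curve_finite_aff hn hh hV hP hc))).subset ?_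
  rintro O ⟨⟨m, hm, hO⟩, hOV, hnot⟩
  by_cases hd : IsDiscreteValuationRing (curveLoc O V)
  swap
  · exact Or.inl ⟨⟨m, hm, hO⟩, hOV, hd⟩
  right
  have hPm := le_of_subset hP hO hOV
  refine ⟨m, ⟨hm, hPm, ?_⟩, hO⟩
  by_contra hcm
  apply hnot
  refine ⟨?_, hd⟩
  obtain ⟨h1, h2, h3⟩ := hO.local_dim hn hh hm
  have hVC : V ∈ CurvesAt O := (hO.mem_curvesAt hm.ne_top V).2 ⟨hV, hOV⟩
  have hloc := IsLocalHom.of_surjective (toCurveLoc hVC) (toCurveLoc_surjective hVC)
  obtain ⟨z, hz⟩ := IsDiscreteValuationRing.exists_irreducible (curveLoc O V)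
  obtain ⟨w, rfl⟩ := toCurveLoc_surjective hVC z
  have hmax : maximalIdeal (curveLoc O V) = Ideal.span {toCurveLoc hVC w} := hz.maximalIdeal_eq
  have hmem : ∀ b : A, (b : F) ∈ O := fun b => hO.coe_mem hm.ne_top b
  have hker : ∀ y : O, toCurveLoc hVC y = 0 → ∃ b : O, y = b * ⟨(a : F), hmem a⟩ := by
    intro y hy
    obtain ⟨e, t, ht, hyt⟩ := (hO y).1 y.2
    have htP : t ∉ P := fun h => ht (hPm h)
    have ht1 := (hP.val_one hV.2.1 t).1 htP
    have hy1 : res V (y : F) = 0 := congrArg (Subtype.val : curveLoc O V → _) hy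
    have heP : e ∈ P := by
      rw [hP, ← res_eq_zero_iff (hV.2.1 e e.2)]
      have h5 : (e : F) = y * t := by
        rw [hyt, div_mul_cancel₀ _ (coe_ne_zero_of_notMem ht)]
      rw [h5, res_mul (hOV y.2) (hV.2.1 t t.2), hy1, zero_mul]
    obtain ⟨g, hg⟩ := hac e heP
    have hct : c * t ∉ m := fun h => (hm.isPrime.mem_or_mem h).elim hcm ht
    have h6 : (g : F) / ((c * t : A) : F) ∈ O := by
      rw [hO]
      exact ⟨g, c * t, hct, rfl⟩
    refine ⟨⟨_, h6⟩, ?_⟩
    apply Subtype.ext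
    change (y : F) = (g : F) / ((c * t : A) : F) * (a : F)
    have hc0 : (c : F) ≠ 0 := coe_ne_zero_of_notMem hcm
    have ht0 : (t : F) ≠ 0 := coe_ne_zero_of_notMem ht
    have hg1 : (c : F) * e = a * g := congrArg (Subtype.val : A → F) hg
    rw [hyt]
    push_cast
    field_simp
    linear_combination hg1
  have hspan : maximalIdeal O = Ideal.span {⟨(a : F), hmem a⟩, w} := by
    apply le_antisymm
    · intro y hy
      have h4 : toCurveLoc hVC y ∈ maximalIdeal (curveLoc O V) := by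
        rw [mem_maximalIdeal, mem_nonunits_iff]
        intro h
        exact (mem_nonunits_iff.1 ((mem_maximalIdeal _).1 hy)) (isUnit_of_map_unit _ _ h)
      rw [hmax, Ideal.mem_span_singleton] at h4
      obtain ⟨b, hb⟩ := h4
      obtain ⟨b, rfl⟩ := toCurveLoc_surjective hVC b
      have h5 : toCurveLoc hVC (y - w * b) = 0 := by rw [map_sub, map_mul, ← hb, sub_self]
      obtain ⟨d, hd⟩ := hker _ h5
      rw [Ideal.mem_span_pair]
      exact ⟨d, b, by rw [← hd]; ring⟩
    · rw [Ideal.span_le]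
      rintro y (rfl | rfl)
      · rw [SetLike.mem_coe, mem_maximalIdeal, mem_nonunits_iff]
        intro h
        have h7 := h.map (toCurveLoc hVC)
        have h8 : toCurveLoc hVC ⟨(a : F), hmem a⟩ = 0 :=
          Subtype.ext ((res_eq_zero_iff (hV.2.1 a a.2)).2 ((hP a).1 ha))
        rw [h8] at h7
        exact not_isUnit_zero h7
      · exact (mem_maximalIdeal _).2 fun h => hz.not_isUnit (h.map _)
  apply IsRegularLocalRing.of_spanFinrank_maximalIdeal_le
  rw [h3, hspan]
  have h9 := Submodule.spanFinrank_span_le_ncard_of_finite (R := O) (M := O)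
    (s := {⟨(a : F), hmem a⟩, w}) (Set.toFinite _)
  have h10 : (Submodule.span O {⟨(a : F), hmem a⟩, w}).spanFinrank ≤ 2 := by
    refine h9.trans ((Set.ncard_insert_le _ _).trans ?_)
    rw [Set.ncard_singleton]
  have h11 : (((Submodule.span O {⟨(a : F), hmem a⟩, w}).spanFinrank : ℕ) : WithBot ℕ∞) ≤
    ((2 : ℕ) : WithBot ℕ∞) := by exact_mod_cast h10
  exact h11

section Proj

variable {n : ℕ} {x : Fin (n + 1) → F}

/-- From the charts to the surface. -/
theorem finite_of_chartsS (p : Subring F → Prop)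
    (h : ∀ i, {O | (∃ m : Ideal (Algebra.adjoin k (Set.range fun l => x l / x i)), m.IsMaximal ∧
      IsLoc _ m O) ∧ p O}.Finite) : {O | O ∈ Points (charts k x) ∧ p O}.Finite := by
  refine (Set.finite_iUnion h).subset ?_
  rintro O ⟨⟨_, ⟨i, rfl⟩, m, hm, hO⟩, hp⟩
  exact Set.mem_iUnion.2 ⟨i, ⟨m, hm, hO⟩, hp⟩

/-- A curve on the surface has finitely many singular points. -/
theorem sing_finite_of_height [PerfectField k] (hx : ∀ i, x i ≠ 0)
    (hh : ∀ i, ∀ m : Ideal (Algebra.adjoin k (Set.range fun l => x l / x i)), m.IsMaximal →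
      m.height = 2) (hV : V ∈ Curves (charts k x)) :
    {O | O ∈ Points (charts k x) ∧ (O : Set F) ⊆ V ∧
      ¬ IsDiscreteValuationRing (curveLoc O V)}.Finite := by
  refine finite_of_chartsS _ fun i => ?_
  by_cases hi : ∀ a ∈ Algebra.adjoin k (Set.range fun l => x l / x i), a ∈ V
  · exact sing_finite_aff (chart_fg k x i) (hh i) (glue hx hV hi)
  · refine Set.finite_empty.subset ?_
    rintro O ⟨⟨m, hm, hO⟩, hOV, -⟩
    exact hi fun a ha => hOV (hO.subset hm.ne_top ha)

/-- Almost all points of a curve are good. -/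
theorem good_finite_of_height [PerfectField k] (hx : ∀ i, x i ≠ 0)
    (hh : ∀ i, ∀ m : Ideal (Algebra.adjoin k (Set.range fun l => x l / x i)), m.IsMaximal →
      m.height = 2) (hV : V ∈ Curves (charts k x)) :
    {O | O ∈ Points (charts k x) ∧ (O : Set F) ⊆ V ∧ ¬ (IsRegularLocalRing O ∧ IsDiscreteValuationRing (curveLoc O V))}.Finite := by
  refine finite_of_chartsS _ fun i => ?_
  by_cases hi : ∀ a ∈ Algebra.adjoin k (Set.range fun l => x l / x i), a ∈ V
  · exact good_finite_aff (chart_fg k x i) (hh i) (glue hx hV hi)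
  · refine Set.finite_empty.subset ?_
    rintro O ⟨⟨m, hm, hO⟩, hOV, -⟩
    exact hi fun a ha => hOV (hO.subset hm.ne_top ha)

/-- Two different curves of the surface meet at finitely many points. -/
theorem meet_finite_of_height (hx : ∀ i, x i ≠ 0)
    (hh : ∀ i, ∀ m : Ideal (Algebra.adjoin k (Set.range fun l => x l / x i)), m.IsMaximal →
      m.height = 2)
    (hV : V ∈ Curves (charts k x)) (hV' : V' ∈ Curves (charts k x)) (hne : V ≠ V') :
    {O | O ∈ Points (charts k x) ∧ (O : Set F) ⊆ V ∧ (O : Set F) ⊆ V'}.Finite := by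
  refine finite_of_chartsS _ fun i => ?_
  by_cases hi : (∀ a ∈ Algebra.adjoin k (Set.range fun l => x l / x i), a ∈ V) ∧
    ∀ a ∈ Algebra.adjoin k (Set.range fun l => x l / x i), a ∈ V'
  · exact meet_finite_aff (chart_fg k x i) (hh i) (glue hx hV hi.1) (glue hx hV' hi.2) hne
  · refine Set.finite_empty.subset ?_
    rintro O ⟨⟨m, hm, hO⟩, hOV, hOV'⟩
    exact hi ⟨fun a ha => hOV (hO.subset hm.ne_top ha), fun a ha => hOV' (hO.subset hm.ne_top ha)⟩

/-- At almost all points of the surface at most one of finitely many curves passes, and the point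
is good for this curve. -/
theorem good_finite_set [PerfectField k] (hx : ∀ i, x i ≠ 0)
    (hh : ∀ i, ∀ m : Ideal (Algebra.adjoin k (Set.range fun l => x l / x i)), m.IsMaximal →
      m.height = 2) {S : Set (ValuationSubring F)} (hS : S.Finite)
    (hSC : S ⊆ Curves (charts k x)) :
    {O | O ∈ Points (charts k x) ∧
      ¬ ((∀ V ∈ S, ∀ V' ∈ S, (O : Set F) ⊆ V → (O : Set F) ⊆ V' → V = V') ∧
        ∀ V ∈ S, (O : Set F) ⊆ V →
          IsRegularLocalRing O ∧ IsDiscreteValuationRing (curveLoc O V))}.Finite := by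
  have h1 : {O | O ∈ Points (charts k x) ∧
      ¬ ((∀ V ∈ S, ∀ V' ∈ S, (O : Set F) ⊆ V → (O : Set F) ⊆ V' → V = V') ∧
        ∀ V ∈ S, (O : Set F) ⊆ V →
          IsRegularLocalRing O ∧ IsDiscreteValuationRing (curveLoc O V))} ⊆
      (⋃ V ∈ S, {O | O ∈ Points (charts k x) ∧ (O : Set F) ⊆ V ∧ ¬ (IsRegularLocalRing O ∧ IsDiscreteValuationRing (curveLoc O V))}) ∪
      ⋃ V ∈ S, ⋃ V' ∈ S, {O | V ≠ V' ∧ O ∈ Points (charts k x) ∧ (O : Set F) ⊆ V ∧
        (O : Set F) ⊆ V'} := by
    rintro O ⟨hO, hn⟩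
    by_contra hc
    apply hn
    simp only [Set.mem_union, Set.mem_iUnion, Set.mem_ofPred_eq, not_or, not_exists] at hc
    refine ⟨fun V hV V' hV' h h' => ?_, fun V hV h => ?_⟩
    · by_contra hne
      exact hc.2 V hV V' hV' ⟨hne, hO, h, h'⟩
    · by_contra hne
      exact hc.1 V hV ⟨hO, h, hne⟩
  refine Set.Finite.subset (Set.Finite.union ?_ ?_) h1
  · exact hS.biUnion fun V hV => good_finite_of_height hx hh (hSC hV)
  · refine hS.biUnion fun V hV => hS.biUnion fun V' hV' => ?_
    by_cases hne : V = V'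
    · refine Set.finite_empty.subset ?_
      rintro O ⟨h, -⟩
      exact h hne
    · exact (meet_finite_of_height hx hh (hSC hV) (hSC hV') hne).subset fun O h => h.2

end Proj

end Pool.Agent.Lib.MP_b197b4_ntK
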