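import Mathlib
import Pool.Agent.Lib.MP_b197b4_ntK.Defs2

/-!
# MP_b197b4_nt, project K1: linear forms which do not vanish at finitely many points and curves (G2)
-/

set_option autoImplicit false

namespace Pool.Agent.Lib.MP_b197b4_ntK

open IsLocalRing

variable {k : Type} {F : Type} [Field k] [Field F] [Algebra k F]

/-- A vector space over an infinite field is not the union of finitely many proper subspaces. -/
theorem exists_mem_notMem [Infinite k] {M : Type} [AddCommGroup M] [Module k M]
    (L : Submodule k M) {U : Set (Submodule k M)} (hU : U.Finite) (h : ∀ u ∈ U, ¬ L ≤ u) :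
    ∃ w ∈ L, ∀ u ∈ U, w ∉ u := by
  classical
  let s : Finset (Submodule k L) := hU.toFinset.image fun u => u.comap L.subtype
  have hs : ⊤ ∉ s := by
    intro htop
    obtain ⟨u, hu, hu'⟩ := Finset.mem_image.1 htop
    rw [Set.Finite.mem_toFinset] at hu
    refine h u hu fun w hw => ?_
    have : (⟨w, hw⟩ : L) ∈ u.comap L.subtype := by
      rw [hu']
      exact Submodule.mem_top
    exact this
  have hne := Subspace.biUnion_ne_univ_of_top_notMem (k := k) (E := L) (s := s) hs
  obtain ⟨w, hw⟩ := (Set.ne_univ_iff_exists_notMem _).1 hne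
  refine ⟨w, w.2, fun u hu hwu => hw ?_⟩
  rw [Set.mem_iUnion₂]
  refine ⟨u.comap L.subtype, Finset.mem_image.2 ⟨u, ?_, rfl⟩, hwu⟩
  rwa [Set.Finite.mem_toFinset]

variable {n : ℕ} {x : Fin (n + 1) → F}

/-- `w` is a generator of the linear forms over `B` if all `x j / w` are in `B`; then this holds for
all linear forms. -/
theorem span_div_mem {B : Subring F} (hk : ∀ c : k, algebraMap k F c ∈ B) {w : F}
    (hw : ∀ j, x j / w ∈ B) {v : F} (hv : v ∈ Submodule.span k (Set.range x)) : v / w ∈ B := by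
  induction hv using Submodule.span_induction with
  | mem v hv =>
    obtain ⟨j, rfl⟩ := hv
    exact hw j
  | zero => rw [zero_div]; exact B.zero_mem
  | add a b _ _ ha hb => rw [add_div]; exact B.add_mem ha hb
  | smul c a _ ha =>
    rw [Algebra.smul_def, mul_div_assoc]
    exact B.mul_mem (hk c) ha

/-- the same for a subalgebra -/
theorem span_div_mem' {A : Subalgebra k F} {w : F} (hw : ∀ j, x j / w ∈ A) {v : F}
    (hv : v ∈ Submodule.span k (Set.range x)) : v / w ∈ A :=
  span_div_mem (B := A.toSubring) (fun c => A.algebraMap_mem c) hw hv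

/-- the same for a valuation ring -/
theorem span_div_mem_val {V : ValuationSubring F} (hk : Over k V) {w : F}
    (hw : ∀ j, x j / w ∈ V) {v : F} (hv : v ∈ Submodule.span k (Set.range x)) : v / w ∈ V :=
  span_div_mem (B := V.toSubring) hk hw hv

theorem av_ne_zero (hx : ∀ i, x i ≠ 0) {w : F} (hw : w ≠ 0)
    (j : Fin (n + 1)) : x j / w ≠ 0 := div_ne_zero (hx j) hw

/-- Two generators differ by a unit: if `w` is a linear form and a generator, and `x i` is one too,
then `x i / w` and `w / x i` are in `B`. -/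
theorem gen_of_unit {B : Subring F} {i : Fin (n + 1)} (hi : ∀ j, x j / x i ∈ B) (hxi : x i ≠ 0)
    {w : F} (hw : x i / w ∈ B) : ∀ j, x j / w ∈ B := by
  intro j
  have : x j / w = x j / x i * (x i / w) := by
    rw [div_mul_div_cancel₀ hxi]
  rw [this]
  exact B.mul_mem (hi j) hw

theorem av_chart_mem (k : Type) [Field k] [Algebra k F] (x : Fin (n + 1) → F) (i j : Fin (n + 1)) :
    x j / x i ∈ Algebra.adjoin k (Set.range fun j => x j / x i) :=
  Algebra.subset_adjoin ⟨j, rfl⟩

theorem av_over_of_curves {M : Set (Subalgebra k F)} {V : ValuationSubring F} (h : V ∈ Curves M) :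
    Over k V := by
  obtain ⟨A, _, hV⟩ := h
  exact fun c => hV.2.1 _ (A.algebraMap_mem c)

/-- A curve of the surface has a coordinate which is a generator. -/
theorem av_gen_curve {V : ValuationSubring F} (hV : V ∈ Curves (charts k x)) :
    ∃ i, ∀ j, x j / x i ∈ V := by
  obtain ⟨A, ⟨i, rfl⟩, hV⟩ := hV
  exact ⟨i, fun j => hV.2.1 _ (av_chart_mem k x i j)⟩

theorem av_isLoc_mem {A : Subalgebra k F} {m : Ideal A} (hm : m.IsMaximal) {O : Subring F}
    (hO : IsLoc A m O) {a : F} (ha : a ∈ A) : a ∈ O := by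
  rw [hO]
  refine ⟨⟨a, ha⟩, 1, fun h => hm.ne_top ((Ideal.eq_top_iff_one m).2 h), ?_⟩
  simp

theorem av_isLoc_inv_mem {A : Subalgebra k F} {m : Ideal A} {O : Subring F}
    (hO : IsLoc A m O) {s : A} (hs : s ∉ m) : ((s : F))⁻¹ ∈ O := by
  rw [hO]
  exact ⟨1, s, hs, by simp⟩

/-- A closed point of the surface has a coordinate which is a generator. -/
theorem av_gen_point {O : Subring F} (hO : O ∈ Points (charts k x)) :
    ∃ i, ∀ j, x j / x i ∈ O := by
  obtain ⟨A, ⟨i, rfl⟩, m, hm, hO⟩ := hO
  exact ⟨i, fun j => av_isLoc_mem hm hO (av_chart_mem k x i j)⟩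

theorem av_points_const {M : Set (Subalgebra k F)} {O : Subring F} (hO : O ∈ Points M) (c : k) :
    algebraMap k F c ∈ O := by
  obtain ⟨A, _, m, hm, hO⟩ := hO
  exact av_isLoc_mem hm hO (A.algebraMap_mem c)

/-- **The linear forms vanishing on the curve `V`** are in a subspace `U`. -/
theorem exists_bad_curve (hx : ∀ i, x i ≠ 0) {V : ValuationSubring F}
    (hV : V ∈ Curves (charts k x)) :
    ∃ U : Submodule k F, ¬ Submodule.span k (Set.range x) ≤ U ∧
      ∀ w ∈ Submodule.span k (Set.range x), w ∉ U → w ≠ 0 ∧ ∀ j, x j / w ∈ V := by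
  have hk := av_over_of_curves hV
  obtain ⟨i, hi⟩ := av_gen_curve hV
  refine ⟨{ carrier := {w | V.valuation (w / x i) < 1}
            add_mem' := ?_
            zero_mem' := ?_
            smul_mem' := ?_ }, ?_, ?_⟩
  · intro a b ha hb
    rw [Set.mem_ofPred_eq] at *
    rw [add_div]
    exact (V.valuation.map_add _ _).trans_lt (max_lt ha hb)
  · simp
  · intro c a ha
    rw [Set.mem_ofPred_eq] at *
    rw [Algebra.smul_def, mul_div_assoc, map_mul]
    calc V.valuation (algebraMap k F c) * V.valuation (a / x i)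
        ≤ 1 * V.valuation (a / x i) := by
          gcongr
          exact (V.valuation_le_one_iff _).2 (hk c)
      _ < 1 := by rwa [one_mul]
  · intro h
    have h1 := h (Submodule.subset_span ⟨i, rfl⟩)
    change V.valuation (x i / x i) < 1 at h1
    rw [div_self (hx i), map_one] at h1
    exact lt_irrefl _ h1
  · intro w hw hwU
    change ¬ V.valuation (w / x i) < 1 at hwU
    have h1 : w / x i ∈ V := span_div_mem_val hk hi hw
    have h2 : V.valuation (w / x i) = 1 :=
      le_antisymm ((V.valuation_le_one_iff _).2 h1) (not_lt.1 hwU)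
    have hw0 : w ≠ 0 := by
      rintro rfl
      rw [zero_div, map_zero] at h2
      exact zero_ne_one h2
    refine ⟨hw0, gen_of_unit (B := V.toSubring) hi (hx i) ?_⟩
    change x i / w ∈ V
    rw [← V.valuation_le_one_iff, ← inv_div, map_inv₀, h2, inv_one]

/-- **The linear forms vanishing at the point `O`** are in a subspace `U`. -/
theorem exists_bad_point (hx : ∀ i, x i ≠ 0) {O : Subring F}
    (hO : O ∈ Points (charts k x)) :
    ∃ U : Submodule k F, ¬ Submodule.span k (Set.range x) ≤ U ∧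
      ∀ w ∈ Submodule.span k (Set.range x), w ∉ U → w ≠ 0 ∧ ∀ j, x j / w ∈ O := by
  obtain ⟨A, ⟨i, rfl⟩, m, hm, hO⟩ := hO
  refine ⟨{ carrier := {w | ∃ a ∈ m, (a : F) = w / x i}
            add_mem' := ?_
            zero_mem' := ?_
            smul_mem' := ?_ }, ?_, ?_⟩
  · rintro a b ⟨c, hc, hc'⟩ ⟨d, hd, hd'⟩
    exact ⟨c + d, m.add_mem hc hd, by rw [add_div, ← hc', ← hd']; rfl⟩
  · exact ⟨0, m.zero_mem, by simp⟩
  · rintro c a ⟨d, hd, hd'⟩
    refine ⟨algebraMap k _ c * d, m.mul_mem_left _ hd, ?_⟩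
    rw [Algebra.smul_def, mul_div_assoc, ← hd']
    rfl
  · intro h
    obtain ⟨a, ha, ha'⟩ := h (Submodule.subset_span ⟨i, rfl⟩)
    rw [div_self (hx i)] at ha'
    have : a = 1 := Subtype.ext ha'
    rw [this] at ha
    exact hm.ne_top ((Ideal.eq_top_iff_one m).2 ha)
  · intro w hw hwU
    have h1 : w / x i ∈ Algebra.adjoin k (Set.range fun j => x j / x i) :=
      span_div_mem' (fun j => av_chart_mem k x i j) hw
    have h2 : (⟨w / x i, h1⟩ : Algebra.adjoin k (Set.range fun j => x j / x i)) ∉ m :=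
      fun h => hwU ⟨_, h, rfl⟩
    have hw0 : w ≠ 0 := by
      rintro rfl
      apply h2
      have : (⟨0 / x i, h1⟩ : Algebra.adjoin k (Set.range fun j => x j / x i)) = 0 :=
        Subtype.ext (zero_div _)
      rw [this]
      exact m.zero_mem
    refine ⟨hw0, gen_of_unit (fun j => av_isLoc_mem hm hO (av_chart_mem k x i j)) (hx i) ?_⟩
    have h3 := av_isLoc_inv_mem hO h2
    change (w / x i)⁻¹ ∈ O at h3
    rwa [inv_div] at h3

/-- **AVOIDANCE (G2).** For finitely many curves, finitely many closed points and finitely many proper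
subspaces of the space of linear forms there is a linear form `w` which does not vanish on the
curves, not at the points and is in none of the subspaces. -/
theorem avoid [Infinite k] (hx : ∀ i, x i ≠ 0) {S : Set (ValuationSubring F)} (hS : S.Finite)
    (hSC : ∀ V ∈ S, V ∈ Curves (charts k x)) {T : Set (Subring F)} (hT : T.Finite)
    (hTP : ∀ O ∈ T, O ∈ Points (charts k x)) {U : Set (Submodule k F)} (hU : U.Finite)
    (hUL : ∀ u ∈ U, ¬ Submodule.span k (Set.range x) ≤ u) :
    ∃ w ∈ Submodule.span k (Set.range x), w ≠ 0 ∧ (∀ V ∈ S, ∀ j, x j / w ∈ V) ∧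
      (∀ O ∈ T, ∀ j, x j / w ∈ O) ∧ ∀ u ∈ U, w ∉ u := by
  classical
  choose! uV hV1 hV2 using fun V (hV : V ∈ S) => exists_bad_curve hx (hSC V hV)
  choose! uO hO1 hO2 using fun O (hO : O ∈ T) => exists_bad_point hx (hTP O hO)
  have hz : ¬ Submodule.span k (Set.range x) ≤ (⊥ : Submodule k F) := by
    intro h
    exact hx 0 ((Submodule.mem_bot k).1 (h (Submodule.subset_span ⟨0, rfl⟩)))
  obtain ⟨w, hwL, hw⟩ := exists_mem_notMem (Submodule.span k (Set.range x))
    (U := (((uV '' S) ∪ (uO '' T)) ∪ U) ∪ {⊥})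
    ((((hS.image _).union (hT.image _)).union hU).union (Set.finite_singleton _)) (by
      rintro u (((⟨V, hV, rfl⟩ | ⟨O, hO, rfl⟩) | hu) | hu)
      · exact hV1 V hV
      · exact hO1 O hO
      · exact hUL u hu
      · rw [Set.mem_singleton_iff.1 hu]
        exact hz)
  refine ⟨w, hwL, ?_, ?_, ?_, ?_⟩
  · intro h0
    exact hw ⊥ (Or.inr rfl) ((Submodule.mem_bot k).2 h0)
  · intro V hV
    exact (hV2 V hV w hwL (hw _ (Or.inl (Or.inl (Or.inl ⟨V, hV, rfl⟩))))).2
  · intro O hO
    exact (hO2 O hO w hwL (hw _ (Or.inl (Or.inl (Or.inr ⟨O, hO, rfl⟩))))).2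
  · intro u hu
    exact hw u (Or.inl (Or.inr hu))

/-- The simple form: one generator for finitely many curves and points. -/
theorem av_exists_gen [Infinite k] (hx : ∀ i, x i ≠ 0) {S : Set (ValuationSubring F)} (hS : S.Finite)
    (hSC : ∀ V ∈ S, V ∈ Curves (charts k x)) {T : Set (Subring F)} (hT : T.Finite)
    (hTP : ∀ O ∈ T, O ∈ Points (charts k x)) :
    ∃ w ∈ Submodule.span k (Set.range x), w ≠ 0 ∧ (∀ V ∈ S, ∀ j, x j / w ∈ V) ∧
      ∀ O ∈ T, ∀ j, x j / w ∈ O := by
  obtain ⟨w, h1, h2, h3, h4, _⟩ := avoid (k := k) hx hS hSC hT hTP (U := ∅) Set.finite_empty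
    (fun u hu => absurd hu (Set.notMem_empty u))
  exact ⟨w, h1, h2, h3, h4⟩

/-- The linear forms `v` for which `v` is not a generator, at a point or on a curve with a given
generator, are in a proper subspace: the set of the `v` with `v / w` in a proper `k`-subspace. -/
theorem not_le_of_quot {w : F} (hw : w ∈ Submodule.span k (Set.range x)) (hw0 : w ≠ 0)
    {u : Submodule k F} (hu : (1 : F) ∉ u) :
    ¬ Submodule.span k (Set.range x) ≤ u.comap (LinearMap.mulRight k w⁻¹) := by
  intro h
  have h1 := h hw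
  rw [Submodule.mem_comap, LinearMap.mulRight_apply, mul_inv_cancel₀ hw0] at h1
  exact hu h1

end Pool.Agent.Lib.MP_b197b4_ntK
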