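import Pool.Agent.Lib.MP_b197b4_ntK.Pts

/-!
# MP_b197b4_nt, project K1: every function on the closed points gives a form which kills the tame
symbols
-/

set_option autoImplicit false

namespace Pool.Agent.Lib.MP_b197b4_ntK

open IsLocalRing

variable {k : Type} {F : Type} [Field k] [Field F] [Algebra k F]

/-- The function `u` on the curve `V` is a unit at the point with local ring `O`. -/
def UnitAt (O : Subring F) (V : ValuationSubring F) (u : ResidueField V) : Prop :=
  ∃ a : O, IsUnit a ∧ res V (a : F) = u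

theorem unitAt_one (O : Subring F) (V : ValuationSubring F) : UnitAt O V 1 :=
  ⟨1, isUnit_one, by simp⟩

theorem UnitAt.mul {O : Subring F} {V : ValuationSubring F} (hV : V ∈ CurvesAt O)
    {u w : ResidueField V} (hu : UnitAt O V u) (hw : UnitAt O V w) : UnitAt O V (u * w) := by
  obtain ⟨a, ha, rfl⟩ := hu
  obtain ⟨b, hb, rfl⟩ := hw
  exact ⟨a * b, ha.mul hb, by push_cast; exact res_mul (hV.2.1 a a.2) (hV.2.1 b b.2)⟩

theorem UnitAt.inv {O : Subring F} {V : ValuationSubring F} (hV : V ∈ CurvesAt O)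
    {u : ResidueField V} (hu : UnitAt O V u) : UnitAt O V u⁻¹ := by
  obtain ⟨a, ha, rfl⟩ := hu
  obtain ⟨b, hb⟩ := ha.exists_right_inv
  have hb' : IsUnit b := IsUnit.of_mul_eq_one a (by rw [mul_comm]; exact hb)
  refine ⟨b, hb', ?_⟩
  have h1 : (b : F) = (a : F)⁻¹ := by
    have h2 : (a : F) * b = 1 := by
      have := congrArg (Subtype.val : O → F) hb
      push_cast at this
      exact this
    exact eq_inv_of_mul_eq_one_right h2
  rw [h1, res_inv (CurvesAt.isUnit hV ha)]

theorem UnitAt.div {O : Subring F} {V : ValuationSubring F} (hV : V ∈ CurvesAt O)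
    {u w : ResidueField V} (hu : UnitAt O V u) (hw : UnitAt O V w) : UnitAt O V (u / w) := by
  rw [div_eq_mul_inv]
  exact hu.mul hV (hw.inv hV)

theorem lenAt_unitAt {O : Subring F} (hO : Loc2 O) {V : ValuationSubring F} (hV : V ∈ CurvesAt O)
    {u : ResidueField V} (hu : UnitAt O V u) : lenAt O V u = 0 := by
  obtain ⟨a, ha, rfl⟩ := hu
  rw [lenAt_res hO hV (CurvesAt.isUnit hV ha), lenO_isUnit hO hV ha]

section Finite

variable {A : Subalgebra k F} {V : ValuationSubring F}

/-- The maximal ideals which contain the ideal of the curve and another element are among the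
finitely many minimal primes. -/
theorem mem_minimalPrimes (hA : Chart A) (hV : IsCurve A V) {P : Ideal A} (hP : PrimeOf A V P)
    {a : A} (ha : a ∉ P) {m : Ideal A} (hm : m.IsMaximal) (hPm : P ≤ m) (ham : a ∈ m) :
    m ∈ (P ⊔ Ideal.span {a}).minimalPrimes := by
  have := hm.isPrime
  have hPp := hP.isPrime hV.2.1
  refine ⟨⟨hm.isPrime, sup_le hPm ((Ideal.span_singleton_le_iff_mem _).2 ham)⟩, ?_⟩
  rintro J ⟨hJ, hPJ⟩ hJm
  by_contra hne
  have hlt : J < m := lt_of_le_not_ge hJm hne
  have hPJ' : P < J := by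
    refine lt_of_le_not_ge (le_sup_left.trans hPJ) fun h => ha (h ?_)
    exact hPJ (Ideal.mem_sup_right (Ideal.mem_span_singleton_self a))
  have h1 := Ideal.height_add_one_le_of_lt_of_isPrime hPJ'
  have h2 := Ideal.height_add_one_le_of_lt_of_isPrime hlt
  rw [hA.height m hm] at h2
  rw [hV.height hP] at h1
  have h3 : (1 : ℕ∞) + 1 + 1 ≤ 2 := (add_le_add_left h1 1).trans h2
  exact absurd h3 (by decide)

/-- A nonzero function on a curve is a unit at almost all points of a chart. -/
theorem finite_not_unit_chart (hA : Chart A) (hV : IsCurve A V) {u : ResidueField V}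
    (hu : u ≠ 0) :
    {O : Subring F | (∃ m : Ideal A, m.IsMaximal ∧ IsLoc A m O) ∧ (O : Set F) ⊆ V ∧
      ¬ UnitAt O V u}.Finite := by
  classical
  have := hA.regular
  have : IsNoetherianRing A := inferInstance
  obtain ⟨P, hPp, hP⟩ := exists_primeOf hV.2.1
  obtain ⟨a, s, hs, rfl⟩ := hV.res_frac u
  have hs' : s ∉ P := (hP.val_one hV.2.1 s).2 hs
  have ha1 : V.valuation (a : F) = 1 := by
    rw [← res_ne_zero_iff (hV.2.1 a a.2)]
    intro h
    apply hu
    rw [h, zero_div]
  have ha' : a ∉ P := (hP.val_one hV.2.1 a).2 ha1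
  have has : a * s ∉ P := fun h => (hPp.mem_or_mem h).elim ha' hs'
  have hfin := Ideal.finite_minimalPrimes_of_isNoetherianRing A (P ⊔ Ideal.span {a * s})
  -- the local ring is determined by the maximal ideal
  let φ : Ideal A → Subring F := fun m => if hm : m.IsPrime then locSub A m else ⊥
  refine (hfin.image φ).subset ?_
  rintro O ⟨⟨m, hm, hO⟩, hOV, hnu⟩
  have hmp := hm.isPrime
  refine ⟨m, ?_, ?_⟩
  · refine mem_minimalPrimes hA hV hP has hm ?_ ?_
    · intro b hb
      by_contra hbm
      have h1 : (b : F)⁻¹ ∈ O := by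
        rw [hO]
        exact ⟨1, b, hbm, by simp⟩
      have h2 := (ValuationSubring.valuation_le_one_iff V _).2 (hOV h1)
      have h3 := (hP b).1 hb
      have hb0 : (b : F) ≠ 0 := coe_ne_zero_of_notMem hbm
      have h4 : V.valuation (b : F) * V.valuation (b : F)⁻¹ = 1 := by
        rw [← map_mul, mul_inv_cancel₀ hb0, map_one]
      have h5 := mul_lt_one_of_lt_of_le h3 h2
      rw [h4] at h5
      exact lt_irrefl _ h5
    · by_contra hasm
      apply hnu
      have ham : a ∉ m := fun h => hasm (Ideal.mul_mem_right _ _ h)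
      have hsm : s ∉ m := fun h => hasm (Ideal.mul_mem_left _ _ h)
      have hVO : V ∈ CurvesAt O := (hO.mem_curvesAt hmp.ne_top V).2 ⟨hV, hOV⟩
      exact UnitAt.div hVO ⟨_, hO.isUnit ham hmp.ne_top, rfl⟩ ⟨_, hO.isUnit hsm hmp.ne_top, rfl⟩
  · have h1 : φ m = locSub A m := dif_pos hmp
    rw [h1]
    ext x
    exact (hO x).symm

end Finite

section Global

variable {M : Set (Subalgebra k F)}

/-- A nonzero function on a curve is a unit at almost all points. -/
theorem finite_not_unit (hM : M.Finite) (hch : ∀ A ∈ M, Chart A) (hsep : Sep M)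
    {V : ValuationSubring F} (hV : V ∈ Curves M) {u : ResidueField V} (hu : u ≠ 0) :
    {O : Subring F | O ∈ Points M ∧ (O : Set F) ⊆ V ∧ ¬ UnitAt O V u}.Finite := by
  classical
  refine (hM.biUnion (t := fun A => {O : Subring F | (∃ m : Ideal A, m.IsMaximal ∧ IsLoc A m O) ∧
    (O : Set F) ⊆ V ∧ ¬ UnitAt O V u}) ?_).subset ?_
  · intro A hA
    by_cases hAV : ∀ a ∈ A, a ∈ V
    · exact finite_not_unit_chart (hch A hA) (isCurve_of_sep hsep hV hA hAV) hu
    · apply Set.Finite.subset Set.finite_empty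
      rintro O ⟨⟨m, hm, hO⟩, hOV, _⟩
      exact hAV fun a ha => hOV (hO.coe_mem hm.isPrime.ne_top ⟨a, ha⟩)
  · rintro O ⟨⟨A, hA, m, hm, hO⟩, hOV, hnu⟩
    exact Set.mem_biUnion hA ⟨⟨m, hm, hO⟩, hOV, hnu⟩

theorem finite_len (hM : M.Finite) (hch : ∀ A ∈ M, Chart A) (hsep : Sep M)
    {V : ValuationSubring F} (hV : V ∈ Curves M) {u : ResidueField V} (hu : u ≠ 0) :
    {O : Subring F | O ∈ Points M ∧ (O : Set F) ⊆ V ∧ len (curveLoc O V) u ≠ 0}.Finite := by
  refine (finite_not_unit hM hch hsep hV hu).subset ?_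
  rintro O ⟨hO, hOV, h⟩
  refine ⟨hO, hOV, fun h1 => h ?_⟩
  have hVO := (curves_point hsep hO V).1 ⟨hV, hOV⟩
  rw [len_curveLoc (loc2_of_points hch hO) hVO hu, lenAt_unitAt (loc2_of_points hch hO) hVO h1]

/-- The form given by a function on the closed points. -/
noncomputable def ptForm (M : Set (Subalgebra k F)) (h : Subring F → ℚ) (V : ValuationSubring F)
    (u : ResidueField V) : ℚ :=
  ∑ᶠ (O) (_ : O ∈ Points M ∧ (O : Set F) ⊆ V), h O * len (curveLoc O V) u

/-- Tame symbols are cycles. -/
theorem cyc_tame (hM : M.Finite) (hch : ∀ A ∈ M, Chart A) (hsep : Sep M) {f g : F} (hf : f ≠ 0)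
    (hg : g ≠ 0) : Cyc M (fun V => tame V f g) := by
  classical
  refine ⟨fun V hV => tame_ne_zero (disc_of_curves hV) hf hg, ?_, ?_⟩
  · refine ((curves_finite' hM hch f hf).union (curves_finite' hM hch g hg)).subset ?_
    rintro V ⟨hV, h⟩
    by_cases h1 : ord V f = 0
    · right
      exact ⟨hV, fun h2 => h (tame_eq_one h1 h2)⟩
    · left
      exact ⟨hV, h1⟩
  · intro O hO
    rw [← gersten (loc2_of_points hch hO) hf hg]
    apply finsum_congr
    intro V
    by_cases hV : V ∈ CurvesAt O
    · have h1 := (curves_point hsep hO V).2 hV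
      rw [finsum_eq_if, finsum_eq_if, if_pos h1, if_pos hV,
        len_curveLoc (loc2_of_points hch hO) hV (tame_ne_zero hV.1 hf hg)]
    · have h1 : ¬ (V ∈ Curves M ∧ (O : Set F) ⊆ V) := fun h => hV ((curves_point hsep hO V).1 h)
      rw [finsum_eq_if, finsum_eq_if, if_neg h1, if_neg hV]

theorem ptForm_one (M : Set (Subalgebra k F)) (h : Subring F → ℚ) (V : ValuationSubring F) :
    ptForm M h V 1 = 0 := by
  unfold ptForm
  apply finsum_mem_eq_zero_of_forall_eq_zero (s := {O | O ∈ Points M ∧ (O : Set F) ⊆ V})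
  intro O _
  rw [len_one]
  simp

theorem ptForm_mul (hM : M.Finite) (hch : ∀ A ∈ M, Chart A) (hsep : Sep M) (h : Subring F → ℚ)
    {V : ValuationSubring F} (hV : V ∈ Curves M) {u w : ResidueField V} (hu : u ≠ 0)
    (hw : w ≠ 0) : ptForm M h V (u * w) = ptForm M h V u + ptForm M h V w := by
  unfold ptForm
  have hfin : ∀ u : ResidueField V, u ≠ 0 →
      ({O | O ∈ Points M ∧ (O : Set F) ⊆ V} ∩
        Function.support fun O => h O * (len (curveLoc O V) u : ℚ)).Finite := by
    intro u hu
    refine (finite_len hM hch hsep hV hu).subset ?_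
    rintro O ⟨⟨h1, h2⟩, h3⟩
    refine ⟨h1, h2, fun h4 => h3 ?_⟩
    change h O * (len (curveLoc O V) u : ℚ) = 0
    rw [h4]
    simp
  have := finsum_mem_add_distrib' (hfin u hu) (hfin w hw)
  refine Eq.trans ?_ this
  apply finsum_mem_congr rfl
  rintro O ⟨hO, hOV⟩
  have hVO := (curves_point hsep hO V).1 ⟨hV, hOV⟩
  have hl := loc2_of_points hch hO
  rw [len_curveLoc hl hVO hu, len_curveLoc hl hVO hw, len_curveLoc hl hVO (mul_ne_zero hu hw),
    lenAt_mul hl hVO hu hw]
  push_cast
  ring

/-- The forms given by the closed points vanish on cycles. -/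
theorem sum_ptForm (hM : M.Finite) (hch : ∀ A ∈ M, Chart A) (hsep : Sep M) (h : Subring F → ℚ)
    {a : ∀ V : ValuationSubring F, ResidueField V} (ha : Cyc M a) :
    ∑ᶠ (V) (_ : V ∈ Curves M), ptForm M h V (a V) = 0 := by
  classical
  let S : Finset (ValuationSubring F) := ha.finite.toFinset
  have hS : ∀ V, V ∈ S ↔ V ∈ Curves M ∧ a V ≠ 1 := fun V => by
    simp only [S, Set.Finite.mem_toFinset]
    rfl
  let T : Finset (Subring F) := S.attach.biUnion fun V =>
    (finite_len hM hch hsep ((hS _).1 V.2).1 (ha.ne _ ((hS _).1 V.2).1)).toFinset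
  have hT : ∀ V ∈ S, ∀ O, O ∈ Points M → (O : Set F) ⊆ V → len (curveLoc O V) (a V) ≠ 0 →
      O ∈ T := by
    intro V hV O hO hOV hne
    refine Finset.mem_biUnion.2 ⟨⟨V, hV⟩, Finset.mem_attach _ _, ?_⟩
    rw [Set.Finite.mem_toFinset]
    exact ⟨hO, hOV, hne⟩
  have hTP : ∀ O ∈ T, O ∈ Points M := by
    intro O hO
    obtain ⟨V, _, h2⟩ := Finset.mem_biUnion.1 hO
    rw [Set.Finite.mem_toFinset] at h2
    exact h2.1
  have e1 : ∑ᶠ (V) (_ : V ∈ Curves M), ptForm M h V (a V) = ∑ V ∈ S, ptForm M h V (a V) := by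
    apply finsum_mem_eq_sum_of_inter_support_eq
    ext V
    simp only [Set.mem_inter_iff, Function.mem_support, Finset.mem_coe, hS]
    constructor
    · rintro ⟨hV, hne⟩
      refine ⟨⟨hV, ?_⟩, hne⟩
      intro h1
      rw [h1] at hne
      exact hne (ptForm_one M h V)
    · rintro ⟨⟨hV, _⟩, hne⟩
      exact ⟨hV, hne⟩
  have e2 : ∀ V ∈ S, ptForm M h V (a V) =
      ∑ O ∈ T, if (O : Set F) ⊆ V then h O * len (curveLoc O V) (a V) else 0 := by
    intro V hV
    unfold ptForm
    rw [← Finset.sum_filter]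
    apply finsum_cond_eq_sum_of_cond_iff
    intro O hne
    rw [Finset.mem_filter]
    constructor
    · rintro ⟨hO, hOV⟩
      refine ⟨hT V hV O hO hOV ?_, hOV⟩
      intro h0
      rw [h0] at hne
      exact hne (by push_cast; ring)
    · rintro ⟨hO, hOV⟩
      exact ⟨hTP O hO, hOV⟩
  rw [e1, Finset.sum_congr rfl e2, Finset.sum_comm]
  apply Finset.sum_eq_zero
  intro O hO
  have e3 : ∑ᶠ (V) (_ : V ∈ Curves M ∧ (O : Set F) ⊆ V), len (curveLoc O V) (a V) =
      ∑ V ∈ S, if (O : Set F) ⊆ V then len (curveLoc O V) (a V) else 0 := by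
    rw [← Finset.sum_filter]
    apply finsum_cond_eq_sum_of_cond_iff
    intro V hne
    rw [Finset.mem_filter, hS]
    constructor
    · rintro ⟨hV, hOV⟩
      refine ⟨⟨hV, ?_⟩, hOV⟩
      intro h1
      rw [h1] at hne
      exact hne (len_one _)
    · rintro ⟨⟨hV, _⟩, hOV⟩
      exact ⟨hV, hOV⟩
  have e4 := ha.div O (hTP O hO)
  rw [e3] at e4
  have e5 : ∀ V ∈ S, (if (O : Set F) ⊆ V then h O * (len (curveLoc O V) (a V) : ℚ) else 0) =
      h O * (((if (O : Set F) ⊆ V then len (curveLoc O V) (a V) else 0) : ℤ) : ℚ) := by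
    intro V _
    split_ifs
    · rfl
    · push_cast
      ring
  rw [Finset.sum_congr rfl e5, ← Finset.mul_sum, ← Int.cast_sum, e4, Int.cast_zero, mul_zero]

/-- **Every function on the closed points gives a family of forms which kills all tame symbols.** -/
theorem forms_of_points (hM : M.Finite) (hch : ∀ A ∈ M, Chart A) (hsep : Sep M)
    (h : Subring F → ℚ) : Forms k (Curves M) (ptForm M h) where
  disc _ hV := disc_of_curves hV
  base _ hV := over_of_curves hV
  finite f hf := curves_finite' hM hch f hf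
  mul _ hV _ _ hu hw := ptForm_mul hM hch hsep h hV hu hw
  recip _ _ hf hg := sum_ptForm hM hch hsep h (cyc_tame hM hch hsep hf hg)

/-- Forms can be subtracted. -/
theorem Forms.sub {D : Set (ValuationSubring F)}
    {l l' : ∀ V : ValuationSubring F, ResidueField V → ℚ} (hl : Forms k D l)
    (hl' : Forms k D l') : Forms k D (fun V u => l V u - l' V u) where
  disc := hl.disc
  base := hl.base
  finite := hl.finite
  mul V hV a b ha hb := by
    rw [hl.mul V hV a b ha hb, hl'.mul V hV a b ha hb]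
    ring
  recip f g hf hg := by
    have hsupp : ∀ l : ∀ V : ValuationSubring F, ResidueField V → ℚ, Forms k D l →
        (D ∩ Function.support fun V => l V (tame V f g)).Finite := by
      intro l hl
      refine ((hl.finite f hf).union (hl.finite g hg)).subset ?_
      rintro V ⟨hV, h⟩
      by_cases h1 : ord V f = 0
      · right
        refine ⟨hV, fun h2 => h ?_⟩
        change l V (tame V f g) = 0
        have h3 := hl.mul V hV 1 1 one_ne_zero one_ne_zero
        rw [mul_one] at h3
        rw [tame_eq_one h1 h2]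
        linarith
      · left
        exact ⟨hV, h1⟩
    have h1 := hl.recip f g hf hg
    have h2 := hl'.recip f g hf hg
    have h3 : ∑ᶠ (V) (_ : V ∈ D), l V (tame V f g) =
        ∑ᶠ (V) (_ : V ∈ D), (l V (tame V f g) - l' V (tame V f g)) +
        ∑ᶠ (V) (_ : V ∈ D), l' V (tame V f g) := by
      rw [← finsum_mem_add_distrib']
      · apply finsum_mem_congr rfl
        intro V _
        ring
      · refine ((hsupp l hl).union (hsupp l' hl')).subset ?_
        rintro V ⟨hV, h⟩
        by_cases h4 : l V (tame V f g) = 0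
        · right
          refine ⟨hV, fun h5 => h ?_⟩
          change l V (tame V f g) - l' V (tame V f g) = 0
          have h6 : l' V (tame V f g) = 0 := h5
          rw [h4, h6, sub_zero]
        · left
          exact ⟨hV, h4⟩
      · exact hsupp l' hl'
    rw [h1, h2, add_zero] at h3
    exact h3.symm

/-- To prove `Global` for `l` it is enough to prove it after the subtraction of the form of a
function on the closed points. -/
theorem global_of_sub (hM : M.Finite) (hch : ∀ A ∈ M, Chart A) (hsep : Sep M)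
    (hG : ∀ l : ∀ V : ValuationSubring F, ResidueField V → ℚ, Forms k (Curves M) l →
      ∃ h : Subring F → ℚ, ∀ V ∈ Curves M, ∀ u : ResidueField V, u ≠ 0 →
        l V u = ptForm M h V u) : Global M := by
  intro l hl
  obtain ⟨h, hh⟩ := hG l hl
  exact ⟨h, fun V hV u hu => ⟨finite_len hM hch hsep hV hu, hh V hV u hu⟩⟩

end Global

end Pool.Agent.Lib.MP_b197b4_ntK
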