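import Mathlib
import Pool.Agent.Lib.MP_b197b4_ntK.Fin
import Pool.Agent.Lib.MP_b197b4_ntK.CurveN
import Pool.Agent.Lib.MP_b197b4_ntK.FormsPts

/-!
# MP_b197b4_nt, project K1: finiteness (G1) on normal surfaces
-/

set_option autoImplicit false
set_option linter.style.haveILetI false

namespace Pool.Agent.Lib.MP_b197b4_ntK

open IsLocalRing

variable {k F : Type} [Field k] [Field F] [Algebra k F] {A : Subalgebra k F}
  {V V' : ValuationSubring F} {O O' : Subring F} {m : Ideal A}

/-- An ideal which is contained in no prime ideal of height at most one, is contained in finitely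
many maximal ideals. -/
theorem ChartN.max_finite (hA : ChartN A) (I : Ideal A)
    (hI : ∀ Q : Ideal A, Q.IsPrime → I ≤ Q → 1 < Q.height) :
    {m : Ideal A | m.IsMaximal ∧ I ≤ m}.Finite := by
  haveI := hA.noeth
  refine (Ideal.finite_minimalPrimes_of_isNoetherianRing A I).subset ?_
  rintro m ⟨hm, hIm⟩
  haveI := hm.isPrime
  obtain ⟨Q, hQ, hQm⟩ := Ideal.exists_minimalPrimes_le hIm
  have hQp : Q.IsPrime := hQ.1.1
  have h1 := hI Q hQp hQ.1.2
  by_cases hne : Q = m
  · rw [← hne]
    exact hQ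
  · exfalso
    have h2 : Q.height < m.height :=
      Ideal.height_strict_mono_of_isPrime (lt_of_le_of_ne hQm hne)
    rw [hA.height m hm] at h2
    have h3 := Order.add_one_le_of_lt h1
    rw [one_add_one_eq_two] at h3
    exact absurd h2 (not_lt.2 h3)

theorem ChartN.height_pos (hA : ChartN A) {Q : Ideal A} (_hQ : Q.IsPrime) (hne : Q ≠ ⊥) :
    0 < Q.height := by
  haveI := hA.noeth
  have h1 : (⊥ : Ideal A) < Q := bot_lt_iff_ne_bot.2 hne
  haveI : (⊥ : Ideal A).IsPrime := Ideal.isPrime_bot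
  have h2 := Ideal.height_strict_mono_of_isPrime h1
  rwa [Ideal.height_bot] at h2

/-- Two elements of a chart without a common curve vanish together at finitely many points. -/
theorem ChartN.common_finite (hA : ChartN A) {f g : A} (hne : f ≠ 0 ∨ g ≠ 0)
    (h : ∀ V, IsCurve A V → V.valuation (f : F) = 1 ∨ V.valuation (g : F) = 1) :
    {m : Ideal A | m.IsMaximal ∧ f ∈ m ∧ g ∈ m}.Finite := by
  refine (hA.max_finite (Ideal.span {f, g}) ?_).subset ?_
  · intro Q hQ hle
    have hf : f ∈ Q := hle (Ideal.subset_span (Set.mem_insert _ _))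
    have hg : g ∈ Q := hle (Ideal.subset_span (Set.mem_insert_of_mem _ rfl))
    have hQ0 : Q ≠ ⊥ := by
      rintro rfl
      rcases hne with h1 | h1
      · exact h1 hf
      · exact h1 hg
    have h1 := hA.height_pos hQ hQ0
    have h2 : Q.height ≠ 1 := by
      intro h2
      haveI := hQ
      obtain ⟨V, hV, hP⟩ := hA.exists_curve Q h2
      rcases h V hV with h3 | h3
      · have := (hP f).1 hf
        rw [h3] at this
        exact lt_irrefl _ this
      · have := (hP g).1 hg
        rw [h3] at this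
        exact lt_irrefl _ this
    exact lt_of_le_of_ne (Order.one_le_iff_pos.2 h1) h2.symm
  · rintro m ⟨hm, hf, hg⟩
    refine ⟨hm, ?_⟩
    rw [Ideal.span_le]
    rintro z (rfl | rfl)
    · exact hf
    · exact hg

/-- A function of the chart which is not zero on a curve vanishes at finitely many of its points. -/
theorem ChartN.curve_finite (hA : ChartN A) (hV : IsCurve A V) {P : Ideal A}
    (hP : PrimeOf A V P) {c : A} (hc : c ∉ P) :
    {m : Ideal A | m.IsMaximal ∧ P ≤ m ∧ c ∈ m}.Finite := by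
  haveI := hA.noeth
  have hPp := hP.isPrime hV.2.1
  refine (hA.max_finite (P ⊔ Ideal.span {c}) ?_).subset ?_
  · intro Q hQ hle
    have h1 : P < Q := by
      refine lt_of_le_of_ne (le_sup_left.trans hle) ?_
      rintro rfl
      exact hc (hle (Ideal.mem_sup_right (Ideal.mem_span_singleton_self c)))
    have h2 := Ideal.height_strict_mono_of_isPrime h1
    rwa [hV.height hP] at h2
  · rintro m ⟨hm, hPm, hcm⟩
    exact ⟨hm, sup_le hPm ((Ideal.span_singleton_le_iff_mem _).2 hcm)⟩

/-- On a chart a function on the curve `V` is a unit at almost all points. -/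
theorem ChartN.unitAt_finite_chart (hA : ChartN A) (hV : IsCurve A V) {u : ResidueField V}
    (hu : u ≠ 0) :
    {O | (∃ m : Ideal A, m.IsMaximal ∧ IsLoc A m O) ∧ (O : Set F) ⊆ V ∧
      ¬ UnitAt O V u}.Finite := by
  obtain ⟨P, hPp, hP⟩ := exists_primeOf hV.2.1
  obtain ⟨a, s, hs, hus⟩ := hV.res_frac u
  have ha : a ∉ P := by
    rw [hP a]
    intro h
    have : res V (a : F) = 0 := (res_eq_zero_iff (hV.2.1 a a.2)).2 h
    rw [this, zero_div] at hus
    exact hu hus
  have hsP : s ∉ P := (hP.val_one hV.2.1 s).2 hs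
  have hc : a * s ∉ P := fun h => (hPp.mem_or_mem h).elim ha hsP
  refine (pts_finite (hA.curve_finite hV hP hc)).subset ?_
  rintro O ⟨⟨m, hm, hO⟩, hOV, hnot⟩
  refine ⟨m, ⟨hm, le_of_subset hP hO hOV, ?_⟩, hO⟩
  by_contra hcm
  have ham : a ∉ m := fun h => hcm (m.mul_mem_right s h)
  have hsm : s ∉ m := fun h => hcm (m.mul_mem_left a h)
  apply hnot
  have hmem : ∀ b t : A, t ∉ m → (b : F) / t ∈ O := by
    intro b t ht
    rw [div_eq_mul_inv]
    exact mul_mem (hO.subset hm.ne_top b.2) (hO.inv_mem ht)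
  have ha0 : (a : F) ≠ 0 := by
    intro h
    apply ham
    have : a = 0 := Subtype.ext h
    rw [this]
    exact m.zero_mem
  have hs0 : (s : F) ≠ 0 := by
    intro h
    apply hsm
    have : s = 0 := Subtype.ext h
    rw [this]
    exact m.zero_mem
  refine ⟨⟨(a : F) / s, hmem a s hsm⟩, ?_, ?_⟩
  · refine IsUnit.of_mul_eq_one ⟨(s : F) / a, hmem s a ham⟩ (Subtype.ext ?_)
    change (a : F) / s * ((s : F) / a) = 1
    field_simp
  · rw [hus]
    exact res_div (hV.2.1 a a.2) hs

/-- A unit at `O` is a unit of the local ring of the curve. -/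
theorem UnitAt.mem_curveLoc (hOV : (O : Set F) ⊆ V) {u : ResidueField V} (h : UnitAt O V u) :
    u ∈ curveLoc O V ∧ u⁻¹ ∈ curveLoc O V := by
  obtain ⟨a, ha, rfl⟩ := h
  obtain ⟨b, hb⟩ := ha.exists_right_inv
  have key : ∀ c : O, res V (c : F) ∈ curveLoc O V := fun c =>
    ⟨⟨(c : F), hOV c.2⟩, c.2, by rw [res_of_mem (hOV c.2)]⟩
  refine ⟨key a, ?_⟩
  have h1 : res V (a : F) * res V (b : F) = 1 := by
    rw [← res_mul (hOV a.2) (hOV b.2)]
    have h2 : (a : F) * b = 1 := by
      have := congrArg (Subtype.val : O → F) hb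
      push_cast at this
      exact this
    rw [h2]
    simp
  rw [← eq_inv_of_mul_eq_one_right h1]
  exact key b

section Proj

variable {n : ℕ} {x : Fin (n + 1) → F}

/-- Only finitely many points of the surface have a property, if this is true on every chart. -/
theorem finite_of_charts {p : Subring F → Prop}
    (h : ∀ i, {O : Subring F | (∃ m : Ideal (Algebra.adjoin k (Set.range fun l => x l / x i)),
      m.IsMaximal ∧ IsLoc (Algebra.adjoin k (Set.range fun l => x l / x i)) m O) ∧ p O}.Finite) :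
    {O : Subring F | O ∈ Points (charts k x) ∧ p O}.Finite := by
  refine (Set.finite_iUnion h).subset ?_
  rintro O ⟨⟨_, ⟨i, rfl⟩, m, hm, hO⟩, h2⟩
  exact Set.mem_iUnion.2 ⟨i, ⟨m, hm, hO⟩, h2⟩

/-- **A function on a curve is a unit at almost all points of the curve.** -/
theorem SurfN.finite_not_unit (hS : SurfN k x) {V : ValuationSubring F}
    (hV : V ∈ Curves (charts k x)) {u : ResidueField V} (hu : u ≠ 0) :
    {O : Subring F | O ∈ Points (charts k x) ∧ (O : Set F) ⊆ V ∧ ¬ UnitAt O V u}.Finite := by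
  refine finite_of_charts fun i => ?_
  by_cases hi : ∀ a ∈ Algebra.adjoin k (Set.range fun l => x l / x i), a ∈ V
  · exact (hS.chart i).unitAt_finite_chart (glue hS.ne hV hi) hu
  · refine Set.finite_empty.subset ?_
    rintro O ⟨⟨m, hm, hO⟩, h2, -⟩
    exact (hi fun a ha => h2 (hO.subset hm.ne_top ha)).elim

theorem SurfN.unit_finite (hx : SurfN k x) (hV : V ∈ Curves (charts k x)) {u : ResidueField V}
    (hu : u ≠ 0) : {O | O ∈ Points (charts k x) ∧ (O : Set F) ⊆ V ∧
      ¬ (u ∈ curveLoc O V ∧ u⁻¹ ∈ curveLoc O V)}.Finite := by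
  refine (hx.finite_not_unit hV hu).subset ?_
  rintro O ⟨h1, h2, h3⟩
  exact ⟨h1, h2, fun h => h3 (h.mem_curveLoc h2)⟩

theorem SurfN.len_finite (hx : SurfN k x) (hV : V ∈ Curves (charts k x)) {u : ResidueField V}
    (hu : u ≠ 0) : {O | O ∈ Points (charts k x) ∧ (O : Set F) ⊆ V ∧
      len (curveLoc O V) u ≠ 0}.Finite := by
  refine (hx.unit_finite hV hu).subset ?_
  rintro O ⟨h1, h2, h3⟩
  exact ⟨h1, h2, fun h => h3 (len_unit _ h.1 h.2)⟩

/-- **Two curves meet in finitely many points.** -/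
theorem SurfN.finite_common (hS : SurfN k x) {V V' : ValuationSubring F}
    (hV : V ∈ Curves (charts k x)) (hV' : V' ∈ Curves (charts k x)) (hne : V ≠ V') :
    {O : Subring F | O ∈ Points (charts k x) ∧ (O : Set F) ⊆ V ∧ (O : Set F) ⊆ V'}.Finite := by
  refine finite_of_charts fun i => ?_
  by_cases hi : (∀ a ∈ Algebra.adjoin k (Set.range fun l => x l / x i), a ∈ V) ∧
      ∀ a ∈ Algebra.adjoin k (Set.range fun l => x l / x i), a ∈ V'
  · have hA := hS.chart i
    haveI := hA.noeth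
    have h1 := glue hS.ne hV hi.1
    have h2 := glue hS.ne hV' hi.2
    obtain ⟨P, hPp, hP⟩ := exists_primeOf h1.2.1
    obtain ⟨P', hPp', hP'⟩ := exists_primeOf h2.2.1
    have h3 : ¬ P' ≤ P := by
      intro hle
      by_cases he : P' = P
      · rw [he] at hP'
        exact hne (curve_unique h1 h2 hP hP')
      · have h4 := Ideal.height_strict_mono_of_isPrime (lt_of_le_of_ne hle he)
        rw [h1.height hP, h2.height hP'] at h4
        exact lt_irrefl _ h4
    obtain ⟨c, hc', hc⟩ := Set.not_subset.1 h3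
    refine (pts_finite (hA.curve_finite h1 hP hc)).subset ?_
    rintro O ⟨⟨m, hm, hO⟩, hOV, hOV'⟩
    exact ⟨m, ⟨hm, le_of_subset hP hO hOV, le_of_subset hP' hO hOV' hc'⟩, hO⟩
  · refine Set.finite_empty.subset ?_
    rintro O ⟨⟨m, hm, hO⟩, h2, h3⟩
    exact (hi ⟨fun a ha => h2 (hO.subset hm.ne_top ha),
      fun a ha => h3 (hO.subset hm.ne_top ha)⟩).elim

/-- **Coprime forms have finitely many common zeros.** -/
theorem SurfN.zero_finite (hx : SurfN k x) {f g : F} {a b : ℕ} (hf : f ∈ hom k x a)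
    (hg : g ∈ hom k x b) (hc : Copr x (Curves (charts k x)) f a g b) :
    {O | O ∈ Points (charts k x) ∧ ZeroAt x O a f ∧ ZeroAt x O b g}.Finite := by
  obtain ⟨hf0, hg0, hc⟩ := hc
  have h1 : {O | O ∈ Points (charts k x) ∧ ZeroAt x O a f ∧ ZeroAt x O b g} ⊆
      ⋃ i : Fin (n + 1), {O | ∃ m ∈ {m : Ideal (Algebra.adjoin k (Set.range fun l => x l / x i)) |
        m.IsMaximal ∧ (⟨f / x i ^ a, hom_mem_chart hx.ne i hf⟩ :
          Algebra.adjoin k (Set.range fun l => x l / x i)) ∈ m ∧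
        (⟨g / x i ^ b, hom_mem_chart hx.ne i hg⟩ :
          Algebra.adjoin k (Set.range fun l => x l / x i)) ∈ m}, IsLoc _ m O} := by
    rintro O ⟨⟨_, ⟨i, rfl⟩, m, hm, hO⟩, h2, h3⟩
    exact Set.mem_iUnion.2 ⟨i, m, ⟨hm, mem_of_zeroAt hx.ne hm hO hf h2,
      mem_of_zeroAt hx.ne hm hO hg h3⟩, hO⟩
  refine (Set.finite_iUnion fun i => pts_finite ((hx.chart i).common_finite ?_ ?_)).subset h1
  · left
    intro h
    have h2 : f / x i ^ a = 0 := congrArg Subtype.val h
    exact div_ne_zero hf0 (pow_ne_zero _ (hx.ne i)) h2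
  · intro V hV
    have hi : ∀ j, x j / x i ∈ V := fun j => hV.2.1 _ (Algebra.subset_adjoin ⟨j, rfl⟩)
    obtain ⟨-, -, h2⟩ := hc V ⟨_, ⟨i, rfl⟩, hV⟩
    rcases h2 with h2 | h2
    · left
      rw [← ord_chart hx.ne hV.1 hi a hf0] at h2
      exact (ord_eq_zero_iff hV.1 (div_ne_zero hf0 (pow_ne_zero _ (hx.ne i)))).1 h2
    · right
      rw [← ord_chart hx.ne hV.1 hi b hg0] at h2
      exact (ord_eq_zero_iff hV.1 (div_ne_zero hg0 (pow_ne_zero _ (hx.ne i)))).1 h2

/-- **A form which does not vanish on a curve has finitely many zeros on it.** -/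
theorem SurfN.zero_curve_finite (hx : SurfN k x) (hV : V ∈ Curves (charts k x)) {f : F} {d : ℕ}
    (hf : f ∈ hom k x d) (hf0 : f ≠ 0) (h : vh x V d f = 0) :
    {O | O ∈ Points (charts k x) ∧ (O : Set F) ⊆ V ∧ ZeroAt x O d f}.Finite := by
  refine finite_of_charts fun i => ?_
  by_cases hi : ∀ a ∈ Algebra.adjoin k (Set.range fun l => x l / x i), a ∈ V
  · have hV' := glue hx.ne hV hi
    obtain ⟨P, -, hP⟩ := exists_primeOf hV'.2.1
    have hc : (⟨f / x i ^ d, hom_mem_chart hx.ne i hf⟩ :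
        Algebra.adjoin k (Set.range fun l => x l / x i)) ∉ P := by
      rw [hP.val_one hV'.2.1]
      rw [← ord_chart hx.ne hV'.1 (fun j => hi _ (Algebra.subset_adjoin ⟨j, rfl⟩)) d hf0] at h
      exact (ord_eq_zero_iff hV'.1 (div_ne_zero hf0 (pow_ne_zero _ (hx.ne i)))).1 h
    refine (pts_finite ((hx.chart i).curve_finite hV' hP hc)).subset ?_
    rintro O ⟨⟨m, hm, hO⟩, h2, h3⟩
    exact ⟨m, ⟨hm, le_of_subset hP hO h2, mem_of_zeroAt hx.ne hm hO hf h3⟩, hO⟩
  · refine Set.finite_empty.subset ?_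
    rintro O ⟨⟨m, hm, hO⟩, h2, -⟩
    exact (hi fun a ha => h2 (hO.subset hm.ne_top ha)).elim

end Proj

end Pool.Agent.Lib.MP_b197b4_ntK
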