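import Pool.Agent.Lib.MP_b197b4_ntK.Pts

/-!
# MP_b197b4_nt, project K1: the residue field of a closed point
-/

set_option autoImplicit false

namespace Pool.Agent.Lib.MP_b197b4_ntK

open IsLocalRing

variable {k : Type} {F : Type} [Field k] [Field F] [Algebra k F]

section Loc

variable {A : Subalgebra k F} {m : Ideal A} {O : Subring F}

theorem IsLoc.isUnit_iff (hO : IsLoc A m O) [hm : m.IsPrime] (a : A) :
    IsUnit (⟨(a : F), hO.coe_mem hm.ne_top a⟩ : O) ↔ a ∉ m := by
  constructor
  · intro h ha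
    obtain ⟨b, hb⟩ := h.exists_right_inv
    obtain ⟨c, s, hs, hcs⟩ := (hO b).1 b.2
    have hs0 : (s : F) ≠ 0 := coe_ne_zero_of_notMem hs
    have h1 : (a : F) * (b : F) = 1 := by
      have := congrArg (Subtype.val : O → F) hb
      push_cast at this
      exact this
    have h2 : a * c = s := by
      apply Subtype.ext
      push_cast
      rw [hcs] at h1
      field_simp at h1
      exact h1
    exact hs (h2 ▸ Ideal.mul_mem_right _ _ ha)
  · intro ha
    exact hO.isUnit ha hm.ne_top

theorem IsLoc.const_mem (hO : IsLoc A m O) (hm : m ≠ ⊤) (c : k) : algebraMap k F c ∈ O :=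
  hO.coe_mem hm ⟨algebraMap k F c, A.algebraMap_mem c⟩

/-- Nullstellensatz. -/
theorem chart_const [IsAlgClosed k] (hA : Chart A) (hm : m.IsMaximal) (a : A) :
    ∃ c : k, a - algebraMap k A c ∈ m := by
  have : Algebra.FiniteType k A := A.fg_iff_finiteType.1 hA.fg
  let := Ideal.Quotient.field m
  have h1 : Algebra.FiniteType k (A ⧸ m) := inferInstance
  have h2 : Module.Finite k (A ⧸ m) := finite_of_finite_type_of_isJacobsonRing k (A ⧸ m)
  have h3 : Algebra.IsIntegral k (A ⧸ m) := Algebra.IsIntegral.of_finite k (A ⧸ m)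
  obtain ⟨c, hc⟩ := (IsAlgClosed.algebraMap_bijective_of_isIntegral (k := k) (K := A ⧸ m)).2
    (Ideal.Quotient.mk m a)
  refine ⟨c, ?_⟩
  rw [← Ideal.Quotient.eq_zero_iff_mem, map_sub, sub_eq_zero, ← hc]
  rfl

theorem IsLoc.const [IsAlgClosed k] (hO : IsLoc A m O) (hA : Chart A) (hm : m.IsMaximal)
    [IsLocalRing O] (a : O) :
    ∃ c : k, a - ⟨algebraMap k F c, hO.const_mem hm.isPrime.ne_top c⟩ ∈ maximalIdeal O := by
  have := hm.isPrime
  obtain ⟨b, s, hs, hbs⟩ := (hO a).1 a.2
  obtain ⟨c, hc⟩ := chart_const hA hm b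
  obtain ⟨d, hd⟩ := chart_const hA hm s
  have hs0 : (s : F) ≠ 0 := coe_ne_zero_of_notMem hs
  have hd0 : d ≠ 0 := by
    rintro rfl
    rw [map_zero, sub_zero] at hd
    exact hs hd
  refine ⟨c / d, ?_⟩
  -- `d s (a - c / d) = d b - c s` lies in the maximal ideal
  have h1 : algebraMap k A d * b - algebraMap k A c * s ∈ m := by
    have h2 := Ideal.sub_mem _ (Ideal.mul_mem_left _ (algebraMap k A d) hc)
      (Ideal.mul_mem_left _ (algebraMap k A c) hd)
    have h3 : algebraMap k A d * (b - algebraMap k A c) - algebraMap k A c *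
        (s - algebraMap k A d) = algebraMap k A d * b - algebraMap k A c * s := by ring
    rwa [h3] at h2
  have h2 : (⟨((algebraMap k A d * b - algebraMap k A c * s : A) : F),
      hO.coe_mem hm.isPrime.ne_top _⟩ : O) ∈ maximalIdeal O := by
    rw [mem_maximalIdeal, mem_nonunits_iff, hO.isUnit_iff]
    exact not_not.2 h1
  have hd1 : algebraMap k A d ∉ m := by
    intro h
    have h4 := Ideal.add_mem _ hd h
    rw [sub_add_cancel] at h4
    exact hs h4
  have hu := (hO.isUnit hd1 hm.isPrime.ne_top).mul (hO.isUnit hs hm.isPrime.ne_top)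
  have h5 : (a - ⟨algebraMap k F (c / d), hO.const_mem hm.isPrime.ne_top (c / d)⟩) *
      ((⟨((algebraMap k A d : A) : F), hO.coe_mem hm.isPrime.ne_top _⟩ : O) *
        ⟨(s : F), hO.coe_mem hm.isPrime.ne_top _⟩) =
      ⟨((algebraMap k A d * b - algebraMap k A c * s : A) : F),
      hO.coe_mem hm.isPrime.ne_top _⟩ := by
    apply Subtype.ext
    change ((a : F) - algebraMap k F (c / d)) * (algebraMap k F d * s) =
      algebraMap k F d * b - algebraMap k F c * s
    have h8 : algebraMap k F d ≠ 0 := (map_ne_zero _).2 hd0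
    rw [hbs, map_div₀]
    field_simp
  rw [← h5] at h2
  obtain ⟨v, hv⟩ := hu.exists_right_inv
  have h9 := Ideal.mul_mem_right v _ h2
  rwa [mul_assoc, hv, mul_one] at h9

end Loc

section Points

variable {M : Set (Subalgebra k F)} {O : Subring F}

theorem points_regular (hch : ∀ A ∈ M, Chart A) (hO : O ∈ Points M) :
    IsRegularLocalRing O ∧ ringKrullDim O = 2 := by
  obtain ⟨A, hA, m, hm, hAO⟩ := hO
  exact hAO.regular (hch A hA) hm

theorem points_local (hch : ∀ A ∈ M, Chart A) (hO : O ∈ Points M) : IsLocalRing O := by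
  have := (points_regular hch hO).1
  infer_instance

theorem points_const_mem (hO : O ∈ Points M) (c : k) : algebraMap k F c ∈ O := by
  obtain ⟨A, hA, m, hm, hAO⟩ := hO
  exact hAO.const_mem hm.isPrime.ne_top c

/-- The constants in the local ring of a closed point. -/
@[reducible] def ptAlg (hO : O ∈ Points M) : Algebra k O :=
  ((algebraMap k F).codRestrict O (points_const_mem hO)).toAlgebra

theorem ptAlg_coe (hO : O ∈ Points M) (c : k) :
    letI := ptAlg hO
    ((algebraMap k O c : O) : F) = algebraMap k F c := rfl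

/-- The residue field of a closed point is `k`. -/
theorem points_residue [IsAlgClosed k] (hch : ∀ A ∈ M, Chart A) (hO : O ∈ Points M)
    [IsLocalRing O] (a : O) :
    letI := ptAlg hO
    ∃ c : k, a - algebraMap k O c ∈ maximalIdeal O := by
  obtain ⟨A, hA, m, hm, hAO⟩ := id hO
  exact hAO.const (hch A hA) hm a

theorem points_pair (hch : ∀ A ∈ M, Chart A) (hO : O ∈ Points M) [IsLocalRing O] :
    ∃ x z : O, maximalIdeal O = Ideal.span {x, z} := by
  obtain ⟨h1, h2⟩ := points_regular hch hO
  exact two_generators h1 h2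

theorem points_not_pow_le (hch : ∀ A ∈ M, Chart A) (hO : O ∈ Points M) [IsLocalRing O] (w : O)
    (hw : w ∈ maximalIdeal O) (N : ℕ) : ¬ maximalIdeal O ^ N ≤ Ideal.span {w} := by
  obtain ⟨h1, h2⟩ := points_regular hch hO
  exact not_pow_le h2 w hw N

end Points

end Pool.Agent.Lib.MP_b197b4_ntK
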