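import Pool.Agent.Lib.MP_b197b4_ntK.FormsPts
import Pool.Agent.Lib.MP_b197b4_ntK.CurveN
import Pool.Agent.Lib.MP_b197b4_ntK.Res
import Pool.Agent.Lib.MP_b197b4_ntK.FinN
import Pool.Agent.Lib.MP_b197b4_ntG.Gen

/-!
# MP_b197b4_nt, project K1: the local rings of the closed points of a normal surface
-/

set_option autoImplicit false

namespace Pool.Agent.Lib.MP_b197b4_ntK

open IsLocalRing

variable {k : Type} {F : Type} [Field k] [Field F] [Algebra k F]

section Chart

variable {A : Subalgebra k F} {m : Ideal A} {O : Subring F} {V : ValuationSubring F}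

theorem IsLoc.isLocalRing (hO : IsLoc A m O) [hm : m.IsPrime] : IsLocalRing O := by
  let := (hO.incl hm.ne_top).toAlgebra
  have := hO.isLocalization
  exact IsLocalization.AtPrime.isLocalRing O m

theorem IsLoc.krullDim (hO : IsLoc A m O) [hm : m.IsPrime] : ringKrullDim O = m.height := by
  let := (hO.incl hm.ne_top).toAlgebra
  have := hO.isLocalization
  exact IsLocalization.AtPrime.ringKrullDim_eq_height m O

theorem IsLoc.noeth (hO : IsLoc A m O) [hm : m.IsPrime] [IsNoetherianRing A] :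
    IsNoetherianRing O := by
  let := (hO.incl hm.ne_top).toAlgebra
  have := hO.isLocalization
  exact IsLocalization.isNoetherianRing m.primeCompl O inferInstance

/-- The local ring of a point of the curve lies in the local ring of the curve. -/
theorem IsLoc.subset_curve (hO : IsLoc A m O) (hV : IsCurve A V) {P : Ideal A}
    (hP : PrimeOf A V P) (hPm : P ≤ m) : (O : Set F) ⊆ V := by
  intro y hy
  obtain ⟨a, s, hs, rfl⟩ := (hO y).1 hy
  have h1 : V.valuation (s : F) = 1 := (hP.val_one hV.2.1 s).1 fun h => hs (hPm h)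
  change (a : F) / s ∈ V
  rw [← ValuationSubring.valuation_le_one_iff, map_div₀, h1, div_one]
  exact (ValuationSubring.valuation_le_one_iff V _).2 (hV.2.1 a a.2)

theorem mem_minimalPrimesN (hh : ∀ m : Ideal A, m.IsMaximal → m.height = 2) (hV : IsCurve A V)
    {P : Ideal A} (hP : PrimeOf A V P)
    {a : A} (ha : a ∉ P) (hm : m.IsMaximal) (hPm : P ≤ m) (ham : a ∈ m) :
    m ∈ (P ⊔ Ideal.span {a}).minimalPrimes := by
  have := hm.isPrime
  have hPp := hP.isPrime hV.2.1
  refine ⟨⟨hm.isPrime, sup_le hPm ((Ideal.span_singleton_le_iff_mem _).2 ham)⟩, ?_⟩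
  rintro J ⟨hJ, hPJ⟩ hJm
  by_contra hne
  have hlt : J < m := lt_of_le_not_ge hJm hne
  have hPJ' : P < J := by
    refine lt_of_le_not_ge (le_sup_left.trans hPJ) fun h => ha (h ?_)
    exact hPJ (Ideal.mem_sup_right (Ideal.mem_span_singleton_self a))
  have h1 := Ideal.height_add_one_le_of_lt_of_isPrime hPJ'
  have h2 := Ideal.height_add_one_le_of_lt_of_isPrime hlt
  rw [hh m hm] at h2
  rw [hV.height hP] at h1
  have h3 : (1 : ℕ∞) + 1 + 1 ≤ 2 := (add_le_add_left h1 1).trans h2
  exact absurd h3 (by decide)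

/-- A nonzero function on a curve is a unit at almost all points of a chart. -/
theorem finite_not_unit_chartN [IsNoetherianRing A]
    (hh : ∀ m : Ideal A, m.IsMaximal → m.height = 2) (hV : IsCurve A V) {u : ResidueField V}
    (hu : u ≠ 0) :
    {O : Subring F | (∃ m : Ideal A, m.IsMaximal ∧ IsLoc A m O) ∧ (O : Set F) ⊆ V ∧
      ¬ UnitAt O V u}.Finite := by
  classical
  obtain ⟨P, hPp, hP⟩ := exists_primeOf hV.2.1
  obtain ⟨a, s, hs, rfl⟩ := hV.res_frac u
  have hs' : s ∉ P := (hP.val_one hV.2.1 s).2 hs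
  have ha1 : V.valuation (a : F) = 1 := by
    rw [← res_ne_zero_iff (hV.2.1 a a.2)]
    intro h
    apply hu
    rw [h, zero_div]
  have ha' : a ∉ P := (hP.val_one hV.2.1 a).2 ha1
  have has : a * s ∉ P := fun h => (hPp.mem_or_mem h).elim ha' hs'
  have hfin := Ideal.finite_minimalPrimes_of_isNoetherianRing A (P ⊔ Ideal.span {a * s})
  let φ : Ideal A → Subring F := fun m => if hm : m.IsPrime then locSub A m else ⊥
  refine (hfin.image φ).subset ?_
  rintro O ⟨⟨m, hm, hO⟩, hOV, hnu⟩
  have hmp := hm.isPrime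
  refine ⟨m, ?_, ?_⟩
  · refine mem_minimalPrimesN hh hV hP has hm ?_ ?_
    · intro b hb
      by_contra hbm
      have h1 : (b : F)⁻¹ ∈ O := by
        rw [hO]
        exact ⟨1, b, hbm, by simp⟩
      have h2 := (ValuationSubring.valuation_le_one_iff V _).2 (hOV h1)
      have h3 := (hP b).1 hb
      have hb0 : (b : F) ≠ 0 := coe_ne_zero_of_notMem hbm
      have h4 : V.valuation (b : F) * V.valuation (b : F)⁻¹ = 1 := by
        rw [← map_mul, mul_inv_cancel₀ hb0, map_one]
      have h5 := mul_lt_one_of_lt_of_le h3 h2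
      rw [h4] at h5
      exact lt_irrefl _ h5
    · by_contra hasm
      apply hnu
      have ham : a ∉ m := fun h => hasm (Ideal.mul_mem_right _ _ h)
      have hsm : s ∉ m := fun h => hasm (Ideal.mul_mem_left _ _ h)
      have hVO : V ∈ CurvesAt O := (hO.mem_curvesAt hmp.ne_top V).2 ⟨hV, hOV⟩
      exact UnitAt.div hVO ⟨_, hO.isUnit ham hmp.ne_top, rfl⟩ ⟨_, hO.isUnit hsm hmp.ne_top, rfl⟩
  · have h1 : φ m = locSub A m := dif_pos hmp
    rw [h1]
    ext x
    exact (hO x).symm

/-- Krull: a nonzero element of the maximal ideal vanishes on a curve through the point. -/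
theorem exists_through_chart (hA : ChartN A) (hm : m.IsMaximal) (hO : IsLoc A m O) {y : F}
    (hy : y ∈ O) (hy0 : y ≠ 0) (hu : y⁻¹ ∉ O) :
    ∃ V, IsCurve A V ∧ (O : Set F) ⊆ V ∧ V.valuation y < 1 := by
  have := hm.isPrime
  have := hA.noeth
  obtain ⟨a, s, hs, rfl⟩ := (hO y).1 hy
  have ham : a ∈ m := by
    by_contra h
    apply hu
    rw [inv_div, hO]
    exact ⟨s, a, h, rfl⟩
  have ha0 : a ≠ 0 := by
    rintro rfl
    apply hy0
    simp
  obtain ⟨P, hP, hPm⟩ := Ideal.exists_minimalPrimes_le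
    ((Ideal.span_singleton_le_iff_mem m).2 ham)
  have hPp : P.IsPrime := hP.1.1
  have h1 := Ideal.height_le_one_of_isPrincipal_of_mem_minimalPrimes (Ideal.span {a}) P hP
  have h2 : P ≠ ⊥ := by
    rintro rfl
    exact ha0 (hP.1.2 (Ideal.mem_span_singleton_self a))
  have h3 : P.height = 1 := by
    refine le_antisymm h1 ?_
    rw [Order.one_le_iff_pos, pos_iff_ne_zero]
    intro h
    exact h2 ((Ideal.height_eq_zero_iff_eq_bot).1 h)
  obtain ⟨V, hV, hPV⟩ := hA.exists_curve P h3
  refine ⟨V, hV, hO.subset_curve hV hPV hPm, ?_⟩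
  have h4 : V.valuation (s : F) = 1 := (hPV.val_one hV.2.1 s).1 fun h => hs (hPm h)
  rw [map_div₀, h4, div_one]
  exact (hPV a).1 (hP.1.2 (Ideal.mem_span_singleton_self a))

end Chart

section Surf

variable {n : ℕ} {x : Fin (n + 1) → F}

/-- The curves through a point are the localisations at the primes of height one. -/
theorem SurfN.curvesAt (hS : SurfN k x) {O : Subring F} (hO : O ∈ Points (charts k x))
    {V : ValuationSubring F} :
    (V ∈ Curves (charts k x) ∧ (O : Set F) ⊆ V) ↔ V ∈ CurvesAt O :=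
  curves_point (sep_charts hS.ne) hO V

/-- Krull: a nonzero element of `O` which is not a unit vanishes on a curve through `O`. -/
theorem SurfN.exists_through (hS : SurfN k x) {O : Subring F} (hO : O ∈ Points (charts k x))
    {y : F} (hy : y ∈ O) (hy0 : y ≠ 0) (hu : y⁻¹ ∉ O) :
    ∃ V ∈ Curves (charts k x), (O : Set F) ⊆ V ∧ V.valuation y < 1 := by
  obtain ⟨A, ⟨i, rfl⟩, m, hm, hAO⟩ := hO
  obtain ⟨V, hV, h1, h2⟩ := exists_through_chart (hS.chart i) hm hAO hy hy0 hu
  exact ⟨V, ⟨_, ⟨i, rfl⟩, hV⟩, h1, h2⟩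

theorem SurfN.local (_hS : SurfN k x) {O : Subring F} (hO : O ∈ Points (charts k x)) :
    IsLocalRing O := by
  obtain ⟨A, _, m, hm, hAO⟩ := hO
  have := hm.isPrime
  exact hAO.isLocalRing

theorem SurfN.noeth (hS : SurfN k x) {O : Subring F} (hO : O ∈ Points (charts k x)) :
    IsNoetherianRing O := by
  obtain ⟨A, ⟨i, rfl⟩, m, hm, hAO⟩ := hO
  have := hm.isPrime
  have := (hS.chart i).noeth
  exact hAO.noeth

theorem SurfN.dim (hS : SurfN k x) {O : Subring F} (hO : O ∈ Points (charts k x)) :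
    ringKrullDim O = 2 := by
  obtain ⟨A, ⟨i, rfl⟩, m, hm, hAO⟩ := hO
  have := hm.isPrime
  rw [hAO.krullDim, (hS.chart i).height m hm]
  rfl

/-- The maximal ideal of a closed point contains `1` minus a unit, and so on: the residue field of a
closed point is `k`. -/
theorem SurfN.residue [IsAlgClosed k] (hS : SurfN k x) {O : Subring F}
    (hO : O ∈ Points (charts k x)) [IsLocalRing O] (a : O) :
    ∃ c : k, a - ⟨algebraMap k F c, points_const_mem hO c⟩ ∈ maximalIdeal O := by
  obtain ⟨A, ⟨i, rfl⟩, m, hm, hAO⟩ := id hO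
  have := hm.isPrime
  have hmax : ∀ b : Algebra.adjoin k (Set.range fun j => x j / x i), ∃ c : k,
      b - algebraMap k _ c ∈ m := by
    intro b
    have : Algebra.FiniteType k (Algebra.adjoin k (Set.range fun j => x j / x i)) :=
      (Subalgebra.fg_iff_finiteType _).1 (hS.chart i).fg
    let := Ideal.Quotient.field m
    have h1 : Algebra.FiniteType k (_ ⧸ m) := inferInstance
    have h2 : Module.Finite k (_ ⧸ m) := finite_of_finite_type_of_isJacobsonRing k (_ ⧸ m)
    have h3 : Algebra.IsIntegral k (_ ⧸ m) := Algebra.IsIntegral.of_finite k (_ ⧸ m)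
    obtain ⟨c, hc⟩ := (IsAlgClosed.algebraMap_bijective_of_isIntegral (k := k) (K := _ ⧸ m)).2
      (Ideal.Quotient.mk m b)
    refine ⟨c, ?_⟩
    rw [← Ideal.Quotient.eq_zero_iff_mem, map_sub, sub_eq_zero, ← hc]
    rfl
  obtain ⟨b, s, hs, hbs⟩ := (hAO a).1 a.2
  obtain ⟨c, hc⟩ := hmax b
  obtain ⟨d, hd⟩ := hmax s
  have hs0 : (s : F) ≠ 0 := coe_ne_zero_of_notMem hs
  have hd0 : d ≠ 0 := by
    rintro rfl
    rw [map_zero, sub_zero] at hd
    exact hs hd
  refine ⟨c / d, ?_⟩
  have h1 : algebraMap k _ d * b - algebraMap k _ c * s ∈ m := by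
    have h2 := Ideal.sub_mem _ (Ideal.mul_mem_left _ (algebraMap k _ d) hc)
      (Ideal.mul_mem_left _ (algebraMap k _ c) hd)
    have h3 : algebraMap k _ d * (b - algebraMap k _ c) - algebraMap k _ c *
        (s - algebraMap k _ d) = algebraMap k _ d * b - algebraMap k _ c * s := by ring
    rwa [h3] at h2
  have h2 : (⟨((algebraMap k _ d * b - algebraMap k _ c * s :
      Algebra.adjoin k (Set.range fun j => x j / x i)) : F),
      hAO.coe_mem hm.isPrime.ne_top _⟩ : O) ∈ maximalIdeal O := by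
    rw [mem_maximalIdeal, mem_nonunits_iff, hAO.isUnit_iff]
    exact not_not.2 h1
  have hd1 : algebraMap k (Algebra.adjoin k (Set.range fun j => x j / x i)) d ∉ m := by
    intro h
    have h4 := Ideal.add_mem _ hd h
    rw [sub_add_cancel] at h4
    exact hs h4
  have hu := (hAO.isUnit hd1 hm.isPrime.ne_top).mul (hAO.isUnit hs hm.isPrime.ne_top)
  have h5 : (a - ⟨algebraMap k F (c / d), points_const_mem hO (c / d)⟩) *
      ((⟨((algebraMap k _ d : Algebra.adjoin k (Set.range fun j => x j / x i)) : F),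
        hAO.coe_mem hm.isPrime.ne_top _⟩ : O) * ⟨(s : F), hAO.coe_mem hm.isPrime.ne_top _⟩) =
      ⟨((algebraMap k _ d * b - algebraMap k _ c * s :
        Algebra.adjoin k (Set.range fun j => x j / x i)) : F),
        hAO.coe_mem hm.isPrime.ne_top _⟩ := by
    apply Subtype.ext
    change ((a : F) - algebraMap k F (c / d)) * (algebraMap k F d * s) =
      algebraMap k F d * b - algebraMap k F c * s
    have h8 : algebraMap k F d ≠ 0 := (map_ne_zero _).2 hd0
    rw [hbs, map_div₀]
    field_simp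
  rw [← h5] at h2
  obtain ⟨v, hv⟩ := hu.exists_right_inv
  have h9 := Ideal.mul_mem_right v _ h2
  rwa [mul_assoc, hv, mul_one] at h9

end Surf

end Pool.Agent.Lib.MP_b197b4_ntK
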