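import Mathlib

/-!
# MP_b197b4_nt, project K1: linear systems, each equation with finitely many unknowns
-/

set_option autoImplicit false

namespace Pool.Agent.K1

open Finsupp

/-- A linear system `∑ i, a e i * x i = b e` (`e : E`), every equation with finitely many unknowns, is
solvable if every finite subsystem is. -/
theorem linSys {K ι E : Type*} [Field K] (a : E → ι →₀ K) (b : E → K)
    (h : ∀ S : Finset E, ∃ x : ι → K, ∀ e ∈ S, (a e).sum (fun i c => c * x i) = b e) :
    ∃ x : ι → K, ∀ e, (a e).sum (fun i c => c * x i) = b e := by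
  classical
  -- the map of the relations
  have hlin : ∀ x : ι → K, ∀ f : ι →₀ K,
      f.sum (fun i c => c * x i) = Finsupp.linearCombination K x f := by
    intro x f
    rw [Finsupp.linearCombination_apply]
    rfl
  simp_rw [hlin] at h ⊢
  let A : (E →₀ K) →ₗ[K] (ι →₀ K) := Finsupp.linearCombination K a
  let B : (E →₀ K) →ₗ[K] K := Finsupp.linearCombination K b
  have hk : LinearMap.ker A ≤ LinearMap.ker B := by
    intro c hc
    obtain ⟨x, hx⟩ := h c.support
    rw [LinearMap.mem_ker] at hc ⊢
    have e1 : Finsupp.linearCombination K x (A c) = B c := by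
      change Finsupp.linearCombination K x (Finsupp.linearCombination K a c) =
        Finsupp.linearCombination K b c
      rw [Finsupp.linearCombination_apply K c, Finsupp.linearCombination_apply K c, Finsupp.sum,
        Finsupp.sum, map_sum]
      refine Finset.sum_congr rfl fun e he => ?_
      rw [map_smul, hx e he]
    rw [← e1, hc, map_zero]
  obtain ⟨φ, hφ⟩ : ∃ φ : (ι →₀ K) →ₗ[K] K, φ ∘ₗ A = B := by
    obtain ⟨s, hs⟩ := LinearMap.exists_leftInverse_of_injective
      ((LinearMap.ker A).liftQ A le_rfl) (Submodule.ker_liftQ_eq_bot _ _ _ le_rfl)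
    refine ⟨((LinearMap.ker A).liftQ B hk) ∘ₗ s, ?_⟩
    ext e
    have h1 : A (Finsupp.single e 1) =
        (LinearMap.ker A).liftQ A le_rfl ((LinearMap.ker A).mkQ (Finsupp.single e 1)) := by
      simp
    have h2 : s (A (Finsupp.single e 1)) = (LinearMap.ker A).mkQ (Finsupp.single e 1) := by
      rw [h1]
      exact LinearMap.congr_fun hs _
    simp only [LinearMap.coe_comp, Function.comp_apply, Finsupp.lsingle_apply]
    rw [h2]
    simp
  refine ⟨fun i => φ (Finsupp.single i 1), fun e => ?_⟩
  have h3 : Finsupp.linearCombination K (fun i => φ (Finsupp.single i 1)) (a e) = φ (a e) := by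
    rw [Finsupp.linearCombination_apply, Finsupp.sum]
    conv_rhs => rw [← Finsupp.sum_single (a e), Finsupp.sum, map_sum]
    refine Finset.sum_congr rfl fun i _ => ?_
    rw [← map_smul, Finsupp.smul_single, smul_eq_mul, mul_one]
  have h4 : A (Finsupp.single e 1) = a e := by
    change Finsupp.linearCombination K a (Finsupp.single e 1) = a e
    simp
  have h5 : B (Finsupp.single e 1) = b e := by
    change Finsupp.linearCombination K b (Finsupp.single e 1) = b e
    simp
  rw [h3, ← h4, ← h5, ← hφ]
  rfl

/-- The same for a family of solutions: if the system is a set of equations and every finite set of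
equations has a solution. -/
theorem linSys_set {K ι : Type*} [Field K] (S : Set ((ι →₀ K) × K))
    (h : ∀ T : Finset ((ι →₀ K) × K), (T : Set _) ⊆ S →
      ∃ x : ι → K, ∀ e ∈ T, e.1.sum (fun i c => c * x i) = e.2) :
    ∃ x : ι → K, ∀ e ∈ S, e.1.sum (fun i c => c * x i) = e.2 := by
  classical
  obtain ⟨x, hx⟩ := linSys (E := S) (fun e => e.1.1) (fun e => e.1.2) fun T => by
    obtain ⟨x, hx⟩ := h (T.map ⟨Subtype.val, Subtype.val_injective⟩) (by
      intro e he
      simp only [Finset.coe_map, Function.Embedding.coeFn_mk, Set.mem_image, Finset.mem_coe] at he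
      obtain ⟨e', _, rfl⟩ := he
      exact e'.2)
    exact ⟨x, fun e he => hx e.1 (Finset.mem_map.2 ⟨e, he, rfl⟩)⟩
  exact ⟨x, fun e he => hx ⟨e, he⟩⟩

end Pool.Agent.K1
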