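import Mathlib
import Pool.Agent.Lib.MP_b197b4_ntK.Defs2

/-!
# MP_b197b4_nt, projects K1 and K1-ALL: the output of the K side

`LTnorm` is what the K side proves for a normal projective surface and what K1-ALL consumes.
-/

set_option autoImplicit false

namespace Pool.Agent.Lib.MP_b197b4_ntK

open IsLocalRing

section

variable {k : Type} {F : Type} [Field k] [Field F] [Algebra k F]

/-- A normal affine chart: `A` is a normal affine domain of dimension two with field of
fractions `F`. -/
structure NChart (A : Subalgebra k F) : Prop where
  fg : A.FG
  frac : IsFractionRing A F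
  normal : IsIntegrallyClosed A
  height : ∀ m : Ideal A, m.IsMaximal → m.height = 2

/-- Homogeneous coordinates `x 0, ..., x n` of a normal projective surface. -/
structure NSurf (k : Type) {F : Type} [Field k] [Field F] [Algebra k F] {n : ℕ}
    (x : Fin (n + 1) → F) : Prop where
  ne : ∀ i, x i ≠ 0
  chart : ∀ i, NChart (Algebra.adjoin k (Set.range fun j => x j / x i))

/-- The closed point `O` of the surface and of the curve `V` is good: it is a regular point of the
surface and a regular point of the curve. -/
def GoodPt (O : Subring F) (V : ValuationSubring F) : Prop :=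
  IsRegularLocalRing O ∧ IsDiscreteValuationRing (curveLoc O V)

/-- `u` is a unit at all bad points of the curve `V`. -/
def UnitAtBad (M : Set (Subalgebra k F)) (V : ValuationSubring F) (u : ResidueField V) : Prop :=
  ∀ O ∈ Points M, (O : Set F) ⊆ V → ¬ GoodPt O V → u ∈ curveLoc O V ∧ u⁻¹ ∈ curveLoc O V

/-- The form `l` is given by the function `h` on the closed points, for all functions `u` on
curves which are units at the bad points of the curve. -/
def LocalN (M : Set (Subalgebra k F)) (l : ∀ V : ValuationSubring F, ResidueField V → ℚ) : Prop :=
  ∃ h : Subring F → ℚ, ∀ V ∈ Curves M, ∀ u : ResidueField V, u ≠ 0 → UnitAtBad M V u →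
    l V u = ∑ᶠ (O) (_ : O ∈ Points M ∧ (O : Set F) ⊆ V), h O * len (curveLoc O V) u

end

/-- **The output of the K side**: the local theorem for normal projective surfaces. -/
def LTnorm (k : Type) [Field k] : Prop :=
  ∀ (F : Type) [Field F] [Algebra k F] (n : ℕ) (x : Fin (n + 1) → F), NSurf k x →
    ∀ l : ∀ V : ValuationSubring F, ResidueField V → ℚ, Forms k (Curves (charts k x)) l →
      LocalN (charts k x) l

end Pool.Agent.Lib.MP_b197b4_ntK
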