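import Mathlib
import Pool.Agent.Lib.MP_b197b4_ntK.Sym

/-!
# MP_b197b4_nt, project K1: forms without common zero (G4)

If the forms `s j` of degree `d j` have no common zero then every form of large degree `M` is a sum
of products `g j * s j`, where `g j` is a form of degree `M - d j`.
-/

set_option autoImplicit false

namespace Pool.Agent.Lib.MP_b197b4_ntK

open IsLocalRing

section

variable {k F : Type} [Field k] [Field F] [Algebra k F] {n : ℕ} {x : Fin (n + 1) → F}

/-- The affine chart `x i ≠ 0`. -/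
abbrev chartAlg (k : Type) {F : Type} [Field k] [Field F] [Algebra k F] {n : ℕ}
    (x : Fin (n + 1) → F) (i : Fin (n + 1)) : Subalgebra k F :=
  Algebra.adjoin k (Set.range fun j => x j / x i)

theorem hom_zero : hom k x 0 = 1 := pow_zero _

theorem hom_one : hom k x 1 = Submodule.span k (Set.range x) := pow_one _

theorem hom_add (a b : ℕ) : hom k x (a + b) = hom k x a * hom k x b := pow_add _ _ _

theorem one_mem_hom : (1 : F) ∈ hom k x 0 := by
  rw [hom_zero]
  exact Submodule.one_le.1 le_rfl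

theorem x_mem_hom (i : Fin (n + 1)) : x i ∈ hom k x 1 := by
  rw [hom_one]
  exact Submodule.subset_span ⟨i, rfl⟩

theorem hom_mul_mem {a b : ℕ} {f g : F} (hf : f ∈ hom k x a) (hg : g ∈ hom k x b) :
    f * g ∈ hom k x (a + b) := by
  rw [hom_add]
  exact Submodule.mul_mem_mul hf hg

theorem hom_pow_mem {a : ℕ} {f : F} (hf : f ∈ hom k x a) (m : ℕ) : f ^ m ∈ hom k x (m * a) := by
  induction m with
  | zero =>
    rw [pow_zero, zero_mul]
    exact one_mem_hom
  | succ m ih =>
    rw [pow_succ, Nat.succ_mul]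
    exact hom_mul_mem ih hf

theorem x_pow_mem_hom (i : Fin (n + 1)) (m : ℕ) : x i ^ m ∈ hom k x m := by
  have := hom_pow_mem (x_mem_hom (k := k) (x := x) i) m
  rwa [mul_one] at this

/-- Multiplication by powers of `x i`. -/
theorem mul_x_pow_mem {i : Fin (n + 1)} {f : F} {N M : ℕ} (h : f * x i ^ N ∈ hom k x N)
    (hM : N ≤ M) : f * x i ^ M ∈ hom k x M := by
  obtain ⟨c, rfl⟩ := Nat.exists_eq_add_of_le hM
  rw [pow_add, ← mul_assoc]
  exact hom_mul_mem h (x_pow_mem_hom i c)

/-- The elements of the chart `x i ≠ 0` are the quotients `g / x i ^ N`, `g` a form of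
degree `N`. -/
theorem mem_chartAlg {i : Fin (n + 1)} (hx : x i ≠ 0) {f : F} (hf : f ∈ chartAlg k x i) :
    ∃ N, f * x i ^ N ∈ hom k x N := by
  induction hf using Algebra.adjoin_induction with
  | mem a ha =>
    obtain ⟨j, rfl⟩ := ha
    refine ⟨1, ?_⟩
    show x j / x i * x i ^ 1 ∈ _
    rw [pow_one, div_mul_cancel₀ _ hx]
    exact x_mem_hom j
  | algebraMap r =>
    refine ⟨0, ?_⟩
    rw [pow_zero, mul_one, Algebra.algebraMap_eq_smul_one]
    exact Submodule.smul_mem _ _ one_mem_hom
  | add a b _ _ ha hb =>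
    obtain ⟨N, hN⟩ := ha
    obtain ⟨N', hN'⟩ := hb
    refine ⟨max N N', ?_⟩
    rw [add_mul]
    exact add_mem (mul_x_pow_mem hN (le_max_left _ _)) (mul_x_pow_mem hN' (le_max_right _ _))
  | mul a b _ _ ha hb =>
    obtain ⟨N, hN⟩ := ha
    obtain ⟨N', hN'⟩ := hb
    refine ⟨N + N', ?_⟩
    have h1 : a * b * x i ^ (N + N') = (a * x i ^ N) * (b * x i ^ N') := by
      rw [pow_add]
      ring
    rw [h1]
    exact hom_mul_mem hN hN'

theorem div_mem_chartAlg {i : Fin (n + 1)} {N : ℕ} {g : F}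
    (hg : g ∈ hom k x N) : g / x i ^ N ∈ chartAlg k x i := by
  have h0 : Submodule.span k (Set.range x) ≤
      Submodule.comap (LinearMap.mulRight k (x i)⁻¹) (chartAlg k x i).toSubmodule := by
    rw [Submodule.span_le]
    rintro _ ⟨j, rfl⟩
    show x j * (x i)⁻¹ ∈ chartAlg k x i
    rw [← div_eq_mul_inv]
    exact Algebra.subset_adjoin ⟨j, rfl⟩
  have h1 : ∀ N, hom k x N ≤
      Submodule.comap (LinearMap.mulRight k ((x i)⁻¹ ^ N)) (chartAlg k x i).toSubmodule := by
    intro N
    induction N with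
    | zero =>
      rw [hom_zero, Submodule.one_le]
      show (1 : F) * (x i)⁻¹ ^ 0 ∈ chartAlg k x i
      rw [pow_zero, mul_one]
      exact one_mem _
    | succ N ih =>
      rw [hom_add, hom_one, Submodule.mul_le]
      intro a ha b hb
      have ha' : a * (x i)⁻¹ ^ N ∈ chartAlg k x i := ih ha
      have hb' : b * (x i)⁻¹ ∈ chartAlg k x i := h0 hb
      show (a * b) * (x i)⁻¹ ^ (N + 1) ∈ chartAlg k x i
      have h2 : (a * b) * (x i)⁻¹ ^ (N + 1) = (a * (x i)⁻¹ ^ N) * (b * (x i)⁻¹) := by
        rw [pow_succ]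
        ring
      rw [h2]
      exact mul_mem ha' hb'
  have h2 : g * (x i)⁻¹ ^ N ∈ chartAlg k x i := h1 N hg
  rwa [inv_pow, ← div_eq_mul_inv] at h2

theorem prod_mem_hom {ι : Type} (s : Finset ι) (φ : ι → Fin (n + 1)) :
    ∏ t ∈ s, x (φ t) ∈ hom k x s.card := by
  classical
  induction s using Finset.induction_on with
  | empty =>
    rw [Finset.prod_empty, Finset.card_empty]
    exact one_mem_hom
  | insert a s ha ih =>
    rw [Finset.prod_insert ha, Finset.card_insert_of_notMem ha, mul_comm]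
    exact hom_mul_mem ih (x_mem_hom _)

/-- Every form of large degree is a combination of `N`-th powers of the coordinates. -/
theorem hom_pow_comb (N M : ℕ) (hM : (n + 1) * N ≤ M) {f : F} (hf : f ∈ hom k x M) :
    ∃ h : Fin (n + 1) → F, (∀ i, h i ∈ hom k x (M - N)) ∧ f = ∑ i, x i ^ N * h i := by
  classical
  let T : Submodule k F :=
    { carrier := {f | ∃ h : Fin (n + 1) → F, (∀ i, h i ∈ hom k x (M - N)) ∧
        f = ∑ i, x i ^ N * h i}
      add_mem' := by
        rintro a b ⟨h, h1, rfl⟩ ⟨h', h1', rfl⟩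
        refine ⟨fun i => h i + h' i, fun i => add_mem (h1 i) (h1' i), ?_⟩
        rw [← Finset.sum_add_distrib]
        exact Finset.sum_congr rfl fun i _ => by ring
      zero_mem' := ⟨fun _ => 0, fun _ => zero_mem _, by simp⟩
      smul_mem' := by
        rintro c a ⟨h, h1, rfl⟩
        refine ⟨fun i => c • h i, fun i => Submodule.smul_mem _ _ (h1 i), ?_⟩
        rw [Finset.smul_sum]
        exact Finset.sum_congr rfl fun i _ => by rw [mul_smul_comm] }
  have h1 : hom k x M ≤ T := by
    unfold hom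
    rw [Submodule.span_pow, Submodule.span_le]
    intro a ha
    rw [Set.mem_pow] at ha
    obtain ⟨f, rfl⟩ := ha
    have h2 : ∀ t, ∃ i, x i = f t := fun t => (f t).2
    choose φ hφ using h2
    rw [List.prod_ofFn]
    have h3 : ∏ t, (f t : F) = ∏ t, x (φ t) := Finset.prod_congr rfl fun t _ => (hφ t).symm
    rw [h3]
    obtain ⟨i, hi⟩ := Fintype.exists_le_card_fiber_of_mul_le_card φ
      (n := N) (by simpa using hM)
    have h4 := Finset.prod_filter_mul_prod_filter_not Finset.univ (fun t => φ t = i)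
      (fun t => x (φ t))
    have h5 : ∏ t ∈ Finset.univ.filter (fun t => φ t = i), x (φ t) =
        x i ^ (Finset.univ.filter (fun t => φ t = i)).card := by
      rw [Finset.prod_congr rfl (g := fun _ => x i), Finset.prod_const]
      intro t ht
      rw [(Finset.mem_filter.1 ht).2]
    have h6 : (Finset.univ.filter (fun t => φ t = i)).card +
        (Finset.univ.filter (fun t => ¬ φ t = i)).card = M := by
      rw [Finset.card_filter_add_card_filter_not, Finset.card_univ, Fintype.card_fin]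
    set c := (Finset.univ.filter (fun t => φ t = i)).card
    set c' := (Finset.univ.filter (fun t => ¬ φ t = i)).card with hc'
    refine ⟨fun j => if j = i then x i ^ (c - N) * ∏ t ∈ Finset.univ.filter (fun t => ¬ φ t = i),
      x (φ t) else 0, fun j => ?_, ?_⟩
    · dsimp only
      split_ifs with hj
      · have h7 : M - N = (c - N) + c' := by omega
        rw [h7]
        exact hom_mul_mem (x_pow_mem_hom _ _) (prod_mem_hom _ _)
      · exact zero_mem _
    · rw [Finset.sum_eq_single i]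
      · dsimp only
        rw [if_pos rfl, ← mul_assoc, ← pow_add, Nat.add_sub_cancel' hi, ← h5]
        exact h4.symm
      · intro j _ hj
        dsimp only
        rw [if_neg hj, mul_zero]
      · intro hc
        exact absurd (Finset.mem_univ i) hc
  exact h1 hf

/-- The form `s` of degree `d` does not vanish at the closed point with local ring `O`. -/
def NotZero (x : Fin (n + 1) → F) (O : Subring F) (d : ℕ) (s : F) : Prop :=
  s ≠ 0 ∧ ∃ w, w ≠ 0 ∧ (∀ j, x j / w ∈ O) ∧ (s / w ^ d)⁻¹ ∈ O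

/-- **(G4)** Forms without common zero: a chart. -/
theorem exists_comb_chart (hx : ∀ i, x i ≠ 0) {ι : Type} (s : ι → F) (d : ι → ℕ)
    (hs : ∀ j, s j ∈ hom k x (d j)) (i : Fin (n + 1))
    (hz : ∀ m : Ideal (chartAlg k x i), m.IsMaximal → ∃ j,
      (⟨s j / x i ^ d j, div_mem_chartAlg (hs j)⟩ : chartAlg k x i) ∉ m) :
    ∃ (t : Finset ι) (N : ℕ), (∀ j ∈ t, d j ≤ N) ∧ ∀ M, N ≤ M → ∃ g : ι → F,
      (∀ j ∈ t, g j ∈ hom k x (M - d j)) ∧ x i ^ M = ∑ j ∈ t, g j * s j := by
  classical
  set r : ι → chartAlg k x i := fun j => ⟨s j / x i ^ d j, div_mem_chartAlg (hs j)⟩ with hr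
  have h1 : Ideal.span (Set.range r) = ⊤ := by
    by_contra hne
    obtain ⟨m, hm, hle⟩ := Ideal.exists_le_maximal _ hne
    obtain ⟨j, hj⟩ := hz m hm
    exact hj (hle (Ideal.subset_span ⟨j, rfl⟩))
  have h2 : (1 : chartAlg k x i) ∈ Ideal.span (Set.range r) := by
    rw [h1]
    exact Submodule.mem_top
  obtain ⟨a, ha⟩ := (Finsupp.mem_ideal_span_range_iff_exists_finsupp).1 h2
  have h3 : ∀ j, ∃ N, (a j : F) * x i ^ N ∈ hom k x N := fun j => mem_chartAlg (hx i) (a j).2
  choose N hN using h3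
  refine ⟨a.support, a.support.sup N + a.support.sup d, fun j hj => ?_, fun M hM => ?_⟩
  · exact (Finset.le_sup (f := d) hj).trans (Nat.le_add_left _ _)
  · refine ⟨fun j => (a j : F) * x i ^ (M - d j), fun j hj => ?_, ?_⟩
    · have h4 := Finset.le_sup (f := d) hj
      have h5 := Finset.le_sup (f := N) hj
      exact mul_x_pow_mem (hN j) (by omega)
    · have h6 : (1 : F) = ∑ j ∈ a.support, (a j : F) * (s j / x i ^ d j) := by
        have h7 := congrArg (fun y : chartAlg k x i => (y : F)) ha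
        rw [Finsupp.sum] at h7
        simp only [AddSubmonoidClass.coe_finsetSum, MulMemClass.coe_mul, OneMemClass.coe_one] at h7
        rw [← h7]
      rw [← mul_one (x i ^ M), h6, Finset.mul_sum]
      refine Finset.sum_congr rfl fun j hj => ?_
      have h4 := Finset.le_sup (f := d) hj
      have h8 : x i ^ M = x i ^ (M - d j) * x i ^ d j := by
        rw [← pow_add]
        congr 1
        omega
      have h9 : x i ^ d j ≠ 0 := pow_ne_zero _ (hx i)
      rw [h8]
      field_simp

/-- **(G4)** Forms without common zero. -/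
theorem exists_comb_of_max (hx : ∀ i, x i ≠ 0) {ι : Type} (s : ι → F) (d : ι → ℕ)
    (hs : ∀ j, s j ∈ hom k x (d j))
    (hz : ∀ (i : Fin (n + 1)) (m : Ideal (chartAlg k x i)), m.IsMaximal → ∃ j,
      (⟨s j / x i ^ d j, div_mem_chartAlg (hs j)⟩ : chartAlg k x i) ∉ m) :
    ∃ (t : Finset ι) (M₀ : ℕ), (∀ j ∈ t, d j ≤ M₀) ∧ ∀ M, M₀ ≤ M → ∀ f ∈ hom k x M,
      ∃ g : ι → F, (∀ j ∈ t, g j ∈ hom k x (M - d j)) ∧ f = ∑ j ∈ t, g j * s j := by
  classical
  choose t N hN hg using fun i => exists_comb_chart hx s d hs i (hz i)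
  set K := Finset.univ.sup N with hK
  have hK' : ∀ i, N i ≤ K := fun i => Finset.le_sup (f := N) (Finset.mem_univ i)
  refine ⟨Finset.univ.biUnion t, (n + 1) * K + K, fun j hj => ?_, fun M hM f hf => ?_⟩
  · obtain ⟨i, -, hi⟩ := Finset.mem_biUnion.1 hj
    exact ((hN i j hi).trans (hK' i)).trans (Nat.le_add_left _ _)
  · obtain ⟨h, hh, rfl⟩ := hom_pow_comb K M (by omega) hf
    choose g hgm hge using fun i => hg i K (hK' i)
    have hKM : K ≤ M := by omega
    refine ⟨fun j => ∑ i, if j ∈ t i then h i * g i j else 0, fun j _ => ?_, ?_⟩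
    · refine Submodule.sum_mem _ fun i _ => ?_
      split_ifs with hj
      · have h1 := hN i j hj
        have h2 := hK' i
        have h3 : M - d j = (M - K) + (K - d j) := by omega
        rw [h3]
        exact hom_mul_mem (hh i) (hgm i j hj)
      · exact zero_mem _
    · simp only [Finset.sum_mul]
      rw [Finset.sum_comm]
      refine Finset.sum_congr rfl fun i _ => ?_
      rw [hge i, Finset.sum_mul]
      have h1 : t i ⊆ Finset.univ.biUnion t := Finset.subset_biUnion_of_mem t (Finset.mem_univ i)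
      rw [← Finset.sum_subset h1]
      · refine Finset.sum_congr rfl fun j hj => ?_
        rw [if_pos hj]
        ring
      · intro j _ hj
        rw [if_neg hj, zero_mul]

/-- A form which does not vanish at a closed point of a chart. -/
theorem not_mem_of_notZero (hx : ∀ i, x i ≠ 0) {i : Fin (n + 1)}
    {m : Ideal (chartAlg k x i)} {O : Subring F} (hO : IsLoc (chartAlg k x i) m O)
    {d : ℕ} {s : F} (hs : s ∈ hom k x d) (h : NotZero x O d s) :
    (⟨s / x i ^ d, div_mem_chartAlg hs⟩ : chartAlg k x i) ∉ m := by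
  obtain ⟨hs0, w, hw, h1, h2⟩ := h
  have h3 : x i ^ d / s ∈ O := by
    have h4 : x i ^ d / s = (x i / w) ^ d * (s / w ^ d)⁻¹ := by
      rw [inv_div, div_pow, ← mul_div_assoc, div_mul_cancel₀ _ (pow_ne_zero _ hw)]
    rw [h4]
    exact mul_mem (pow_mem (h1 i) d) h2
  intro hmem
  obtain ⟨a, b, hb, hab⟩ := (hO _).1 h3
  refine hb ?_
  have hb0 : (b : F) ≠ 0 := by
    intro hc
    rw [hc, div_zero] at hab
    exact div_ne_zero (pow_ne_zero _ (hx i)) hs0 hab
  have h5 : b = a * ⟨s / x i ^ d, div_mem_chartAlg hs⟩ := by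
    apply Subtype.ext
    show (b : F) = (a : F) * (s / x i ^ d)
    have h6 : (a : F) = x i ^ d / s * b := by
      rw [hab, div_mul_cancel₀ _ hb0]
    rw [h6]
    have := hx i
    field_simp
  rw [h5]
  exact m.mul_mem_left _ hmem

/-- **(G4)** Forms without common zero on the surface. -/
theorem exists_comb (hx : ∀ i, x i ≠ 0) {ι : Type} (s : ι → F) (d : ι → ℕ)
    (hs : ∀ j, s j ∈ hom k x (d j)) (hz : ∀ O ∈ Points (charts k x), ∃ j, NotZero x O (d j) (s j)) :
    ∃ (t : Finset ι) (M₀ : ℕ), (∀ j ∈ t, d j ≤ M₀) ∧ ∀ M, M₀ ≤ M → ∀ f ∈ hom k x M,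
      ∃ g : ι → F, (∀ j ∈ t, g j ∈ hom k x (M - d j)) ∧ f = ∑ j ∈ t, g j * s j := by
  refine exists_comb_of_max hx s d hs fun i m hm => ?_
  have hp : m.IsPrime := hm.isPrime
  let O : Subring F :=
    { carrier := {y | ∃ a b : chartAlg k x i, b ∉ m ∧ y = (a : F) / (b : F)}
      one_mem' := ⟨1, 1, fun h => hp.ne_top ((Ideal.eq_top_iff_one _).2 h), by simp⟩
      zero_mem' := ⟨0, 1, fun h => hp.ne_top ((Ideal.eq_top_iff_one _).2 h), by simp⟩
      mul_mem' := by
        rintro _ _ ⟨a, b, hb, rfl⟩ ⟨a', b', hb', rfl⟩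
        exact ⟨a * a', b * b', fun hc => (hp.mem_or_mem hc).elim hb hb', by
          push_cast
          rw [div_mul_div_comm]⟩
      add_mem' := by
        rintro _ _ ⟨a, b, hb, rfl⟩ ⟨a', b', hb', rfl⟩
        have hb0 : (b : F) ≠ 0 := fun hc => hb (by
          have : b = 0 := Subtype.ext hc
          rw [this]
          exact zero_mem _)
        have hb0' : (b' : F) ≠ 0 := fun hc => hb' (by
          have : b' = 0 := Subtype.ext hc
          rw [this]
          exact zero_mem _)
        exact ⟨a * b' + b * a', b * b', fun hc => (hp.mem_or_mem hc).elim hb hb', by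
          push_cast
          rw [div_add_div _ _ hb0 hb0']⟩
      neg_mem' := by
        rintro _ ⟨a, b, hb, rfl⟩
        exact ⟨-a, b, hb, by
          push_cast
          rw [neg_div]⟩ }
  have hO : IsLoc (chartAlg k x i) m O := fun y => Iff.rfl
  obtain ⟨j, hj⟩ := hz O ⟨chartAlg k x i, ⟨i, rfl⟩, m, hm, hO⟩
  exact ⟨j, not_mem_of_notZero hx hO (hs j) hj⟩

/-- **(G4)** Forms without common zero on the surface, finitely many forms. -/
theorem exists_comb_fin (hx : ∀ i, x i ≠ 0) {ι : Type} [Fintype ι] (s : ι → F) (d : ι → ℕ)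
    (hs : ∀ j, s j ∈ hom k x (d j)) (hz : ∀ O ∈ Points (charts k x), ∃ j, NotZero x O (d j) (s j)) :
    ∃ M₀ : ℕ, (∀ j, d j ≤ M₀) ∧ ∀ M, M₀ ≤ M → ∀ f ∈ hom k x M,
      ∃ g : ι → F, (∀ j, g j ∈ hom k x (M - d j)) ∧ f = ∑ j, s j * g j := by
  classical
  obtain ⟨t, M₀, _, h2⟩ := exists_comb hx s d hs hz
  refine ⟨M₀ + Finset.univ.sup d, fun j => ?_, fun M hM f hf => ?_⟩
  · exact (Finset.le_sup (f := d) (Finset.mem_univ j)).trans (Nat.le_add_left _ _)
  · obtain ⟨g, hg, hfg⟩ := h2 M (by omega) f hf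
    refine ⟨fun j => if j ∈ t then g j else 0, fun j => ?_, ?_⟩
    · dsimp only
      split_ifs with hj
      · exact hg j hj
      · exact zero_mem _
    · rw [hfg, ← Finset.sum_subset (Finset.subset_univ t)]
      · refine Finset.sum_congr rfl fun j hj => ?_
        dsimp only
        rw [if_pos hj]
        ring
      · intro j _ hj
        dsimp only
        rw [if_neg hj, mul_zero]

end

end Pool.Agent.Lib.MP_b197b4_ntK
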