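import Mathlib
import Pool.Agent.Lib.MP_b197b4_ntK.CurveN

/-!
# MP_b197b4_nt, project K1: comparison of a normal chart with a subalgebra
-/

set_option autoImplicit false
set_option linter.style.haveILetI false

namespace Pool.Agent.Lib.MP_b197b4_ntK

open IsLocalRing

variable {k F : Type} [Field k] [Field F] [Algebra k F] {A A1 : Subalgebra k F}

/-- (K2) A prime element of `A1` gives exactly one curve. -/
theorem curve_of_primeN (hA : ChartN A) (hle : A1 ≤ A) (hfg1 : A1.FG)
    (hint : ∀ a ∈ A, IsIntegral A1 a) (hfr : IsFractionRing A1 F) (w : A1)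
    (hw0 : w ≠ 0) (hw : (Ideal.span {w}).IsPrime)
    (hdim : ∀ P : Ideal A1, P.IsPrime → Ideal.span {w} < P → P.IsMaximal) :
    ∃ V : ValuationSubring F, IsCurve A V ∧ IsCurve A1 V ∧ PrimeOf A1 V (Ideal.span {w}) ∧
      ord V (w : F) = 1 ∧ ∀ V', IsCurve A V' → V'.valuation (w : F) < 1 → V' = V := by
  haveI : Algebra.FiniteType k A1 := A1.fg_iff_finiteType.1 hfg1
  haveI : IsNoetherianRing A1 := Algebra.FiniteType.isNoetherianRing k A1
  haveI := hw
  obtain ⟨V, hV, hP⟩ := exists_curve_of_dvr hfr (Ideal.span {w}) (dvr_of_principal w hw0)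
  have hAV : ∀ a ∈ A, a ∈ V := fun a ha => mem_of_integral hV.2.1 (hint a ha)
  have hwF : (w : F) ≠ 0 := fun h => hw0 (Subtype.ext h)
  have hwV : (w : F) ∈ V := hV.2.1 w w.2
  have hwlt : V.valuation (w : F) < 1 := (hP w).1 (Ideal.mem_span_singleton_self w)
  have hirr : Irreducible (⟨w, hwV⟩ : V) := by
    refine IsDiscreteValuationRing.irreducible_of_span_eq_maximalIdeal _
      (fun h => hwF (congrArg Subtype.val h)) ?_
    apply le_antisymm
    · intro x hx
      have hx1 : V.valuation (x : F) < 1 := (ValuationSubring.valuation_lt_one_iff V x).1 hx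
      obtain ⟨a, s, ha, hs, h1, h2⟩ := hV.2.2 x x.2
      have hs0 : s ≠ 0 := ne_zero_of_val_one h1
      have ha1 : V.valuation a < 1 := by
        rw [h2, map_div₀, h1, div_one] at hx1
        exact hx1
      have ha2 : (⟨a, ha⟩ : A1) ∈ Ideal.span {w} := (hP ⟨a, ha⟩).2 ha1
      obtain ⟨c, hc⟩ := Ideal.mem_span_singleton'.1 ha2
      have hc' : (c : F) * w = a := congrArg (Subtype.val : A1 → F) hc
      have hcs : (c : F) / s ∈ V := by
        rw [div_eq_mul_inv]
        refine mul_mem (hV.2.1 c c.2) ?_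
        rw [← ValuationSubring.valuation_le_one_iff, map_inv₀, h1, inv_one]
      rw [Ideal.mem_span_singleton']
      refine ⟨⟨_, hcs⟩, Subtype.ext ?_⟩
      change (c : F) / s * w = x
      rw [h2, ← hc']
      ring
    · rw [Ideal.span_singleton_le_iff_mem]
      exact (ValuationSubring.valuation_lt_one_iff V _).2 hwlt
  refine ⟨V, ⟨hV.1, hAV, ?_⟩, hV, hP, ?_, ?_⟩
  · intro x hx
    obtain ⟨a, s, ha, hs, h1, h2⟩ := hV.2.2 x hx
    exact ⟨a, s, hle ha, hle hs, h1, h2⟩
  · apply ord_eq
    exact ⟨⟨w, hwV⟩, 1, hirr, by simp⟩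
  · intro V' hV' hlt
    -- the centre of `V'` on `A1`
    obtain ⟨P', hP'p, hP'⟩ := exists_primeOf hV'.2.1
    haveI := hP'p
    have hc : PrimeOf A1 V' (P'.comap (Subalgebra.inclusion hle)) := fun a => hP' _
    have hle1 : Ideal.span {w} ≤ P'.comap (Subalgebra.inclusion hle) := by
      rw [Ideal.span_singleton_le_iff_mem]
      exact (hc w).2 hlt
    have heq : Ideal.span {w} = P'.comap (Subalgebra.inclusion hle) := by
      by_contra hne
      have h1 := hdim _ inferInstance (lt_of_le_of_ne hle1 hne)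
      have h2 := max_of_comap_max hle hint P' h1
      have h3 := hA.height P' h2
      rw [hV'.height hP'] at h3
      exact absurd h3 (by decide)
    rw [← heq] at hc
    -- `V ≤ V'`
    have hVV' : ∀ x ∈ V, x ∈ V' := by
      intro x hx
      obtain ⟨a, s, ha, hs, h1, h2⟩ := hV.2.2 x hx
      have h3 : (⟨s, hs⟩ : A1) ∉ Ideal.span {w} := (hP.val_one hV.2.1 ⟨s, hs⟩).2 h1
      have h4 : V'.valuation s = 1 :=
        (hc.val_one (fun a ha => hV'.2.1 a (hle ha)) ⟨s, hs⟩).1 h3
      rw [h2, div_eq_mul_inv]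
      refine mul_mem (hV'.2.1 a (hle ha)) ?_
      rw [← ValuationSubring.valuation_le_one_iff, map_inv₀, h4, inv_one]
    ext x
    refine ⟨fun hx => ?_, hVV' x⟩
    by_contra hxV
    have hx0 : x ≠ 0 := by
      rintro rfl
      exact hxV (zero_mem _)
    have hord : 0 < ord V x⁻¹ := by
      rw [ord_inv hV.1 hx0]
      have := (ord_nonneg_iff hV.1 hx0).not.2 hxV
      omega
    obtain ⟨u, hu⟩ := exists_unit_of_ord hV.1 hirr (inv_ne_zero hx0)
    have hu1 : V'.valuation ((u : V) : F) = 1 := by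
      have h1 : ((u : V) : F) ∈ V' := hVV' _ (u : V).2
      have h2 : (((u⁻¹ : Vˣ) : V) : F) ∈ V' := hVV' _ ((u⁻¹ : Vˣ) : V).2
      have h3 := unit_coe_mul_inv u
      have h4 := congrArg V'.valuation h3
      rw [map_mul, map_one] at h4
      have h5 := (ValuationSubring.valuation_le_one_iff V' _).2 h1
      have h6 := (ValuationSubring.valuation_le_one_iff V' _).2 h2
      exact le_antisymm h5 (by
        by_contra h7
        push Not at h7
        have h8 : V'.valuation ((u : V) : F) * V'.valuation (((u⁻¹ : Vˣ) : V) : F) < 1 :=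
          mul_lt_one_of_lt_of_le h7 h6
        rw [h4] at h8
        exact lt_irrefl _ h8)
    have h1 : V'.valuation x⁻¹ < 1 := by
      rw [hu, map_mul, map_zpow₀, hu1, mul_one]
      change V'.valuation (w : F) ^ (ord V x⁻¹) < 1
      exact zpow_lt_one₀ (by rw [Valuation.pos_iff]; exact hwF) hlt hord
    have h2 : V'.valuation x ≤ 1 := (ValuationSubring.valuation_le_one_iff V' x).2 hx
    rw [map_inv₀] at h1
    have h3 : 0 < V'.valuation x := by rw [Valuation.pos_iff]; exact hx0
    exact absurd h1 (not_lt.2 ((one_le_inv₀ h3).2 h2))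

/-- The height of a maximal ideal of `A1`. -/
theorem two_le_heightN (hA : ChartN A) (hle : A1 ≤ A) (hint : ∀ a ∈ A, IsIntegral A1 a)
    (n : Ideal A1) [hn : n.IsMaximal] : 2 ≤ n.height := by
  letI := (Subalgebra.inclusion hle).toAlgebra
  haveI hI : Algebra.IsIntegral A1 A := by
    constructor
    intro a
    haveI : IsScalarTower A1 A F := IsScalarTower.of_algebraMap_eq fun c => rfl
    exact (isIntegral_algHom_iff (IsScalarTower.toAlgHom A1 A F) Subtype.val_injective).1
      (hint a a.2)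
  have hinj : Function.Injective (algebraMap A1 A) := Subalgebra.inclusion_injective hle
  haveI := hA.noeth
  obtain ⟨m, hm, hmn⟩ := Ideal.exists_ideal_over_maximal_of_isIntegral (S := A) n (by
    rw [(RingHom.injective_iff_ker_eq_bot _).1 hinj]
    exact bot_le)
  have hm2 := hA.height m hm
  have hmb : m ≠ ⊥ := by
    rintro rfl
    rw [Ideal.height_bot] at hm2
    exact absurd hm2 (by decide)
  obtain ⟨a, ha, ha0⟩ := Submodule.exists_mem_ne_zero_of_ne_bot hmb
  haveI := hm.isPrime
  obtain ⟨P, hP, hPm⟩ := Ideal.exists_minimalPrimes_le (I := Ideal.span {a}) (J := m)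
    ((Ideal.span_singleton_le_iff_mem _).2 ha)
  have hPp : P.IsPrime := hP.1.1
  have haP : a ∈ P := hP.1.2 (Ideal.mem_span_singleton_self a)
  have hP1 := Ideal.height_le_one_of_isPrincipal_of_mem_minimalPrimes (Ideal.span {a}) P hP
  have hPne : P ≠ m := by
    rintro rfl
    rw [hm2] at hP1
    exact absurd hP1 (by decide)
  have hPnm : ¬ P.IsMaximal := fun h => hPne (h.eq_of_le hm.ne_top hPm)
  have h1 : (P.comap (algebraMap A1 A)) ≠ ⊥ :=
    Ideal.comap_ne_bot_of_integral_mem ha0 haP (Algebra.IsIntegral.isIntegral a)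
  have h2 : P.comap (algebraMap A1 A) ≤ n := by
    rw [← hmn]
    exact Ideal.comap_mono hPm
  have h3 : P.comap (algebraMap A1 A) ≠ n := by
    intro h
    exact hPnm (max_of_comap_max hle hint P (by
      have : P.comap (Subalgebra.inclusion hle) = n := h
      rw [this]
      exact hn))
  have h4 : (⊥ : Ideal A1) < P.comap (algebraMap A1 A) := bot_lt_iff_ne_bot.2 h1
  have h5 : P.comap (algebraMap A1 A) < n := lt_of_le_of_ne h2 h3
  haveI : (⊥ : Ideal A1).IsPrime := Ideal.isPrime_bot
  have h6 := Ideal.height_add_one_le_of_lt_of_isPrime h4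
  have h7 := Ideal.height_add_one_le_of_lt_of_isPrime h5
  rw [Ideal.height_bot, zero_add] at h6
  calc (2 : ℕ∞) = 1 + 1 := by norm_num
    _ ≤ (P.comap (algebraMap A1 A)).height + 1 := by gcongr
    _ ≤ n.height := h7

/-- (K3) NICE POINT: a maximal ideal of `A1` with two generators locally. -/
theorem nice_pointN (hA : ChartN A) (hle : A1 ≤ A) (hfg1 : A1.FG)
    (hint : ∀ a ∈ A, IsIntegral A1 a) (hfr : IsFractionRing A1 F) (n : Ideal A1)
    [hn : n.IsMaximal] (p q : A1) (hp : p ∈ n) (hq : q ∈ n)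
    (h2 : ∀ a ∈ n, ∃ s u v : A1, s ∉ n ∧ s * a = u * p + v * q) :
    ∀ a ∈ A, ∃ s : A1, s ∉ n ∧ (s : F) * a ∈ A1 := by
  haveI : Algebra.FiniteType k A1 := A1.fg_iff_finiteType.1 hfg1
  haveI : IsNoetherianRing A1 := Algebra.FiniteType.isNoetherianRing k A1
  haveI := hn.isPrime
  let O : Subring F := locSub A1 n
  have hO : IsLoc A1 n O := fun x => Iff.rfl
  letI := (hO.incl hn.isPrime.ne_top).toAlgebra
  haveI := hO.isLocalization
  haveI : IsLocalRing O := IsLocalization.AtPrime.isLocalRing O n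
  haveI : IsNoetherianRing O := IsLocalization.isNoetherianRing n.primeCompl O inferInstance
  have hmap : Ideal.map (algebraMap A1 O) n = maximalIdeal O :=
    IsLocalization.AtPrime.map_eq_maximalIdeal n O
  have hspan : maximalIdeal O = Ideal.span {algebraMap A1 O p, algebraMap A1 O q} := by
    rw [← hmap]
    apply le_antisymm
    · rw [Ideal.map_le_iff_le_comap]
      intro a ha
      obtain ⟨s, u, v, hs, h⟩ := h2 a ha
      rw [Ideal.mem_comap]
      have hu : IsUnit (algebraMap A1 O s) :=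
        (IsLocalization.AtPrime.isUnit_to_map_iff O n s).2 hs
      have h3 : algebraMap A1 O s * algebraMap A1 O a ∈
          Ideal.span {algebraMap A1 O p, algebraMap A1 O q} := by
        rw [← map_mul, h, map_add, map_mul, map_mul]
        exact add_mem (Ideal.mul_mem_left _ _ (Ideal.subset_span (Set.mem_insert _ _)))
          (Ideal.mul_mem_left _ _ (Ideal.subset_span (Set.mem_insert_of_mem _ rfl)))
      exact (Ideal.unit_mul_mem_iff_mem _ hu).1 h3
    · rw [Ideal.span_le]
      rintro _ (rfl | h)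
      · exact Ideal.mem_map_of_mem _ hp
      · rw [Set.mem_singleton_iff] at h
        rw [h]
        exact Ideal.mem_map_of_mem _ hq
  have hsp : (maximalIdeal O).spanFinrank ≤ 2 := by
    rw [hspan]
    refine (Submodule.spanFinrank_span_le_ncard_of_finite
      (Set.toFinite {algebraMap A1 O p, algebraMap A1 O q})).trans ?_
    exact (Set.ncard_insert_le _ _).trans (by rw [Set.ncard_singleton])
  have hdim2 : (2 : WithBot ℕ∞) ≤ ringKrullDim O := by
    rw [IsLocalization.AtPrime.ringKrullDim_eq_height n O]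
    exact WithBot.coe_le_coe.2 (two_le_heightN hA hle hint n)
  have hsp' : ((maximalIdeal O).spanFinrank : WithBot ℕ∞) ≤ 2 := by exact_mod_cast hsp
  haveI hreg : IsRegularLocalRing O :=
    IsRegularLocalRing.of_spanFinrank_maximalIdeal_le O (le_trans hsp' hdim2)
  have hdim : ringKrullDim O = 2 := by
    refine le_antisymm ?_ hdim2
    rw [← IsRegularLocalRing.spanFinrank_maximalIdeal (R := O)]
    exact_mod_cast hsp
  haveI := hfr
  have hfrO : ∀ x : F, ∃ a s : O, (s : F) ≠ 0 ∧ x = (a : F) / s := by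
    intro x
    obtain ⟨a, b, hb, rfl⟩ := IsFractionRing.div_surjective (A := A1) x
    refine ⟨⟨a, hO.coe_mem hn.isPrime.ne_top a⟩, ⟨b, hO.coe_mem hn.isPrime.ne_top b⟩, ?_, rfl⟩
    intro h
    exact (nonZeroDivisors.ne_zero hb) (Subtype.ext h)
  have hL := loc2_of_regular hreg hdim hfrO
  haveI := hL.ufd
  haveI hfF : IsFractionRing O F := by
    refine IsFractionRing.of_field O F ?_
    intro z
    obtain ⟨a, s, _, h⟩ := hfrO z
    exact ⟨a, s, h⟩
  haveI : IsIntegrallyClosed O := inferInstance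
  intro a ha
  have h1 : IsIntegral O a := by
    obtain ⟨P, hP, hPa⟩ := hint a ha
    refine ⟨P.map (hO.incl hn.isPrime.ne_top), hP.map _, ?_⟩
    rw [Polynomial.eval₂_map]
    exact hPa
  obtain ⟨y, hy⟩ := (IsIntegrallyClosed.isIntegral_iff (R := O) (K := F)).1 h1
  obtain ⟨b, s, hs, h⟩ := (hO a).1 (by rw [← hy]; exact y.2)
  refine ⟨s, hs, ?_⟩
  have hs0 := coe_ne_zero_of_notMem hs
  rw [h, mul_div_cancel₀ _ hs0]
  exact b.2

end Pool.Agent.Lib.MP_b197b4_ntK
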