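import Mathlib
import Pool.Agent.Lib.MP_b197b4_ntK.Curve
import Pool.Agent.Lib.MP_b197b4_ntK.Defs2
import Pool.Agent.Lib.MP_b197b4_ntK.Sym
import Pool.Agent.Lib.MP_b197b4_ntK.CurveN

/-!
# MP_b197b4_nt, project K1: functions on a curve regular everywhere are constant (G5), and every
curve meets every hypersurface (G6)
-/

set_option autoImplicit false
set_option linter.style.haveILetI false

namespace Pool.Agent.Lib.MP_b197b4_ntK

open IsLocalRing

variable {k F : Type} [Field k] [Field F] [Algebra k F]

/-- An element of all valuation rings over an algebraically closed field `k` is constant. -/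
theorem G5_const [IsAlgClosed k] {f : F}
    (h : ∀ V : ValuationSubring F, Over k V → f ∈ V) : f ∈ Set.range (algebraMap k F) := by
  have h1 : f ∈ (integralClosure (Subring.closure (Set.range (algebraMap k F))) F).toSubring := by
    rw [← iInf_valuationSubring_superset, Subring.mem_iInf]
    rintro ⟨V, hV⟩
    exact h V fun c => hV ⟨c, rfl⟩
  have hcl : Subring.closure (Set.range (algebraMap k F)) = (algebraMap k F).range := by
    rw [← RingHom.coe_range, Subring.closure_eq]
  have h2 : IsIntegral (Subring.closure (Set.range (algebraMap k F))) f := h1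
  letI : Algebra k (Subring.closure (Set.range (algebraMap k F))) :=
    ((algebraMap k F).codRestrict (Subring.closure (Set.range (algebraMap k F)))
      fun c => Subring.subset_closure (Set.mem_range_self c)).toAlgebra
  haveI : IsScalarTower k (Subring.closure (Set.range (algebraMap k F))) F :=
    IsScalarTower.of_algebraMap_eq fun _ => rfl
  haveI : Algebra.IsIntegral k (Subring.closure (Set.range (algebraMap k F))) := by
    refine ⟨fun y => ?_⟩
    have hy : (y : F) ∈ (algebraMap k F).range := by
      rw [← hcl]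
      exact y.2
    obtain ⟨c, hc⟩ := hy
    have : y = algebraMap k _ c := Subtype.ext hc.symm
    rw [this]
    exact isIntegral_algebraMap
  have h3 : IsIntegral k f := isIntegral_trans f h2
  have h4 := IsAlgClosed.algebraMap_bijective_of_isIntegral (k := k) (K := integralClosure k F)
  obtain ⟨c, hc⟩ := h4.2 ⟨f, h3⟩
  exact ⟨c, congrArg (Subtype.val : integralClosure k F → F) hc⟩

section Change

variable {n : ℕ} {x : Fin (n + 1) → F}

/-- The `i`-th chart. -/
abbrev G5_ch (k : Type) {F : Type} [Field k] [Field F] [Algebra k F] {n : ℕ}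
    (x : Fin (n + 1) → F) (i : Fin (n + 1)) : Subalgebra k F :=
  Algebra.adjoin k (Set.range fun j => x j / x i)

theorem G5_mem (i j : Fin (n + 1)) : x j / x i ∈ G5_ch k x i :=
  Algebra.subset_adjoin ⟨j, rfl⟩

/-- An element of the chart `i'` is a fraction with elements of the chart `i`. -/
theorem G5_frac (hx : ∀ i, x i ≠ 0) (i i' : Fin (n + 1)) {a : F} (ha : a ∈ G5_ch k x i') :
    ∃ N : ℕ, a * (x i' / x i) ^ N ∈ G5_ch k x i := by
  have h0 : x i' / x i ∈ G5_ch k x i := G5_mem i i'
  induction ha using Algebra.adjoin_induction with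
  | mem y hy =>
    obtain ⟨j, rfl⟩ := hy
    refine ⟨1, ?_⟩
    have : (fun j => x j / x i') j * (x i' / x i) ^ 1 = x j / x i := by
      have := hx i
      have := hx i'
      simp only [pow_one]
      field_simp
    rw [this]
    exact G5_mem i j
  | algebraMap r =>
    exact ⟨0, by rw [pow_zero, mul_one]; exact Subalgebra.algebraMap_mem _ r⟩
  | add y z _ _ hy hz =>
    obtain ⟨N, hN⟩ := hy
    obtain ⟨M, hM⟩ := hz
    refine ⟨N + M, ?_⟩
    have : (y + z) * (x i' / x i) ^ (N + M) = y * (x i' / x i) ^ N * (x i' / x i) ^ M +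
        z * (x i' / x i) ^ M * (x i' / x i) ^ N := by ring
    rw [this]
    exact add_mem (mul_mem hN (pow_mem h0 _)) (mul_mem hM (pow_mem h0 _))
  | mul y z _ _ hy hz =>
    obtain ⟨N, hN⟩ := hy
    obtain ⟨M, hM⟩ := hz
    refine ⟨N + M, ?_⟩
    have : (y * z) * (x i' / x i) ^ (N + M) = (y * (x i' / x i) ^ N) * (z * (x i' / x i) ^ M) := by
      ring
    rw [this]
    exact mul_mem hN hM

/-- A curve of the surface is a curve of every chart which it contains. -/
theorem isCurve_of_le (hx : ∀ i, x i ≠ 0) {V : ValuationSubring F}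
    (hV : V ∈ Curves (charts k x)) {i : Fin (n + 1)} (hi : ∀ j, x j / x i ∈ V) :
    IsCurve (G5_ch k x i) V := by
  obtain ⟨A, ⟨i', rfl⟩, hA⟩ := hV
  have hk : Over k V := fun c => hA.2.1 _ (Subalgebra.algebraMap_mem _ c)
  have hiV : ∀ a ∈ G5_ch k x i, a ∈ V := by
    intro a ha
    induction ha using Algebra.adjoin_induction with
    | mem y hy =>
      obtain ⟨j, rfl⟩ := hy
      exact hi j
    | algebraMap r => exact hk r
    | add y z _ _ hy hz => exact add_mem hy hz
    | mul y z _ _ hy hz => exact mul_mem hy hz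
  refine ⟨hA.1, hiV, ?_⟩
  have h1 : V.valuation (x i' / x i) = 1 := by
    refine le_antisymm ((ValuationSubring.valuation_le_one_iff V _).2 (hi i')) ?_
    have h2 : V.valuation (x i / x i') ≤ 1 :=
      (ValuationSubring.valuation_le_one_iff V _).2 (hA.2.1 _ (G5_mem i' i))
    have h3 : x i / x i' = (x i' / x i)⁻¹ := by rw [inv_div]
    rw [h3, map_inv₀] at h2
    have h4 : 0 < V.valuation (x i' / x i) := by
      rw [Valuation.pos_iff]
      exact div_ne_zero (hx _) (hx _)
    exact (inv_le_one₀ h4).1 h2
  intro y hy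
  obtain ⟨a, s, ha, hs, hs1, rfl⟩ := hA.2.2 y hy
  obtain ⟨N, hN⟩ := G5_frac hx i i' ha
  obtain ⟨M, hM⟩ := G5_frac hx i i' hs
  have h0 : x i' / x i ≠ 0 := div_ne_zero (hx _) (hx _)
  have hs0 := ne_zero_of_val_one hs1
  refine ⟨a * (x i' / x i) ^ N * (x i' / x i) ^ M, s * (x i' / x i) ^ M * (x i' / x i) ^ N,
    mul_mem hN (pow_mem (G5_mem i i') _), mul_mem hM (pow_mem (G5_mem i i') _), ?_, ?_⟩
  · rw [map_mul, map_mul, map_pow, map_pow, h1, hs1]
    simp
  · have h5 := pow_ne_zero N h0
    have h6 := pow_ne_zero M h0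
    rw [div_eq_div_iff hs0 (mul_ne_zero (mul_ne_zero hs0 h6) h5)]
    ring

theorem Curves.over {V : ValuationSubring F} (hV : V ∈ Curves (charts k x)) : Over k V := by
  obtain ⟨A, _, hA⟩ := hV
  exact fun c => hA.2.1 _ (Subalgebra.algebraMap_mem _ c)

theorem Curves.dvr {V : ValuationSubring F} (hV : V ∈ Curves (charts k x)) :
    IsDiscreteValuationRing V := by
  obtain ⟨A, _, hA⟩ := hV
  exact hA.1

/-- The coordinate functions at a curve. -/
theorem coord_mem {V : ValuationSubring F} (hd : IsDiscreteValuationRing V)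
    (hx : ∀ i, x i ≠ 0) (j : Fin (n + 1)) : x j / x (idx x V) ∈ V := by
  rw [← ord_nonneg_iff hd (div_ne_zero (hx j) (hx _)), ord_div hd (hx j) (hx _)]
  have := idx_le x V j
  omega

end Change

/-- The constants in a curve. -/
def constHom {V : ValuationSubring F} (hV : Over k V) : k →+* V :=
  (algebraMap k F).codRestrict V.toSubring hV

theorem residue_constHom {V : ValuationSubring F} (hV : Over k V) (c : k) :
    residue V (constHom hV c) = res V (algebraMap k F c) := by
  rw [res_of_mem (hV c)]
  rfl

/-- If `A ⊆ V` is a chart with curve `V` and `W` is a valuation ring of the residue field of `V`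
which contains the residues of `A`, then `W` contains the local ring of the curve `V` at some
closed point of `A` on `V`, or `W` is everything. -/
theorem G5_center {A : Subalgebra k F} (hA : ChartN A) {V : ValuationSubring F}
    (hV : IsCurve A V) (W : ValuationSubring (ResidueField V)) (hW : ∀ a ∈ A, res V a ∈ W) :
    (∃ (O : Subring F) (m : Ideal A), m.IsMaximal ∧ IsLoc A m O ∧ (O : Set F) ⊆ V ∧
      ∀ y ∈ curveLoc O V, y ∈ W) ∨ ∀ y, y ∈ W := by
  -- the centre of `W` on `A`
  let φ : A →+* W := ((residue V).comp (incl hV.2.1)).codRestrict W.toSubring (by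
    intro a
    have := hW a a.2
    rw [res_of_mem (hV.2.1 a a.2)] at this
    exact this)
  have hφ : ∀ a : A, (φ a : ResidueField V) = res V (a : F) := by
    intro a
    rw [res_of_mem (hV.2.1 a a.2)]
    rfl
  let q : Ideal A := (maximalIdeal W).comap φ
  have hqp : q.IsPrime := inferInstance
  have hq : ∀ a : A, a ∈ q ↔ W.valuation (res V (a : F)) < 1 := by
    intro a
    rw [← hφ a]
    exact ValuationSubring.valuation_lt_one_iff W (φ a)
  have hqn : ∀ a : A, a ∉ q → res V (a : F) ≠ 0 ∧ (res V (a : F))⁻¹ ∈ W := by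
    intro a ha
    rw [hq] at ha
    have h1 : res V (a : F) ≠ 0 := by
      intro h
      rw [h, map_zero] at ha
      exact ha zero_lt_one
    refine ⟨h1, ?_⟩
    rw [← ValuationSubring.valuation_le_one_iff, map_inv₀]
    exact (inv_le_one₀ (by rw [Valuation.pos_iff]; exact h1)).2 (not_lt.1 ha)
  obtain ⟨P, hPp, hP⟩ := exists_primeOf hV.2.1
  have hPq : P ≤ q := by
    intro a ha
    by_contra hn
    exact (hqn a hn).1 ((res_eq_zero_iff (hV.2.1 a a.2)).2 ((hP a).1 ha))
  by_cases hmax : q.IsMaximal
  · left
    haveI := hqp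
    refine ⟨locSub A q, q, hmax, fun y => Iff.rfl, ?_, ?_⟩
    · rintro y ⟨a, s, hs, rfl⟩
      have h1 : V.valuation (s : F) = 1 := by
        refine (hP.val_one hV.2.1 s).1 fun h => hs (hPq h)
      change (a : F) / (s : F) ∈ V
      rw [div_eq_mul_inv]
      refine mul_mem (hV.2.1 a a.2) ?_
      rw [← ValuationSubring.valuation_le_one_iff, map_inv₀, h1, inv_one]
    · rintro y ⟨z, ⟨a, s, hs, hz⟩, rfl⟩
      have h1 : V.valuation (s : F) = 1 := by
        refine (hP.val_one hV.2.1 s).1 fun h => hs (hPq h)
      have h2 : residue V z = res V (a : F) / res V (s : F) := by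
        rw [← res_div (hV.2.1 a a.2) h1, ← hz]
        exact (res_of_mem z.2).symm
      rw [h2, div_eq_mul_inv]
      exact mul_mem (hW a a.2) (hqn s hs).2
  · right
    have hPeq : P = q := by
      by_contra hne
      have h1 : P < q := lt_of_le_of_ne hPq hne
      obtain ⟨m, hm, hqm⟩ := Ideal.exists_le_maximal q hqp.ne_top
      have h2 : q < m := lt_of_le_of_ne hqm (fun h => hmax (h ▸ hm))
      haveI := hm.isPrime
      haveI := hPp
      haveI := hqp
      haveI := hA.noeth
      have h3 : P.height < q.height := Ideal.height_strict_mono_of_isPrime h1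
      have h4 : q.height < m.height := Ideal.height_strict_mono_of_isPrime h2
      rw [hV.height hP] at h3
      rw [hA.height m hm] at h4
      have h5 : (1 : ℕ∞) + 1 ≤ q.height := Order.add_one_le_of_lt h3
      rw [one_add_one_eq_two] at h5
      exact absurd h4 (not_lt.2 h5)
    intro y
    obtain ⟨a, s, hs, rfl⟩ := hV.res_frac y
    rw [div_eq_mul_inv]
    refine mul_mem (hW a a.2) (hqn s ?_).2
    rw [← hPeq]
    exact (hP.val_one hV.2.1 s).2 hs

/-- **(G5)** (normal surfaces) A function on a curve which is regular at all closed points is constant. -/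
theorem curve_constN [IsAlgClosed k] {n : ℕ} {x : Fin (n + 1) → F} (hx : SurfN k x)
    {V : ValuationSubring F} (hV : V ∈ Curves (charts k x)) {u : ResidueField V}
    (h : ∀ O ∈ Points (charts k x), (O : Set F) ⊆ V → u ∈ curveLoc O V) :
    ∃ c : k, u = res V (algebraMap k F c) := by
  have hk := Curves.over hV
  have hd := Curves.dvr hV
  letI : Algebra k (ResidueField V) := ((residue V).comp (constHom hk)).toAlgebra
  have halg : ∀ c : k, algebraMap k (ResidueField V) c = res V (algebraMap k F c) :=
    fun c => residue_constHom hk c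
  obtain ⟨c, hc⟩ := G5_const (k := k) (F := ResidueField V) (f := u) (by
    intro W hW
    -- the coordinates of the curve
    let y : Fin (n + 1) → ResidueField V := fun j => res V (x j / x (idx x V))
    obtain ⟨i, -, hi⟩ := Finset.exists_max_image Finset.univ (fun i => W.valuation (y i))
      ⟨0, Finset.mem_univ _⟩
    have hy1 : y (idx x V) = 1 := by
      change res V (x (idx x V) / x (idx x V)) = 1
      rw [div_self (hx.ne _), res_one]
    have hyi : y i ≠ 0 := by
      intro h0
      have := hi (idx x V) (Finset.mem_univ _)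
      rw [hy1, h0, map_zero, map_one] at this
      exact absurd this (not_le.2 zero_lt_one)
    have hv1 : V.valuation (x i / x (idx x V)) = 1 := by
      refine le_antisymm ((ValuationSubring.valuation_le_one_iff V _).2 (coord_mem hd hx.ne i)) ?_
      by_contra hlt
      exact hyi ((res_eq_zero_iff (coord_mem hd hx.ne i)).2 (not_le.1 hlt))
    have hmem : ∀ j, x j / x i ∈ V := by
      intro j
      have h1 : x j / x i = (x j / x (idx x V)) * (x i / x (idx x V))⁻¹ := by
        have := hx.ne i
        have := hx.ne (idx x V)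
        field_simp
      rw [h1]
      refine mul_mem (coord_mem hd hx.ne j) ?_
      rw [← ValuationSubring.valuation_le_one_iff, map_inv₀, hv1, inv_one]
    have hres : ∀ j, res V (x j / x i) = y j / y i := by
      intro j
      change _ = res V (x j / x (idx x V)) / res V (x i / x (idx x V))
      rw [← res_div (coord_mem hd hx.ne j) hv1]
      congr 1
      have := hx.ne i
      have := hx.ne (idx x V)
      field_simp
    have hCi := isCurve_of_le hx.ne hV hmem
    have hWi : ∀ a ∈ G5_ch k x i, res V a ∈ W := by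
      intro a ha
      induction ha using Algebra.adjoin_induction with
      | mem z hz =>
        obtain ⟨j, rfl⟩ := hz
        change res V (x j / x i) ∈ W
        rw [hres j, ← ValuationSubring.valuation_le_one_iff, map_div₀]
        exact div_le_one_of_le₀ (hi j (Finset.mem_univ j)) zero_le
      | algebraMap r =>
        rw [← halg r]
        exact hW r
      | add a b ha hb h1 h2 =>
        rw [res_add (hCi.2.1 a ha) (hCi.2.1 b hb)]
        exact add_mem h1 h2
      | mul a b ha hb h1 h2 =>
        rw [res_mul (hCi.2.1 a ha) (hCi.2.1 b hb)]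
        exact mul_mem h1 h2
    rcases G5_center (hx.chart i) hCi W hWi with ⟨O, m, hm, hO, hOV, hOW⟩ | hall
    · exact hOW u (h O ⟨_, ⟨i, rfl⟩, m, hm, hO⟩ hOV)
    · exact hall u)
  exact ⟨c, by rw [← hc, halg c]⟩

/-- **(G5)** A function on a curve which is regular at all closed points is constant. -/
theorem curve_const [IsAlgClosed k] {n : ℕ} {x : Fin (n + 1) → F} (hx : Surf k x)
    {V : ValuationSubring F} (hV : V ∈ Curves (charts k x)) {u : ResidueField V}
    (h : ∀ O ∈ Points (charts k x), (O : Set F) ⊆ V → u ∈ curveLoc O V) :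
    ∃ c : k, u = res V (algebraMap k F c) :=
  curve_constN hx.toN hV h

/-- **(G6)** (normal surfaces) Every curve meets every hypersurface. -/
theorem curve_meetsN [IsAlgClosed k] {n : ℕ} {x : Fin (n + 1) → F} (hx : SurfN k x)
    {V : ValuationSubring F} (hV : V ∈ Curves (charts k x)) {b : ℕ} (hb : 0 < b) {s : F}
    (hs : s ∈ hom k x b) (hs0 : s ≠ 0) :
    ∃ O ∈ Points (charts k x), (O : Set F) ⊆ V ∧
      ∀ i, (∀ j, x j / x i ∈ O) → (s / x i ^ b)⁻¹ ∉ O := by
  have hk := Curves.over hV
  have hd := Curves.dvr hV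
  have hCi := isCurve_of_le hx.ne hV (coord_mem hd hx.ne)
  by_contra hcon
  push Not at hcon
  -- the functions `x j ^ b / s` are regular at all closed points of the curve
  have hreg : ∀ O ∈ Points (charts k x), (O : Set F) ⊆ V → ∀ j, x j ^ b / s ∈ O := by
    intro O hO hOV j
    obtain ⟨i, hi, hi2⟩ := hcon O hO hOV
    have h1 : x j ^ b / s = (x j / x i) ^ b * (s / x i ^ b)⁻¹ := by
      have := pow_ne_zero b (hx.ne i)
      rw [div_pow, inv_div]
      field_simp
    rw [h1]
    exact mul_mem (pow_mem (hi j) b) hi2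
  -- there is a closed point on the curve
  obtain ⟨O0, hO0, hO0V⟩ : ∃ O ∈ Points (charts k x), (O : Set F) ⊆ V := by
    obtain ⟨P, hPp, hP⟩ := exists_primeOf hCi.2.1
    obtain ⟨m, hm, hPm⟩ := Ideal.exists_le_maximal P hPp.ne_top
    haveI := hm.isPrime
    refine ⟨locSub _ m, ⟨_, ⟨idx x V, rfl⟩, m, hm, fun y => Iff.rfl⟩, ?_⟩
    rintro y ⟨a, t, ht, rfl⟩
    have h1 : V.valuation (t : F) = 1 := (hP.val_one hCi.2.1 t).1 fun h => ht (hPm h)
    change (a : F) / (t : F) ∈ V
    rw [div_eq_mul_inv]
    refine mul_mem (hCi.2.1 a a.2) ?_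
    rw [← ValuationSubring.valuation_le_one_iff, map_inv₀, h1, inv_one]
  have hmemV : ∀ j, x j ^ b / s ∈ V := fun j => hO0V (hreg O0 hO0 hO0V j)
  have hconst : ∀ j, ∃ c : k, res V (x j ^ b / s) = res V (algebraMap k F c) := by
    intro j
    refine curve_constN hx hV fun O hO hOV => ?_
    refine ⟨⟨x j ^ b / s, hmemV j⟩, hreg O hO hOV j, ?_⟩
    rw [res_of_mem (hmemV j)]
  choose c hc using hconst
  -- the coordinate which does not vanish on the curve
  set i := idx x V with hidef
  have hsb : s / x i ^ b ∈ V := by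
    have := hat_mem hd hk hx.ne hs
    unfold hat at this
    rwa [zpow_natCast] at this
  have hci : V.valuation (x i ^ b / s) = 1 := by
    refine le_antisymm ((ValuationSubring.valuation_le_one_iff V _).2 (hmemV i)) ?_
    have h1 : V.valuation (s / x i ^ b) ≤ 1 := (ValuationSubring.valuation_le_one_iff V _).2 hsb
    rw [show s / x i ^ b = (x i ^ b / s)⁻¹ by rw [inv_div], map_inv₀] at h1
    refine (inv_le_one₀ ?_).1 h1
    rw [Valuation.pos_iff]
    exact div_ne_zero (pow_ne_zero _ (hx.ne i)) hs0
  letI : Algebra k (ResidueField V) := ((residue V).comp (constHom hk)).toAlgebra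
  have halg : ∀ c : k, algebraMap k (ResidueField V) c = res V (algebraMap k F c) :=
    fun c => residue_constHom hk c
  have hroot : ∀ j, res V (x j / x i) ∈ Set.range (algebraMap k (ResidueField V)) := by
    intro j
    have h1 : res V (x j / x i) ^ b = algebraMap k (ResidueField V) (c j / c i) := by
      rw [← res_pow (coord_mem hd hx.ne j)]
      have h2 : (x j / x i) ^ b = (x j ^ b / s) / (x i ^ b / s) := by
        have := pow_ne_zero b (hx.ne i)
        rw [div_pow]
        field_simp
      rw [h2, res_div (hmemV j) hci, hc j, hc i, map_div₀, halg, halg]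
    have h2 : IsIntegral k (res V (x j / x i)) := by
      refine IsIntegral.of_pow hb ?_
      rw [h1]
      exact isIntegral_algebraMap
    have h3 := IsAlgClosed.algebraMap_bijective_of_isIntegral (k := k)
      (K := integralClosure k (ResidueField V))
    obtain ⟨d, hd2⟩ := h3.2 ⟨_, h2⟩
    exact ⟨d, congrArg (Subtype.val : integralClosure k (ResidueField V) → ResidueField V) hd2⟩
  -- so all functions on the chart are constant on the curve
  have hall : ∀ a ∈ G5_ch k x i, ∃ d : k, res V a = algebraMap k (ResidueField V) d := by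
    intro a ha
    induction ha using Algebra.adjoin_induction with
    | mem z hz =>
      obtain ⟨j, rfl⟩ := hz
      obtain ⟨d, hd2⟩ := hroot j
      exact ⟨d, hd2.symm⟩
    | algebraMap r => exact ⟨r, (halg r).symm⟩
    | add a b ha hb h1 h2 =>
      obtain ⟨d1, h1⟩ := h1
      obtain ⟨d2, h2⟩ := h2
      refine ⟨d1 + d2, ?_⟩
      rw [res_add (hCi.2.1 a ha) (hCi.2.1 b hb), h1, h2, map_add]
    | mul a b ha hb h1 h2 =>
      obtain ⟨d1, h1⟩ := h1
      obtain ⟨d2, h2⟩ := h2
      refine ⟨d1 * d2, ?_⟩
      rw [res_mul (hCi.2.1 a ha) (hCi.2.1 b hb), h1, h2, map_mul]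
  obtain ⟨P, hPp, hP⟩ := exists_primeOf hCi.2.1
  have hPmax : P.IsMaximal := by
    rw [Ideal.isMaximal_iff]
    refine ⟨(Ideal.ne_top_iff_one P).1 hPp.ne_top, ?_⟩
    intro J a hPJ haP haJ
    obtain ⟨d, hd2⟩ := hall a a.2
    have hd0 : d ≠ 0 := by
      rintro rfl
      rw [map_zero, res_eq_zero_iff (hCi.2.1 a a.2)] at hd2
      exact haP ((hP a).2 hd2)
    have h1 : a - algebraMap k _ d ∈ P := by
      rw [hP, ← res_eq_zero_iff (hCi.2.1 _ (Subtype.mem _))]
      push_cast
      rw [res_sub (hCi.2.1 a a.2) (hk d), hd2, halg, sub_self]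
    have h2 : algebraMap k _ d ∈ J := by
      have := J.sub_mem haJ (hPJ h1)
      rwa [sub_sub_cancel] at this
    have h3 := J.mul_mem_left (algebraMap k _ d⁻¹) h2
    rwa [← map_mul, inv_mul_cancel₀ hd0, map_one] at h3
  have h1 := (hx.chart i).height P hPmax
  rw [hCi.height hP] at h1
  exact absurd h1 (by decide)

/-- **(G6)** Every curve meets every hypersurface. -/
theorem curve_meets [IsAlgClosed k] {n : ℕ} {x : Fin (n + 1) → F} (hx : Surf k x)
    {V : ValuationSubring F} (hV : V ∈ Curves (charts k x)) {b : ℕ} (hb : 0 < b) {s : F}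
    (hs : s ∈ hom k x b) (hs0 : s ≠ 0) :
    ∃ O ∈ Points (charts k x), (O : Set F) ⊆ V ∧
      ∀ i, (∀ j, x j / x i ∈ O) → (s / x i ^ b)⁻¹ ∉ O :=
  curve_meetsN hx.toN hV hb hs hs0

end Pool.Agent.Lib.MP_b197b4_ntK
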