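import Pool.Agent.Lib.MP_b197b4_ntK.BF

/-!
# MP_b197b4_nt, project K1, B': regular points of curves, end of the proof
-/

set_option autoImplicit false
set_option linter.unusedSectionVars false

namespace Pool.Agent.Lib.MP_b197b4_ntK

open IsLocalRing Pool.Agent.K1

variable {k : Type} {F : Type} [Field k] [Field F] [Algebra k F]

section Reg

variable {O : Subring F} {V : ValuationSubring F}

/-- A curve on which a parameter vanishes is regular at the point. -/
theorem regC_of_param [IsLocalRing O] (hL : Loc2 O)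
    (hdim : ∀ w ∈ maximalIdeal O, ∀ N : ℕ, ¬ maximalIdeal O ^ N ≤ Ideal.span {w}) {x z : O}
    (hm : maximalIdeal O = Ideal.span {x, z}) (hV : V ∈ CurvesAt O)
    (hx : V.valuation (x : F) < 1) : RegC O V := by
  have := hL.noeth
  obtain ⟨p, hp, hpV⟩ := CurvesAt.exists_prime hL hV
  have hsurj := toCurveLoc_surjective hV
  have hloc : IsLocalRing (curveLoc O V) := IsLocalRing.of_surjective' _ hsurj
  have hnoe : IsNoetherianRing (curveLoc O V) := isNoetherianRing_of_surjective _ _ _ hsurj
  have hmap := IsLocalRing.map_maximalIdeal_of_surjective (toCurveLoc hV) hsurj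
  have hx0 : toCurveLoc hV x = 0 := by
    apply Subtype.ext
    exact (res_eq_zero_iff (hV.2.1 x x.2)).2 hx
  have hmax : maximalIdeal (curveLoc O V) = Ideal.span {toCurveLoc hV z} := by
    rw [← hmap, hm, Ideal.map_span, Set.image_pair, hx0]
    apply le_antisymm
    · rw [Ideal.span_le]
      rintro y (rfl | rfl)
      · exact Ideal.zero_mem _
      · exact Ideal.mem_span_singleton_self _
    · rw [Ideal.span_le]
      rintro y rfl
      exact Ideal.subset_span (by simp)
  have hnf : ¬ IsField (curveLoc O V) := by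
    rw [IsLocalRing.isField_iff_maximalIdeal_eq]
    intro h0
    rw [hmax, Ideal.span_singleton_eq_bot] at h0
    -- then the maximal ideal of `O` is principal
    have h1 : V.valuation (z : F) < 1 := by
      rw [← res_eq_zero_iff (hV.2.1 z z.2)]
      exact congrArg Subtype.val h0
    refine hdim p ((mem_maximalIdeal p).2 hp.not_isUnit) 1 ?_
    rw [pow_one, hm, Ideal.span_le]
    rintro y (rfl | rfl)
    · exact Ideal.mem_span_singleton.2 ((CurvesAt.dvd_iff hV hp hpV _).1 hx)
    · exact Ideal.mem_span_singleton.2 ((CurvesAt.dvd_iff hV hp hpV _).1 h1)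
  have htfae := IsDiscreteValuationRing.TFAE (curveLoc O V) hnf
  have hpr : Submodule.IsPrincipal (maximalIdeal (curveLoc O V)) :=
    ⟨⟨toCurveLoc hV z, hmax⟩⟩
  exact (htfae.out 0 4).2 hpr

/-- An element outside of `m ^ 2` is one of two generators of `m`. -/
theorem exists_second [IsLocalRing O] {x z g : O} (hm : maximalIdeal O = Ideal.span {x, z})
    (hg : g ∈ maximalIdeal O) (hg2 : g ∉ maximalIdeal O ^ 2) :
    ∃ y : O, maximalIdeal O = Ideal.span {g, y} := by
  have hx : x ∈ maximalIdeal O := by rw [hm]; exact Ideal.subset_span (by simp)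
  have hz : z ∈ maximalIdeal O := by rw [hm]; exact Ideal.subset_span (by simp)
  have h1 := hg
  rw [hm] at h1
  obtain ⟨α, β, h2⟩ := Ideal.mem_span_pair.1 h1
  have h3 : IsUnit α ∨ IsUnit β := by
    by_contra hcon
    push Not at hcon
    apply hg2
    rw [← h2, pow_two]
    exact Ideal.add_mem _ (Ideal.mul_mem_mul ((mem_maximalIdeal α).2 hcon.1) hx)
      (Ideal.mul_mem_mul ((mem_maximalIdeal β).2 hcon.2) hz)
  rcases h3 with h3 | h3
  · refine ⟨z, le_antisymm ?_ ?_⟩
    · rw [hm, Ideal.span_le]
      rintro y (rfl | rfl)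
      · obtain ⟨γ, hγ⟩ := h3.exists_left_inv
        have h4 : y = γ * g + (-(γ * β)) * z := by
          rw [← h2]
          linear_combination (-y) * hγ
        rw [h4]
        exact Ideal.add_mem _ (Ideal.mul_mem_left _ _ (Ideal.subset_span (by simp)))
          (Ideal.mul_mem_left _ _ (Ideal.subset_span (by simp)))
      · exact Ideal.subset_span (by simp)
    · rw [Ideal.span_le]
      rintro y (rfl | rfl)
      · exact hg
      · exact hz
  · refine ⟨x, le_antisymm ?_ ?_⟩
    · rw [hm, Ideal.span_le]
      rintro y (rfl | rfl)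
      · exact Ideal.subset_span (by simp)
      · obtain ⟨γ, hγ⟩ := h3.exists_left_inv
        have h4 : y = γ * g + (-(γ * α)) * x := by
          rw [← h2]
          linear_combination (-y) * hγ
        rw [h4]
        exact Ideal.add_mem _ (Ideal.mul_mem_left _ _ (Ideal.subset_span (by simp)))
          (Ideal.mul_mem_left _ _ (Ideal.subset_span (by simp)))
    · rw [Ideal.span_le]
      rintro y (rfl | rfl)
      · exact hg
      · exact hx

/-- A curve on which an element outside of `m ^ 2` vanishes is regular at the point. -/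
theorem regC_of_not_sq [IsLocalRing O] (hL : Loc2 O)
    (hdim : ∀ w ∈ maximalIdeal O, ∀ N : ℕ, ¬ maximalIdeal O ^ N ≤ Ideal.span {w}) {x z g : O}
    (hm : maximalIdeal O = Ideal.span {x, z}) (hV : V ∈ CurvesAt O)
    (hg : V.valuation (g : F) < 1) (hg2 : g ∉ maximalIdeal O ^ 2) : RegC O V := by
  have hgm : g ∈ maximalIdeal O := by
    rw [mem_maximalIdeal, mem_nonunits_iff]
    intro h
    exact hg.ne (CurvesAt.isUnit hV h)
  obtain ⟨y, hy⟩ := exists_second hm hgm hg2
  exact regC_of_param hL hdim hy hV hg

end Reg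

section Main

variable {n : ℕ} {x : Fin (n + 1) → F} {l : ∀ V : ValuationSubring F, ResidueField V → ℚ}
  {e : ValuationSubring F → ℚ}

/-- **B'.** A form which kills the tame symbols and the functions which are units at all singular
points of the curves is zero. -/
theorem bprime [IsAlgClosed k] (hS : Surf k x) (hl : Forms k (Curves (charts k x)) l)
    (hk : KillsReg (charts k x) l)
    (hca : CurveApprox (charts k x)) (hsing : SingFin (charts k x)) (hgp : GenPos k x)
    (he : ∀ (f g : F) (a b : ℤ), f ≠ 0 → g ≠ 0 → LS x (Curves (charts k x)) l e f a g b = 0) :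
    ∀ V ∈ Curves (charts k x), ∀ u : ResidueField V, u ≠ 0 → l V u = 0 := by
  intro V hV u hu
  have hsep := hS.sep
  have hch := surf_chart hS hl hk hca hsing hgp he
  refine form_eq_zero hl hk hsep hca hsing ?_ hV hu
  intro O hO V hV hOV u hu
  have hloc := points_local hch hO
  have hL := loc2_of_points hch hO
  obtain ⟨X, Z, hm⟩ := points_pair hch hO
  have hdim : ∀ w ∈ maximalIdeal O, ∀ N : ℕ, ¬ maximalIdeal O ^ N ≤ Ideal.span {w} :=
    fun w hw N => points_not_pow_le hch hO w hw N
  refine EE_eq_zero hl hk hsep hca hO hL hm ?_ hV hOV hu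
  intro f g hfg
  let := ptAlg hO
  refine LocSym.eq_zero (LL_locSym hl hk hsep hca hO hL hdim ?_) k hm
    (fun a => points_residue hch hO a) hdim ?_ hfg
  · intro f₁ f₂ g hf₁ hf₂ h₁ h₂ N
    exact LL_approx hS hl hk hca hsing hgp he hO f₁ f₂ g hf₁ hf₂ h₁ h₂ N
  · unfold LL
    apply finsum_mem_eq_zero_of_forall_eq_zero
    intro V' hV'
    obtain ⟨h1, h2⟩ := (curves_point hsep hO V').2 hV'
    have hX0 : X ≠ 0 := by
      rintro rfl
      refine hdim Z (by rw [hm]; exact Ideal.subset_span (by simp)) 1 ?_
      rw [pow_one, hm, Ideal.span_le]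
      rintro y (rfl | rfl)
      · exact Ideal.zero_mem _
      · exact Ideal.mem_span_singleton_self _
    have hX0' : (X : F) ≠ 0 := fun h => hX0 (Subtype.ext h)
    rcases CurvesAt.lt_or_eq hV' X with h3 | h3
    · have hr := regC_of_param hL hdim hm hV' h3
      have hZ : V'.valuation (Z : F) = 1 := by
        refine (CurvesAt.lt_or_eq hV' Z).resolve_left fun h4 => ?_
        obtain ⟨p, hp, hpV⟩ := CurvesAt.exists_prime hL hV'
        refine hdim p ((mem_maximalIdeal p).2 hp.not_isUnit) 1 ?_
        rw [pow_one, hm, Ideal.span_le]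
        rintro y (rfl | rfl)
        · exact Ideal.mem_span_singleton.2 ((CurvesAt.dvd_iff hV' hp hpV _).1 h3)
        · exact Ideal.mem_span_singleton.2 ((CurvesAt.dvd_iff hV' hp hpV _).1 h4)
      rw [EE_reg hl hk hsep hca h1 hO h2 ((res_ne_zero_iff (mem_of_val_one hZ)).2 hZ) hr, mul_zero]
    · rw [(ord_eq_zero_iff hV'.1 hX0').2 h3]
      simp

end Main

end Pool.Agent.Lib.MP_b197b4_ntK
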