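import Pool.Agent.Lib.MP_b197b4_ntK.BZ
import Pool.Agent.Lib.MP_b197b4_ntK.SingC
import Pool.Agent.Lib.MP_b197b4_ntG.Interp
import Pool.Agent.Lib.MP_b197b4_ntG.AvoidGen

/-!
# MP_b197b4_nt, project K1, B': approximation on the curves
-/

set_option autoImplicit false

namespace Pool.Agent.Lib.MP_b197b4_ntK

open IsLocalRing Pool.Agent.K1

variable {k : Type} {F : Type} [Field k] [Field F] [Algebra k F] {n : ℕ}
  {x : Fin (n + 1) → F}

theorem Surf.charts_chart (hS : Surf k x) : ∀ A ∈ charts k x, Chart A := by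
  rintro _ ⟨i, rfl⟩
  exact hS.chart i

/-- Close to `a`: a unit times `a` modulo the prime ideal of the curve. -/
theorem close_unit {O : Subring F} [IsLocalRing O] {V : ValuationSubring F} (hV : V ∈ CurvesAt O)
    {p a b : O} (hpV : V.valuation (p : F) < 1) (ha : V.valuation (a : F) = 1) {N : ℕ}
    (hN : maximalIdeal O ^ N ≤ Ideal.span {p, a}) (hb : b - a ∈ maximalIdeal O ^ (N + 1)) :
    V.valuation (b : F) = 1 ∧ UnitAt O V (res V (b : F) / res V (a : F)) := by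
  obtain ⟨α, β, hβ, h1⟩ := small_repr hN hb
  have h2 : b = (1 + β) * a + α * p := by linear_combination h1
  have h3 : IsUnit (1 + β) := isUnit_one_add hβ
  have h4 : V.valuation (((1 + β : O)) : F) = 1 := CurvesAt.isUnit hV h3
  have h5 : (b : F) = ((1 + β : O) : F) * a + (α : F) * p := by
    rw [h2]
    rfl
  have hp0 : res V (p : F) = 0 := (res_eq_zero_iff (hV.2.1 p p.2)).2 hpV
  have h6 : res V (b : F) = res V ((1 + β : O) : F) * res V (a : F) := by
    rw [h5, res_add (mul_mem (mem_of_val_one h4) (mem_of_val_one ha))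
      (mul_mem (hV.2.1 α α.2) (hV.2.1 p p.2)), res_mul (mem_of_val_one h4) (mem_of_val_one ha),
      res_mul (hV.2.1 α α.2) (hV.2.1 p p.2), hp0, mul_zero, add_zero]
  have ha0 : res V (a : F) ≠ 0 := (res_ne_zero_iff (mem_of_val_one ha)).2 ha
  constructor
  · rw [← res_ne_zero_iff (hV.2.1 b b.2), h6]
    exact mul_ne_zero ((res_ne_zero_iff (mem_of_val_one h4)).2 h4) ha0
  · rw [h6, mul_div_cancel_right₀ _ ha0]
    exact ⟨_, h3, rfl⟩

/-- An element close to one is a unit. -/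
theorem isUnit_of_sub_one_mem {O : Subring F} [IsLocalRing O] {b : O} {N : ℕ}
    (hb : b - 1 ∈ maximalIdeal O ^ (N + 1)) : IsUnit b := by
  by_contra hcon
  have h1 := (mem_maximalIdeal b).2 hcon
  have h2 := Ideal.pow_le_self (Nat.succ_ne_zero N) hb
  have h3 := Ideal.sub_mem _ h1 h2
  rw [sub_sub_cancel] at h3
  exact (mem_maximalIdeal (1 : O)).1 h3 isUnit_one

theorem elem_approx [Infinite k] (hS : Surf k x) {V : ValuationSubring F}
    (hV : V ∈ Curves (charts k x)) {S : Set (Subring F)} (hSf : S.Finite)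
    (hSP : ∀ O ∈ S, O ∈ Points (charts k x) ∧ (O : Set F) ⊆ V) {O₀ : Subring F} (hO₀ : O₀ ∈ S)
    (a : O₀) (ha : V.valuation (a : F) = 1) :
    ∃ b : F, V.valuation b = 1 ∧ UnitAt O₀ V (res V b / res V (a : F)) ∧
      ∀ O ∈ S, O ≠ O₀ → UnitAt O V (res V b) := by
  classical
  have hch := hS.charts_chart
  have hsep := hS.sep
  obtain ⟨w, _, hw, hw0, hwm⟩ := gen_all hS (S := ∅) Set.finite_empty
    (fun V hV => absurd hV (Set.notMem_empty V)) hSf (fun O hO => (hSP O hO).1)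
  have hP₀ := (hSP O₀ hO₀).1
  have hloc := points_local hch hP₀
  have hL := loc2_of_points hch hP₀
  have := hL.noeth
  have hVO := (curves_point hsep hP₀ V).1 ⟨hV, (hSP O₀ hO₀).2⟩
  obtain ⟨X, Z, hm⟩ := points_pair hch hP₀
  obtain ⟨p, hp, hpV⟩ := CurvesAt.exists_prime hL hVO
  obtain ⟨N, hN⟩ := cop_of_prime hm hp ((CurvesAt.unit_iff hVO hp hpV a).1 ha)
  obtain ⟨M₀, hM₀⟩ := interp hS.ne hwm hw0 hSf (fun O hO => ⟨(hSP O hO).1, hw O hO⟩) (N + 1)
  obtain ⟨q, hq, hqT⟩ := hM₀ M₀ le_rfl (fun O => if O = O₀ then (a : F) else 1) (by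
    intro O hO
    by_cases h : O = O₀
    · subst h
      rw [if_pos rfl]
      exact a.2
    · rw [if_neg h]
      exact one_mem O)
  refine ⟨q / w ^ M₀, ?_⟩
  have hmem : ∀ O ∈ S, q / w ^ M₀ ∈ O := fun O hO =>
    (hw O hO).div_mem (point_over (hSP O hO).1) hq
  obtain ⟨y, hy, hy1⟩ := hqT O₀ hO₀ hloc
  rw [if_pos rfl] at hy1
  have h1 : (⟨q / w ^ M₀, hmem O₀ hO₀⟩ : O₀) - a ∈ maximalIdeal O₀ ^ (N + 1) := by
    have : (⟨q / w ^ M₀, hmem O₀ hO₀⟩ : O₀) - a = y := Subtype.ext hy1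
    rw [this]
    exact hy
  obtain ⟨h2, h3⟩ := close_unit hVO hpV ha hN h1
  refine ⟨h2, h3, ?_⟩
  intro O hO hne
  have hloc' := points_local hch (hSP O hO).1
  obtain ⟨y, hy, hy1⟩ := hqT O hO hloc'
  rw [if_neg hne] at hy1
  have h4 : (⟨q / w ^ M₀, hmem O hO⟩ : O) - 1 ∈ maximalIdeal O ^ (N + 1) := by
    have : (⟨q / w ^ M₀, hmem O hO⟩ : O) - 1 = y := Subtype.ext hy1
    rw [this]
    exact hy
  exact ⟨_, isUnit_of_sub_one_mem h4, rfl⟩

/-- **Approximation on the curves.** -/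
theorem curveApprox [IsAlgClosed k] (hS : Surf k x) : CurveApprox (charts k x) := by
  intro V hV O₀ hO₀ hOV u hu
  have hinf : Infinite k := IsAlgClosed.instInfinite
  have hch := hS.charts_chart
  have hsep := hS.sep
  have hVO := (curves_point hsep hO₀ V).1 ⟨hV, hOV⟩
  obtain ⟨_, a, s, ha, hs, hc, _⟩ := hasLenO_exists hVO hu
  have hfin := sing_finite hS hV
  have hSf : (insert O₀ {O | O ∈ Points (charts k x) ∧ (O : Set F) ⊆ V ∧
      ¬ IsDiscreteValuationRing (curveLoc O V)}).Finite := hfin.insert O₀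
  have hSP : ∀ O ∈ insert O₀ {O | O ∈ Points (charts k x) ∧ (O : Set F) ⊆ V ∧
      ¬ IsDiscreteValuationRing (curveLoc O V)}, O ∈ Points (charts k x) ∧ (O : Set F) ⊆ V := by
    rintro O (rfl | ⟨h1, h2, _⟩)
    · exact ⟨hO₀, hOV⟩
    · exact ⟨h1, h2⟩
  obtain ⟨b, hb1, hb2, hb3⟩ := elem_approx hS hV hSf hSP (Set.mem_insert _ _) a ha
  obtain ⟨t, ht1, ht2, ht3⟩ := elem_approx hS hV hSf hSP (Set.mem_insert _ _) s hs
  have hb0 := (res_ne_zero_iff (mem_of_val_one hb1)).2 hb1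
  have ht0 := (res_ne_zero_iff (mem_of_val_one ht1)).2 ht1
  have ha0 := (res_ne_zero_iff (mem_of_val_one ha)).2 ha
  have hs0 := (res_ne_zero_iff (mem_of_val_one hs)).2 hs
  refine ⟨res V b / res V t, ⟨div_ne_zero hb0 ht0, ?_, ?_⟩⟩
  · have h1 := hb2.div hVO ht2
    have h2 : res V b / res V t / u = res V b / res V (a : F) / (res V t / res V (s : F)) := by
      rw [hc]
      field_simp
    rw [h2]
    exact h1
  · intro O hO hOV' hr hne
    have hmem : O ∈ insert O₀ {O | O ∈ Points (charts k x) ∧ (O : Set F) ⊆ V ∧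
        ¬ IsDiscreteValuationRing (curveLoc O V)} := Set.mem_insert_of_mem _ ⟨hO, hOV', hr⟩
    have hVO' := (curves_point hsep hO V).1 ⟨hV, hOV'⟩
    exact (hb3 O hmem hne).div hVO' (ht3 O hmem hne)

theorem singFin [IsAlgClosed k] (hS : Surf k x) : SingFin (charts k x) :=
  fun _ hV => sing_finite hS hV

end Pool.Agent.Lib.MP_b197b4_ntK
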