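import Pool.Agent.Lib.MP_b197b4_ntK.CApprox

/-!
# MP_b197b4_nt, project K1, B': general position
-/

set_option autoImplicit false

namespace Pool.Agent.Lib.MP_b197b4_ntK

open IsLocalRing Pool.Agent.K1

variable {k : Type} {F : Type} [Field k] [Field F] [Algebra k F] {n : ℕ}
  {x : Fin (n + 1) → F}

theorem exists_not_mem_pow {O : Subring F} [IsLocalRing O] [IsNoetherianRing O] {g : O}
    (hg : g ≠ 0) : ∃ N : ℕ, g ∉ maximalIdeal O ^ N := by
  by_contra hcon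
  push Not at hcon
  apply hg
  have h1 : g ∈ ⨅ i : ℕ, maximalIdeal O ^ i := by
    rw [Ideal.mem_iInf]
    exact hcon
  rwa [Ideal.iInf_pow_eq_bot_of_isLocalRing _ (maximalIdeal.isMaximal O).ne_top,
    Ideal.mem_bot] at h1

/-- Every curve has a point. -/
theorem exists_point_of_curve {V : ValuationSubring F}
    (hV : V ∈ Curves (charts k x)) : ∃ O ∈ Points (charts k x), (O : Set F) ⊆ V := by
  obtain ⟨A, hA, hVA⟩ := hV
  obtain ⟨P, hPp, hP⟩ := exists_primeOf hVA.2.1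
  obtain ⟨m, hm, hPm⟩ := Ideal.exists_le_maximal P hPp.ne_top
  have := hm.isPrime
  have hloc : IsLoc A m (locSub A m) := fun _ => Iff.rfl
  refine ⟨locSub A m, ⟨A, hA, m, hm, hloc⟩, ?_⟩
  intro y hy
  obtain ⟨a, s, hs, rfl⟩ := (hloc y).1 hy
  have h1 : V.valuation (s : F) = 1 := (hP.val_one hVA.2.1 s).1 fun h => hs (hPm h)
  change (a : F) / s ∈ V
  rw [← ValuationSubring.valuation_le_one_iff, map_div₀, h1, div_one]
  exact (ValuationSubring.valuation_le_one_iff V _).2 (hVA.2.1 a a.2)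

/-- Vanishing at a point with respect to any generator. -/
theorem zeroAt_iff_gen (hS : Surf k x) {O : Subring F} (hO : O ∈ Points (charts k x)) {d : ℕ}
    {f w : F} (hf : f ∈ hom k x d) (hw : Gen k x O w) :
    ZeroAt x O d f ↔ ¬ IsUnit (⟨f / w ^ d, hw.div_mem (point_over hO) hf⟩ : O) := by
  obtain ⟨i, hi⟩ := gen_of_point hS.ne hO
  obtain ⟨c, hc, hc1⟩ := gen_div_isUnit hO hi hw
  have h1 : (⟨f / w ^ d, hw.div_mem (point_over hO) hf⟩ : O) =
      ⟨f / x i ^ d, hi.div_mem (point_over hO) hf⟩ * c ^ d := by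
    apply Subtype.ext
    change f / w ^ d = f / x i ^ d * (c : F) ^ d
    rw [hc1, div_pow]
    have := pow_ne_zero d (hS.ne i)
    field_simp
  rw [zeroAt_iff hS.ne hi.le, h1]
  constructor
  · intro h hu
    have h2 := isUnit_of_mul_isUnit_left hu
    obtain ⟨y, hy⟩ := h2.exists_left_inv
    exact h y y.2 (congrArg Subtype.val hy)
  · intro h y hy hy1
    apply h
    refine IsUnit.mul ?_ (hc.pow d)
    apply IsUnit.of_mul_eq_one ⟨y, hy⟩
    apply Subtype.ext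
    change f / x i ^ d * y = 1
    rw [mul_comm]
    exact hy1

/-- A form which vanishes at a point and is not zero vanishes on a curve through the point. -/
theorem exists_curve_zero (hS : Surf k x) {O : Subring F} (hO : O ∈ Points (charts k x)) {d : ℕ}
    {f : F} (hf : f ∈ hom k x d) (hf0 : f ≠ 0) (h : ZeroAt x O d f) :
    ∃ V ∈ Curves (charts k x), (O : Set F) ⊆ V ∧ vh x V d f ≠ 0 := by
  have hL := loc2_of_points hS.charts_chart hO
  have := hL.ufd
  obtain ⟨i, hi⟩ := gen_of_point hS.ne hO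
  rw [zeroAt_iff_gen hS hO hf hi] at h
  have h0 : (⟨f / x i ^ d, hi.div_mem (point_over hO) hf⟩ : O) ≠ 0 := by
    intro h1
    exact (div_ne_zero hf0 (pow_ne_zero _ hi.ne)) (congrArg Subtype.val h1)
  obtain ⟨p, hp, hpd⟩ := WfDvdMonoid.exists_irreducible_factor h h0
  have hpp : Prime p := UniqueFactorizationMonoid.irreducible_iff_prime.1 hp
  have hV := locPrime_mem hL hpp
  obtain ⟨h1, h2⟩ := (curves_point hS.sep hO _).2 hV
  refine ⟨locPrime hL hpp, h1, h2, ?_⟩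
  rw [← ord_div_gen hS h1 (hi.curve h2) hf0 d]
  have h3 := CurvesAt.lt_of_dvd hV (locPrime_val_lt hL hpp) hpd
  exact ((ord_pos_iff hV.1 (div_ne_zero hf0 (pow_ne_zero _ hi.ne))).2 h3).ne'

/-- The prime element of a curve which is regular at the point is not in `m ^ 2`. -/
theorem not_sq_of_regC {O : Subring F} [IsLocalRing O] (hL : Loc2 O)
    (hdim : ∀ w ∈ maximalIdeal O, ∀ N : ℕ, ¬ maximalIdeal O ^ N ≤ Ideal.span {w})
    {V : ValuationSubring F} (hV : V ∈ CurvesAt O) {p : O} (hp : Prime p)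
    (hpV : V.valuation (p : F) < 1) (hr : RegC O V) : p ∉ maximalIdeal O ^ 2 := by
  have := hL.noeth
  obtain ⟨w, hw, _⟩ := exists_param_of_dvr hL hV hp hpV hr
  intro hp2
  have h1 : maximalIdeal O ≤ Ideal.span {w} ⊔ maximalIdeal O • maximalIdeal O := by
    conv_lhs => rw [hw]
    rw [Ideal.span_le]
    rintro y (rfl | rfl)
    · refine Ideal.mem_sup_right ?_
      rw [smul_eq_mul, ← pow_two]
      exact hp2
    · exact Ideal.mem_sup_left (Ideal.mem_span_singleton_self _)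
  have h2 : maximalIdeal O ≤ Ideal.span {w} :=
    Submodule.le_of_le_smul_of_le_jacobson_bot (IsNoetherian.noetherian _)
      (IsLocalRing.jacobson_eq_maximalIdeal ⊥ bot_ne_top).ge h1
  have hwm : w ∈ maximalIdeal O := by
    rw [hw]
    exact Ideal.subset_span (by simp)
  exact hdim w hwm 1 (by rw [pow_one]; exact h2)

theorem val_lt_of_vanish (hS : Surf k x) {V : ValuationSubring F} (hV : V ∈ Curves (charts k x))
    {w : F} (hw : Gen k x V.toSubring w) {M : ℕ} {q : F} (hq : q ≠ 0 → 0 < vh x V M q) :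
    V.valuation (q / w ^ M) < 1 := by
  by_cases h : q = 0
  · rw [h, zero_div, map_zero]
    exact zero_lt_one
  · have hd := disc_of_curves hV
    rw [← ord_pos_iff hd (div_ne_zero h (pow_ne_zero _ hw.ne)), ord_div_gen hS hV hw h M]
    exact hq h

/-- One exponent for finitely many conditions. -/
theorem exists_exponent {V : Type*} {C : Set V} (hC : C.Finite) {P : V → ℕ → Prop}
    (h : ∀ v ∈ C, ∃ N, ∀ N' ≥ N, P v N') (N₀ : ℕ) : ∃ N ≥ N₀, ∀ v ∈ C, P v N := by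
  classical
  choose! f hf using h
  refine ⟨max N₀ (hC.toFinset.sup f), le_max_left _ _, fun v hv => ?_⟩
  refine hf v hv _ (le_trans ?_ (le_max_right _ _))
  exact Finset.le_sup (f := f) (hC.mem_toFinset.2 hv)

/-- **General position.** -/
theorem genPos [IsAlgClosed k] (hS : Surf k x) : GenPos k x := by
  classical
  intro a f hf hf0 O₀ hO₀ _ g₀' hg₀' N
  have hinf : Infinite k := IsAlgClosed.instInfinite
  have hch := hS.charts_chart
  have hsep := hS.sep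
  have hL := loc2_of_points hch hO₀
  have := hL.noeth
  have hdim : ∀ w ∈ maximalIdeal O₀, ∀ N : ℕ, ¬ maximalIdeal O₀ ^ N ≤ Ideal.span {w} :=
    fun w hw N => points_not_pow_le hch hO₀ w hw N
  obtain ⟨X, Y, hm⟩ := points_pair hch hO₀
  have hXm : X ∈ maximalIdeal O₀ := by rw [hm]; exact Ideal.subset_span (by simp)
  have hYm : Y ∈ maximalIdeal O₀ := by rw [hm]; exact Ideal.subset_span (by simp)
  have hX0 : X ≠ 0 := by
    rintro rfl
    refine hdim Y hYm 1 ?_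
    rw [pow_one, hm, Ideal.span_le]
    rintro y (rfl | rfl)
    · exact Ideal.zero_mem _
    · exact Ideal.mem_span_singleton_self _
  -- a nonzero `g₀`
  obtain ⟨g₀, hg₀0, hg₀N, hg₀⟩ : ∃ g₀ : O₀, g₀ ≠ 0 ∧ g₀ - g₀' ∈ maximalIdeal O₀ ^ N ∧
      ∀ V ∈ CurvesAt O₀, vh x V a f ≠ 0 → V.valuation (g₀ : F) = 1 := by
    by_cases h : g₀' = 0
    · refine ⟨X ^ N, pow_ne_zero _ hX0, ?_, ?_⟩
      · rw [h, sub_zero]
        exact Ideal.pow_mem_pow hXm N
      · intro V hV hv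
        exfalso
        have h1 := hg₀' V hV hv
        rw [h] at h1
        have h2 : ((0 : O₀) : F) = 0 := rfl
        rw [h2, map_zero] at h1
        exact zero_ne_one h1
    · exact ⟨g₀', h, by simp, hg₀'⟩
  -- the curves of `f`
  obtain ⟨C, hCdef⟩ : ∃ C : Set (ValuationSubring F),
      C = {V | V ∈ Curves (charts k x) ∧ vh x V a f ≠ 0} := ⟨_, rfl⟩
  have hCf : C.Finite := by
    rw [hCdef]
    exact vh_finite (fun f hf => curves_finite' (charts_finite x) hch f hf) hS.ne a hf0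
  have hCC : ∀ V ∈ C, V ∈ Curves (charts k x) := fun V hV => by
    rw [hCdef] at hV; exact hV.1
  have hCv : ∀ V ∈ C, vh x V a f ≠ 0 := fun V hV => by
    rw [hCdef] at hV; exact hV.2
  have hCm : ∀ V ∈ Curves (charts k x), vh x V a f ≠ 0 → V ∈ C := fun V hV h => by
    rw [hCdef]; exact ⟨hV, h⟩
  -- the exponent
  obtain ⟨N₀, hN₀⟩ := exists_not_mem_pow (O := O₀) hg₀0
  obtain ⟨N₁, hN₁, hN₁C⟩ : ∃ N₁ ≥ max N N₀, ∀ V ∈ C, (O₀ : Set F) ⊆ V → ∀ b : O₀,
      b - g₀ ∈ maximalIdeal O₀ ^ N₁ → V.valuation (b : F) = 1 := by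
    refine exists_exponent hCf (P := fun V N => (O₀ : Set F) ⊆ V → ∀ b : O₀,
      b - g₀ ∈ maximalIdeal O₀ ^ N → V.valuation (b : F) = 1) ?_ _
    intro V hV
    by_cases hOV : (O₀ : Set F) ⊆ V
    · have hVO := (curves_point hsep hO₀ V).1 ⟨hCC V hV, hOV⟩
      obtain ⟨p, hp, hpV⟩ := CurvesAt.exists_prime hL hVO
      have hv := hg₀ V hVO (hCv V hV)
      obtain ⟨N', hN'⟩ := cop_of_prime hm hp ((CurvesAt.unit_iff hVO hp hpV g₀).1 hv)
      refine ⟨N' + 1, fun N'' hN'' _ b hb => ?_⟩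
      exact (close_unit hVO hpV hv hN' (Ideal.pow_le_pow_right hN'' hb)).1
    · exact ⟨0, fun _ _ h => absurd h hOV⟩
  have hg₀N₁ : g₀ ∉ maximalIdeal O₀ ^ N₁ := fun h =>
    hN₀ (Ideal.pow_le_pow_right ((le_max_right _ _).trans hN₁) h)
  -- the auxiliary points
  have hpt : ∀ V ∈ C, ∃ O, O ∈ Points (charts k x) ∧ (O : Set F) ⊆ V := fun V hV => by
    obtain ⟨O, h1, h2⟩ := exists_point_of_curve (hCC V hV)
    exact ⟨O, h1, h2⟩
  choose! pt hpt1 hpt2 using hpt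
  obtain ⟨T, hTdef⟩ : ∃ T : Set (Subring F),
      T = insert O₀ ({O | O ∈ Points (charts k x) ∧ ¬ RegPt C O} ∪ pt '' C) := ⟨_, rfl⟩
  have hTf : T.Finite := by
    rw [hTdef]
    exact ((regPt_finite hS hCf hCC).union (hCf.image pt)).insert O₀
  have hTP : ∀ O ∈ T, O ∈ Points (charts k x) := by
    rw [hTdef]
    rintro O (rfl | ⟨h, _⟩ | ⟨V, hV, rfl⟩)
    · exact hO₀
    · exact h
    · exact hpt1 V hV
  have hO₀T : O₀ ∈ T := by rw [hTdef]; exact Set.mem_insert _ _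
  obtain ⟨w, hwC, hwT, hw0, hwm⟩ := gen_all hS hCf hCC hTf hTP
  obtain ⟨M₁, hM₁⟩ := interp hS.ne hwm hw0 hTf (fun O hO => ⟨hTP O hO, hwT O hO⟩) (N₁ + 1)
  obtain ⟨g₁, hg₁, hg₁T⟩ := hM₁ M₁ le_rfl (fun O => if O = O₀ then (g₀ : F) else 1) (by
    intro O hO
    by_cases h : O = O₀
    · subst h
      rw [if_pos rfl]
      exact g₀.2
    · rw [if_neg h]
      exact one_mem O)
  have hmem₁ : ∀ O ∈ T, g₁ / w ^ M₁ ∈ O := fun O hO =>
    (hwT O hO).div_mem (point_over (hTP O hO)) hg₁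
  have hA0 : (⟨g₁ / w ^ M₁, hmem₁ O₀ hO₀T⟩ : O₀) - g₀ ∈ maximalIdeal O₀ ^ N₁ := by
    obtain ⟨y, hy, hy1⟩ := hg₁T O₀ hO₀T inferInstance
    rw [if_pos rfl] at hy1
    have h1 : (⟨g₁ / w ^ M₁, hmem₁ O₀ hO₀T⟩ : O₀) - g₀ = y := Subtype.ext hy1
    rw [h1]
    exact Ideal.pow_le_pow_right (Nat.le_succ N₁) hy
  have hA1 : ∀ (O : Subring F) (hO : O ∈ T), O ≠ O₀ →
      IsUnit (⟨g₁ / w ^ M₁, hmem₁ O hO⟩ : O) := by
    intro O hO hne
    have hloc := points_local hch (hTP O hO)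
    obtain ⟨y, hy, hy1⟩ := hg₁T O hO hloc
    rw [if_neg hne] at hy1
    have h1 : (⟨g₁ / w ^ M₁, hmem₁ O hO⟩ : O) - 1 = y := Subtype.ext hy1
    rw [← h1] at hy
    exact isUnit_of_sub_one_mem hy
  have hA2 : ∀ V ∈ C, V.valuation (g₁ / w ^ M₁) = 1 := by
    intro V hV
    by_cases hOV : (O₀ : Set F) ⊆ V
    · exact hN₁C V hV hOV _ hA0
    · have h1 : pt V ∈ T := by
        rw [hTdef]
        exact Set.mem_insert_of_mem _ (Or.inr ⟨V, hV, rfl⟩)
      have h2 : pt V ≠ O₀ := fun h => hOV (h ▸ hpt2 V hV)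
      have h3 := (curves_point hsep (hpt1 V hV) V).1 ⟨hCC V hV, hpt2 V hV⟩
      exact CurvesAt.isUnit h3 (hA1 _ h1 h2)
  have hg₁0 : g₁ ≠ 0 := by
    rintro rfl
    apply hg₀N₁
    have h1 : (⟨(0 : F) / w ^ M₁, hmem₁ O₀ hO₀T⟩ : O₀) = 0 := Subtype.ext (zero_div _)
    rw [h1, zero_sub] at hA0
    exact (neg_mem_iff (S := Ideal O₀)).1 hA0
  -- the zeros of `g₁ w`
  have hgw : g₁ * w ∈ hom k x (M₁ + 1) := mul_mem_hom hg₁ (mem_hom_one.2 hwm)
  have hgw0 : g₁ * w ≠ 0 := mul_ne_zero hg₁0 hw0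
  have hgwe : g₁ * w / w ^ (M₁ + 1) = g₁ / w ^ M₁ := by
    rw [pow_succ, mul_div_mul_right _ _ hw0]
  have hvh : ∀ V ∈ C, vh x V ((M₁ + 1 : ℕ) : ℤ) (g₁ * w) = 0 := by
    intro V hV
    rw [← ord_div_gen hS (hCC V hV) (hwC V hV) hgw0, hgwe]
    exact (ord_eq_zero_iff (disc_of_curves (hCC V hV))
      (div_ne_zero hg₁0 (pow_ne_zero _ hw0))).2 (hA2 V hV)
  obtain ⟨Z, hZdef⟩ : ∃ Z : Set (Subring F), Z = {O | O ∈ Points (charts k x) ∧ O ≠ O₀ ∧
      ∃ V ∈ C, (O : Set F) ⊆ V ∧ ZeroAt x O (M₁ + 1) (g₁ * w)} := ⟨_, rfl⟩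
  have hZf : Z.Finite := by
    refine (hCf.biUnion fun V hV => zero_curve_finite hS (hCC V hV) hgw hgw0 (hvh V hV)).subset ?_
    rw [hZdef]
    rintro O ⟨h1, _, V, hV, h2, h3⟩
    exact Set.mem_biUnion hV ⟨h1, h2, h3⟩
  have hZP : ∀ O ∈ Z, O ∈ Points (charts k x) := fun O hO => by
    rw [hZdef] at hO; exact hO.1
  have hZne : ∀ O ∈ Z, O ≠ O₀ := fun O hO => by
    rw [hZdef] at hO; exact hO.2.1
  have hZC : ∀ O ∈ Z, ∃ V ∈ C, (O : Set F) ⊆ V := fun O hO => by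
    rw [hZdef] at hO
    obtain ⟨_, _, V, h1, h2, _⟩ := hO
    exact ⟨V, h1, h2⟩
  have hZreg : ∀ O ∈ Z, RegPt C O := by
    intro O hO
    by_contra hcon
    have h1 : O ∈ T := by
      rw [hTdef]
      exact Set.mem_insert_of_mem _ (Or.inl ⟨hZP O hO, hcon⟩)
    have h2 := hA1 O h1 (hZne O hO)
    rw [hZdef] at hO
    obtain ⟨h3, _, V, _, _, h4⟩ := hO
    rw [zeroAt_iff_gen hS h3 hgw (hwT O h1)] at h4
    apply h4
    have h5 : (⟨g₁ * w / w ^ (M₁ + 1), (hwT O h1).div_mem (point_over h3) hgw⟩ : O) =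
        ⟨g₁ / w ^ M₁, hmem₁ O h1⟩ := Subtype.ext hgwe
    rw [h5]
    exact h2
  -- the second linear form and the interpolation on the curves
  have hT₂f : (insert O₀ Z).Finite := hZf.insert O₀
  have hT₂P : ∀ O ∈ insert O₀ Z, O ∈ Points (charts k x) := by
    rintro O (rfl | h)
    · exact hO₀
    · exact hZP O h
  obtain ⟨v, hvC, hvT, hv0, hvm⟩ := gen_all hS hCf hCC hT₂f hT₂P
  obtain ⟨M₂, hM₂⟩ := interp_curves hS.ne hvm hv0 hT₂f (fun O hO => ⟨hT₂P O hO, hvT O hO⟩) hCf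
    (fun V hV => ⟨disc_of_curves (hCC V hV), over_of_curves (hCC V hV)⟩) (N₁ + 2)
  obtain ⟨M, hMdef⟩ : ∃ M, M = max M₂ (M₁ + 1) := ⟨_, rfl⟩
  obtain ⟨j, hj⟩ : ∃ j, M = M₁ + (j + 1) := ⟨M - M₁ - 1, by omega⟩
  have hM0 : 0 < M := by omega
  obtain ⟨h₁, hh₁⟩ : ∃ h₁, h₁ = g₁ * w ^ (j + 1) := ⟨_, rfl⟩
  have hh₁m : h₁ ∈ hom k x M := by
    rw [hh₁, hj]
    exact mul_mem_hom hg₁ (pow_mem_hom' hwm _)
  have hh₁w : h₁ / w ^ M = g₁ / w ^ M₁ := by
    rw [hh₁, hj, pow_add w M₁ (j + 1), mul_div_mul_right _ _ (pow_ne_zero _ hw0)]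
  have hmemv : ∀ O ∈ insert O₀ Z, ∀ s ∈ hom k x M, s / v ^ M ∈ O := fun O hO s hs =>
    (hvT O hO).div_mem (point_over (hT₂P O hO)) hs
  have hcex : ∀ O ∈ Z, ∃ c : F, c ∈ O ∧ (∀ V ∈ C, (O : Set F) ⊆ V → V.valuation c < 1) ∧
      ∀ _ : IsLocalRing O, ∀ t H : O, (H : F) = h₁ / v ^ M →
        (∃ y : O, y ∈ maximalIdeal O ^ 2 ∧ (t : F) - c = y) → H + t ∉ maximalIdeal O ^ 2 := by
    intro O hO
    have hloc := points_local hch (hZP O hO)
    have hLO := loc2_of_points hch (hZP O hO)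
    obtain ⟨V, hV, hOV⟩ := hZC O hO
    have hr := hZreg O hO
    have hVO := (curves_point hsep (hZP O hO) V).1 ⟨hCC V hV, hOV⟩
    obtain ⟨p, hp, hpV⟩ := CurvesAt.exists_prime hLO hVO
    have hp2 : p ∉ maximalIdeal O ^ 2 := not_sq_of_regC hLO
      (fun w hw N => points_not_pow_le hch (hZP O hO) w hw N) hVO hp hpV (hr.2 V hV hOV)
    obtain ⟨H₀, hH₀⟩ : ∃ H₀ : O, (H₀ : F) = h₁ / v ^ M :=
      ⟨⟨_, hmemv O (Set.mem_insert_of_mem _ hO) h₁ hh₁m⟩, rfl⟩
    by_cases h : H₀ ∈ maximalIdeal O ^ 2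
    · refine ⟨p, p.2, ?_, ?_⟩
      · intro V' hV' hOV'
        rw [hr.1 V' hV' V hV hOV' hOV]
        exact hpV
      · rintro _ t H hH ⟨y, hy, hty⟩ hcon
        have hHH : H = H₀ := Subtype.ext (hH.trans hH₀.symm)
        rw [hHH] at hcon
        have h1 : t - p = y := Subtype.ext hty
        have h2 := Ideal.sub_mem _ hcon h
        rw [add_sub_cancel_left] at h2
        have h3 := Ideal.sub_mem _ h2 hy
        rw [← h1, sub_sub_cancel] at h3
        exact hp2 h3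
    · refine ⟨0, zero_mem O, ?_, ?_⟩
      · intro V' _ _
        rw [map_zero]
        exact zero_lt_one
      · rintro _ t H hH ⟨y, hy, hty⟩ hcon
        have hHH : H = H₀ := Subtype.ext (hH.trans hH₀.symm)
        rw [hHH] at hcon
        have h1 : t = y := by
          apply Subtype.ext
          rw [← hty, sub_zero]
        rw [h1] at hcon
        have h2 := Ideal.sub_mem _ hcon hy
        rw [add_sub_cancel_right] at h2
        exact h h2
  choose! c hc1 hc2 hc3 using hcex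
  obtain ⟨q, hq, hqC, hqT⟩ := hM₂ M (by omega) (fun O => if O ∈ Z then c O else 0) (by
    intro O hO
    by_cases h : O ∈ Z
    · simp only [if_pos h]
      exact ⟨hc1 O h, hc2 O h⟩
    · simp only [if_neg h]
      refine ⟨zero_mem O, fun V _ _ => ?_⟩
      rw [map_zero]
      exact zero_lt_one)
  have hO₀Z : O₀ ∉ Z := fun h => hZne O₀ h rfl
  have hgm : h₁ + q ∈ hom k x M := add_mem hh₁m hq
  have hwO₀ := hwT O₀ hO₀T
  have hvO₀ := hvT O₀ (Set.mem_insert _ _)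
  -- the value at `O₀`
  have hqO₀ : (⟨q / w ^ M, hwO₀.div_mem (point_over hO₀) hq⟩ : O₀) ∈ maximalIdeal O₀ ^ N₁ := by
    obtain ⟨y, hy, hy1⟩ := hqT O₀ (Set.mem_insert _ _) inferInstance
    rw [if_neg hO₀Z, sub_zero] at hy1
    obtain ⟨r, _, hr1⟩ := gen_div_isUnit hO₀ hvO₀ hwO₀
    have h1 : (⟨q / w ^ M, hwO₀.div_mem (point_over hO₀) hq⟩ : O₀) = y * r ^ M := by
      apply Subtype.ext
      change q / w ^ M = (y : F) * (r : F) ^ M
      rw [← hy1, hr1, div_pow]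
      have := pow_ne_zero M hv0
      field_simp
    rw [h1]
    exact Ideal.mul_mem_right _ _ (Ideal.pow_le_pow_right (by omega) hy)
  have ht1 : (⟨(h₁ + q) / w ^ M, hwO₀.div_mem (point_over hO₀) hgm⟩ : O₀) - g₀ ∈
      maximalIdeal O₀ ^ N₁ := by
    have h1 : (⟨(h₁ + q) / w ^ M, hwO₀.div_mem (point_over hO₀) hgm⟩ : O₀) - g₀ =
        ((⟨g₁ / w ^ M₁, hmem₁ O₀ hO₀T⟩ : O₀) - g₀) +
        ⟨q / w ^ M, hwO₀.div_mem (point_over hO₀) hq⟩ := by
      apply Subtype.ext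
      change (h₁ + q) / w ^ M - g₀ = (g₁ / w ^ M₁ - g₀) + q / w ^ M
      rw [add_div, hh₁w]
      ring
    rw [h1]
    exact Ideal.add_mem _ hA0 hqO₀
  have hg0 : h₁ + q ≠ 0 := by
    intro h
    apply hg₀N₁
    have h1 : (⟨(h₁ + q) / w ^ M, hwO₀.div_mem (point_over hO₀) hgm⟩ : O₀) = 0 := by
      apply Subtype.ext
      change (h₁ + q) / w ^ M = 0
      rw [h, zero_div]
    rw [h1, zero_sub] at ht1
    exact (neg_mem_iff (S := Ideal O₀)).1 ht1
  -- the value on the curves of `f`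
  have hval : ∀ V ∈ C, V.valuation ((h₁ + q) / w ^ M) = 1 := by
    intro V hV
    have h1 := val_lt_of_vanish hS (hCC V hV) (hwC V hV) (hqC V hV)
    rw [add_div, hh₁w]
    rw [Valuation.map_add_eq_of_lt_left _ (by rw [hA2 V hV]; exact h1), hA2 V hV]
  refine ⟨M, h₁ + q, w, ⟨(h₁ + q) / w ^ M, hwO₀.div_mem (point_over hO₀) hgm⟩, hM0, hgm, hwO₀, rfl,
    ?_, ⟨hf0, hg0, fun V hV => ⟨?_, ?_, ?_⟩⟩, ?_⟩
  · have h1 := Ideal.add_mem _ (Ideal.pow_le_pow_right ((le_max_left _ _).trans hN₁) ht1) hg₀N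
    rwa [sub_add_sub_cancel] at h1
  · exact vh_nonneg (disc_of_curves hV) (over_of_curves hV) hS.ne hf hf0
  · exact vh_nonneg (disc_of_curves hV) (over_of_curves hV) hS.ne hgm hg0
  · by_cases h : vh x V a f = 0
    · exact Or.inl h
    · right
      have hVC := hCm V hV h
      rw [← ord_div_gen hS hV (hwC V hVC) hg0]
      exact (ord_eq_zero_iff (disc_of_curves hV) (div_ne_zero hg0 (pow_ne_zero _ hw0))).2
        (hval V hVC)
  · -- the other common zeros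
    intro O hO hne hzf hzg V' hV' hOV' hv'
    have hloc := points_local hch hO
    have hLO := loc2_of_points hch hO
    obtain ⟨V, hV, hOV, hv⟩ := exists_curve_zero hS hO hf hf0 hzf
    have hVC := hCm V hV hv
    have hVO := (curves_point hsep hO V).1 ⟨hV, hOV⟩
    -- the point is in `Z`
    have hOZ : O ∈ Z := by
      rw [hZdef]
      refine ⟨hO, hne, V, hVC, hOV, ?_⟩
      by_contra hcon
      obtain ⟨i, hi⟩ := gen_of_point hS.ne hO
      rw [zeroAt_iff_gen hS hO hgw hi, not_not] at hcon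
      rw [zeroAt_iff_gen hS hO hgm hi] at hzg
      apply hzg
      have hg₁i := hi.div_mem (point_over hO) hg₁
      have hwi := hi.lin (point_over hO) hwm
      have h1 : (⟨g₁ * w / x i ^ (M₁ + 1), hi.div_mem (point_over hO) hgw⟩ : O) =
          ⟨g₁ / x i ^ M₁, hg₁i⟩ * ⟨w / x i, hwi⟩ := by
        apply Subtype.ext
        change g₁ * w / x i ^ (M₁ + 1) = g₁ / x i ^ M₁ * (w / x i)
        rw [pow_succ, mul_div_mul_comm]
      rw [h1] at hcon
      have h2 := isUnit_of_mul_isUnit_left hcon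
      have h3 := isUnit_of_mul_isUnit_right hcon
      have h4 : (⟨(h₁ + q) / x i ^ M, hi.div_mem (point_over hO) hgm⟩ : O) =
          ⟨g₁ / x i ^ M₁, hg₁i⟩ * ⟨w / x i, hwi⟩ ^ (j + 1) +
          ⟨q / x i ^ M, hi.div_mem (point_over hO) hq⟩ := by
        apply Subtype.ext
        change (h₁ + q) / x i ^ M = g₁ / x i ^ M₁ * (w / x i) ^ (j + 1) + q / x i ^ M
        rw [add_div, hh₁, hj, pow_add (x i) M₁ (j + 1), div_pow, mul_div_mul_comm]
      have h5 : (⟨q / x i ^ M, hi.div_mem (point_over hO) hq⟩ : O) ∈ maximalIdeal O := by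
        rw [mem_maximalIdeal, mem_nonunits_iff]
        intro hu
        exact (val_lt_of_vanish hS hV (hi.curve hOV) (hqC V hVC)).ne (CurvesAt.isUnit hVO hu)
      by_contra hnu
      have h6 := (mem_maximalIdeal _).2 hnu
      rw [h4] at h6
      have h7 := Ideal.sub_mem _ h6 h5
      rw [add_sub_cancel_right] at h7
      exact (mem_maximalIdeal _).1 h7 (h2.mul (h3.pow (j + 1)))
    have hr := hZreg O hOZ
    rcases hv' with hv' | hv'
    · exact hr.2 V' (hCm V' hV' hv') hOV'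
    · -- `g` is not in `m ^ 2`
      have hvO := hvT O (Set.mem_insert_of_mem _ hOZ)
      obtain ⟨y, hy, hy1⟩ := hqT O (Set.mem_insert_of_mem _ hOZ) hloc
      rw [if_pos hOZ] at hy1
      have h1 := hc3 O hOZ hloc ⟨q / v ^ M, hvO.div_mem (point_over hO) hq⟩
        ⟨h₁ / v ^ M, hvO.div_mem (point_over hO) hh₁m⟩ rfl
        ⟨y, Ideal.pow_le_pow_right (by omega) hy, hy1⟩
      have h2 : (⟨h₁ / v ^ M, hvO.div_mem (point_over hO) hh₁m⟩ : O) +
          ⟨q / v ^ M, hvO.div_mem (point_over hO) hq⟩ =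
          ⟨(h₁ + q) / v ^ M, hvO.div_mem (point_over hO) hgm⟩ := by
        apply Subtype.ext
        change h₁ / v ^ M + q / v ^ M = (h₁ + q) / v ^ M
        rw [add_div]
      rw [h2] at h1
      have hVO' := (curves_point hsep hO V').1 ⟨hV', hOV'⟩
      have h3 : 0 ≤ vh x V' M (h₁ + q) :=
        vh_nonneg (disc_of_curves hV') (over_of_curves hV') hS.ne hgm hg0
      have h4 : V'.valuation ((h₁ + q) / v ^ M) < 1 := by
        rw [← ord_pos_iff (disc_of_curves hV') (div_ne_zero hg0 (pow_ne_zero _ hv0)),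
          ord_div_gen hS hV' (hvO.curve hOV') hg0]
        omega
      obtain ⟨X', Y', hm'⟩ := points_pair hch hO
      exact regC_of_not_sq hLO (fun w hw N => points_not_pow_le hch hO w hw N) hm' hVO' h4 h1

end Pool.Agent.Lib.MP_b197b4_ntK
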