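import Mathlib

/-!
# The local theorem (Gersten for `K_1` of a two dimensional regular local ring, by Euclid)

`O` is a local ring with maximal ideal `m = (x, z)` containing a field `k` which maps onto the
residue field. `L` is a function of the pairs `(f, g)` with `m ^ N ≤ (f, g)`.
-/

set_option autoImplicit false
set_option linter.unusedSectionVars false
set_option linter.unusedVariables false

namespace Pool.Agent.K1

open Polynomial IsLocalRing

variable {O : Type*} [CommRing O] [IsLocalRing O]

/-- the ideal generated by `f` and `g` contains a power of the maximal ideal -/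
def Cop (f g : O) : Prop := ∃ N : ℕ, maximalIdeal O ^ N ≤ Ideal.span {f, g}

theorem Cop.symm {f g : O} (h : Cop f g) : Cop g f := by
  obtain ⟨N, hN⟩ := h
  exact ⟨N, by rwa [Set.pair_comm]⟩

theorem mem_pair {f g a : O} : a ∈ Ideal.span {f, g} ↔ ∃ s t : O, s * f + t * g = a :=
  Ideal.mem_span_pair

theorem span_pair_le {f g : O} {I : Ideal O} (hf : f ∈ I) (hg : g ∈ I) :
    Ideal.span {f, g} ≤ I := by
  rw [Ideal.span_le]
  intro a ha
  rcases ha with rfl | ha
  · exact hf
  · rw [Set.mem_singleton_iff] at ha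
    rw [ha]
    exact hg

theorem left_mem (f g : O) : f ∈ Ideal.span {f, g} :=
  Ideal.subset_span (Set.mem_insert _ _)

theorem right_mem (f g : O) : g ∈ Ideal.span {f, g} :=
  Ideal.subset_span (Set.mem_insert_of_mem _ rfl)

theorem Cop.mul_left {f f' g : O} (h : Cop f g) (h' : Cop f' g) : Cop (f * f') g := by
  obtain ⟨N, hN⟩ := h
  obtain ⟨M, hM⟩ := h'
  refine ⟨N + M, ?_⟩
  rw [pow_add]
  refine (Ideal.mul_mono hN hM).trans ?_
  rw [Ideal.mul_le]
  intro a ha b hb
  obtain ⟨s, t, rfl⟩ := mem_pair.1 ha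
  obtain ⟨s', t', rfl⟩ := mem_pair.1 hb
  refine mem_pair.2 ⟨s * s', s * f * t' + t * s' * f' + t * t' * g, ?_⟩
  ring

theorem Cop.of_mul_left {f f' g : O} (h : Cop (f * f') g) : Cop f g := by
  obtain ⟨N, hN⟩ := h
  refine ⟨N, hN.trans (span_pair_le ?_ (right_mem _ _))⟩
  exact Ideal.mul_mem_right _ _ (left_mem _ _)

theorem Cop.of_mul_left' {f f' g : O} (h : Cop (f * f') g) : Cop f' g := by
  rw [mul_comm] at h
  exact h.of_mul_left

theorem Cop.mul_right {f g g' : O} (h : Cop f g) (h' : Cop f g') : Cop f (g * g') :=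
  (h.symm.mul_left h'.symm).symm

theorem Cop.of_mul_right {f g g' : O} (h : Cop f (g * g')) : Cop f g :=
  h.symm.of_mul_left.symm

theorem Cop.of_mul_right' {f g g' : O} (h : Cop f (g * g')) : Cop f g' :=
  h.symm.of_mul_left'.symm

theorem cop_of_isUnit_left {f g : O} (h : IsUnit f) : Cop f g :=
  ⟨0, by rw [Ideal.eq_top_of_isUnit_mem _ (left_mem f g) h]; exact le_top⟩

theorem cop_of_isUnit_right {f g : O} (h : IsUnit g) : Cop f g :=
  (cop_of_isUnit_left h).symm

theorem span_add (f g e : O) : Ideal.span {f, g + f * e} = Ideal.span {f, g} := by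
  apply le_antisymm
  · refine span_pair_le (left_mem _ _) ?_
    exact Ideal.add_mem _ (right_mem _ _) (Ideal.mul_mem_right _ _ (left_mem _ _))
  · refine span_pair_le (left_mem _ _) ?_
    have h := Ideal.sub_mem _ (right_mem f (g + f * e))
      (Ideal.mul_mem_right e _ (left_mem f (g + f * e)))
    rwa [add_sub_cancel_right] at h

theorem Cop.add {f g : O} (h : Cop f g) (e : O) : Cop f (g + f * e) := by
  obtain ⟨N, hN⟩ := h
  exact ⟨N, by rwa [span_add]⟩

/-- small elements: `e = a f + b g` with `b` in the maximal ideal -/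
theorem small_repr {f g e : O} {N : ℕ} (hN : maximalIdeal O ^ N ≤ Ideal.span {f, g})
    (he : e ∈ maximalIdeal O ^ (N + 1)) :
    ∃ a b : O, b ∈ maximalIdeal O ∧ e = a * f + b * g := by
  rw [pow_succ] at he
  have h2 : e ∈ Ideal.span {f, g} * maximalIdeal O := Ideal.mul_mono hN le_rfl he
  refine Submodule.mul_induction_on h2 ?_ ?_
  · intro c hc d hd
    obtain ⟨s, t, rfl⟩ := mem_pair.1 hc
    exact ⟨s * d, t * d, Ideal.mul_mem_left _ _ hd, by ring⟩
  · rintro c d ⟨a, b, hb, rfl⟩ ⟨a', b', hb', rfl⟩
    exact ⟨a + a', b + b', Ideal.add_mem _ hb hb', by ring⟩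

theorem isUnit_one_add {b : O} (hb : b ∈ maximalIdeal O) : IsUnit (1 + b) := by
  by_contra h
  have h1 : (1 + b) ∈ maximalIdeal O := (mem_maximalIdeal _).2 h
  have h2 : (1 : O) ∈ maximalIdeal O := by
    have := Ideal.sub_mem _ h1 hb
    rwa [add_sub_cancel_right] at this
  exact (Ideal.ne_top_iff_one _).1 (maximalIdeal.isMaximal O).ne_top h2

theorem span_unit_mul (f g : O) {u : O} (hu : IsUnit u) :
    Ideal.span {f, u * g} = Ideal.span {f, g} := by
  obtain ⟨v, rfl⟩ := hu
  apply le_antisymm
  · exact span_pair_le (left_mem _ _) (Ideal.mul_mem_left _ _ (right_mem _ _))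
  · refine span_pair_le (left_mem _ _) ?_
    have h := Ideal.mul_mem_left _ ((v⁻¹ : Oˣ) : O) (right_mem f ((v : O) * g))
    rwa [← mul_assoc, Units.inv_mul, one_mul] at h

theorem span_small {f g e : O} {N : ℕ} (hN : maximalIdeal O ^ N ≤ Ideal.span {f, g})
    (he : e ∈ maximalIdeal O ^ (N + 1)) : Ideal.span {f, g + e} = Ideal.span {f, g} := by
  obtain ⟨a, b, hb, rfl⟩ := small_repr hN he
  have h1 : g + (a * f + b * g) = (1 + b) * g + f * a := by ring
  rw [h1, span_add, span_unit_mul _ _ (isUnit_one_add hb)]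

/-- a local symbol, not assumed symmetric -/
structure LocSym (L : O → O → ℚ) : Prop where
  mul_left : ∀ f f' g, Cop f g → Cop f' g → L (f * f') g = L f g + L f' g
  mul_right : ∀ f g g', Cop f g → Cop f g' → L f (g * g') = L f g + L f g'
  add_right : ∀ f g e, Cop f g → L f (g + f * e) = L f g
  unit_left : ∀ f g, IsUnit f → L f g = 0
  unit_right : ∀ f g, IsUnit g → L f g = 0
  approx : ∀ f₁ f₂ g, Cop f₁ g → Cop f₂ g → ∀ N : ℕ, ∃ g', g' - g ∈ maximalIdeal O ^ N ∧
    L f₁ g' = L g' f₁ ∧ L f₂ g' = L g' f₂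

namespace LocSym

variable {L : O → O → ℚ} (hL : LocSym L)

include hL

theorem small_right {f g e : O} {N : ℕ} (hN : maximalIdeal O ^ N ≤ Ideal.span {f, g})
    (he : e ∈ maximalIdeal O ^ (N + 1)) : L f (g + e) = L f g := by
  obtain ⟨a, b, hb, rfl⟩ := small_repr hN he
  have h1 : g + (a * f + b * g) = (1 + b) * g + f * a := by ring
  have hu := isUnit_one_add hb
  have hc : Cop f g := ⟨N, hN⟩
  rw [h1, hL.add_right _ _ _ ((cop_of_isUnit_right hu).mul_right hc),
    hL.mul_right _ _ _ (cop_of_isUnit_right hu) hc, hL.unit_right _ _ hu, zero_add]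

theorem add_left {f g : O} (e : O) (h : Cop f g) : L (f + g * e) g = L f g := by
  obtain ⟨N, hN⟩ := h
  have hN1 : maximalIdeal O ^ N ≤ Ideal.span {f + g * e, g} := by
    rwa [Set.pair_comm, span_add, Set.pair_comm]
  obtain ⟨g', hg', h1, h2⟩ := hL.approx f (f + g * e) g ⟨N, hN⟩ ⟨N, hN1⟩ (N + 1)
  obtain ⟨ε, rfl⟩ : ∃ ε, g' = g + ε := ⟨g' - g, by ring⟩
  rw [add_sub_cancel_left] at hg'
  have h3 : L f (g + ε) = L f g := hL.small_right hN hg'
  have h4 : L (f + g * e) (g + ε) = L (f + g * e) g := hL.small_right hN1 hg'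
  have hs : Ideal.span {f, g + ε} = Ideal.span {f, g} := span_small hN hg'
  have h5 : f + g * e = (f + (g + ε) * e) + -(ε * e) := by ring
  have hN2 : maximalIdeal O ^ N ≤ Ideal.span {g + ε, f} := by
    rw [Set.pair_comm, hs]
    exact hN
  have hN3 : maximalIdeal O ^ N ≤ Ideal.span {g + ε, f + (g + ε) * e} := by
    rw [span_add]
    exact hN2
  have h6 : L (g + ε) (f + g * e) = L (g + ε) (f + (g + ε) * e) := by
    conv_lhs => rw [h5]
    exact hL.small_right hN3 (neg_mem (Ideal.mul_mem_right _ _ hg'))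
  rw [← h4, h2, h6, hL.add_right _ _ _ ⟨N, hN2⟩, ← h1, h3]

theorem small_left {f g e : O} {N : ℕ} (hN : maximalIdeal O ^ N ≤ Ideal.span {f, g})
    (he : e ∈ maximalIdeal O ^ (N + 1)) : L (f + e) g = L f g := by
  rw [Set.pair_comm] at hN
  obtain ⟨a, b, hb, rfl⟩ := small_repr hN he
  have h1 : f + (a * g + b * f) = (1 + b) * f + g * a := by ring
  have hu := isUnit_one_add hb
  have hc : Cop f g := Cop.symm (f := g) (g := f) ⟨N, hN⟩
  rw [h1, hL.add_left _ ((cop_of_isUnit_left hu).mul_left hc),
    hL.mul_left _ _ _ (cop_of_isUnit_left hu) hc, hL.unit_left _ _ hu, zero_add]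

theorem symm {f g : O} (h : Cop f g) : L f g = L g f := by
  obtain ⟨N, hN⟩ := h
  obtain ⟨g', hg', h1, -⟩ := hL.approx f f g ⟨N, hN⟩ ⟨N, hN⟩ (N + 1)
  obtain ⟨ε, rfl⟩ : ∃ ε, g' = g + ε := ⟨g' - g, by ring⟩
  rw [add_sub_cancel_left] at hg'
  have hN2 : maximalIdeal O ^ N ≤ Ideal.span {g, f} := by rwa [Set.pair_comm]
  rw [← hL.small_right hN hg', h1, hL.small_left hN2 hg']

theorem pow_left {f g : O} (h : Cop f g) (h0 : L f g = 0) (n : ℕ) :
    Cop (f ^ n) g ∧ L (f ^ n) g = 0 := by
  induction n with
  | zero =>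
    rw [pow_zero]
    exact ⟨cop_of_isUnit_left isUnit_one, hL.unit_left _ _ isUnit_one⟩
  | succ n ih =>
    rw [pow_succ]
    exact ⟨ih.1.mul_left h, by rw [hL.mul_left _ _ _ ih.1 h, ih.2, h0, add_zero]⟩

end LocSym

section Poly

variable {k : Type*} [Field k] [Algebra k O] (x z : O)

/-- evaluation of a polynomial in two variables at `(x, z)`; the outer variable is `z` -/
noncomputable def phi : k[X][X] →+* O :=
  Polynomial.eval₂RingHom ((Polynomial.aeval x : k[X] →ₐ[k] O) : k[X] →+* O) z

theorem phi_C (c : k[X]) : phi (k := k) x z (C c) = Polynomial.aeval x c := by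
  simp [phi]

theorem phi_X : phi (k := k) x z X = z := by
  simp [phi]

variable {x z}

theorem approx_poly (hm : maximalIdeal O = Ideal.span {x, z})
    (hk : ∀ a : O, ∃ c : k, a - algebraMap k O c ∈ maximalIdeal O) :
    ∀ (N : ℕ) (a : O), a ∈ maximalIdeal O ^ N →
      ∃ B : k[X][X], a - phi x z B ∈ maximalIdeal O ^ (N + 1) := by
  intro N
  induction N with
  | zero =>
    intro a _
    obtain ⟨c, hc⟩ := hk a
    refine ⟨C (C c), ?_⟩
    rw [phi_C, Polynomial.aeval_C, zero_add, pow_one]
    exact hc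
  | succ N ih =>
    intro a ha
    rw [pow_succ] at ha
    refine Submodule.mul_induction_on ha ?_ ?_
    · intro v hv u hu
      rw [hm] at hu
      obtain ⟨s, t, rfl⟩ := mem_pair.1 hu
      obtain ⟨B1, h1⟩ := ih (v * s) (Ideal.mul_mem_right _ _ hv)
      obtain ⟨B2, h2⟩ := ih (v * t) (Ideal.mul_mem_right _ _ hv)
      refine ⟨C X * B1 + X * B2, ?_⟩
      have hx : x ∈ maximalIdeal O := by rw [hm]; exact left_mem _ _
      have hz : z ∈ maximalIdeal O := by rw [hm]; exact right_mem _ _
      have e1 : v * (s * x + t * z) - phi x z (C X * B1 + X * B2) =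
          (v * s - phi x z B1) * x + (v * t - phi x z B2) * z := by
        rw [map_add, map_mul, map_mul, phi_C, phi_X, Polynomial.aeval_X]
        ring
      rw [e1, pow_succ (maximalIdeal O) (N + 1)]
      exact Ideal.add_mem _ (Ideal.mul_mem_mul h1 hx) (Ideal.mul_mem_mul h2 hz)
    · rintro a b ⟨A, hA⟩ ⟨B, hB⟩
      refine ⟨A + B, ?_⟩
      have e1 : a + b - phi x z (A + B) = (a - phi x z A) + (b - phi x z B) := by
        rw [map_add]
        ring
      rw [e1]
      exact Ideal.add_mem _ hA hB

theorem exists_poly (hm : maximalIdeal O = Ideal.span {x, z})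
    (hk : ∀ a : O, ∃ c : k, a - algebraMap k O c ∈ maximalIdeal O) (a : O) (N : ℕ) :
    ∃ B : k[X][X], a - phi x z B ∈ maximalIdeal O ^ N := by
  induction N with
  | zero => exact ⟨0, by rw [pow_zero, Ideal.one_eq_top]; exact Submodule.mem_top⟩
  | succ N ih =>
    obtain ⟨B, hB⟩ := ih
    obtain ⟨B', hB'⟩ := approx_poly hm hk N _ hB
    refine ⟨B + B', ?_⟩
    rw [map_add, ← sub_sub]
    exact hB'

theorem isUnit_of_const (hm : maximalIdeal O = Ideal.span {x, z}) {u : O} {c : k} (hc : c ≠ 0)
    (h : u - algebraMap k O c ∈ maximalIdeal O) : IsUnit u := by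
  by_contra hu
  have h1 : u ∈ maximalIdeal O := (mem_maximalIdeal _).2 hu
  have h2 : algebraMap k O c ∈ maximalIdeal O := by
    have := Ideal.sub_mem _ h1 h
    rwa [sub_sub_cancel] at this
  have h3 : IsUnit (algebraMap k O c) := (IsUnit.mk0 c hc).map _
  exact (mem_maximalIdeal _).1 h2 h3

/-- one variable: a nonzero polynomial at an element `t` of `m` is `t ^ i` times a unit -/
theorem aeval_eq (hm : maximalIdeal O = Ideal.span {x, z}) {t : O} (ht : t ∈ maximalIdeal O)
    (c : k[X]) (hc : c ≠ 0) : ∃ (i : ℕ) (u : O), IsUnit u ∧ Polynomial.aeval t c = t ^ i * u := by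
  obtain ⟨n, hn⟩ : ∃ n, c.natDegree = n := ⟨_, rfl⟩
  induction n using Nat.strong_induction_on generalizing c with
  | _ n ih =>
    by_cases h0 : c.coeff 0 = 0
    · obtain ⟨d, rfl⟩ := Polynomial.X_dvd_iff.2 h0
      have hd : d ≠ 0 := right_ne_zero_of_mul hc
      have hdeg : d.natDegree < n := by
        rw [← hn, Polynomial.natDegree_X_mul hd]
        exact Nat.lt_succ_self _
      obtain ⟨i, u, hu, he⟩ := ih _ hdeg d hd rfl
      refine ⟨i + 1, u, hu, ?_⟩
      rw [map_mul, Polynomial.aeval_X, he, pow_succ]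
      ring
    · refine ⟨0, Polynomial.aeval t c, ?_, by rw [pow_zero, one_mul]⟩
      refine isUnit_of_const hm h0 ?_
      have h1 : X ∣ c - C (c.coeff 0) := by
        rw [Polynomial.X_dvd_iff, Polynomial.coeff_sub, Polynomial.coeff_C_zero, sub_self]
      obtain ⟨d, hd⟩ := h1
      have h2 : Polynomial.aeval t c - algebraMap k O (c.coeff 0) =
          Polynomial.aeval t (c - C (c.coeff 0)) := by
        rw [map_sub, Polynomial.aeval_C]
      rw [h2, hd, map_mul, Polynomial.aeval_X]
      exact Ideal.mul_mem_right _ _ ht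

/-- the value at `X = 0` -/
theorem phi_eq (W : k[X][X]) : ∃ e : O, phi x z W =
    Polynomial.aeval z (W.map (Polynomial.evalRingHom (0 : k))) + x * e := by
  have h1 : (C X : k[X][X]) ∣ W - (W.map (Polynomial.evalRingHom (0 : k))).map C := by
    rw [Polynomial.C_dvd_iff_dvd_coeff]
    intro i
    rw [Polynomial.coeff_sub, Polynomial.coeff_map, Polynomial.coeff_map,
      Polynomial.X_dvd_iff, Polynomial.coeff_sub, Polynomial.coeff_C_zero,
      Polynomial.coe_evalRingHom, ← Polynomial.coeff_zero_eq_eval_zero, sub_self]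
  obtain ⟨V, hV⟩ := h1
  have h2 : W = (W.map (Polynomial.evalRingHom (0 : k))).map C + C X * V := by
    rw [← hV]
    ring
  refine ⟨phi x z V, ?_⟩
  conv_lhs => rw [h2]
  rw [map_add, map_mul, phi_C, Polynomial.aeval_X]
  congr 1
  rw [phi, Polynomial.coe_eval₂RingHom, Polynomial.eval₂_map, Polynomial.aeval_def]
  congr 1
  ext c
  simp

variable {L : O → O → ℚ} (hL : LocSym L)

include hL

theorem sym_x (hm : maximalIdeal O = Ideal.span {x, z}) (h0 : L x z = 0) (W : k[X][X])
    (hW : W.map (Polynomial.evalRingHom (0 : k)) ≠ 0) :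
    Cop x (phi x z W) ∧ L x (phi x z W) = 0 := by
  have hz : z ∈ maximalIdeal O := by rw [hm]; exact right_mem _ _
  obtain ⟨e, he⟩ := phi_eq (x := x) (z := z) W
  obtain ⟨i, u, hu, hiu⟩ := aeval_eq hm hz _ hW
  have hxz : Cop x z := ⟨1, by rw [pow_one, hm]⟩
  have h1 : Cop x (z ^ i) ∧ L x (z ^ i) = 0 := by
    have h2 := hL.pow_left hxz.symm (by rw [hL.symm hxz.symm, h0]) i
    exact ⟨h2.1.symm, by rw [hL.symm h2.1.symm, h2.2]⟩
  have h3 : Cop x (z ^ i * u) := h1.1.mul_right (cop_of_isUnit_right hu)
  rw [he, hiu]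
  refine ⟨h3.add e, ?_⟩
  rw [hL.add_right _ _ _ h3, hL.mul_right _ _ _ h1.1 (cop_of_isUnit_right hu), h1.2,
    hL.unit_right _ _ hu, add_zero]

theorem sym_C (hm : maximalIdeal O = Ideal.span {x, z}) (h0 : L x z = 0) (W : k[X][X])
    (hW : W.map (Polynomial.evalRingHom (0 : k)) ≠ 0) (c : k[X]) (hc : c ≠ 0) :
    Cop (phi x z (C c)) (phi x z W) ∧ L (phi x z (C c)) (phi x z W) = 0 := by
  have hx : x ∈ maximalIdeal O := by rw [hm]; exact left_mem _ _
  obtain ⟨i, u, hu, hiu⟩ := aeval_eq hm hx c hc
  have h1 := sym_x hL hm h0 W hW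
  have h2 := hL.pow_left h1.1 h1.2 i
  rw [phi_C, hiu]
  refine ⟨h2.1.mul_left (cop_of_isUnit_left hu), ?_⟩
  rw [hL.mul_left _ _ _ h2.1 (cop_of_isUnit_left hu), h2.2, hL.unit_left _ _ hu, add_zero]

omit hL [IsLocalRing O] [Algebra k O] in
theorem take_out (W : k[X][X]) (hW : W ≠ 0) : ∃ (i : ℕ) (V : k[X][X]),
    W = C X ^ i * V ∧ V.map (Polynomial.evalRingHom (0 : k)) ≠ 0 ∧
      V.natDegree = W.natDegree := by
  obtain ⟨n, hn⟩ : ∃ n, W.leadingCoeff.natDegree = n := ⟨_, rfl⟩
  induction n using Nat.strong_induction_on generalizing W with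
  | _ n ih =>
    by_cases h0 : W.map (Polynomial.evalRingHom (0 : k)) = 0
    · have h1 : (C X : k[X][X]) ∣ W := by
        rw [Polynomial.C_dvd_iff_dvd_coeff]
        intro i
        have h2 := congrArg (fun q => Polynomial.coeff q i) h0
        rw [Polynomial.X_dvd_iff, Polynomial.coeff_zero_eq_eval_zero]
        simpa using h2
      obtain ⟨V, rfl⟩ := h1
      have hV : V ≠ 0 := right_ne_zero_of_mul hW
      have hX : (X : k[X]) ≠ 0 := Polynomial.X_ne_zero
      have h3 : (C X * V).leadingCoeff = X * V.leadingCoeff := by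
        rw [Polynomial.leadingCoeff_mul, Polynomial.leadingCoeff_C]
      have h4 : V.leadingCoeff.natDegree < n := by
        rw [← hn, h3, Polynomial.natDegree_X_mul (Polynomial.leadingCoeff_ne_zero.2 hV)]
        exact Nat.lt_succ_self _
      obtain ⟨i, U, hU, h5, h6⟩ := ih _ h4 V hV rfl
      refine ⟨i + 1, U, ?_, h5, ?_⟩
      · conv_lhs => rw [hU]
        rw [pow_succ]
        ring
      · rw [h6, Polynomial.natDegree_C_mul hX]
    · exact ⟨0, W, by rw [pow_zero, one_mul], h0, rfl⟩

theorem euclid (hm : maximalIdeal O = Ideal.span {x, z}) (h0 : L x z = 0)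
    (hdim : ∀ w ∈ maximalIdeal O, ∀ N : ℕ, ¬ maximalIdeal O ^ N ≤ Ideal.span {w}) :
    ∀ (n : ℕ) (B W : k[X][X]), B.natDegree + W.natDegree ≤ n →
      Cop (phi x z B) (phi x z W) → L (phi x z B) (phi x z W) = 0 := by
  have hx : x ∈ maximalIdeal O := by rw [hm]; exact left_mem _ _
  -- a pair with `0`
  have hzero : ∀ w : O, Cop w 0 → IsUnit w := by
    intro w hw
    obtain ⟨N, hN⟩ := hw
    by_contra hu
    refine hdim w ((mem_maximalIdeal _).2 hu) N (hN.trans ?_)
    exact span_pair_le (Ideal.mem_span_singleton_self w) (Ideal.zero_mem _)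
  have hxx : ∀ e : O, ¬ Cop (x * e) x := by
    rintro e ⟨N, hN⟩
    refine hdim x hx N (hN.trans ?_)
    exact span_pair_le (Ideal.mul_mem_right _ _ (Ideal.mem_span_singleton_self x))
      (Ideal.mem_span_singleton_self x)
  intro n
  induction n using Nat.strong_induction_on with
  | _ n ih =>
    -- the main case
    have main : ∀ B W : k[X][X], B.natDegree + W.natDegree ≤ n → W.natDegree ≤ B.natDegree →
        Cop (phi x z B) (phi x z W) → L (phi x z B) (phi x z W) = 0 := by
      intro B W hBW hle hc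
      by_cases hW : W = 0
      · subst hW
        rw [map_zero] at hc ⊢
        exact hL.unit_left _ _ (hzero _ hc)
      by_cases hB : B = 0
      · subst hB
        rw [map_zero] at hc ⊢
        exact hL.unit_right _ _ (hzero _ hc.symm)
      obtain ⟨i, V, hV, hV0, hVd⟩ := take_out W hW
      have hVne : V ≠ 0 := by
        rintro rfl
        exact hV0 (Polynomial.map_zero _)
      have hphiW : phi x z W = x ^ i * phi x z V := by
        rw [hV, map_mul, map_pow, phi_C, Polynomial.aeval_X]
      rw [hphiW] at hc ⊢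
      have hc1 : Cop (phi x z B) (x ^ i) := hc.of_mul_right
      have hc2 : Cop (phi x z B) (phi x z V) := hc.of_mul_right'
      have hx0 : L (phi x z B) (x ^ i) = 0 := by
        rcases Nat.eq_zero_or_pos i with rfl | hi
        · rw [pow_zero]
          exact hL.unit_right _ _ isUnit_one
        · obtain ⟨j, rfl⟩ : ∃ j, i = j + 1 := ⟨i - 1, by omega⟩
          have hc3 : Cop (phi x z B) x := by
            rw [pow_succ] at hc1
            exact hc1.of_mul_right'
          have hB0 : B.map (Polynomial.evalRingHom (0 : k)) ≠ 0 := by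
            intro hB0
            obtain ⟨e, he⟩ := phi_eq (x := x) (z := z) B
            rw [hB0, map_zero, zero_add] at he
            rw [he] at hc3
            exact hxx e hc3
          have h1 := sym_x hL hm h0 B hB0
          have h2 := hL.pow_left h1.1 h1.2 (j + 1)
          rw [hL.symm h2.1.symm, h2.2]
      rw [hL.mul_right _ _ _ hc1 hc2, hx0, zero_add]
      rcases Nat.eq_zero_or_pos V.natDegree with hd0 | hdpos
      · -- `V` is a constant with nonzero value at `0`
        obtain ⟨c, rfl⟩ : ∃ c, V = C c := ⟨V.coeff 0, Polynomial.eq_C_of_natDegree_eq_zero hd0⟩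
        rw [Polynomial.map_C, Polynomial.coe_evalRingHom] at hV0
        have hc0 : c.coeff 0 ≠ 0 := by
          rw [Polynomial.coeff_zero_eq_eval_zero]
          intro hcc
          exact hV0 (by rw [hcc, Polynomial.C_0])
        apply hL.unit_right
        rw [phi_C]
        refine isUnit_of_const hm hc0 ?_
        have h1 : X ∣ c - C (c.coeff 0) := by
          rw [Polynomial.X_dvd_iff, Polynomial.coeff_sub, Polynomial.coeff_C_zero, sub_self]
        obtain ⟨d, hd⟩ := h1
        have h2 : Polynomial.aeval x c - algebraMap k O (c.coeff 0) =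
            Polynomial.aeval x (c - C (c.coeff 0)) := by
          rw [map_sub, Polynomial.aeval_C]
        rw [h2, hd, map_mul, Polynomial.aeval_X]
        exact Ideal.mul_mem_right _ _ hx
      · -- one step of the division
        set B1 : k[X][X] := C V.leadingCoeff * B -
          C B.leadingCoeff * X ^ (B.natDegree - V.natDegree) * V with hB1
        have hlcV : V.leadingCoeff ≠ 0 := Polynomial.leadingCoeff_ne_zero.2 hVne
        have hlcB : B.leadingCoeff ≠ 0 := Polynomial.leadingCoeff_ne_zero.2 hB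
        have hdeg : B1.natDegree < B.natDegree := by
          have hdB : 0 < B.natDegree := by omega
          have e1 : (C V.leadingCoeff * B).degree = B.degree := Polynomial.degree_C_mul hlcV
          have e2 : (C B.leadingCoeff * X ^ (B.natDegree - V.natDegree) * V).degree =
              B.degree := by
            rw [mul_assoc, Polynomial.degree_C_mul hlcB, Polynomial.degree_mul,
              Polynomial.degree_X_pow, Polynomial.degree_eq_natDegree hVne,
              Polynomial.degree_eq_natDegree hB, ← Nat.cast_add]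
            congr 1
            omega
          have e3 : B1.degree < B.degree := by
            rw [hB1]
            have e4 : (C V.leadingCoeff * B).leadingCoeff =
                (C B.leadingCoeff * X ^ (B.natDegree - V.natDegree) * V).leadingCoeff := by
              rw [Polynomial.leadingCoeff_mul, Polynomial.leadingCoeff_C,
                Polynomial.leadingCoeff_mul, Polynomial.leadingCoeff_mul,
                Polynomial.leadingCoeff_C, Polynomial.leadingCoeff_X_pow, mul_one, mul_comm]
            have e5 := Polynomial.degree_sub_lt_left (e1.trans e2.symm)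
              (mul_ne_zero (Polynomial.C_ne_zero.2 hlcV) hB) e4
            rwa [e1] at e5
          by_cases hB10 : B1 = 0
          · rw [hB10, Polynomial.natDegree_zero]
            exact hdB
          · exact (Polynomial.natDegree_lt_natDegree_iff hB10).2 e3
        have hCV := sym_C hL hm h0 V hV0 V.leadingCoeff hlcV
        have hprod : phi x z (C V.leadingCoeff) * phi x z B = phi x z B1 + phi x z V *
            phi x z (C B.leadingCoeff * X ^ (B.natDegree - V.natDegree)) := by
          rw [← map_mul, ← map_mul, ← map_add]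
          congr 1
          rw [hB1]
          ring
        have hc4 : Cop (phi x z (C V.leadingCoeff) * phi x z B) (phi x z V) :=
          hCV.1.mul_left hc2
        have hc5 : Cop (phi x z B1) (phi x z V) := by
          rw [hprod] at hc4
          have h5 := hc4.symm.add
            (-phi x z (C B.leadingCoeff * X ^ (B.natDegree - V.natDegree)))
          have e6 : phi x z B1 + phi x z V *
              phi x z (C B.leadingCoeff * X ^ (B.natDegree - V.natDegree)) + phi x z V *
              -phi x z (C B.leadingCoeff * X ^ (B.natDegree - V.natDegree)) =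
              phi x z B1 := by ring
          rw [e6] at h5
          exact h5.symm
        have h7 : L (phi x z (C V.leadingCoeff) * phi x z B) (phi x z V) = 0 := by
          rw [hprod, hL.add_left _ hc5]
          exact ih (B1.natDegree + V.natDegree) (by omega) B1 V le_rfl hc5
        rw [hL.mul_left _ _ _ hCV.1 hc2, hCV.2, zero_add] at h7
        exact h7
    intro B W hBW hc
    rcases le_total W.natDegree B.natDegree with hle | hle
    · exact main B W hBW hle hc
    · rw [hL.symm hc]
      exact main W B (by omega) hle hc.symm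

end Poly

/-- **The local theorem.** -/
theorem LocSym.eq_zero {L : O → O → ℚ} (hL : LocSym L) (k : Type*) [Field k] [Algebra k O]
    {x z : O} (hm : maximalIdeal O = Ideal.span {x, z})
    (hk : ∀ a : O, ∃ c : k, a - algebraMap k O c ∈ maximalIdeal O)
    (hdim : ∀ w ∈ maximalIdeal O, ∀ N : ℕ, ¬ maximalIdeal O ^ N ≤ Ideal.span {w})
    (h0 : L x z = 0) {f g : O} (h : Cop f g) : L f g = 0 := by
  obtain ⟨N, hN⟩ := h
  obtain ⟨W, hW⟩ := exists_poly (k := k) hm hk g (N + 1)
  obtain ⟨B, hB⟩ := exists_poly (k := k) hm hk f (N + 1)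
  have e1 : phi x z W = g + -(g - phi x z W) := by ring
  have e2 : phi x z B = f + -(f - phi x z B) := by ring
  have h1 : L f (phi x z W) = L f g := by
    conv_lhs => rw [e1]
    exact hL.small_right hN (neg_mem hW)
  have hN1 : maximalIdeal O ^ N ≤ Ideal.span {f, phi x z W} := by
    rw [e1, span_small hN (neg_mem hW)]
    exact hN
  have h2 : L (phi x z B) (phi x z W) = L f (phi x z W) := by
    conv_lhs => rw [e2]
    exact hL.small_left hN1 (neg_mem hB)
  have hN2 : Cop (phi x z B) (phi x z W) := by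
    refine Cop.symm (f := phi x z W) (g := phi x z B) ⟨N, ?_⟩
    rw [e2, span_small (by rwa [Set.pair_comm]) (neg_mem hB), Set.pair_comm]
    exact hN1
  rw [← h1, ← h2]
  exact euclid hL hm h0 hdim _ B W le_rfl hN2

end Pool.Agent.K1
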