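import Pool.Agent.Lib.MP_b197b4_ntK.FormsPts
import Pool.Agent.Lib.MP_b197b4_ntK.Sym
import Pool.Agent.Lib.MP_b197b4_ntK.Res
import Pool.Agent.Lib.MP_b197b4_ntK.Loc

/-!
# MP_b197b4_nt, project K1, B': the parts at the points of a form which kills the functions that are
units at all singular points
-/

set_option autoImplicit false

namespace Pool.Agent.Lib.MP_b197b4_ntK

open IsLocalRing

variable {k : Type} {F : Type} [Field k] [Field F] [Algebra k F]

/-- The curve `V` is regular at the point `O`. -/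
def RegC (O : Subring F) (V : ValuationSubring F) : Prop :=
  IsDiscreteValuationRing (curveLoc O V)

/-- The form `l` kills the functions which are units at all singular points of the curve. -/
def KillsReg (M : Set (Subalgebra k F)) (l : ∀ V : ValuationSubring F, ResidueField V → ℚ) :
    Prop :=
  ∀ V ∈ Curves M, ∀ u : ResidueField V, u ≠ 0 →
    (∀ O ∈ Points M, (O : Set F) ⊆ V → ¬ RegC O V → UnitAt O V u) → l V u = 0

/-- `u'` is equivalent to `u` at `O`, and it is a unit at the other singular points. -/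
structure Adj (M : Set (Subalgebra k F)) (O : Subring F) (V : ValuationSubring F)
    (u u' : ResidueField V) : Prop where
  ne : u' ≠ 0
  here : UnitAt O V (u' / u)
  off : ∀ O' ∈ Points M, (O' : Set F) ⊆ V → ¬ RegC O' V → O' ≠ O → UnitAt O' V u'

/-- Approximation on the curves. -/
def CurveApprox (M : Set (Subalgebra k F)) : Prop :=
  ∀ V ∈ Curves M, ∀ O ∈ Points M, (O : Set F) ⊆ V → ∀ u : ResidueField V, u ≠ 0 →
    ∃ u', Adj M O V u u'

/-- Finitely many singular points. -/
def SingFin (M : Set (Subalgebra k F)) : Prop :=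
  ∀ V ∈ Curves M, {O | O ∈ Points M ∧ (O : Set F) ⊆ V ∧ ¬ RegC O V}.Finite

open Classical in
/-- The part of the form `l` at the point `O`. -/
noncomputable def EE (M : Set (Subalgebra k F))
    (l : ∀ V : ValuationSubring F, ResidueField V → ℚ) (O : Subring F) (V : ValuationSubring F)
    (u : ResidueField V) : ℚ :=
  if h : ∃ u', Adj M O V u u' then l V h.choose else 0

section

variable {M : Set (Subalgebra k F)} {l : ∀ V : ValuationSubring F, ResidueField V → ℚ}
  {O : Subring F} {V : ValuationSubring F}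

theorem EE_eq (hl : Forms k (Curves M) l) (hk : KillsReg M l) (hsep : Sep M) (hV : V ∈ Curves M)
    (hO : O ∈ Points M) (hOV : (O : Set F) ⊆ V)
    {u u' : ResidueField V} (hu : u ≠ 0) (h : Adj M O V u u') : EE M l O V u = l V u' := by
  have h1 : ∃ u', Adj M O V u u' := ⟨u', h⟩
  unfold EE
  rw [dif_pos h1]
  have h2 := h1.choose_spec
  generalize h1.choose = w at h2
  have h3 : l V (w / u') = 0 := by
    apply hk V hV _ (div_ne_zero h2.ne h.ne)
    intro O' hO' hO'V hr
    have hVO' := (curves_point hsep hO' V).1 ⟨hV, hO'V⟩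
    by_cases he : O' = O
    · subst he
      have h4 := h2.here.div hVO' h.here
      rwa [div_div_div_cancel_right₀ hu] at h4
    · exact (h2.off O' hO' hO'V hr he).div hVO' (h.off O' hO' hO'V hr he)
  rw [hl.l_div hV h2.ne h.ne] at h3
  linarith

theorem EE_unit (hl : Forms k (Curves M) l) (hk : KillsReg M l) (hsep : Sep M)
    (hV : V ∈ Curves M) (hO : O ∈ Points M) (hOV : (O : Set F) ⊆ V) {u : ResidueField V}
    (hu : u ≠ 0) (h : UnitAt O V u) : EE M l O V u = 0 := by
  have hVO := (curves_point hsep hO V).1 ⟨hV, hOV⟩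
  have h1 : Adj M O V u 1 := ⟨one_ne_zero, (unitAt_one O V).div hVO h,
    fun O' _ _ _ _ => unitAt_one O' V⟩
  rw [EE_eq hl hk hsep hV hO hOV hu h1, hl.l_one hV]

theorem EE_mul (hl : Forms k (Curves M) l) (hk : KillsReg M l) (hsep : Sep M)
    (hca : CurveApprox M) (hV : V ∈ Curves M) (hO : O ∈ Points M) (hOV : (O : Set F) ⊆ V)
    {u w : ResidueField V} (hu : u ≠ 0) (hw : w ≠ 0) :
    EE M l O V (u * w) = EE M l O V u + EE M l O V w := by
  have hVO := (curves_point hsep hO V).1 ⟨hV, hOV⟩
  obtain ⟨u', hu'⟩ := hca V hV O hO hOV u hu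
  obtain ⟨w', hw'⟩ := hca V hV O hO hOV w hw
  have h1 : Adj M O V (u * w) (u' * w') := by
    refine ⟨mul_ne_zero hu'.ne hw'.ne, ?_, ?_⟩
    · rw [mul_div_mul_comm]
      exact hu'.here.mul hVO hw'.here
    · intro O' hO' hO'V hr he
      have hVO' := (curves_point hsep hO' V).1 ⟨hV, hO'V⟩
      exact (hu'.off O' hO' hO'V hr he).mul hVO' (hw'.off O' hO' hO'V hr he)
  rw [EE_eq hl hk hsep hV hO hOV hu hu', EE_eq hl hk hsep hV hO hOV hw hw',
    EE_eq hl hk hsep hV hO hOV (mul_ne_zero hu hw) h1, hl.mul V hV _ _ hu'.ne hw'.ne]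

theorem EE_div (hl : Forms k (Curves M) l) (hk : KillsReg M l) (hsep : Sep M)
    (hca : CurveApprox M) (hV : V ∈ Curves M) (hO : O ∈ Points M) (hOV : (O : Set F) ⊆ V)
    {u w : ResidueField V} (hu : u ≠ 0) (hw : w ≠ 0) :
    EE M l O V (u / w) = EE M l O V u - EE M l O V w := by
  have h := EE_mul hl hk hsep hca hV hO hOV (div_ne_zero hu hw) hw
  rw [div_mul_cancel₀ _ hw] at h
  linarith

theorem EE_reg (hl : Forms k (Curves M) l) (hk : KillsReg M l) (hsep : Sep M)
    (hca : CurveApprox M) (hV : V ∈ Curves M) (hO : O ∈ Points M) (hOV : (O : Set F) ⊆ V)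
    {u : ResidueField V} (hu : u ≠ 0) (h : RegC O V) : EE M l O V u = 0 := by
  obtain ⟨u', hu'⟩ := hca V hV O hO hOV u hu
  rw [EE_eq hl hk hsep hV hO hOV hu hu']
  apply hk V hV _ hu'.ne
  intro O' hO' hO'V hr
  refine hu'.off O' hO' hO'V hr ?_
  rintro rfl
  exact hr h

/-- The form is the sum of its parts at the singular points. -/
theorem sum_EE (hl : Forms k (Curves M) l) (hk : KillsReg M l) (hsep : Sep M)
    (hca : CurveApprox M) (hV : V ∈ Curves M) {S : Finset (Subring F)}
    (hS : ∀ O, O ∈ S ↔ O ∈ Points M ∧ (O : Set F) ⊆ V ∧ ¬ RegC O V) {u : ResidueField V}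
    (hu : u ≠ 0) : l V u = ∑ O ∈ S, EE M l O V u := by
  classical
  have h1 : ∀ O ∈ S, ∃ u', Adj M O V u u' := fun O hO =>
    hca V hV O ((hS O).1 hO).1 ((hS O).1 hO).2.1 u hu
  choose! c hc using h1
  have h2 : ∑ O ∈ S, EE M l O V u = ∑ O ∈ S, l V (c O) := by
    apply Finset.sum_congr rfl
    intro O hO
    exact EE_eq hl hk hsep hV ((hS O).1 hO).1 ((hS O).1 hO).2.1 hu (hc O hO)
  have h3 : ∀ T : Finset (Subring F), T ⊆ S →
      ∑ O ∈ T, l V (c O) = l V (∏ O ∈ T, c O) ∧ ∏ O ∈ T, c O ≠ 0 := by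
    intro T
    induction T using Finset.induction_on with
    | empty =>
      intro _
      rw [Finset.sum_empty, Finset.prod_empty]
      exact ⟨(hl.l_one hV).symm, one_ne_zero⟩
    | insert O T hOT ih =>
      intro hT
      have hO : O ∈ S := hT (Finset.mem_insert_self O T)
      obtain ⟨h4, h5⟩ := ih fun a ha => hT (Finset.mem_insert_of_mem ha)
      rw [Finset.sum_insert hOT, Finset.prod_insert hOT, h4, hl.mul V hV _ _ (hc O hO).ne h5]
      exact ⟨rfl, mul_ne_zero (hc O hO).ne h5⟩
  obtain ⟨h4, h5⟩ := h3 S subset_rfl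
  rw [h2, h4]
  have h6 : l V ((∏ O ∈ S, c O) / u) = 0 := by
    apply hk V hV _ (div_ne_zero h5 hu)
    intro O hO hOV hr
    have hOS : O ∈ S := (hS O).2 ⟨hO, hOV, hr⟩
    have hVO := (curves_point hsep hO V).1 ⟨hV, hOV⟩
    rw [← Finset.mul_prod_erase S c hOS, mul_div_right_comm]
    refine (hc O hOS).here.mul hVO ?_
    have h7 : ∀ T : Finset (Subring F), T ⊆ S.erase O → UnitAt O V (∏ O' ∈ T, c O') := by
      intro T
      induction T using Finset.induction_on with
      | empty =>
        intro _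
        rw [Finset.prod_empty]
        exact unitAt_one O V
      | insert O' T hOT ih =>
        intro hT
        have hO' := Finset.mem_erase.1 (hT (Finset.mem_insert_self O' T))
        rw [Finset.prod_insert hOT]
        refine ((hc O' hO'.2).off O hO hOV hr (Ne.symm hO'.1)).mul hVO (ih fun a ha =>
          hT (Finset.mem_insert_of_mem ha))
    exact h7 _ subset_rfl
  rw [hl.l_div hV h5 hu] at h6
  linarith

end

end Pool.Agent.Lib.MP_b197b4_ntK
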