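import Pool.Agent.Lib.MP_b197b4_ntK.BG

/-!
# MP_b197b4_nt, project K1, B': a form which kills the functions that are units at all singular
points is zero
-/

set_option autoImplicit false
set_option linter.unusedSectionVars false

namespace Pool.Agent.Lib.MP_b197b4_ntK

open IsLocalRing Pool.Agent.K1

variable {k : Type} {F : Type} [Field k] [Field F] [Algebra k F] {n : ℕ}
  {x : Fin (n + 1) → F} {l : ∀ V : ValuationSubring F, ResidueField V → ℚ}
  {e : ValuationSubring F → ℚ}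

/-- The linear functional of the divisors of the forms. -/
noncomputable def Phi (k : Type) {F : Type} [Field k] [Field F] [Algebra k F] {n : ℕ}
    (x : Fin (n + 1) → F) (l : ∀ V : ValuationSubring F, ResidueField V → ℚ)
    (e : ValuationSubring F → ℚ) (a : ℕ) (f : F) : ℚ :=
  ∑ᶠ (V) (_ : V ∈ Curves (charts k x)), (vh x V a f : ℚ) * eps k x l e V

theorem points_nonempty (hS : Surf k x) : ∃ O, O ∈ Points (charts k x) := by
  have h1 := hS.chart 0
  obtain ⟨m, hm⟩ := Ideal.exists_maximal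
    (Algebra.adjoin k (Set.range fun j => x j / x 0) : Subalgebra k F)
  have := hm.isPrime
  exact ⟨locSub _ m, _, ⟨0, rfl⟩, m, hm, fun y => Iff.rfl⟩

section

variable (hS : Surf k x) (hl : Forms k (Curves (charts k x)) l) (hk : KillsReg (charts k x) l)
  (hca : CurveApprox (charts k x)) (hsing : SingFin (charts k x)) (hgp : GenPos k x)
  (he : ∀ (f g : F) (a b : ℤ), f ≠ 0 → g ≠ 0 → LS x (Curves (charts k x)) l e f a g b = 0)

include hS hl hk hca hsing hgp he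

theorem surf_chart : ∀ A ∈ charts k x, Chart A := by
  rintro _ ⟨i, rfl⟩
  exact hS.chart i

/-- The functional is a multiple of the degree. -/
theorem Phi_eq {a₁ a₂ : ℕ} {f₁ f₂ : F} (h₁ : f₁ ∈ hom k x a₁) (h₂ : f₂ ∈ hom k x a₂)
    (hf₁ : f₁ ≠ 0) (hf₂ : f₂ ≠ 0) : (a₂ : ℚ) * Phi k x l e a₁ f₁ = a₁ * Phi k x l e a₂ f₂ := by
  obtain ⟨O₀, hO₀⟩ := points_nonempty hS
  have hch := surf_chart hS hl hk hca hsing hgp he
  have := points_local hch hO₀
  have hL := loc2_of_points hch hO₀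
  obtain ⟨b, g, w, t, hb, hg, hw, ht, htg, hc, hr⟩ := hgp (a₁ + a₂) (f₁ * f₂)
    (mul_mem_hom h₁ h₂) (mul_ne_zero hf₁ hf₂) O₀ hO₀ 1 (fun V _ _ => by simp) 1
  have htu : IsUnit t := by
    by_contra hcon
    have h1 := (mem_maximalIdeal t).2 hcon
    rw [pow_one] at htg
    have h3 := Ideal.sub_mem _ h1 htg
    rw [sub_sub_cancel] at h3
    exact (mem_maximalIdeal (1 : O₀)).1 h3 isUnit_one
  have hg0 := hc.2.1
  have hsep := hS.sep
  -- the equation for one of the forms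
  have key : ∀ (a : ℕ) (f : F), f ∈ hom k x a → f ≠ 0 →
      (∀ V ∈ Curves (charts k x), vh x V a f ≠ 0 → vh x V ((a₁ + a₂ : ℕ) : ℤ) (f₁ * f₂) ≠ 0) →
      (∀ O ∈ Points (charts k x), ZeroAt x O a f → ZeroAt x O (a₁ + a₂) (f₁ * f₂)) →
      (b : ℚ) * Phi k x l e a f = a * Phi k x l e b g := by
    intro a f hf hf0 hv hz
    have hc' : Copr x (Curves (charts k x)) f a g b := by
      refine ⟨hf0, hg0, fun V hV => ⟨vh_nonneg (disc_of_curves hV) (over_of_curves hV) hS.ne hf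
        hf0, (hc.2.2 V hV).2.1, ?_⟩⟩
      by_cases h : vh x V a f = 0
      · exact Or.inl h
      · exact Or.inr (((hc.2.2 V hV).2.2).resolve_left (hv V hV h))
    have hs := hw.div_mem (point_over hO₀) hf
    have h1 := mu_eq (e := e) hS hl hk hca hsing hf hg hc' hO₀ hw (s := ⟨_, hs⟩) (t := t) rfl ht
      (fun O hO hne hzf hzg V hV hOV hvf =>
        hr O hO hne (hz O hO hzf) hzg V hV hOV (Or.inl (hv V hV hvf)))
    have h2 := mu_eq (e := e) hS hl hk hca hsing hg hf hc'.symm hO₀ hw (s := t) (t := ⟨_, hs⟩) ht rfl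
      (fun O hO hne hzg hzf V hV hOV hvg =>
        hr O hO hne (hz O hO hzf) hzg V hV hOV (Or.inr hvg))
    rw [LL_unit_right hl hk hsep hO₀ hL htu, zero_add] at h1
    rw [LL_unit_left htu, zero_add] at h2
    have h3 := mu_symm hl hS.ne he hc'
    rw [h1, h2] at h3
    exact h3
  have hv₁ : ∀ V ∈ Curves (charts k x), 0 ≤ vh x V a₁ f₁ := fun V hV =>
    vh_nonneg (disc_of_curves hV) (over_of_curves hV) hS.ne h₁ hf₁
  have hv₂ : ∀ V ∈ Curves (charts k x), 0 ≤ vh x V a₂ f₂ := fun V hV =>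
    vh_nonneg (disc_of_curves hV) (over_of_curves hV) hS.ne h₂ hf₂
  have hvm : ∀ V ∈ Curves (charts k x), vh x V ((a₁ + a₂ : ℕ) : ℤ) (f₁ * f₂) =
      vh x V a₁ f₁ + vh x V a₂ f₂ := fun V hV => by
    rw [← vh_mul (disc_of_curves hV) a₁ a₂ hf₁ hf₂]
    push_cast
    rfl
  have hz : ∀ O ∈ Points (charts k x), (ZeroAt x O a₁ f₁ ∨ ZeroAt x O a₂ f₂) →
      ZeroAt x O (a₁ + a₂) (f₁ * f₂) := by
    intro O hO h
    obtain ⟨i, hi⟩ := gen_of_point hS.ne hO
    rw [zeroAt_iff hS.ne hi.le]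
    intro y hy hy1
    have e1 : y * (f₁ * f₂ / x i ^ (a₁ + a₂)) = y * (f₁ / x i ^ a₁) * (f₂ / x i ^ a₂) := by
      rw [pow_add, mul_div_mul_comm]
      ring
    rcases h with h | h
    · rw [zeroAt_iff hS.ne hi.le] at h
      refine h (y * (f₂ / x i ^ a₂)) (mul_mem hy (hi.div_mem (point_over hO) h₂)) ?_
      rw [← hy1, e1]
      ring
    · rw [zeroAt_iff hS.ne hi.le] at h
      refine h (y * (f₁ / x i ^ a₁)) (mul_mem hy (hi.div_mem (point_over hO) h₁)) ?_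
      rw [← hy1, e1]
  have k1 := key a₁ f₁ h₁ hf₁ (fun V hV h => by
    rw [hvm V hV]
    have := hv₁ V hV
    have := hv₂ V hV
    omega) (fun O hO h => hz O hO (Or.inl h))
  have k2 := key a₂ f₂ h₂ hf₂ (fun V hV h => by
    rw [hvm V hV]
    have := hv₁ V hV
    have := hv₂ V hV
    omega) (fun O hO h => hz O hO (Or.inr h))
  have hb' : (b : ℚ) ≠ 0 := by exact_mod_cast hb.ne'
  apply mul_left_cancel₀ hb'
  calc (b : ℚ) * ((a₂ : ℚ) * Phi k x l e a₁ f₁) = a₂ * (b * Phi k x l e a₁ f₁) := by ring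
    _ = a₂ * (a₁ * Phi k x l e b g) := by rw [k1]
    _ = a₁ * (a₂ * Phi k x l e b g) := by ring
    _ = a₁ * (b * Phi k x l e a₂ f₂) := by rw [k2]
    _ = b * (a₁ * Phi k x l e a₂ f₂) := by ring

omit hgp he in
/-- Elements of the local ring are quotients of forms. -/
theorem exists_form {O : Subring F} (hO : O ∈ Points (charts k x)) {w : F} (hw : Gen k x O w)
    (y : O) : ∃ (a : ℕ) (f : F) (s c : O), f ∈ hom k x a ∧ (s : F) = f / w ^ a ∧ IsUnit c ∧
      s = y * c := by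
  obtain ⟨m, hm, hmO⟩ := exists_isLoc hS.ne hO hw
  obtain ⟨α, β, hβ, h1⟩ := (hmO y).1 y.2
  obtain ⟨a0, hα⟩ := exists_common hw.mem hw.ne α.2
  have hα' := hα a0 le_rfl
  have h2 : (α : F) ∈ O := hmO.coe_mem hm.ne_top α
  have h3 : (β : F) ∈ O := hmO.coe_mem hm.ne_top β
  have := hm.isPrime
  have h4 : IsUnit (⟨(β : F), h3⟩ : O) := hmO.isUnit hβ hm.ne_top
  refine ⟨a0, _, ⟨(α : F), h2⟩, ⟨(β : F), h3⟩, hα', ?_, h4, ?_⟩
  · change (α : F) = α * w ^ a0 / w ^ a0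
    rw [mul_div_cancel_right₀ _ (pow_ne_zero _ hw.ne)]
  · apply Subtype.ext
    change (α : F) = (y : F) * β
    rw [h1, div_mul_cancel₀ _ (coe_ne_zero_of_notMem hβ)]

/-- **Approximation for the local symbol.** -/
theorem LL_approx {O₀ : Subring F} (hO₀ : O₀ ∈ Points (charts k x)) [IsLocalRing O₀]
    (f₁ f₂ g₀ : O₀) (hf₁ : f₁ ≠ 0) (hf₂ : f₂ ≠ 0) (h₁ : Cop f₁ g₀) (h₂ : Cop f₂ g₀) (N : ℕ) :
    ∃ g', g' - g₀ ∈ maximalIdeal O₀ ^ N ∧
      LL (charts k x) l O₀ f₁ g' = LL (charts k x) l O₀ g' f₁ ∧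
      LL (charts k x) l O₀ f₂ g' = LL (charts k x) l O₀ g' f₂ := by
  have hch := surf_chart hS hl hk hca hsing hgp he
  have hL := loc2_of_points hch hO₀
  have hsep := hS.sep
  have hdim := points_not_pow_le hch hO₀
  have hdim' : ∀ w ∈ maximalIdeal O₀, ∀ N : ℕ, ¬ maximalIdeal O₀ ^ N ≤ Ideal.span {w} :=
    fun w hw N => hdim w hw N
  obtain ⟨i, hi⟩ := gen_of_point hS.ne hO₀
  obtain ⟨a₁, F₁, s₁, c₁, hF₁, hs₁, hc₁, hsc₁⟩ := exists_form hS hl hk hca hsing hO₀ hi f₁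
  obtain ⟨a₂, F₂, s₂, c₂, hF₂, hs₂, hc₂, hsc₂⟩ := exists_form hS hl hk hca hsing hO₀ hi f₂
  have hs₁0 : s₁ ≠ 0 := by rw [hsc₁]; exact mul_ne_zero hf₁ hc₁.ne_zero
  have hs₂0 : s₂ ≠ 0 := by rw [hsc₂]; exact mul_ne_zero hf₂ hc₂.ne_zero
  have hF₁0 : F₁ ≠ 0 := by
    rintro rfl
    apply hs₁0
    apply Subtype.ext
    rw [hs₁, zero_div]
    rfl
  have hF₂0 : F₂ ≠ 0 := by
    rintro rfl
    apply hs₂0
    apply Subtype.ext
    rw [hs₂, zero_div]
    rfl
  -- the curves of the forms through the point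
  have hvm : ∀ V ∈ Curves (charts k x), vh x V ((a₁ + a₂ : ℕ) : ℤ) (F₁ * F₂) =
      vh x V a₁ F₁ + vh x V a₂ F₂ := fun V hV => by
    rw [← vh_mul (disc_of_curves hV) a₁ a₂ hF₁0 hF₂0]
    push_cast
    rfl
  have hcop : ∀ (a : ℕ) (G : F) (s c f : O₀), G ≠ 0 → (s : F) = G / x i ^ a → IsUnit c →
      s = f * c → Cop f g₀ → ∀ V ∈ CurvesAt O₀, vh x V a G ≠ 0 → V.valuation (g₀ : F) = 1 := by
    intro a G s c f hG hs hc hsc hcop V hV hv
    obtain ⟨h1, h2⟩ := (curves_point hsep hO₀ V).2 hV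
    refine (cop_curve hL hdim' hcop hV).resolve_left ?_
    intro h3
    apply hv
    rw [← ord_div_gen hS h1 (hi.curve h2) hG a, ← hs, hsc]
    have h4 := CurvesAt.isUnit hV hc
    have hf0 : (f : F) ≠ 0 := ne_zero_of_val_one h3
    have hc0 : (c : F) ≠ 0 := ne_zero_of_val_one h4
    change ord V ((f : F) * c) = 0
    rw [ord_mul hV.1 hf0 hc0, (ord_eq_zero_iff hV.1 hf0).2 h3, (ord_eq_zero_iff hV.1 hc0).2 h4,
      add_zero]
  obtain ⟨b, g, w, t, hb, hg, hw, ht, htg, hc, hr⟩ := hgp (a₁ + a₂) (F₁ * F₂)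
    (mul_mem_hom hF₁ hF₂) (mul_ne_zero hF₁0 hF₂0) O₀ hO₀ g₀ (fun V hV hv => by
      obtain ⟨h1, h2⟩ := (curves_point hsep hO₀ V).2 hV
      rw [hvm V h1] at hv
      by_cases h3 : vh x V a₁ F₁ = 0
      · rw [h3, zero_add] at hv
        exact hcop a₂ F₂ s₂ c₂ f₂ hF₂0 hs₂ hc₂ hsc₂ h₂ V hV hv
      · exact hcop a₁ F₁ s₁ c₁ f₁ hF₁0 hs₁ hc₁ hsc₁ h₁ V hV h3) N
  refine ⟨t, htg, ?_⟩
  have hg0 := hc.2.1
  have ht0 : t ≠ 0 := by
    intro h
    rw [h] at ht
    exact (div_ne_zero hg0 (pow_ne_zero _ hw.ne)) ht.symm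
  -- one of the two forms
  have key : ∀ (a : ℕ) (G : F) (s c f : O₀), G ∈ hom k x a → G ≠ 0 → (s : F) = G / x i ^ a →
      IsUnit c → s = f * c → f ≠ 0 →
      (∀ V ∈ Curves (charts k x), vh x V a G ≠ 0 → vh x V ((a₁ + a₂ : ℕ) : ℤ) (F₁ * F₂) ≠ 0) →
      (∀ O ∈ Points (charts k x), ZeroAt x O a G → ZeroAt x O (a₁ + a₂) (F₁ * F₂)) →
      LL (charts k x) l O₀ f t = LL (charts k x) l O₀ t f := by
    intro a G s c f hG hG0 hs hcu hsc hf0 hv hz
    have hc' : Copr x (Curves (charts k x)) G a g b := by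
      refine ⟨hG0, hg0, fun V hV => ⟨vh_nonneg (disc_of_curves hV) (over_of_curves hV) hS.ne hG
        hG0, (hc.2.2 V hV).2.1, ?_⟩⟩
      by_cases h : vh x V a G = 0
      · exact Or.inl h
      · exact Or.inr (((hc.2.2 V hV).2.2).resolve_left (hv V hV h))
    have hs' := hw.div_mem (point_over hO₀) hG
    have h1 := mu_eq (e := e) hS hl hk hca hsing hG hg hc' hO₀ hw (s := ⟨_, hs'⟩) (t := t) rfl ht
      (fun O hO hne hzf hzg V hV hOV hvf =>
        hr O hO hne (hz O hO hzf) hzg V hV hOV (Or.inl (hv V hV hvf)))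
    have h2 := mu_eq (e := e) hS hl hk hca hsing hg hG hc'.symm hO₀ hw (s := t) (t := ⟨_, hs'⟩) ht
      rfl (fun O hO hne hzg hzf V hV hOV hvg =>
        hr O hO hne (hz O hO hzf) hzg V hV hOV (Or.inr hvg))
    have h3 := mu_symm hl hS.ne he hc'
    have h4 := Phi_eq hS hl hk hca hsing hgp he hG hg hG0 hg0
    unfold Phi at h4
    rw [h1, h2, h4] at h3
    have h5 : LL (charts k x) l O₀ ⟨G / w ^ a, hs'⟩ t = LL (charts k x) l O₀ t ⟨G / w ^ a, hs'⟩ := by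
      linarith
    -- `G / w ^ a` is `f` times a unit
    obtain ⟨v, hvu, hv1⟩ := gen_div_isUnit hO₀ hi hw
    have h6 : (⟨G / w ^ a, hs'⟩ : O₀) = f * (c * v ^ a) := by
      rw [← mul_assoc, ← hsc]
      apply Subtype.ext
      change G / w ^ a = (s : F) * (v : F) ^ a
      rw [hs, hv1, div_pow]
      have := pow_ne_zero a hi.ne
      field_simp
    have hcv : IsUnit (c * v ^ a) := hcu.mul (hvu.pow a)
    rw [h6, LL_mul_left hL hf0 hcv.ne_zero, LL_unit_left hcv, add_zero] at h5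
    rw [h5]
    -- the second argument times a unit
    unfold LL
    apply finsum_mem_congr rfl
    intro V hV
    obtain ⟨hV1, hV2⟩ := (curves_point hsep hO₀ V).2 hV
    by_cases h7 : ord V (t : F) = 0
    · rw [h7]
      simp
    -- `f` is a unit on the curve
    have h8 : vh x V b g ≠ 0 := by
      rw [← ord_div_gen hS hV1 (hw.curve hV2) hg0 b, ← ht]
      exact h7
    have h9 : vh x V a G = 0 := ((hc'.2.2 V hV1).2.2).resolve_right h8
    have h10 := ord_div_gen hS hV1 (hw.curve hV2) hG0 a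
    rw [h9] at h10
    have h11 : ord V ((f : F) * ((c * v ^ a : O₀) : F)) = 0 := by
      rw [← h10]
      congr 1
      exact (congrArg (Subtype.val : O₀ → F) h6).symm
    have hf0' : (f : F) ≠ 0 := fun h => hf0 (Subtype.ext h)
    have h12 := CurvesAt.isUnit hV hcv
    have h13 : ((c * v ^ a : O₀) : F) ≠ 0 := ne_zero_of_val_one h12
    rw [ord_mul hV.1 hf0' h13, (ord_eq_zero_iff hV.1 h13).2 h12, add_zero] at h11
    have h14 := (ord_eq_zero_iff hV.1 hf0').1 h11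
    have h15 : (((f * (c * v ^ a) : O₀)) : F) = (f : F) * ((c * v ^ a : O₀) : F) := rfl
    rw [h15, res_mul (mem_of_val_one h14) (mem_of_val_one h12),
      EE_mul hl hk hsep hca hV1 hO₀ hV2 ((res_ne_zero_iff (mem_of_val_one h14)).2 h14)
      ((res_ne_zero_iff (mem_of_val_one h12)).2 h12),
      EE_unit hl hk hsep hV1 hO₀ hV2 ((res_ne_zero_iff (mem_of_val_one h12)).2 h12)
      ⟨_, hcv, rfl⟩, add_zero]
  have hv₁ : ∀ V ∈ Curves (charts k x), 0 ≤ vh x V a₁ F₁ := fun V hV =>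
    vh_nonneg (disc_of_curves hV) (over_of_curves hV) hS.ne hF₁ hF₁0
  have hv₂ : ∀ V ∈ Curves (charts k x), 0 ≤ vh x V a₂ F₂ := fun V hV =>
    vh_nonneg (disc_of_curves hV) (over_of_curves hV) hS.ne hF₂ hF₂0
  have hz : ∀ O ∈ Points (charts k x), (ZeroAt x O a₁ F₁ ∨ ZeroAt x O a₂ F₂) →
      ZeroAt x O (a₁ + a₂) (F₁ * F₂) := by
    intro O hO h
    obtain ⟨i, hi⟩ := gen_of_point hS.ne hO
    rw [zeroAt_iff hS.ne hi.le]
    intro y hy hy1
    have e1 : y * (F₁ * F₂ / x i ^ (a₁ + a₂)) = y * (F₁ / x i ^ a₁) * (F₂ / x i ^ a₂) := by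
      rw [pow_add, mul_div_mul_comm]
      ring
    rcases h with h | h
    · rw [zeroAt_iff hS.ne hi.le] at h
      refine h (y * (F₂ / x i ^ a₂)) (mul_mem hy (hi.div_mem (point_over hO) hF₂)) ?_
      rw [← hy1, e1]
      ring
    · rw [zeroAt_iff hS.ne hi.le] at h
      refine h (y * (F₁ / x i ^ a₁)) (mul_mem hy (hi.div_mem (point_over hO) hF₁)) ?_
      rw [← hy1, e1]
  constructor
  · exact key a₁ F₁ s₁ c₁ f₁ hF₁ hF₁0 hs₁ hc₁ hsc₁ hf₁ (fun V hV h => by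
      rw [hvm V hV]
      have := hv₁ V hV
      have := hv₂ V hV
      omega) (fun O hO h => hz O hO (Or.inl h))
  · exact key a₂ F₂ s₂ c₂ f₂ hF₂ hF₂0 hs₂ hc₂ hsc₂ hf₂ (fun V hV h => by
      rw [hvm V hV]
      have := hv₁ V hV
      have := hv₂ V hV
      omega) (fun O hO h => hz O hO (Or.inr h))

end

end Pool.Agent.Lib.MP_b197b4_ntK
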