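import Pool.Agent.Lib.MP_b197b4_ntK.BL
import Pool.Agent.Lib.MP_b197b4_ntK.Fin
import Pool.Agent.Lib.MP_b197b4_ntG.Gen
import Pool.Agent.Lib.MP_b197b4_ntG.GenC

/-!
# MP_b197b4_nt, project K1, B': from the Mennicke symbol to the local symbols
-/

set_option autoImplicit false
set_option linter.unusedSectionVars false

namespace Pool.Agent.Lib.MP_b197b4_ntK

open IsLocalRing Pool.Agent.K1

variable {k : Type} {F : Type} [Field k] [Field F] [Algebra k F] {n : ℕ}

/-- General position: a form `g` of positive degree, equal to `g₀` at `O₀` up to order `N`, such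
that at the other common zeros of `f` and `g` all components of `f` and of `g` are regular. -/
def GenPos (k : Type) {F : Type} [Field k] [Field F] [Algebra k F] {n : ℕ}
    (x : Fin (n + 1) → F) : Prop :=
  ∀ (a : ℕ) (f : F), f ∈ hom k x a → f ≠ 0 → ∀ O₀ ∈ Points (charts k x), ∀ [IsLocalRing O₀]
    (g₀ : O₀), (∀ V ∈ CurvesAt O₀, vh x V a f ≠ 0 → V.valuation (g₀ : F) = 1) → ∀ N : ℕ,
    ∃ (b : ℕ) (g w : F) (t : O₀), 0 < b ∧ g ∈ hom k x b ∧ Gen k x O₀ w ∧ (t : F) = g / w ^ b ∧
      t - g₀ ∈ maximalIdeal O₀ ^ N ∧ Copr x (Curves (charts k x)) f a g b ∧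
      ∀ O ∈ Points (charts k x), O ≠ O₀ → ZeroAt x O a f → ZeroAt x O b g →
        ∀ V ∈ Curves (charts k x), (O : Set F) ⊆ V → (vh x V a f ≠ 0 ∨ vh x V b g ≠ 0) →
          RegC O V

section

variable {x : Fin (n + 1) → F} {l : ∀ V : ValuationSubring F, ResidueField V → ℚ}

theorem EE_pow {M : Set (Subalgebra k F)} (hl : Forms k (Curves M) l) (hk : KillsReg M l)
    (hsep : Sep M) (hca : CurveApprox M) {V : ValuationSubring F} (hV : V ∈ Curves M)
    {O : Subring F} (hO : O ∈ Points M) (hOV : (O : Set F) ⊆ V)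
    {u : ResidueField V} (hu : u ≠ 0) (b : ℕ) :
    EE M l O V (u ^ b) = b * EE M l O V u := by
  induction b with
  | zero =>
    rw [pow_zero, EE_unit hl hk hsep hV hO hOV one_ne_zero (unitAt_one O V)]
    simp
  | succ b ih =>
    rw [pow_succ, EE_mul hl hk hsep hca hV hO hOV (pow_ne_zero _ hu) hu, ih]
    push_cast
    ring

/-- A generator at the curve has the order of the smallest coordinate. -/
theorem ord_gen (hS : Surf k x) {V : ValuationSubring F} (hV : V ∈ Curves (charts k x)) {w : F}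
    (hw : Gen k x V.toSubring w) : ord V w = ord V (x (idx x V)) := by
  have hd := disc_of_curves hV
  have h1 : 0 ≤ ord V (x (idx x V) / w) :=
    (ord_nonneg_iff hd (div_ne_zero (hS.ne _) hw.ne)).2 (hw.le _)
  rw [ord_div hd (hS.ne _) hw.ne] at h1
  have h2 : w / x (idx x V) ∈ V.toSubring := by
    apply lin_of_le (curve_over hV) _ hw.mem
    intro j
    change _ ∈ V
    rw [← ord_nonneg_iff hd (div_ne_zero (hS.ne _) (hS.ne _)), ord_div hd (hS.ne _) (hS.ne _)]
    have := idx_le x V j
    omega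
  have h3 : 0 ≤ ord V (w / x (idx x V)) :=
    (ord_nonneg_iff hd (div_ne_zero hw.ne (hS.ne _))).2 h2
  rw [ord_div hd hw.ne (hS.ne _)] at h3
  omega

theorem ord_div_gen (hS : Surf k x) {V : ValuationSubring F} (hV : V ∈ Curves (charts k x))
    {w : F} (hw : Gen k x V.toSubring w) {f : F} (hf : f ≠ 0) (a : ℕ) :
    ord V (f / w ^ a) = vh x V a f := by
  have hd := disc_of_curves hV
  rw [ord_div hd hf (pow_ne_zero _ hw.ne), ord_pow hd hw.ne, ord_gen hS hV hw]
  rfl

/-- The quotient of two generators is a unit. -/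
theorem gen_div_isUnit {O : Subring F} (hO : O ∈ Points (charts k x)) {w v : F}
    (hw : Gen k x O w) (hv : Gen k x O v) :
    ∃ c : O, IsUnit c ∧ (c : F) = w / v := by
  have h1 := hv.lin (point_over hO) hw.mem
  have h2 := hw.lin (point_over hO) hv.mem
  refine ⟨⟨_, h1⟩, IsUnit.of_mul_eq_one ⟨_, h2⟩ ?_, rfl⟩
  apply Subtype.ext
  change w / v * (v / w) = 1
  have := hw.ne
  have := hv.ne
  field_simp

/-- A form which vanishes on a curve vanishes at its points. -/
theorem zeroAt_of_curve (hS : Surf k x) {O : Subring F} (hO : O ∈ Points (charts k x))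
    {V : ValuationSubring F} (hV : V ∈ Curves (charts k x)) (hOV : (O : Set F) ⊆ V) {a : ℕ}
    {f : F} (hf : f ∈ hom k x a) (hf0 : f ≠ 0) (h : vh x V a f ≠ 0) : ZeroAt x O a f := by
  obtain ⟨i, hi⟩ := gen_of_point hS.ne hO
  rw [zeroAt_iff hS.ne hi.le]
  intro y hy hy1
  have hd := disc_of_curves hV
  have h1 := ord_div_gen hS hV (hi.curve hOV) hf0 a
  have h2 : 0 ≤ ord V (f / x i ^ a) := by
    rw [h1]
    exact vh_nonneg hd (over_of_curves hV) hS.ne hf hf0
  have h3 : y ≠ 0 := by
    rintro rfl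
    rw [zero_mul] at hy1
    exact zero_ne_one hy1
  have h4 := (ord_nonneg_iff hd h3).2 (hOV hy)
  have h5 : f / x i ^ a ≠ 0 := div_ne_zero hf0 (pow_ne_zero _ (hS.ne i))
  have h6 := ord_mul hd h3 h5
  rw [hy1, ord_one V hd, h1] at h6
  rw [h1] at h2
  omega

/-- A form which does not vanish at the point is a unit on the curves through the point. -/
theorem unitAt_of_not_zeroAt (hS : Surf k x) {O : Subring F} (hO : O ∈ Points (charts k x))
    {V : ValuationSubring F} {b : ℕ} {g : F} (hg : g ∈ hom k x b) {w : F} (hw : Gen k x O w)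
    (h : ¬ ZeroAt x O b g) : UnitAt O V (res V (g / w ^ b)) := by
  obtain ⟨i, hi⟩ := gen_of_point hS.ne hO
  rw [zeroAt_iff hS.ne hi.le] at h
  push Not at h
  obtain ⟨y, hy, hy1⟩ := h
  have h1 := hi.div_mem (point_over hO) hg
  have h2 : IsUnit (⟨g / x i ^ b, h1⟩ : O) := by
    apply IsUnit.of_mul_eq_one ⟨y, hy⟩
    apply Subtype.ext
    change g / x i ^ b * y = 1
    rw [mul_comm]
    exact hy1
  obtain ⟨c, hc, hc1⟩ := gen_div_isUnit hO hi hw
  refine ⟨⟨g / x i ^ b, h1⟩ * c ^ b, h2.mul (hc.pow b), ?_⟩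
  congr 1
  change g / x i ^ b * (c : F) ^ b = g / w ^ b
  rw [hc1, div_pow]
  have := pow_ne_zero b (hS.ne i)
  field_simp

end

section

variable {x : Fin (n + 1) → F} {l : ∀ V : ValuationSubring F, ResidueField V → ℚ}
  {e : ValuationSubring F → ℚ}

open Classical in
/-- A coordinate which does not vanish at the point. -/
noncomputable def ip (k : Type) {F : Type} [Field k] [Field F] [Algebra k F] {n : ℕ}
    (x : Fin (n + 1) → F) (O : Subring F) : Fin (n + 1) :=
  if h : ∃ i, Gen k x O (x i) then h.choose else 0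

theorem ip_gen (hS : Surf k x) {O : Subring F} (hO : O ∈ Points (charts k x)) :
    Gen k x O (x (ip k x O)) := by
  have h := gen_of_point hS.ne hO
  unfold ip
  rw [dif_pos h]
  exact h.choose_spec

/-- The normalising constant of the curve after the subtraction of the singular parts. -/
noncomputable def eps (k : Type) {F : Type} [Field k] [Field F] [Algebra k F] {n : ℕ}
    (x : Fin (n + 1) → F) (l : ∀ V : ValuationSubring F, ResidueField V → ℚ)
    (e : ValuationSubring F → ℚ) (V : ValuationSubring F) : ℚ :=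
  e V + ∑ᶠ (O) (_ : O ∈ Points (charts k x) ∧ (O : Set F) ⊆ V ∧ ¬ RegC O V),
    EE (charts k x) l O V (res V (x (ip k x O) / x (idx x V)))

variable (hS : Surf k x) (hl : Forms k (Curves (charts k x)) l) (hk : KillsReg (charts k x) l)
  (hca : CurveApprox (charts k x)) (hsing : SingFin (charts k x))

include hS hl hk hca hsing

/-- The form on a homogeneous element is the sum of the singular parts and a constant times the
degree. -/
theorem Lam_eq {V : ValuationSubring F} (hV : V ∈ Curves (charts k x)) {b : ℕ} {g : F}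
    (hg0 : g ≠ 0) (h : vh x V b g = 0) :
    Lam x l e V g b = ∑ O ∈ (hsing V hV).toFinset,
      EE (charts k x) l O V (res V (g / x (ip k x O) ^ b)) + b * eps k x l e V := by
  have hd := disc_of_curves hV
  have hsep := hS.sep
  have hmem : ∀ O, O ∈ (hsing V hV).toFinset ↔
      O ∈ Points (charts k x) ∧ (O : Set F) ⊆ V ∧ ¬ RegC O V := fun O => by
    rw [Set.Finite.mem_toFinset]; rfl
  have hv : V.valuation (hat x V b g) = 1 := by
    rw [← ord_eq_zero_iff hd (hat_ne hS.ne V b hg0), ord_hat hS.ne hd b hg0, h]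
  have hr : res V (hat x V b g) ≠ 0 := (res_ne_zero_iff (mem_of_val_one hv)).2 hv
  have h1 := sum_EE hl hk hsep hca hV hmem hr
  have h2 : ∀ O ∈ (hsing V hV).toFinset, EE (charts k x) l O V (res V (hat x V b g)) =
      EE (charts k x) l O V (res V (g / x (ip k x O) ^ b)) +
        b * EE (charts k x) l O V (res V (x (ip k x O) / x (idx x V))) := by
    intro O hO
    obtain ⟨hO1, hO2, _⟩ := (hmem O).1 hO
    have hi := (ip_gen hS hO1).curve hO2
    have h3 : ord V (g / x (ip k x O) ^ b) = 0 := by rw [ord_div_gen hS hV hi hg0, h]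
    have h4 : V.valuation (g / x (ip k x O) ^ b) = 1 :=
      (ord_eq_zero_iff hd (div_ne_zero hg0 (pow_ne_zero _ hi.ne))).1 h3
    have h5 : ord V (x (ip k x O) / x (idx x V)) = 0 := by
      rw [ord_div hd (hS.ne _) (hS.ne _), ord_gen hS hV hi, sub_self]
    have h6 : V.valuation (x (ip k x O) / x (idx x V)) = 1 :=
      (ord_eq_zero_iff hd (div_ne_zero (hS.ne _) (hS.ne _))).1 h5
    have h7 : hat x V b g = g / x (ip k x O) ^ b * (x (ip k x O) / x (idx x V)) ^ b := by
      unfold hat
      rw [zpow_natCast, div_pow]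
      have := pow_ne_zero b (hS.ne (ip k x O))
      field_simp
    rw [h7, res_mul (mem_of_val_one h4) (pow_mem (mem_of_val_one h6) b),
      res_pow (mem_of_val_one h6), EE_mul hl hk hsep hca hV hO1 hO2
      ((res_ne_zero_iff (mem_of_val_one h4)).2 h4)
      (pow_ne_zero _ ((res_ne_zero_iff (mem_of_val_one h6)).2 h6)),
      EE_pow hl hk hsep hca hV hO1 hO2 ((res_ne_zero_iff (mem_of_val_one h6)).2 h6)]
  have h3 : ∑ᶠ (O) (_ : O ∈ Points (charts k x) ∧ (O : Set F) ⊆ V ∧ ¬ RegC O V),
      EE (charts k x) l O V (res V (x (ip k x O) / x (idx x V))) =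
      ∑ O ∈ (hsing V hV).toFinset,
        EE (charts k x) l O V (res V (x (ip k x O) / x (idx x V))) := by
    apply finsum_cond_eq_sum_of_cond_iff
    intro O _
    exact (hmem O).symm
  unfold Lam eps
  rw [h1, Finset.sum_congr rfl h2, Finset.sum_add_distrib, h3, ← Finset.mul_sum]
  push_cast
  ring

/-- The symbol of forms whose common zeros, except `O₀`, are regular points of the curves. -/
theorem mu_eq {a b : ℕ} {f g : F} (hf : f ∈ hom k x a) (hg : g ∈ hom k x b)
    (hc : Copr x (Curves (charts k x)) f a g b) {O₀ : Subring F}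
    (hO₀ : O₀ ∈ Points (charts k x)) {w : F} (hw : Gen k x O₀ w) {s t : O₀}
    (hs : (s : F) = f / w ^ a) (ht : (t : F) = g / w ^ b)
    (hr : ∀ O ∈ Points (charts k x), O ≠ O₀ → ZeroAt x O a f → ZeroAt x O b g →
      ∀ V ∈ Curves (charts k x), (O : Set F) ⊆ V → vh x V a f ≠ 0 → RegC O V) :
    mu x (Curves (charts k x)) l e f a g b = LL (charts k x) l O₀ s t +
      b * ∑ᶠ (V) (_ : V ∈ Curves (charts k x)), (vh x V a f : ℚ) * eps k x l e V := by
  classical
  have hsep := hS.sep
  have hf0 := hc.1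
  have hg0 := hc.2.1
  have hs0 : s ≠ 0 := by
    intro h
    rw [h] at hs
    exact (div_ne_zero hf0 (pow_ne_zero _ hw.ne)) hs.symm
  have hch : ∀ A ∈ charts k x, Chart A := by
    rintro _ ⟨i, rfl⟩
    exact hS.chart i
  have hL := loc2_of_points hch hO₀
  have hfinD : {V | V ∈ Curves (charts k x) ∧ vh x V a f ≠ 0}.Finite :=
    vh_finite hl.finite hS.ne a hf0
  -- the value on one curve
  have key : ∀ V ∈ Curves (charts k x), (vh x V a f : ℚ) * Lam x l e V g b =
      (vh x V a f : ℚ) * (if (O₀ : Set F) ⊆ V then EE (charts k x) l O₀ V (res V (t : F)) else 0) +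
        b * ((vh x V a f : ℚ) * eps k x l e V) := by
    intro V hV
    by_cases hv : vh x V a f = 0
    · rw [hv]
      push_cast
      ring
    have hvg : vh x V b g = 0 := ((hc.2.2 V hV).2.2).resolve_left hv
    have hd := disc_of_curves hV
    rw [Lam_eq hS hl hk hca hsing hV hg0 hvg]
    have hmem : ∀ O, O ∈ (hsing V hV).toFinset ↔
        O ∈ Points (charts k x) ∧ (O : Set F) ⊆ V ∧ ¬ RegC O V := fun O => by
      rw [Set.Finite.mem_toFinset]; rfl
    have h1 : ∀ O ∈ (hsing V hV).toFinset, O ≠ O₀ →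
        EE (charts k x) l O V (res V (g / x (ip k x O) ^ b)) = 0 := by
      intro O hO hne
      obtain ⟨hO1, hO2, hO3⟩ := (hmem O).1 hO
      have hi := ip_gen hS hO1
      have h2 := zeroAt_of_curve hS hO1 hV hO2 hf hf0 hv
      have h3 : ¬ ZeroAt x O b g := fun h => hO3 (hr O hO1 hne h2 h V hV hO2 hv)
      have h4 := ord_div_gen hS hV (hi.curve hO2) hg0 b
      rw [hvg] at h4
      have h5 := (ord_eq_zero_iff hd (div_ne_zero hg0 (pow_ne_zero _ hi.ne))).1 h4
      exact EE_unit hl hk hsep hV hO1 hO2 ((res_ne_zero_iff (mem_of_val_one h5)).2 h5)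
        (unitAt_of_not_zeroAt hS hO1 hg hi h3)
    have h2 : ∑ O ∈ (hsing V hV).toFinset,
        EE (charts k x) l O V (res V (g / x (ip k x O) ^ b)) =
        if (O₀ : Set F) ⊆ V then EE (charts k x) l O₀ V (res V (t : F)) else 0 := by
      by_cases hOV : (O₀ : Set F) ⊆ V
      · rw [if_pos hOV]
        have hi := ip_gen hS hO₀
        have h4 := ord_div_gen hS hV (hi.curve hOV) hg0 b
        rw [hvg] at h4
        have h5 := (ord_eq_zero_iff hd (div_ne_zero hg0 (pow_ne_zero _ hi.ne))).1 h4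
        have h4' := ord_div_gen hS hV (hw.curve hOV) hg0 b
        rw [hvg] at h4'
        have h5' := (ord_eq_zero_iff hd (div_ne_zero hg0 (pow_ne_zero _ hw.ne))).1 h4'
        rw [← ht] at h5'
        by_cases hreg : RegC O₀ V
        · rw [EE_reg hl hk hsep hca hV hO₀ hOV ((res_ne_zero_iff (mem_of_val_one h5')).2 h5') hreg]
          apply Finset.sum_eq_zero
          intro O hO
          apply h1 O hO
          rintro rfl
          exact ((hmem O).1 hO).2.2 hreg
        · rw [Finset.sum_eq_single_of_mem O₀ ((hmem O₀).2 ⟨hO₀, hOV, hreg⟩) h1]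
          obtain ⟨c, hcu, hc1⟩ := gen_div_isUnit hO₀ hw hi
          have h6 : g / x (ip k x O₀) ^ b = (t : F) * (c : F) ^ b := by
            rw [ht, hc1, div_pow]
            have := pow_ne_zero b hw.ne
            have := pow_ne_zero b hi.ne
            field_simp
          have hVO := (curves_point hsep hO₀ V).1 ⟨hV, hOV⟩
          have h7 := CurvesAt.isUnit hVO (hcu.pow b)
          have h8 : (((c ^ b : O₀)) : F) = (c : F) ^ b := rfl
          rw [h8] at h7
          rw [h6, res_mul (mem_of_val_one h5') (mem_of_val_one h7),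
            EE_mul hl hk hsep hca hV hO₀ hOV ((res_ne_zero_iff (mem_of_val_one h5')).2 h5')
            ((res_ne_zero_iff (mem_of_val_one h7)).2 h7),
            EE_unit hl hk hsep hV hO₀ hOV ((res_ne_zero_iff (mem_of_val_one h7)).2 h7)
            ⟨c ^ b, hcu.pow b, rfl⟩, add_zero]
      · rw [if_neg hOV]
        apply Finset.sum_eq_zero
        intro O hO
        apply h1 O hO
        rintro rfl
        exact hOV ((hmem O).1 hO).2.1
    rw [h2]
    ring
  have hfin1 : (Curves (charts k x) ∩ Function.support fun V => (vh x V a f : ℚ) *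
      (if (O₀ : Set F) ⊆ V then EE (charts k x) l O₀ V (res V (t : F)) else 0)).Finite := by
    refine hfinD.subset ?_
    rintro V ⟨hV, h⟩
    refine ⟨hV, fun h1 => h ?_⟩
    simp only [h1]
    simp
  have hfin2 : (Curves (charts k x) ∩ Function.support fun V =>
      (b : ℚ) * ((vh x V a f : ℚ) * eps k x l e V)).Finite := by
    refine hfinD.subset ?_
    rintro V ⟨hV, h⟩
    refine ⟨hV, fun h1 => h ?_⟩
    simp only [h1]
    simp
  have e1 : mu x (Curves (charts k x)) l e f a g b =
      ∑ᶠ (V) (_ : V ∈ Curves (charts k x)), (vh x V a f : ℚ) *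
      (if (O₀ : Set F) ⊆ V then EE (charts k x) l O₀ V (res V (t : F)) else 0) +
      ∑ᶠ (V) (_ : V ∈ Curves (charts k x)), (b : ℚ) * ((vh x V a f : ℚ) * eps k x l e V) := by
    unfold mu
    rw [← finsum_mem_add_distrib' hfin1 hfin2]
    exact finsum_mem_congr rfl key
  have e2 : ∑ᶠ (V) (_ : V ∈ Curves (charts k x)), (b : ℚ) * ((vh x V a f : ℚ) * eps k x l e V) =
      b * ∑ᶠ (V) (_ : V ∈ Curves (charts k x)), (vh x V a f : ℚ) * eps k x l e V := by
    rw [mul_finsum]
    refine finsum_congr fun V => ?_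
    by_cases hV : V ∈ Curves (charts k x)
    · rw [finsum_eq_if, finsum_eq_if, if_pos hV, if_pos hV]
    · rw [finsum_eq_if, finsum_eq_if, if_neg hV, if_neg hV, mul_zero]
  have e3 : ∑ᶠ (V) (_ : V ∈ Curves (charts k x)), (vh x V a f : ℚ) *
      (if (O₀ : Set F) ⊆ V then EE (charts k x) l O₀ V (res V (t : F)) else 0) =
      LL (charts k x) l O₀ s t := by
    unfold LL
    refine finsum_congr fun V => ?_
    by_cases hV : V ∈ CurvesAt O₀
    · obtain ⟨h1, h2⟩ := (curves_point hsep hO₀ V).2 hV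
      rw [finsum_eq_if, finsum_eq_if, if_pos hV, if_pos h1, if_pos h2, hs,
        ord_div_gen hS h1 (hw.curve h2) hf0 a]
    · rw [finsum_eq_if, finsum_eq_if, if_neg hV]
      split_ifs with h1 h2
      · exact absurd ((curves_point hsep hO₀ V).1 ⟨h1, h2⟩) hV
      · rw [mul_zero]
      · rfl
  rw [e1, e2, e3]

end

end Pool.Agent.Lib.MP_b197b4_ntK
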