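import Pool.Agent.Lib.MP_b197b4_ntK.BE

/-!
# MP_b197b4_nt, project K1, B': the local symbol
-/

set_option autoImplicit false
set_option linter.unusedSectionVars false

namespace Pool.Agent.Lib.MP_b197b4_ntK

open IsLocalRing Pool.Agent.K1

variable {k : Type} {F : Type} [Field k] [Field F] [Algebra k F]

theorem ord_zero' (V : ValuationSubring F) : ord V (0 : F) = 0 := by
  unfold ord
  rw [dif_neg]
  rintro ⟨n, p, u, hp, h⟩
  have hp0 : (p : F) ≠ 0 := fun h => hp.ne_zero (Subtype.ext h)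
  have hu0 : ((u : V) : F) ≠ 0 := fun h => u.ne_zero (Subtype.ext h)
  exact (mul_ne_zero (zpow_ne_zero _ hp0) hu0) h.symm

/-- The local symbol. -/
noncomputable def LL (M : Set (Subalgebra k F))
    (l : ∀ V : ValuationSubring F, ResidueField V → ℚ) (O : Subring F) (f g : O) : ℚ :=
  ∑ᶠ (V) (_ : V ∈ CurvesAt O), (ord V (f : F) : ℚ) * EE M l O V (res V (g : F))

section

variable {M : Set (Subalgebra k F)} {l : ∀ V : ValuationSubring F, ResidueField V → ℚ}
  {O : Subring F}

theorem LL_support (hO : Loc2 O) {f g : O} (hf : f ≠ 0) :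
    (CurvesAt O ∩ Function.support fun V => (ord V (f : F) : ℚ) *
      EE M l O V (res V (g : F))).Finite := by
  have hf0 : (f : F) ≠ 0 := fun h => hf (Subtype.ext h)
  refine (finite_ord hO hf0).subset ?_
  rintro V ⟨hV, h⟩
  refine ⟨hV, fun h1 => h ?_⟩
  change (ord V (f : F) : ℚ) * EE M l O V (res V (g : F)) = 0
  rw [h1]
  simp

/-- Coprime elements do not vanish on the same curve. -/
theorem cop_curve [IsLocalRing O] (hO : Loc2 O)
    (hdim : ∀ w ∈ maximalIdeal O, ∀ N : ℕ, ¬ maximalIdeal O ^ N ≤ Ideal.span {w}) {f g : O}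
    (h : Cop f g) {V : ValuationSubring F} (hV : V ∈ CurvesAt O) :
    V.valuation (f : F) = 1 ∨ V.valuation (g : F) = 1 := by
  by_contra hcon
  push Not at hcon
  obtain ⟨p, hp, hpV⟩ := CurvesAt.exists_prime hO hV
  have h1 : p ∣ f := (CurvesAt.dvd_iff hV hp hpV f).1 ((CurvesAt.lt_or_eq hV f).resolve_right hcon.1)
  have h2 : p ∣ g := (CurvesAt.dvd_iff hV hp hpV g).1 ((CurvesAt.lt_or_eq hV g).resolve_right hcon.2)
  obtain ⟨N, hN⟩ := h
  refine hdim p ((mem_maximalIdeal p).2 hp.not_isUnit) N (hN.trans ?_)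
  rw [Ideal.span_le]
  rintro y (rfl | rfl)
  · exact Ideal.mem_span_singleton.2 h1
  · exact Ideal.mem_span_singleton.2 h2

theorem isUnit_of_cop_zero [IsLocalRing O]
    (hdim : ∀ w ∈ maximalIdeal O, ∀ N : ℕ, ¬ maximalIdeal O ^ N ≤ Ideal.span {w}) {g : O}
    (h : Cop 0 g) : IsUnit g := by
  by_contra hg
  obtain ⟨N, hN⟩ := h
  refine hdim g ((mem_maximalIdeal g).2 hg) N (hN.trans ?_)
  rw [Ideal.span_le]
  rintro y (rfl | rfl)
  · exact Ideal.zero_mem _
  · exact Ideal.mem_span_singleton_self _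

section

variable (hl : Forms k (Curves M) l) (hk : KillsReg M l) (hsep : Sep M) (hca : CurveApprox M)
  (hO : O ∈ Points M) (hL : Loc2 O)

include hl hk hsep hO hL

theorem LL_unit_right {f g : O} (hg : IsUnit g) : LL M l O f g = 0 := by
  unfold LL
  apply finsum_mem_eq_zero_of_forall_eq_zero
  intro V hV
  obtain ⟨h1, h2⟩ := (curves_point hsep hO V).2 hV
  have h3 := CurvesAt.isUnit hV hg
  rw [EE_unit hl hk hsep h1 hO h2 ((res_ne_zero_iff (mem_of_val_one h3)).2 h3) ⟨g, hg, rfl⟩,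
    mul_zero]

omit hl hk hsep hO hL in
theorem LL_unit_left {f g : O} (hf : IsUnit f) : LL M l O f g = 0 := by
  unfold LL
  apply finsum_mem_eq_zero_of_forall_eq_zero
  intro V hV
  have h3 := CurvesAt.isUnit hV hf
  have hf0 : (f : F) ≠ 0 := ne_zero_of_val_one h3
  rw [(ord_eq_zero_iff hV.1 hf0).2 h3]
  simp

omit hl hk hsep hO in
theorem LL_mul_left {f f' g : O} (hf : f ≠ 0) (hf' : f' ≠ 0) :
    LL M l O (f * f') g = LL M l O f g + LL M l O f' g := by
  unfold LL
  rw [← finsum_mem_add_distrib' (LL_support hL hf) (LL_support hL hf')]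
  apply finsum_mem_congr rfl
  intro V hV
  have hf0 : (f : F) ≠ 0 := fun h => hf (Subtype.ext h)
  have hf0' : (f' : F) ≠ 0 := fun h => hf' (Subtype.ext h)
  have h1 : (((f * f' : O)) : F) = (f : F) * f' := rfl
  rw [h1, ord_mul hV.1 hf0 hf0']
  push_cast
  ring

include hca in
theorem LL_mul_right [IsLocalRing O]
    (hdim : ∀ w ∈ maximalIdeal O, ∀ N : ℕ, ¬ maximalIdeal O ^ N ≤ Ideal.span {w})
    {f g g' : O} (hf : f ≠ 0) (hg : Cop f g) (hg' : Cop f g') :
    LL M l O f (g * g') = LL M l O f g + LL M l O f g' := by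
  unfold LL
  rw [← finsum_mem_add_distrib' (LL_support hL hf) (LL_support hL hf)]
  apply finsum_mem_congr rfl
  intro V hV
  obtain ⟨h1, h2⟩ := (curves_point hsep hO V).2 hV
  have hf0 : (f : F) ≠ 0 := fun h => hf (Subtype.ext h)
  by_cases h3 : ord V (f : F) = 0
  · rw [h3]
    simp
  have h4 : V.valuation (f : F) ≠ 1 := fun h => h3 ((ord_eq_zero_iff hV.1 hf0).2 h)
  have h5 := (cop_curve hL hdim hg hV).resolve_left h4
  have h6 := (cop_curve hL hdim hg' hV).resolve_left h4
  have h7 : (((g * g' : O)) : F) = (g : F) * g' := rfl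
  rw [h7, res_mul (mem_of_val_one h5) (mem_of_val_one h6), EE_mul hl hk hsep hca h1 hO h2
    ((res_ne_zero_iff (mem_of_val_one h5)).2 h5) ((res_ne_zero_iff (mem_of_val_one h6)).2 h6)]
  ring

omit hl hk hsep hO in
theorem LL_add_right [IsLocalRing O] {f g e : O} : LL M l O f (g + f * e) = LL M l O f g := by
  unfold LL
  apply finsum_mem_congr rfl
  intro V hV
  by_cases hf : f = 0
  · rw [hf]
    have : ((0 : O) : F) = 0 := rfl
    rw [this, ord_zero']
    simp
  have hf0 : (f : F) ≠ 0 := fun h => hf (Subtype.ext h)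
  by_cases h3 : ord V (f : F) = 0
  · rw [h3]
    simp
  have h4 : V.valuation (f : F) < 1 :=
    (CurvesAt.lt_or_eq hV f).resolve_right fun h => h3 ((ord_eq_zero_iff hV.1 hf0).2 h)
  have h5 : (((g + f * e : O)) : F) = (g : F) + (f : F) * e := rfl
  have h6 : res V (f : F) = 0 := (res_eq_zero_iff (hV.2.1 f f.2)).2 h4
  rw [h5, res_add (hV.2.1 g g.2) (mul_mem (hV.2.1 f f.2) (hV.2.1 e e.2)),
    res_mul (hV.2.1 f f.2) (hV.2.1 e e.2), h6, zero_mul, add_zero]

include hca in
/-- The local symbol satisfies the axioms, up to approximation. -/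
theorem LL_locSym [IsLocalRing O]
    (hdim : ∀ w ∈ maximalIdeal O, ∀ N : ℕ, ¬ maximalIdeal O ^ N ≤ Ideal.span {w})
    (happ : ∀ f₁ f₂ g : O, f₁ ≠ 0 → f₂ ≠ 0 → Cop f₁ g → Cop f₂ g → ∀ N : ℕ, ∃ g',
      g' - g ∈ maximalIdeal O ^ N ∧ LL M l O f₁ g' = LL M l O g' f₁ ∧
      LL M l O f₂ g' = LL M l O g' f₂) : LocSym (LL M l O) where
  mul_left f f' g hf hf' := by
    by_cases h1 : f = 0
    · subst h1
      have hu := isUnit_of_cop_zero hdim hf
      rw [LL_unit_right hl hk hsep hO hL hu, LL_unit_right hl hk hsep hO hL hu,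
        LL_unit_right hl hk hsep hO hL hu, add_zero]
    by_cases h2 : f' = 0
    · subst h2
      have hu := isUnit_of_cop_zero hdim hf'
      rw [LL_unit_right hl hk hsep hO hL hu, LL_unit_right hl hk hsep hO hL hu,
        LL_unit_right hl hk hsep hO hL hu, add_zero]
    exact LL_mul_left hL h1 h2
  mul_right f g g' hg hg' := by
    by_cases h1 : f = 0
    · subst h1
      have hu := isUnit_of_cop_zero hdim hg
      have hu' := isUnit_of_cop_zero hdim hg'
      rw [LL_unit_right hl hk hsep hO hL hu, LL_unit_right hl hk hsep hO hL hu',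
        LL_unit_right hl hk hsep hO hL (hu.mul hu'), add_zero]
    exact LL_mul_right hl hk hsep hca hO hL hdim h1 hg hg'
  add_right f g e _ := LL_add_right hL
  unit_left f g hf := LL_unit_left hf
  unit_right f g hg := LL_unit_right hl hk hsep hO hL hg
  approx f₁ f₂ g h₁ h₂ N := by
    have key : ∀ f : O, Cop f g → f = 0 → ∀ g' : O, g' - g ∈ maximalIdeal O ^ (N + 1) →
        LL M l O f g' = LL M l O g' f := by
      rintro f hf rfl g' hg'
      have hu := isUnit_of_cop_zero hdim hf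
      have hu' : IsUnit g' := by
        by_contra hcon
        have h1 := (mem_maximalIdeal g').2 hcon
        have h2 := Ideal.pow_le_self (Nat.succ_ne_zero N) hg'
        have h3 := Ideal.sub_mem _ h1 h2
        rw [sub_sub_cancel] at h3
        exact (mem_maximalIdeal g).1 h3 hu
      rw [LL_unit_right hl hk hsep hO hL hu', LL_unit_left hu']
    have hle : maximalIdeal O ^ (N + 1) ≤ maximalIdeal O ^ N := Ideal.pow_le_pow_right (Nat.le_succ N)
    by_cases h1 : f₁ = 0
    · by_cases h2 : f₂ = 0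
      · exact ⟨g, by simp, key f₁ h₁ h1 g (by simp), key f₂ h₂ h2 g (by simp)⟩
      · obtain ⟨g', h3, h4, _⟩ := happ f₂ f₂ g h2 h2 h₂ h₂ (N + 1)
        exact ⟨g', hle h3, key f₁ h₁ h1 g' h3, h4⟩
    · by_cases h2 : f₂ = 0
      · obtain ⟨g', h3, h4, _⟩ := happ f₁ f₁ g h1 h1 h₁ h₁ (N + 1)
        exact ⟨g', hle h3, h4, key f₂ h₂ h2 g' h3⟩
      · exact happ f₁ f₂ g h1 h2 h₁ h₂ N

end

/-- Relatively prime elements are coprime in the sense of the local theorem. -/
theorem cop_of_prime [IsLocalRing O] [IsNoetherianRing O] {x z : O}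
    (hm : maximalIdeal O = Ideal.span {x, z}) {p a : O} (hp : Prime p) (ha : ¬ p ∣ a) :
    Cop p a := by
  have h1 : maximalIdeal O ≤ (Ideal.span {p, a}).radical := by
    rw [Ideal.radical_eq_sInf]
    apply le_sInf
    rintro Q ⟨hQ, hQp⟩
    have hpQ : p ∈ Q := hQ (Ideal.subset_span (by simp))
    have haQ : a ∈ Q := hQ (Ideal.subset_span (by simp))
    by_contra hne
    have hne' : Q ≠ maximalIdeal O := fun h => hne (le_of_eq h.symm)
    obtain ⟨π, rfl⟩ := prime_principal hm Q hne'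
    obtain ⟨c, hc⟩ := Ideal.mem_span_singleton.1 hpQ
    obtain ⟨d, hd⟩ := Ideal.mem_span_singleton.1 haQ
    rcases hp.irreducible.isUnit_or_isUnit hc with h | h
    · exact hQp.ne_top (Ideal.span_singleton_eq_top.2 h)
    · apply ha
      rw [hd, hc]
      exact mul_dvd_mul_left π (h.dvd)
  obtain ⟨N, hN⟩ := Ideal.exists_radical_pow_le_of_fg (Ideal.span {p, a})
    (IsNoetherian.noetherian _)
  exact ⟨N, (Ideal.pow_right_mono h1 N).trans hN⟩

theorem LL_prime (hL : Loc2 O) {p : O} (hp : Prime p) {V : ValuationSubring F}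
    (hV : V ∈ CurvesAt O) (hpV : V.valuation (p : F) < 1) (g : O) :
    LL M l O p g = EE M l O V (res V (g : F)) := by
  have hp0 : (p : F) ≠ 0 := fun h => hp.ne_zero (Subtype.ext h)
  have h1 : LL M l O p g = ∑ᶠ (V') (_ : V' ∈ ({V} : Set (ValuationSubring F))),
      (ord V' (p : F) : ℚ) * EE M l O V' (res V' (g : F)) := by
    unfold LL
    apply finsum_mem_inter_support_eq
    ext V'
    constructor
    · rintro ⟨hV', h⟩
      refine ⟨?_, h⟩
      rcases CurvesAt.lt_or_eq hV' p with h2 | h2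
      · exact CurvesAt.unique hV' hV hp h2 hpV
      · exfalso
        apply h
        change (ord V' (p : F) : ℚ) * EE M l O V' (res V' (g : F)) = 0
        rw [(ord_eq_zero_iff hV'.1 hp0).2 h2]
        simp
    · rintro ⟨hV', h⟩
      refine ⟨?_, h⟩
      rw [hV']
      exact hV
  rw [h1, finsum_mem_singleton, ord_prime hp hV hpV]
  simp

/-- If the local symbol is zero, then all parts at the point are zero. -/
theorem EE_eq_zero [IsLocalRing O] (hl : Forms k (Curves M) l) (hk : KillsReg M l) (hsep : Sep M)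
    (hca : CurveApprox M) (hO : O ∈ Points M) (hL : Loc2 O) {x z : O}
    (hm : maximalIdeal O = Ideal.span {x, z})
    (h0 : ∀ f g : O, Cop f g → LL M l O f g = 0) {V : ValuationSubring F} (hV : V ∈ Curves M)
    (hOV : (O : Set F) ⊆ V) {u : ResidueField V} (hu : u ≠ 0) : EE M l O V u = 0 := by
  have := hL.noeth
  have hVO := (curves_point hsep hO V).1 ⟨hV, hOV⟩
  obtain ⟨p, hp, hpV⟩ := CurvesAt.exists_prime hL hVO
  have key : ∀ a : O, V.valuation (a : F) = 1 → EE M l O V (res V (a : F)) = 0 := by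
    intro a ha
    rw [← LL_prime hL hp hVO hpV]
    exact h0 p a (cop_of_prime hm hp ((CurvesAt.unit_iff hVO hp hpV a).1 ha))
  obtain ⟨n, a, s, ha, hs, hc, _⟩ := hasLenO_exists hVO hu
  rw [hc, EE_div hl hk hsep hca hV hO hOV ((res_ne_zero_iff (mem_of_val_one ha)).2 ha)
    ((res_ne_zero_iff (mem_of_val_one hs)).2 hs), key a ha, key s hs, sub_zero]

/-- If all parts are zero, then the form is zero. -/
theorem form_eq_zero (hl : Forms k (Curves M) l) (hk : KillsReg M l) (hsep : Sep M)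
    (hca : CurveApprox M) (hsing : SingFin M)
    (h0 : ∀ O ∈ Points M, ∀ V ∈ Curves M, (O : Set F) ⊆ V → ∀ u : ResidueField V, u ≠ 0 →
      EE M l O V u = 0) {V : ValuationSubring F} (hV : V ∈ Curves M) {u : ResidueField V}
    (hu : u ≠ 0) : l V u = 0 := by
  rw [sum_EE hl hk hsep hca hV (S := (hsing V hV).toFinset)
    (fun O => by rw [Set.Finite.mem_toFinset]; rfl) hu]
  apply Finset.sum_eq_zero
  intro O hO
  rw [Set.Finite.mem_toFinset] at hO
  exact h0 O hO.1 V hV hO.2.1 u hu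

end

end Pool.Agent.Lib.MP_b197b4_ntK
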